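import Pool.Agent.H93S.Locb2

/-!
# Project SC: valuation rings above branch points
-/

set_option autoImplicit false
set_option linter.all false

open Polynomial FF

namespace Pool.Agent.H93S

open Pool.Agent.Y157.PS Pool.Agent.Y948.PS Pool.Agent.Y31.PS Pool.Agent.R925.Q Pool.Agent.R925.X
  Pool.Agent.R925.L

section

variable {κ Ω : Type} [Field κ] [Field Ω] [Algebra κ Ω] {M : IntermediateField κ Ω}

theorem abv_def {x : Ω} (hx : x ∈ M) {B : Finset κ} {W : ValuationSubring M} :
    Abv x B W ↔ (∃ b ∈ B, (⟨x, hx⟩ : M) - algebraMap κ M b ∈ W.nonunits) ∨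
      (⟨x, hx⟩ : M)⁻¹ ∈ W.nonunits := by
  constructor
  · rintro ⟨z, hz, ⟨b, hb, h⟩ | h⟩
    · left
      have h1 : z = (⟨x, hx⟩ : M) - algebraMap κ M b := Subtype.ext h
      rw [h1] at hz
      exact ⟨b, hb, hz⟩
    · right
      have h1 : z = (⟨x, hx⟩ : M)⁻¹ := Subtype.ext h
      rwa [h1] at hz
  · rintro (⟨b, hb, h⟩ | h)
    · exact ⟨_, h, Or.inl ⟨b, hb, rfl⟩⟩
    · exact ⟨_, h, Or.inr rfl⟩

/-- above the branch points, in the coordinate `X` -/
def AbvP (X : M) (P : Finset κ) (Inf : Prop) (W : ValuationSubring M) : Prop :=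
  (∃ e ∈ P, X - algebraMap κ M e ∈ W.nonunits) ∨ (Inf ∧ X⁻¹ ∈ W.nonunits)

theorem const_isU {W : ValuationSubring M} (hW : ∀ c : κ, algebraMap κ M c ∈ W) {c : κ}
    (hc : c ≠ 0) : IsU W (algebraMap κ M c) :=
  ⟨(_root_.map_ne_zero _).2 hc, hW c, by rw [← map_inv₀]; exact hW _⟩

theorem isU_add_non {W : ValuationSubring M} {u v : M} (hu : IsU W u) (hv : v ∈ W.nonunits) :
    IsU W (u + v) := by
  refine isU_of_not_nonunit (add_mem hu.2.1 (non_mem hv)) fun h => ?_
  have h1 := non_sub h hv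
  rw [add_sub_cancel_right] at h1
  exact hu.not_nonunit h1

theorem abv_iff {x x' : Ω} (hx : x ∈ M) (hx' : x' ∈ M)
    (htr : ∀ e : κ, x - algebraMap κ Ω e ≠ 0) {P B : Finset κ} {Inf : Prop}
    (hc : (Inf ∧ x' = x ∧ B = P) ∨ (¬ Inf ∧ ∃ e0 ∈ P, x' = (x - algebraMap κ Ω e0)⁻¹ ∧
      ∀ b, b ∈ B ↔ ∃ e ∈ P, e ≠ e0 ∧ b = (e - e0)⁻¹))
    {W : ValuationSubring M} (hW : ∀ c : κ, algebraMap κ M c ∈ W) :
    Abv x' B W ↔ AbvP ⟨x, hx⟩ P Inf W := by
  rw [abv_def hx']
  rcases hc with ⟨hI, rfl, rfl⟩ | ⟨hI, e0, he0, hxe, hB⟩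
  · unfold AbvP
    constructor
    · rintro (h | h)
      · exact Or.inl h
      · exact Or.inr ⟨hI, h⟩
    · rintro (h | ⟨-, h⟩)
      · exact Or.inl h
      · exact Or.inr h
  · set X : M := ⟨x, hx⟩ with hX
    have hXe : ∀ e : κ, X - algebraMap κ M e ≠ 0 := by
      intro e h
      exact htr e (congrArg Subtype.val h)
    have hX' : (⟨x', hx'⟩ : M) = (X - algebraMap κ M e0)⁻¹ := Subtype.ext hxe
    rw [hX', inv_inv]
    unfold AbvP
    constructor
    · rintro (⟨b, hb, h⟩ | h)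
      · obtain ⟨e, he, hne, rfl⟩ := (hB b).1 hb
        left
        refine ⟨e, he, ?_⟩
        have hee : e - e0 ≠ 0 := sub_ne_zero.2 hne
        have h1 : IsU W (X - algebraMap κ M e0)⁻¹ := by
          have h2 := isU_add_non (const_isU hW (inv_ne_zero hee)) h
          rwa [add_sub_cancel] at h2
        have h2 : X - algebraMap κ M e = (-(algebraMap κ M (e - e0)) * (X - algebraMap κ M e0)) *
            ((X - algebraMap κ M e0)⁻¹ - algebraMap κ M (e - e0)⁻¹) := by
          have h3 := hXe e0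
          have h4 : algebraMap κ M (e - e0) ≠ 0 := (_root_.map_ne_zero _).2 hee
          rw [map_inv₀]
          field_simp
          rw [map_sub]
          ring
        rw [h2]
        refine non_mul (mul_mem (neg_mem (hW _)) ?_) h
        have h3 := h1.inv.2.1
        rwa [inv_inv] at h3
      · exact Or.inl ⟨e0, he0, h⟩
    · rintro (⟨e, he, h⟩ | ⟨h, -⟩)
      · by_cases hne : e = e0
        · right
          rwa [← hne]
        · left
          refine ⟨(e - e0)⁻¹, (hB _).2 ⟨e, he, hne, rfl⟩, ?_⟩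
          have hee : e - e0 ≠ 0 := sub_ne_zero.2 hne
          have h1 : IsU W (X - algebraMap κ M e0) := by
            have h2 := isU_add_non (const_isU hW hee) h
            have h3 : algebraMap κ M (e - e0) + (X - algebraMap κ M e) =
                X - algebraMap κ M e0 := by
              rw [map_sub]; ring
            rwa [h3] at h2
          have h2 : (X - algebraMap κ M e0)⁻¹ - algebraMap κ M (e - e0)⁻¹ =
              (-(X - algebraMap κ M e0)⁻¹ * algebraMap κ M (e - e0)⁻¹) *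
                (X - algebraMap κ M e) := by
            have h3 := hXe e0
            have h4 : algebraMap κ M (e - e0) ≠ 0 := (_root_.map_ne_zero _).2 hee
            rw [map_inv₀]
            field_simp
            rw [map_sub]
            ring
          rw [h2]
          exact non_mul (mul_mem (neg_mem h1.inv.2.1) (hW _)) h
      · exact absurd h hI

/-- stability under semilinear automorphisms which fix `X` and permute `P` -/
theorem AbvP.comap {X : M} {P : Finset κ} {Inf : Prop} {W : ValuationSubring M}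
    (h : AbvP X P Inf W) (g : M ≃+* M) (g₀ : κ ≃+* κ)
    (hg : ∀ c, g (algebraMap κ M c) = algebraMap κ M (g₀ c)) (hX : g X = X)
    (hP : ∀ e ∈ P, g₀.symm e ∈ P) : AbvP X P Inf (W.comap (g : M →+* M)) := by
  rcases h with ⟨e, he, h⟩ | ⟨hI, h⟩
  · left
    refine ⟨g₀.symm e, hP e he, ?_⟩
    rw [comap_non, map_sub, hX, hg, g₀.apply_symm_apply]
    exact h
  · right
    refine ⟨hI, ?_⟩
    rw [comap_non, map_inv₀, hX]
    exact h

end

/-- the elements of `Ω` which come from elements of `M` fixed by an automorphism -/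
def fixOne {κ Ω : Type} [Field κ] [Field Ω] [Algebra κ Ω] {M : IntermediateField κ Ω}
    (g : M ≃+* M) : Subfield Ω where
  carrier := {z | ∃ m : M, (m : Ω) = z ∧ g m = m}
  mul_mem' := by
    rintro _ _ ⟨m, rfl, hm⟩ ⟨m', rfl, hm'⟩
    exact ⟨m * m', rfl, by rw [map_mul, hm, hm']⟩
  one_mem' := ⟨1, rfl, map_one g⟩
  add_mem' := by
    rintro _ _ ⟨m, rfl, hm⟩ ⟨m', rfl, hm'⟩
    exact ⟨m + m', rfl, by rw [map_add, hm, hm']⟩
  zero_mem' := ⟨0, rfl, map_zero g⟩
  neg_mem' := by
    rintro _ ⟨m, rfl, hm⟩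
    exact ⟨-m, rfl, by rw [map_neg, hm]⟩
  inv_mem' := by
    rintro _ ⟨m, rfl, hm⟩
    exact ⟨m⁻¹, rfl, by rw [map_inv₀, hm]⟩

end Pool.Agent.H93S
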