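import Pool.Agent.H93S.Stm

/-!
# Project SC: the branch points in the coordinate `T_b` (piece CO)
-/

set_option autoImplicit false
set_option linter.all false

open Polynomial

namespace Pool.Agent.H93S

open Classical in
/-- the `ℓ`-th roots of `a` -/
noncomputable def rts {κ : Type} [Field κ] (ℓ : ℕ) (a : κ) : Finset κ :=
  (X ^ ℓ - C a : κ[X]).roots.toFinset

theorem mem_rts {κ : Type} [Field κ] {ℓ : ℕ} (hℓ : 0 < ℓ) (a θ : κ) :
    θ ∈ rts ℓ a ↔ θ ^ ℓ = a := by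
  classical
  unfold rts
  rw [Multiset.mem_toFinset, mem_roots (X_pow_sub_C_ne_zero hℓ a), IsRoot, eval_sub, eval_pow,
    eval_X, eval_C, sub_eq_zero]

theorem nodup_rts {κ : Type} [Field κ] [CharZero κ] {ℓ : ℕ} (hℓ : 0 < ℓ) {a : κ} (ha : a ≠ 0) :
    (X ^ ℓ - C a : κ[X]).roots.Nodup :=
  nodup_roots (separable_X_pow_sub_C a (Nat.cast_ne_zero.2 hℓ.ne') ha)

theorem card_rts {κ : Type} [Field κ] [CharZero κ] [IsAlgClosed κ] {ℓ : ℕ} (hℓ : 0 < ℓ) {a : κ}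
    (ha : a ≠ 0) : (rts ℓ a).card = ℓ := by
  classical
  unfold rts
  rw [Multiset.toFinset_card_of_nodup (nodup_rts hℓ ha)]
  have h1 := (splits_iff_card_roots (f := (X ^ ℓ - C a : κ[X]))).1 (IsAlgClosed.splits _)
  rw [h1, natDegree_X_pow_sub_C]

theorem prod_rts {κ : Type} [Field κ] [CharZero κ] [IsAlgClosed κ] {ℓ : ℕ} (hℓ : 0 < ℓ) {a : κ}
    (ha : a ≠ 0) : ∏ θ ∈ rts ℓ a, (X - C θ : κ[X]) = X ^ ℓ - C a := by
  classical
  have h1 := (IsAlgClosed.splits (X ^ ℓ - C a : κ[X])).eq_prod_roots_of_monic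
    (monic_X_pow_sub_C a hℓ.ne')
  conv_rhs => rw [h1]
  unfold rts
  rw [Finset.prod_eq_multiset_prod, Multiset.toFinset_val, (nodup_rts hℓ ha).dedup]

theorem co : S_CO := by
  classical
  intro ℓ _ κ _ _ _ B b hb
  have hℓ : 0 < ℓ := (Fact.out : ℓ.Prime).pos
  have hmem : ∀ θ, θ ∈ (B.erase b).biUnion (fun e => rts ℓ (e - b)) ↔
      ∃ e ∈ B, e ≠ b ∧ θ ^ ℓ = e - b := by
    intro θ
    rw [Finset.mem_biUnion]
    constructor
    · rintro ⟨e, he, h⟩
      rw [Finset.mem_erase] at he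
      exact ⟨e, he.2, he.1, (mem_rts hℓ _ _).1 h⟩
    · rintro ⟨e, he, h1, h2⟩
      exact ⟨e, Finset.mem_erase.2 ⟨h1, he⟩, (mem_rts hℓ _ _).2 h2⟩
  have hdis : (↑(B.erase b) : Set κ).PairwiseDisjoint (fun e => rts ℓ (e - b)) := by
    intro e _ e' _ hne
    rw [Function.onFun, Finset.disjoint_left]
    intro θ h1 h2
    rw [mem_rts hℓ] at h1 h2
    exact hne (sub_left_injective (h1.symm.trans h2))
  refine ⟨(B.erase b).biUnion (fun e => rts ℓ (e - b)), ?_, ?_, hmem, ?_⟩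
  · rw [Finset.card_biUnion hdis]
    have h1 : ∀ e ∈ B.erase b, (rts ℓ (e - b)).card = ℓ := fun e he =>
      card_rts hℓ (sub_ne_zero.2 (Finset.mem_erase.1 he).1)
    rw [Finset.sum_congr rfl h1, Finset.sum_const, Finset.card_erase_of_mem hb, smul_eq_mul,
      mul_comm]
  · rw [hmem]
    rintro ⟨e, _, h1, h2⟩
    rw [zero_pow hℓ.ne'] at h2
    exact h1 (sub_eq_zero.1 h2.symm)
  · intro Ω _ _ T x Y hT hb0 hY
    have h1 : Y = ∏ e ∈ B.erase b, T e := by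
      rw [← Finset.mul_prod_erase B T hb, mul_comm] at hY
      exact mul_left_cancel₀ hb0 hY
    rw [h1, ← Finset.prod_pow, Finset.prod_biUnion hdis]
    refine Finset.prod_congr rfl fun e he => ?_
    have h2 := congrArg (aeval (T b)) (prod_rts (ℓ := ℓ) hℓ (sub_ne_zero.2 (Finset.mem_erase.1 he).1))
    rw [map_prod, map_sub, map_pow, aeval_X, aeval_C, hT b hb, map_sub] at h2
    have h3 : ∏ θ ∈ rts ℓ (e - b), (T b - algebraMap κ Ω θ) =
        ∏ θ ∈ rts ℓ (e - b), aeval (T b) (X - C θ : κ[X]) :=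
      Finset.prod_congr rfl fun θ _ => by rw [map_sub, aeval_X, aeval_C]
    rw [h3, h2, hT e (Finset.mem_erase.1 he).2]
    ring

end Pool.Agent.H93S
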