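import Mathlib

/-! Compression of a Hadamard matrix to a smaller orthogonal matrix. -/

set_option autoImplicit false

namespace Pool.Agent.H93S

open Matrix Finset

/-- the algebraic identity behind the compression -/
theorem comp_orth {n r : Type} [Fintype n] [Fintype r] [DecidableEq n] [DecidableEq r]
    (A : Matrix n n ℝ) (B : Matrix n r ℝ) (C : Matrix r n ℝ) (E : Matrix r r ℝ) (s : ℝ)
    (h1 : A * Aᵀ + B * Bᵀ = (s ^ 2) • (1 : Matrix n n ℝ))
    (h2 : A * Cᵀ + B * Eᵀ = 0)
    (h4 : C * Cᵀ + E * Eᵀ = (s ^ 2) • (1 : Matrix r r ℝ))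
    (Y : Matrix n r ℝ) (hY : s • Y = B + Y * E) :
    (A + Y * C) * (A + Y * C)ᵀ = (s ^ 2) • (1 : Matrix n n ℝ) := by
  have h3 : C * Aᵀ + E * Bᵀ = 0 := by
    have := congrArg Matrix.transpose h2
    simpa [Matrix.transpose_add, Matrix.transpose_mul] using this
  have e2 : A * Cᵀ = - (B * Eᵀ) := eq_neg_of_add_eq_zero_left h2
  have e3 : C * Aᵀ = - (E * Bᵀ) := eq_neg_of_add_eq_zero_left h3
  have e1 : A * Aᵀ = (s ^ 2) • (1 : Matrix n n ℝ) - B * Bᵀ := eq_sub_of_add_eq h1
  have e4 : C * Cᵀ = (s ^ 2) • (1 : Matrix r r ℝ) - E * Eᵀ := eq_sub_of_add_eq h4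
  have key : (s ^ 2) • (Y * Yᵀ) = B * Bᵀ + B * (Eᵀ * Yᵀ) + (Y * (E * Bᵀ)) + Y * (E * Eᵀ * Yᵀ) := by
    have h5 : (s • Y) * (s • Y)ᵀ = (B + Y * E) * (B + Y * E)ᵀ := by rw [hY]
    rw [Matrix.transpose_smul, Matrix.smul_mul, Matrix.mul_smul, smul_smul, ← sq] at h5
    rw [h5]
    simp only [Matrix.transpose_add, Matrix.transpose_mul, Matrix.add_mul, Matrix.mul_add,
      Matrix.mul_assoc]
    abel
  have h6 : (A + Y * C) * (A + Y * C)ᵀ =
      A * Aᵀ + (A * Cᵀ) * Yᵀ + Y * (C * Aᵀ) + Y * (C * Cᵀ * Yᵀ) := by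
    simp only [Matrix.transpose_add, Matrix.transpose_mul, Matrix.add_mul, Matrix.mul_add,
      Matrix.mul_assoc]
    abel
  rw [h6, e1, e2, e3, e4]
  simp only [Matrix.neg_mul, Matrix.mul_neg, Matrix.sub_mul, Matrix.smul_mul, Matrix.one_mul,
    Matrix.mul_sub, Matrix.mul_smul, Matrix.mul_assoc] at key ⊢
  rw [key]
  abel

/-- the solution `Y` of `s Y = B + Y E`, with its bound -/
theorem exists_Y {n r : Type} [Fintype n] [Fintype r] [DecidableEq n] [DecidableEq r]
    (B : Matrix n r ℝ) (E : Matrix r r ℝ) (s : ℝ) (hs : (Fintype.card r : ℝ) < s)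
    (hB : ∀ i a, |B i a| ≤ 1) (hE : ∀ a b, |E a b| ≤ 1) :
    ∃ Y : Matrix n r ℝ, s • Y = B + Y * E ∧
      ∀ i a, |Y i a| ≤ 1 / (s - Fintype.card r) := by
  classical
  have hs0 : 0 < s := lt_of_le_of_lt (Nat.cast_nonneg _) hs
  set K : Matrix r r ℝ := s • (1 : Matrix r r ℝ) - E with hK
  have hdet : K.det ≠ 0 := by
    apply det_ne_zero_of_sum_row_lt_diag
    intro k
    have h2 : K k k = s - E k k := by simp [hK]
    have h3 : ∀ j ∈ Finset.univ.erase k, ‖K k j‖ ≤ 1 := by
      intro j hj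
      have hne : k ≠ j := (Finset.ne_of_mem_erase hj).symm
      have : K k j = - E k j := by simp [hK, Matrix.one_apply_ne hne]
      rw [this, norm_neg, Real.norm_eq_abs]
      exact hE _ _
    have h4 : ∑ j ∈ Finset.univ.erase k, ‖K k j‖ ≤ (Fintype.card r : ℝ) - 1 := by
      calc ∑ j ∈ Finset.univ.erase k, ‖K k j‖ ≤ ∑ j ∈ Finset.univ.erase k, (1 : ℝ) :=
            Finset.sum_le_sum h3
        _ = (Fintype.card r : ℝ) - 1 := by
            rw [Finset.sum_const, Finset.card_erase_of_mem (Finset.mem_univ _), Finset.card_univ,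
              nsmul_eq_mul, mul_one]
            have : 1 ≤ Fintype.card r := Fintype.card_pos_iff.2 ⟨k⟩
            push_cast [Nat.cast_sub this]
            ring
    have h5 : s - 1 ≤ ‖K k k‖ := by
      rw [h2, Real.norm_eq_abs]
      have := (abs_le.1 (hE k k)).2
      exact le_trans (by linarith) (le_abs_self _)
    linarith
  have hunit : IsUnit K.det := isUnit_iff_ne_zero.2 hdet
  refine ⟨B * K⁻¹, ?_, ?_⟩
  · have h1 : (B * K⁻¹) * K = B := by
      rw [Matrix.mul_assoc, Matrix.nonsing_inv_mul _ hunit, Matrix.mul_one]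
    have h2 : (B * K⁻¹) * K = s • (B * K⁻¹) - (B * K⁻¹) * E := by
      conv_lhs => rw [hK]
      rw [Matrix.mul_sub, Matrix.mul_smul, Matrix.mul_one]
    rw [h1] at h2
    rw [eq_comm, ← eq_sub_iff_add_eq]
    exact h2
  · have h1 : (B * K⁻¹) * K = B := by
      rw [Matrix.mul_assoc, Matrix.nonsing_inv_mul _ hunit, Matrix.mul_one]
    have h2 : (B * K⁻¹) * K = s • (B * K⁻¹) - (B * K⁻¹) * E := by
      conv_lhs => rw [hK]
      rw [Matrix.mul_sub, Matrix.mul_smul, Matrix.mul_one]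
    rw [h1] at h2
    generalize hY : B * K⁻¹ = Y at h2 ⊢
    intro i a
    -- the largest entry in row `i`
    obtain ⟨b, -, hb⟩ := Finset.exists_max_image (Finset.univ : Finset r) (fun b => |Y i b|)
      ⟨a, Finset.mem_univ _⟩
    have h3 : s * Y i b = B i b + ∑ c, Y i c * E c b := by
      have := congrFun (congrFun h2 i) b
      simp only [Matrix.sub_apply, Matrix.smul_apply, smul_eq_mul, Matrix.mul_apply] at this
      linarith
    have h4 : s * |Y i b| ≤ 1 + Fintype.card r * |Y i b| := by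
      have e1 : s * |Y i b| = |s * Y i b| := by rw [abs_mul, abs_of_pos hs0]
      rw [e1, h3]
      refine (abs_add_le _ _).trans (add_le_add (hB _ _) ?_)
      refine (Finset.abs_sum_le_sum_abs _ _).trans ?_
      calc ∑ c, |Y i c * E c b| ≤ ∑ _c : r, |Y i b| := by
            apply Finset.sum_le_sum
            intro c _
            rw [abs_mul]
            calc |Y i c| * |E c b| ≤ |Y i b| * 1 :=
                  mul_le_mul (hb c (Finset.mem_univ _)) (hE _ _) (abs_nonneg _) (abs_nonneg _)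
              _ = |Y i b| := mul_one _
        _ = Fintype.card r * |Y i b| := by
            rw [Finset.sum_const, Finset.card_univ, nsmul_eq_mul]
    have h5 : |Y i b| ≤ 1 / (s - Fintype.card r) := by
      rw [le_div_iff₀ (by linarith)]
      linarith
    exact (hb a (Finset.mem_univ _)).trans h5

end Pool.Agent.H93S
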