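import Pool.Agent.H93S.Abv

/-!
# Project SC: a good coordinate from the cross-ratios of the branch points
-/

set_option autoImplicit false
set_option linter.all false

open Polynomial FF

namespace Pool.Agent.H93S

open Pool.Agent.Y157.PS Pool.Agent.Y948.PS Pool.Agent.Y31.PS Pool.Agent.R925.Q Pool.Agent.R925.X
  Pool.Agent.R925.L

theorem mob_sub {κ : Type} [Field κ] {a b e : κ} (ha : a ≠ e) (hb : b ≠ e) :
    (a - e)⁻¹ - (b - e)⁻¹ = (b - a) * ((a - e)⁻¹ * (b - e)⁻¹) := by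
  have h1 : a - e ≠ 0 := sub_ne_zero.2 ha
  have h2 : b - e ≠ 0 := sub_ne_zero.2 hb
  field_simp
  ring

section

variable {κ Ω : Type} [Field κ] [Field Ω] [Algebra κ Ω]

/-- the affine change of coordinates -/
theorem coord2 (V : ValuationSubring κ) {x : Ω} (hx : Transcendental κ x) (P : Finset κ)
    (h2 : 2 ≤ P.card)
    (hcr : ∀ a ∈ P, ∀ b ∈ P, ∀ c ∈ P, a ≠ b → a ≠ c → b ≠ c → (a - c) / (b - c) ∈ V) :
    ∃ (x' : Ω) (B : Finset κ), Transcendental κ x' ∧
      (∀ S : IntermediateField κ Ω, x ∈ S ↔ x' ∈ S) ∧ B.card = P.card ∧ Good V B ∧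
      (∀ S : Subfield κ, (∀ e ∈ P, e ∈ S) → ∀ b ∈ B, b ∈ S) ∧
      (∀ S : Subfield Ω, x ∈ S → (∀ e ∈ P, algebraMap κ Ω e ∈ S) → x' ∈ S) ∧
      ∀ (M : IntermediateField κ Ω), x ∈ M → x' ∈ M → ∀ W : ValuationSubring M,
        (∀ c : κ, algebraMap κ M c ∈ W) → (Abv x' B W ↔ Abv x P W) := by
  classical
  obtain ⟨b0, hb0, b1, hb1, hne⟩ := Finset.one_lt_card.1 (lt_of_lt_of_le one_lt_two h2)
  have hd : b1 - b0 ≠ 0 := sub_ne_zero.2 (Ne.symm hne)
  obtain ⟨δ, hδ⟩ : ∃ δ, δ = b1 - b0 := ⟨_, rfl⟩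
  rw [← hδ] at hd
  have hdΩ : algebraMap κ Ω δ ≠ 0 := (_root_.map_ne_zero _).2 hd
  obtain ⟨φ, hφ⟩ : ∃ φ : κ → κ, ∀ e, φ e = (e - b0) / δ := ⟨_, fun _ => rfl⟩
  have hφi : Function.Injective φ := by
    intro a b h
    rw [hφ, hφ, div_left_inj' hd] at h
    exact sub_left_injective h
  obtain ⟨x', hx'⟩ : ∃ x' : Ω, x' = (x - algebraMap κ Ω b0) / algebraMap κ Ω δ := ⟨_, rfl⟩
  have hxx' : x = x' * algebraMap κ Ω δ + algebraMap κ Ω b0 := by
    rw [hx', div_mul_cancel₀ _ hdΩ, sub_add_cancel]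
  have hU : ∀ a ∈ P, ∀ b ∈ P, ∀ c ∈ P, a ≠ c → b ≠ c → IsU V ((a - c) / (b - c)) := by
    intro a ha b hb c hc h1 h2
    by_cases hab : a = b
    · subst hab
      rw [div_self (sub_ne_zero.2 h1)]
      exact isU_one
    refine ⟨div_ne_zero (sub_ne_zero.2 h1) (sub_ne_zero.2 h2), hcr a ha b hb c hc hab h1 h2, ?_⟩
    rw [inv_div]
    exact hcr b hb a ha c hc (Ne.symm hab) h2 h1
  -- differences
  have hUd : ∀ a ∈ P, ∀ c ∈ P, a ≠ c → IsU V ((a - c) / δ) := by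
    intro a ha c hc hac
    by_cases hc0 : c = b0
    · rw [hc0, hδ]
      exact hU a ha b1 hb1 b0 hb0 (hc0 ▸ hac) (Ne.symm hne)
    · have h1 := hU a ha b0 hb0 c hc hac (Ne.symm hc0)
      have h2 := hU c hc b1 hb1 b0 hb0 hc0 (Ne.symm hne)
      have h3 := (h1.mul h2).mul (⟨neg_ne_zero.2 one_ne_zero, neg_mem (one_mem V), by
        rw [inv_neg, inv_one]; exact neg_mem (one_mem V)⟩ : IsU V (-1))
      have h4 : b0 - c ≠ 0 := sub_ne_zero.2 (Ne.symm hc0)
      have h5 : (a - c) / (b0 - c) * ((c - b0) / (b1 - b0)) * -1 = (a - c) / δ := by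
        rw [← hδ]
        field_simp
        ring
      rwa [h5] at h3
  refine ⟨x', P.image φ, ?_, fun S => ⟨fun h => ?_, fun h => ?_⟩, ?_, ?_, ?_, ?_, ?_⟩
  · intro h
    apply hx
    rw [hxx']
    exact (h.mul (isAlgebraic_algebraMap _)).add (isAlgebraic_algebraMap _)
  · rw [hx']
    exact div_mem (sub_mem h (S.algebraMap_mem _)) (S.algebraMap_mem _)
  · rw [hxx']
    exact add_mem (mul_mem h (S.algebraMap_mem _)) (S.algebraMap_mem _)
  · exact Finset.card_image_of_injective _ hφi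
  · refine ⟨fun b hb => ?_, fun b hb b' hb' hbb => ?_⟩
    · obtain ⟨e, he, rfl⟩ := Finset.mem_image.1 hb
      rw [hφ]
      by_cases h : e = b0
      · rw [h, sub_self, zero_div]
        exact zero_mem V
      · exact (hUd e he b0 hb0 h).2.1
    · obtain ⟨e, he, rfl⟩ := Finset.mem_image.1 hb
      obtain ⟨e', he', rfl⟩ := Finset.mem_image.1 hb'
      have h1 : φ e - φ e' = (e - e') / δ := by
        rw [hφ, hφ]
        ring
      rw [h1]
      exact hUd e he e' he' fun h => hbb (by rw [h])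
  · intro S hS b hb
    obtain ⟨e, he, rfl⟩ := Finset.mem_image.1 hb
    rw [hφ, hδ]
    exact div_mem (sub_mem (hS e he) (hS b0 hb0)) (sub_mem (hS b1 hb1) (hS b0 hb0))
  · intro S hxS hS
    rw [hx', hδ, map_sub]
    exact div_mem (sub_mem hxS (hS b0 hb0)) (sub_mem (hS b1 hb1) (hS b0 hb0))
  · intro M hxM hx'M W hW
    rw [abv_def hx'M, abv_def hxM]
    have hdM : algebraMap κ M δ ≠ 0 := (_root_.map_ne_zero _).2 hd
    have hm' : (⟨x', hx'M⟩ : M) = (⟨x, hxM⟩ - algebraMap κ M b0) / algebraMap κ M δ :=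
      Subtype.ext hx'
    have hm : (⟨x, hxM⟩ : M) = ⟨x', hx'M⟩ * algebraMap κ M δ + algebraMap κ M b0 :=
      Subtype.ext hxx'
    have h0 : ∀ e : κ, (⟨x, hxM⟩ : M) - algebraMap κ M e ≠ 0 := by
      intro e h
      apply hx
      have h1 : x = algebraMap κ Ω e := sub_eq_zero.1 (congrArg Subtype.val h)
      rw [h1]
      exact isAlgebraic_algebraMap _
    refine or_congr ⟨?_, ?_⟩ ⟨fun h => ?_, fun h => ?_⟩
    · rintro ⟨b, hb, h⟩
      obtain ⟨e, he, rfl⟩ := Finset.mem_image.1 hb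
      refine ⟨e, he, ?_⟩
      have h1 : (⟨x, hxM⟩ : M) - algebraMap κ M e =
          algebraMap κ M δ * ((⟨x', hx'M⟩ : M) - algebraMap κ M (φ e)) := by
        rw [hm', hφ, map_div₀, map_sub]
        field_simp
        ring
      rw [h1]
      exact non_mul (hW _) h
    · rintro ⟨e, he, h⟩
      refine ⟨φ e, Finset.mem_image_of_mem _ he, ?_⟩
      have h1 : (⟨x', hx'M⟩ : M) - algebraMap κ M (φ e) =
          algebraMap κ M δ⁻¹ * ((⟨x, hxM⟩ : M) - algebraMap κ M e) := by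
        rw [hm', hφ, map_div₀, map_sub, map_inv₀]
        field_simp
        ring
      rw [h1]
      exact non_mul (hW _) h
    · have h1 := non_mul (hW δ⁻¹) h
      have h2 : algebraMap κ M δ⁻¹ * (⟨x', hx'M⟩ : M)⁻¹ =
          ((⟨x, hxM⟩ : M) - algebraMap κ M b0)⁻¹ := by
        rw [hm', map_inv₀, inv_div]
        have := h0 b0
        field_simp
      rw [h2] at h1
      have h3 := inv_add_non h1 (h0 b0) (hW b0)
      rwa [sub_add_cancel] at h3
    · have h1 : (⟨x, hxM⟩ : M) ≠ 0 := by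
        have := h0 0
        rwa [map_zero, sub_zero] at this
      have h2 := inv_add_non h h1 (neg_mem (hW b0))
      rw [← sub_eq_add_neg] at h2
      rw [hm', inv_div, div_eq_mul_inv]
      exact non_mul (hW δ) h2

/-- a coordinate for which infinity is a branch point and the other branch points are integral and
distinct modulo the maximal ideal -/
theorem coord (V : ValuationSubring κ) {x : Ω} (hx : Transcendental κ x) (P : Finset κ) (Inf : Prop)
    (h2 : Inf → 2 ≤ P.card) (h3 : ¬ Inf → 3 ≤ P.card)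
    (hcr4 : ∀ a ∈ P, ∀ b ∈ P, ∀ c ∈ P, ∀ d ∈ P, a ≠ b → a ≠ c → a ≠ d → b ≠ c → b ≠ d → c ≠ d →
      (a - c) * (b - d) / ((a - d) * (b - c)) ∈ V)
    (hcr3 : Inf → ∀ a ∈ P, ∀ b ∈ P, ∀ c ∈ P, a ≠ b → a ≠ c → b ≠ c → (a - c) / (b - c) ∈ V) :
    ∃ (x' : Ω) (B : Finset κ), Transcendental κ x' ∧
      (∀ S : IntermediateField κ Ω, x ∈ S ↔ x' ∈ S) ∧ (Inf → B.card = P.card) ∧
      (¬ Inf → B.card + 1 = P.card) ∧ Good V B ∧
      (∀ S : Subfield κ, (∀ e ∈ P, e ∈ S) → ∀ b ∈ B, b ∈ S) ∧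
      (∀ S : Subfield Ω, x ∈ S → (∀ e ∈ P, algebraMap κ Ω e ∈ S) → x' ∈ S) ∧
      ∀ (M : IntermediateField κ Ω) (hxM : x ∈ M) (W : ValuationSubring M),
        (∀ c : κ, algebraMap κ M c ∈ W) → (Abv x' B W ↔ AbvP ⟨x, hxM⟩ P Inf W) := by
  classical
  have htr : ∀ e : κ, x - algebraMap κ Ω e ≠ 0 := by
    intro e h
    apply hx
    rw [sub_eq_zero.1 h]
    exact isAlgebraic_algebraMap _
  by_cases hI : Inf
  · obtain ⟨x', B, a1, a2, a3, a4, a5, a6, a7⟩ := coord2 V hx P (h2 hI) (hcr3 hI)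
    refine ⟨x', B, a1, a2, fun _ => a3, fun h => absurd hI h, a4, a5, a6, fun M hxM W hW => ?_⟩
    rw [a7 M hxM ((a2 M).1 hxM) W hW]
    exact abv_iff hxM hxM htr (Or.inl ⟨hI, rfl, rfl⟩) hW
  · obtain ⟨e0, he0⟩ : P.Nonempty := by
      rw [← Finset.card_pos]
      have := h3 hI
      omega
    obtain ⟨x1, hx1⟩ : ∃ x1 : Ω, x1 = (x - algebraMap κ Ω e0)⁻¹ := ⟨_, rfl⟩
    have hxx1 : x = x1⁻¹ + algebraMap κ Ω e0 := by
      rw [hx1, inv_inv, sub_add_cancel]
    have hx1t : Transcendental κ x1 := by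
      intro h
      apply hx
      rw [hxx1]
      exact h.inv.add (isAlgebraic_algebraMap _)
    have hinj : ∀ e ∈ P.erase e0, ∀ e' ∈ P.erase e0, (e - e0)⁻¹ = (e' - e0)⁻¹ → e = e' := by
      intro e _ e' _ h
      have h1 := inv_injective h
      exact sub_left_injective h1
    obtain ⟨B1, hB1⟩ : ∃ B1 : Finset κ, B1 = (P.erase e0).image fun e => (e - e0)⁻¹ := ⟨_, rfl⟩
    have hB1c : B1.card + 1 = P.card := by
      rw [hB1, Finset.card_image_of_injOn, Finset.card_erase_of_mem he0]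
      · have := h3 hI
        omega
      · intro e he e' he' h
        exact hinj e he e' he' h
    have hB1m : ∀ b, b ∈ B1 ↔ ∃ e ∈ P, e ≠ e0 ∧ b = (e - e0)⁻¹ := by
      intro b
      rw [hB1, Finset.mem_image]
      constructor
      · rintro ⟨e, he, rfl⟩
        rw [Finset.mem_erase] at he
        exact ⟨e, he.2, he.1, rfl⟩
      · rintro ⟨e, he, hne, rfl⟩
        exact ⟨e, Finset.mem_erase.2 ⟨hne, he⟩, rfl⟩
    have hcr : ∀ a ∈ B1, ∀ b ∈ B1, ∀ c ∈ B1, a ≠ b → a ≠ c → b ≠ c → (a - c) / (b - c) ∈ V := by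
      intro a1 ha1 b1 hb1 c1 hc1 hab hac hbc
      obtain ⟨a, ha, ha0, rfl⟩ := (hB1m a1).1 ha1
      obtain ⟨b, hb, hb0, rfl⟩ := (hB1m b1).1 hb1
      obtain ⟨c, hc, hc0, rfl⟩ := (hB1m c1).1 hc1
      have hab' : a ≠ b := fun h => hab (by rw [h])
      have hac' : a ≠ c := fun h => hac (by rw [h])
      have hbc' : b ≠ c := fun h => hbc (by rw [h])
      have h1 := hcr4 a ha b hb c hc e0 he0 hab' hac' ha0 hbc' hb0 hc0
      have h2 : ((a - e0)⁻¹ - (c - e0)⁻¹) / ((b - e0)⁻¹ - (c - e0)⁻¹) =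
          (a - c) * (b - e0) / ((a - e0) * (b - c)) := by
        rw [mob_sub ha0 hc0, mob_sub hb0 hc0]
        have k1 : a - e0 ≠ 0 := sub_ne_zero.2 ha0
        have k2 : b - e0 ≠ 0 := sub_ne_zero.2 hb0
        have k3 : c - e0 ≠ 0 := sub_ne_zero.2 hc0
        have k4 : b - c ≠ 0 := sub_ne_zero.2 hbc'
        have k5 : c - b ≠ 0 := sub_ne_zero.2 (Ne.symm hbc')
        field_simp
        ring
      rw [h2]
      exact h1
    obtain ⟨x', B, a1, a2, a3, a4, a5, a6, a7⟩ := coord2 V hx1t B1 (by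
      have := h3 hI
      omega) hcr
    have hmem : ∀ S : IntermediateField κ Ω, x ∈ S ↔ x1 ∈ S := by
      intro S
      constructor
      · intro h
        rw [hx1]
        exact inv_mem (sub_mem h (S.algebraMap_mem _))
      · intro h
        rw [hxx1]
        exact add_mem (inv_mem h) (S.algebraMap_mem _)
    refine ⟨x', B, a1, fun S => (hmem S).trans (a2 S), fun h => absurd h hI, fun _ => by
      rw [a3]; exact hB1c, a4, fun S hS => a5 S fun b hb => ?_, fun S hxS hS => a6 S ?_ ?_,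
      fun M hxM W hW => ?_⟩
    · obtain ⟨e, he, -, rfl⟩ := (hB1m b).1 hb
      exact inv_mem (sub_mem (hS e he) (hS e0 he0))
    · rw [hx1]
      exact inv_mem (sub_mem hxS (hS e0 he0))
    · intro b hb
      obtain ⟨e, he, -, rfl⟩ := (hB1m b).1 hb
      rw [map_inv₀, map_sub]
      exact inv_mem (sub_mem (hS e he) (hS e0 he0))
    · have hx1M : x1 ∈ M := (hmem M).1 hxM
      rw [a7 M hx1M ((a2 M).1 hx1M) W hW]
      exact abv_iff hxM hx1M htr (Or.inr ⟨hI, e0, he0, hx1, hB1m⟩) hW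

end

end Pool.Agent.H93S
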