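import Pool.Agent.H93S.Locb

/-!
# Project SC: the field `M` as an extension of `κ`
-/

set_option autoImplicit false
set_option linter.all false

open Polynomial FF

namespace Pool.Agent.H93S

open Pool.Agent.Y157.PS Pool.Agent.Y948.PS Pool.Agent.Y31.PS Pool.Agent.R925.Q Pool.Agent.R925.X
  Pool.Agent.R925.L

section fields

variable {ℓ : ℕ} {k F Ω : Type} [Field k] [Field F] [Field Ω] [Algebra k F]
  [Algebra F Ω] [Algebra k Ω] [IsScalarTower k F Ω]

/-- `κ(x, y_j) = k̄ F` -/
theorem fields_eq' {J : Type} {x : F} {y : J → F}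
    (hF : IntermediateField.adjoin k (insert x (Set.range y)) = (⊤ : IntermediateField k F))
    (z : Ω) :
    z ∈ IntermediateField.adjoin (algebraicClosure k Ω)
        (insert (algebraMap F Ω x) (Set.range fun j => algebraMap F Ω (y j))) ↔
      z ∈ geomF k F Ω := by
  constructor
  · intro hz
    refine adjoin_le_sub (T := (geomF k F Ω).toSubfield) ?_ ?_ z hz
    · intro c
      exact IntermediateField.subset_adjoin F _ c.2
    · intro w hw
      rcases hw with hw | ⟨j, rfl⟩
      · rw [hw]
        exact (geomF k F Ω).algebraMap_mem x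
      · exact (geomF k F Ω).algebraMap_mem (y j)
  · intro hz
    set K1 := IntermediateField.adjoin (algebraicClosure k Ω)
        (insert (algebraMap F Ω x) (Set.range fun j => algebraMap F Ω (y j))) with hK1
    have hκ : ∀ c : algebraicClosure k Ω, (c : Ω) ∈ K1 := fun c => K1.algebraMap_mem c
    refine adjoin_le_sub (T := K1.toSubfield) ?_ ?_ z hz
    · intro r
      have h1 : r ∈ IntermediateField.adjoin k (insert x (Set.range y)) := by rw [hF]; trivial
      have h2 : ∀ w ∈ IntermediateField.adjoin k (insert x (Set.range y)),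
          w ∈ K1.toSubfield.comap (algebraMap F Ω) := by
        refine adjoin_le_sub ?_ ?_
        · intro c
          rw [Subfield.mem_comap, ← IsScalarTower.algebraMap_apply]
          exact hκ (algebraMap k (algebraicClosure k Ω) c)
        · intro w hw
          rw [Subfield.mem_comap]
          rcases hw with hw | ⟨j, rfl⟩
          · rw [hw]
            exact IntermediateField.subset_adjoin _ _ (Set.mem_insert _ _)
          · exact IntermediateField.subset_adjoin _ _ (Set.mem_insert_of_mem _ ⟨j, rfl⟩)
      exact h2 r h1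
    · intro c hc
      exact hκ ⟨c, hc⟩

theorem maxPro_geom' {J : Type} {x : F} {y : J → F}
    (hF : IntermediateField.adjoin k (insert x (Set.range y)) = (⊤ : IntermediateField k F))
    (z : Ω) :
    z ∈ maxPro ℓ (algebraicClosure k Ω) (IntermediateField.adjoin (algebraicClosure k Ω)
        (insert (algebraMap F Ω x) (Set.range fun j => algebraMap F Ω (y j)))) Ω ↔
      z ∈ geomPro ℓ k F Ω := by
  set K1 := IntermediateField.adjoin (algebraicClosure k Ω)
        (insert (algebraMap F Ω x) (Set.range fun j => algebraMap F Ω (y j))) with hK1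
  have hmem : ∀ w : Ω, w ∈ K1 ↔ w ∈ geomF k F Ω := fields_eq' hF
  let e : K1 ≃+* geomF k F Ω :=
    { toFun := fun w => ⟨w.1, (hmem _).1 w.2⟩
      invFun := fun w => ⟨w.1, (hmem _).2 w.2⟩
      left_inv := fun w => rfl
      right_inv := fun w => rfl
      map_mul' := fun w w' => rfl
      map_add' := fun w w' => rfl }
  refine maxPro_congr e (fun a => rfl) (fun W => ⟨fun h c => ?_, fun h c => ?_⟩) z
  · exact Pool.Agent.W620.SC.const_mem h c.2
  · exact h (algebraMap k (algebraicClosure k Ω) c)

/-- the geometrically pro-`ℓ` field as an extension of `κ` -/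
noncomputable def Mc (ℓ : ℕ) (k F Ω : Type) [Field k] [Field F] [Field Ω] [Algebra k F]
    [Algebra F Ω] [Algebra k Ω] [IsScalarTower k F Ω] :
    IntermediateField (algebraicClosure k Ω) Ω :=
  { (geomPro ℓ k F Ω).toSubfield with
    algebraMap_mem' := fun c => const_geomPro ℓ k c }

theorem mem_Mc (z : Ω) : z ∈ Mc ℓ k F Ω ↔ z ∈ geomPro ℓ k F Ω := Iff.rfl

/-- the identity -/
noncomputable def eqM (ℓ : ℕ) (k F Ω : Type) [Field k] [Field F] [Field Ω] [Algebra k F]
    [Algebra F Ω] [Algebra k Ω] [IsScalarTower k F Ω] : Mc ℓ k F Ω ≃+* geomPro ℓ k F Ω :=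
  { toFun := fun w => ⟨w.1, w.2⟩
    invFun := fun w => ⟨w.1, w.2⟩
    left_inv := fun w => rfl
    right_inv := fun w => rfl
    map_mul' := fun w w' => rfl
    map_add' := fun w w' => rfl }

theorem eqM_coe (w : Mc ℓ k F Ω) : (eqM ℓ k F Ω w : Ω) = w := rfl

/-- `Ω` is algebraic over `κ(x)` -/
theorem alg_x {J : Type} [Algebra.IsAlgebraic F Ω] {x : F} {y : J → F} (hℓ : 0 < ℓ)
    (hF : IntermediateField.adjoin k (insert x (Set.range y)) = (⊤ : IntermediateField k F))
    (hy : ∀ j, ∃ p : k[X], y j ^ ℓ = aeval x p) :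
    Algebra.IsAlgebraic (IntermediateField.adjoin (algebraicClosure k Ω) {algebraMap F Ω x}) Ω := by
  set R := IntermediateField.adjoin (algebraicClosure k Ω) {algebraMap F Ω x} with hR
  have hxR : algebraMap F Ω x ∈ R := IntermediateField.mem_adjoin_simple_self _ _
  have hkR : ∀ c : k, algebraMap k Ω c ∈ R := fun c =>
    R.algebraMap_mem (algebraMap k (algebraicClosure k Ω) c)
  -- the elements of `F` are algebraic over `R`
  have hpow : ∀ j, IsAlgebraic R (algebraMap F Ω (y j)) := by
    intro j
    obtain ⟨p, hp⟩ := hy j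
    have h1 : (algebraMap F Ω (y j)) ^ ℓ ∈ R := by
      rw [← map_pow, hp, aeval_def, hom_eval₂, ← IsScalarTower.algebraMap_eq, eval₂_eq_sum_range]
      exact sum_mem fun i _ => mul_mem (hkR _) (pow_mem hxR _)
    have h2 : IsIntegral R (algebraMap F Ω (y j)) := by
      apply IsIntegral.of_pow hℓ
      exact isIntegral_algebraMap (x := (⟨_, h1⟩ : R))
    exact h2.isAlgebraic
  have hmem : ∀ r : F, algebraMap F Ω r ∈ _root_.algebraicClosure R Ω := by
    intro r
    have h1 : r ∈ IntermediateField.adjoin k (insert x (Set.range y)) := by rw [hF]; trivial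
    have h2 : ∀ w ∈ IntermediateField.adjoin k (insert x (Set.range y)),
        w ∈ (_root_.algebraicClosure R Ω).toSubfield.comap (algebraMap F Ω) := by
      refine adjoin_le_sub ?_ ?_
      · intro c
        rw [Subfield.mem_comap, ← IsScalarTower.algebraMap_apply]
        exact (_root_.algebraicClosure R Ω).algebraMap_mem ⟨_, hkR c⟩
      · intro w hw
        rw [Subfield.mem_comap]
        rcases hw with hw | ⟨j, rfl⟩
        · rw [hw]
          exact (_root_.algebraicClosure R Ω).algebraMap_mem ⟨_, hxR⟩
        · exact mem_algebraicClosure_iff.2 (hpow j)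
    exact h2 r h1
  let K1 := _root_.algebraicClosure R Ω
  let i : F →+* K1 := (algebraMap F Ω).codRestrict K1.toSubfield hmem
  letI : Algebra F K1 := i.toAlgebra
  haveI : IsScalarTower F K1 Ω := IsScalarTower.of_algebraMap_eq fun r => rfl
  have h2 : Algebra.IsAlgebraic K1 Ω := Algebra.IsAlgebraic.tower_top (K := F) K1
  exact Algebra.IsAlgebraic.trans R K1 Ω

end fields

end Pool.Agent.H93S
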