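import Pool.Agent.H93S.Locb

/-!
# Project SC: the roots of the polynomials `f i`
-/

set_option autoImplicit false
set_option linter.all false

open Polynomial FF

namespace Pool.Agent.H93S

open Pool.Agent.Y157.PS Pool.Agent.Y948.PS Pool.Agent.Y31.PS Pool.Agent.R925.Q Pool.Agent.R925.X
  Pool.Agent.R925.L

section

variable {A κ : Type} [CommRing A] [IsDomain A] [IsDiscreteValuationRing A] [Field κ] [Algebra A κ]
    [IsAlgClosed κ]

open Classical in
/-- the exponent of the root `e` -/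
noncomputable def wt {n : ℕ} (f : Fin n → A[X]) (v : Fin n → ℕ) (e : κ) : ℕ :=
  ∑ i, if aeval e (f i) = 0 then v i else 0

theorem roots_data (V : ValuationSubring κ) (hVa : ∀ a : A, algebraMap A κ a ∈ V)
    (hVm : ∀ a ∈ IsLocalRing.maximalIdeal A, algebraMap A κ a ∈ V.nonunits) {n : ℕ}
    (f : Fin n → A[X]) (hlc : ∀ i, IsUnit (f i).leadingCoeff)
    (hs : ((∏ i, f i).map (IsLocalRing.residue A)).Separable) :
    ∃ P : Finset κ, (∀ θ, θ ∈ P ↔ ∃ i, aeval θ (f i) = 0) ∧ Good V P ∧
      (∀ (θ : κ) (i : Fin n) (v : Fin n → ℕ), aeval θ (f i) = 0 → wt f v θ = v i) ∧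
      (∀ v : Fin n → ℕ, ∑ e ∈ P, wt f v e = ∑ i, v i * (f i).natDegree) ∧
      P.card = ∑ i, (f i).natDegree ∧
      ∀ (Ω : Type) [Field Ω] [Algebra κ Ω] (v : Fin n → ℕ) (z : Ω),
        ∏ i, ((f i).eval₂ ((algebraMap κ Ω).comp (algebraMap A κ)) z) ^ v i =
          algebraMap κ Ω (∏ i, algebraMap A κ (f i).leadingCoeff ^ v i) *
            ∏ e ∈ P, (z - algebraMap κ Ω e) ^ wt f v e := by
  classical
  have hlcg : IsUnit (∏ i, f i).leadingCoeff := by
    rw [leadingCoeff_prod]
    exact IsUnit.prod_iff.2 fun i _ => hlc i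
  set g := ∏ i, f i with hg
  obtain ⟨hnd, hdist⟩ := Pool.Agent.W623.SecC.roots_distinct V hVa hVm g hlcg hs
  have hmap0 : ∀ p : A[X], IsUnit p.leadingCoeff → p.map (algebraMap A κ) ≠ 0 := by
    intro p hp h
    have h1 : algebraMap A κ p.leadingCoeff ≠ 0 := (hp.map (algebraMap A κ)).ne_zero
    apply h1
    rw [← leadingCoeff_map_of_leadingCoeff_ne_zero _ h1, h, leadingCoeff_zero]
  have hg0 := hmap0 g hlcg
  have hsep : (g.map (algebraMap A κ)).Separable :=
    (Polynomial.nodup_roots_iff_of_splits hg0 (IsAlgClosed.splits _)).1 hnd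
  have hroot : ∀ (p : A[X]), IsUnit p.leadingCoeff → ∀ θ : κ,
      θ ∈ (p.map (algebraMap A κ)).roots ↔ aeval θ p = 0 := by
    intro p hp θ
    rw [mem_roots (hmap0 p hp), IsRoot.def, eval_map]
    rfl
  have hdeg : ∀ i, ((f i).map (algebraMap A κ)).natDegree = (f i).natDegree := fun i =>
    natDegree_map_of_leadingCoeff_ne_zero _ ((hlc i).map (algebraMap A κ)).ne_zero
  have hndi : ∀ i, ((f i).map (algebraMap A κ)).roots.Nodup := by
    intro i
    refine nodup_roots (hsep.of_dvd ?_)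
    exact Polynomial.map_dvd _ (Finset.dvd_prod_of_mem f (Finset.mem_univ i))
  have huniq : ∀ (θ : κ) (i j : Fin n), aeval θ (f i) = 0 → aeval θ (f j) = 0 → i = j := by
    intro θ i j hi hj
    by_contra hij
    have h1 : f i * f j ∣ g := by
      rw [hg, ← Finset.mul_prod_erase _ _ (Finset.mem_univ i)]
      exact mul_dvd_mul_left _ (Finset.dvd_prod_of_mem f
        (Finset.mem_erase.2 ⟨fun h => hij h.symm, Finset.mem_univ j⟩))
    have h2 : ((f i).map (algebraMap A κ) * (f j).map (algebraMap A κ)).Separable := by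
      rw [← Polynomial.map_mul]
      exact hsep.of_dvd (Polynomial.map_dvd _ h1)
    obtain ⟨a, b, hab⟩ := h2.isCoprime
    have h3 := congrArg (eval θ) hab
    rw [eval_add, eval_mul, eval_mul, eval_one, eval_map, eval_map] at h3
    have h4 : eval₂ (algebraMap A κ) θ (f i) = 0 := hi
    have h5 : eval₂ (algebraMap A κ) θ (f j) = 0 := hj
    rw [h4, h5, mul_zero, mul_zero, add_zero] at h3
    exact zero_ne_one h3
  let Pi : Fin n → Finset κ := fun i => ((f i).map (algebraMap A κ)).roots.toFinset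
  have hPi : ∀ i θ, θ ∈ Pi i ↔ aeval θ (f i) = 0 := fun i θ => by
    rw [Multiset.mem_toFinset, hroot (f i) (hlc i)]
  have hdisj : (↑(Finset.univ : Finset (Fin n)) : Set (Fin n)).PairwiseDisjoint Pi := by
    intro i _ j _ hij
    rw [Function.onFun, Finset.disjoint_left]
    intro θ h1 h2
    exact hij (huniq θ i j ((hPi i θ).1 h1) ((hPi j θ).1 h2))
  have hwt : ∀ (θ : κ) (i : Fin n) (v : Fin n → ℕ), aeval θ (f i) = 0 → wt f v θ = v i := by
    intro θ i v hi
    unfold wt
    rw [Finset.sum_eq_single i (fun j _ hj => if_neg fun h => hj (huniq θ j i h hi))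
      (fun h => absurd (Finset.mem_univ i) h), if_pos hi]
  have hcardi : ∀ i, (Pi i).card = (f i).natDegree := by
    intro i
    rw [Multiset.toFinset_card_of_nodup (hndi i), ← hdeg i]
    exact (IsAlgClosed.splits _).natDegree_eq_card_roots.symm
  have hmemP : ∀ θ, θ ∈ Finset.univ.biUnion Pi ↔ ∃ i, aeval θ (f i) = 0 := by
    intro θ
    rw [Finset.mem_biUnion]
    constructor
    · rintro ⟨i, -, h⟩
      exact ⟨i, (hPi i θ).1 h⟩
    · rintro ⟨i, h⟩
      exact ⟨i, Finset.mem_univ i, (hPi i θ).2 h⟩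
  have hPg : ∀ θ, (∃ i, aeval θ (f i) = 0) → θ ∈ (g.map (algebraMap A κ)).roots := by
    rintro θ ⟨i, h⟩
    rw [hroot g hlcg, hg, map_prod]
    exact Finset.prod_eq_zero (Finset.mem_univ i) h
  refine ⟨Finset.univ.biUnion Pi, hmemP, ⟨fun e he => ?_, fun e he e' he' hne => ?_⟩, hwt,
    fun v => ?_, ?_, ?_⟩
  · obtain ⟨i, h⟩ := (hmemP e).1 he
    exact Pool.Agent.W308.SecC.root_mem V hVa _ (hlc i) _ h
  · exact hdist e (hPg e ((hmemP e).1 he)) e' (hPg e' ((hmemP e').1 he')) hne
  · rw [Finset.sum_biUnion hdisj]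
    refine Finset.sum_congr rfl fun i _ => ?_
    rw [Finset.sum_congr rfl fun e he => hwt e i v ((hPi i e).1 he), Finset.sum_const, hcardi,
      smul_eq_mul, mul_comm]
  · rw [Finset.card_biUnion fun i _ j _ hij => hdisj (Finset.mem_coe.2 (Finset.mem_univ i))
      (Finset.mem_coe.2 (Finset.mem_univ j)) hij]
    exact Finset.sum_congr rfl fun i _ => hcardi i
  · intro Ω _ _ v z
    rw [Finset.prod_biUnion hdisj, map_prod, ← Finset.prod_mul_distrib]
    refine Finset.prod_congr rfl fun i _ => ?_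
    rw [Finset.prod_congr rfl fun e he => by rw [hwt e i v ((hPi i e).1 he)]]
    rw [Finset.prod_pow, map_pow, ← mul_pow]
    congr 1
    have h1 := (IsAlgClosed.splits ((f i).map (algebraMap A κ))).eq_prod_roots
    have h2 : (f i).eval₂ ((algebraMap κ Ω).comp (algebraMap A κ)) z =
        ((f i).map (algebraMap A κ)).eval₂ (algebraMap κ Ω) z := by rw [eval₂_map]
    have h5 : ((f i).map (algebraMap A κ)).leadingCoeff =
        algebraMap A κ (f i).leadingCoeff :=
      leadingCoeff_map_of_leadingCoeff_ne_zero _ ((hlc i).map (algebraMap A κ)).ne_zero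
    rw [h2]
    conv_lhs => rw [h1]
    rw [h5, eval₂_mul, eval₂_C]
    congr 1
    rw [← coe_eval₂RingHom, map_multiset_prod, Multiset.map_map]
    rw [Finset.prod, Multiset.toFinset_val, Multiset.dedup_eq_self.2 (hndi i)]
    congr 1
    refine Multiset.map_congr rfl fun a _ => ?_
    simp

end

end Pool.Agent.H93S
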