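import Pool.Agent.H93S.Locb

/-!
# Project SC: an inertia element which moves a radical
-/

set_option autoImplicit false
set_option linter.all false

open Polynomial FF

namespace Pool.Agent.H93S

open Pool.Agent.Y157.PS Pool.Agent.Y948.PS Pool.Agent.Y31.PS Pool.Agent.R925.Q Pool.Agent.R925.X
  Pool.Agent.R925.L

theorem tam : S_TAM := by
  intro ℓ _ A k κ _ _ _ _ _ _ _ _ _ _ _ _ _ V hℓ hVa hVm ϖ t m hϖ ht hm δ u hu huf hδ
  have hkb : IsAlgClosed κ := IsAlgClosure.isAlgClosed k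
  have hℓp : ℓ.Prime := Fact.out
  have hp := hℓp.pos
  have hℓU : IsU V (ℓ : κ) := by
    have h1 := isU_of_unit (V := V) hVa hℓ
    rwa [map_natCast] at h1
  have hinj : Function.Injective (algebraMap A κ) := by
    rw [IsScalarTower.algebraMap_eq A k κ]
    exact (algebraMap k κ).injective.comp (IsFractionRing.injective A k)
  have hϖ0 : algebraMap A κ ϖ ≠ 0 := by
    intro h
    exact hϖ.ne_zero (hinj (by rw [h, map_zero]))
  obtain ⟨Θ, hΘ⟩ := IsAlgClosed.exists_pow_nat_eq (algebraMap A κ ϖ) hp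
  have hΘ0 : Θ ≠ 0 := by
    rintro rfl
    rw [zero_pow hp.ne'] at hΘ
    exact hϖ0 hΘ.symm
  obtain ⟨τ, hτ, hprim, -⟩ := exists_tame (k := k) hℓ hVa hVm hϖ (j := 1) le_rfl (Θ := Θ)
    (by rw [pow_one]; exact hΘ)
  rw [pow_one] at hprim
  refine ⟨τ, hτ, fun h => hm ?_⟩
  have htU := isU_of_unit (V := V) hVa ht
  have hΘm : Θ ^ m ≠ 0 := zpow_ne_zero _ hΘ0
  have hv : (δ / Θ ^ m) ^ ℓ = algebraMap A κ t * u := by
    rw [div_pow, hδ, ← zpow_natCast (Θ ^ m), ← zpow_mul, mul_comm m, zpow_mul, zpow_natCast, hΘ,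
      mul_right_comm, mul_div_cancel_right₀ _ (zpow_ne_zero _ hϖ0)]
  have hvU : IsU V (δ / Θ ^ m) := isU_of_pow hp (by rw [hv]; exact htU.mul hu)
  have hfix : τ ((δ / Θ ^ m) ^ ℓ) = (δ / Θ ^ m) ^ ℓ := by
    rw [hv, map_mul, huf τ hτ, IsScalarTower.algebraMap_apply A k κ, τ.commutes]
  have h1 : (τ (δ / Θ ^ m) / (δ / Θ ^ m)) ^ ℓ = 1 := by
    rw [div_pow, ← map_pow, hfix, div_self (pow_ne_zero _ hvU.1)]
  have h2 : τ (δ / Θ ^ m) / (δ / Θ ^ m) = 1 := by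
    refine root_eq hℓU hp h1 (one_pow _) ?_
    have h3 := hτ.2 _ hvU.2.1
    have h4 : τ (δ / Θ ^ m) - δ / Θ ^ m = δ / Θ ^ m * (τ (δ / Θ ^ m) / (δ / Θ ^ m) - 1) := by
      rw [mul_sub, mul_one, mul_div_cancel₀ _ hvU.1]
    rw [h4] at h3
    exact non_of_isU_mul hvU h3
  rw [div_eq_one_iff_eq hvU.1, map_div₀, h, map_zpow₀] at h2
  have hδ0 : δ ≠ 0 := by
    rintro rfl
    exact hvU.1 (zero_div _)
  have hτm : (τ Θ) ^ m ≠ 0 := zpow_ne_zero _ ((_root_.map_ne_zero τ).2 hΘ0)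
  have h5 : (τ Θ) ^ m = Θ ^ m := by
    rw [div_eq_div_iff hτm hΘm] at h2
    exact (mul_left_cancel₀ hδ0 h2).symm
  have h6 : (τ Θ / Θ) ^ m = 1 := by rw [div_zpow, h5, div_self hΘm]
  exact (hprim.zpow_eq_one_iff_dvd m).1 h6

end Pool.Agent.H93S
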