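import Pool.Agent.H93S.Abv
import Pool.Agent.H93S.Roots
import Pool.Agent.H93S.Gm
import Pool.Agent.H93S.Tam
import Pool.Agent.Y529.PS.INRT

/-!
# Project SC: sections of the geometrically pro-`ℓ` fundamental group of elementary abelian covers
-/

set_option autoImplicit false
set_option linter.all false

open Polynomial FF

namespace Pool.Agent.H93S

open Pool.Agent.Y157.PS Pool.Agent.Y948.PS Pool.Agent.Y31.PS Pool.Agent.R925.Q Pool.Agent.R925.X
  Pool.Agent.R925.L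

/-- above a branch point -/
def AB {F : Type} [Field F] (Inf : Prop) (h x : F) {N : Type} [Field N] [Algebra F N]
    (W : ValuationSubring N) : Prop :=
  algebraMap F N h ∈ W.nonunits ∨ (Inf ∧ algebraMap F N x⁻¹ ∈ W.nonunits)

/-- a product is a non-unit if and only if a factor is -/
theorem prod_non {κ K : Type} [Field κ] [Field K] (W : ValuationSubring K) (ι : κ →+* K)
    (hι : ∀ c, ι c ∈ W) (X : K) (hX : ∀ e, X - ι e ≠ 0) (P : Finset κ) {c0 : κ} (hc0 : c0 ≠ 0) :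
    ι c0 * ∏ e ∈ P, (X - ι e) ∈ W.nonunits ↔ ∃ e ∈ P, X - ι e ∈ W.nonunits := by
  classical
  have hc0' : (ι c0)⁻¹ ∈ W := by rw [← map_inv₀]; exact hι _
  constructor
  · intro h
    by_contra hno
    push Not at hno
    have h1 : (ι c0 * ∏ e ∈ P, (X - ι e))⁻¹ ∈ W := by
      rw [mul_inv, ← Finset.prod_inv_distrib]
      exact mul_mem hc0' (prod_mem fun e he => inv_mem_of_not_nonunit (hno e he))
    rcases (nonunits_iff.1 h).2 with h2 | h2
    · rcases mul_eq_zero.1 h2 with h3 | h3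
      · exact hc0 ((_root_.map_eq_zero _).1 h3)
      · obtain ⟨e, -, he⟩ := Finset.prod_eq_zero_iff.1 h3
        exact hX e he
    · exact h2 h1
  · rintro ⟨e, he, h⟩
    have hXm : ∀ e', X - ι e' ∈ W := by
      intro e'
      have h1 : X - ι e' = (X - ι e) + ι (e - e') := by rw [map_sub]; ring
      rw [h1]
      exact add_mem (non_mem h) (hι _)
    rw [← Finset.mul_prod_erase P _ he, mul_left_comm, mul_comm]
    exact non_mul (mul_mem (hι _) (prod_mem fun e' _ => hXm e')) h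

section main

variable {A k F Ω : Type} [CommRing A] [IsDomain A] [IsDiscreteValuationRing A]
    [Finite (IsLocalRing.ResidueField A)] [Field k] [CharZero k] [Algebra A k] [IsFractionRing A k]
    [Field F] [Field Ω] [Algebra k F] [Algebra F Ω] [Algebra k Ω] [IsScalarTower k F Ω]
    [IsAlgClosed Ω] [Algebra.IsAlgebraic F Ω]

theorem core (hMAX : S_MAX) (hMOB : S_MOB) (hGLOB : S_GLOB)
    [IsAdicComplete (IsLocalRing.maximalIdeal A) A] {ℓ : ℕ} [Fact ℓ.Prime] (hℓ : IsUnit (ℓ : A))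
    {n r : ℕ} (f : Fin n → A[X]) (w : Fin r → Fin n → ℕ) (d : Fin r → k)
    (hlc : ∀ i, IsUnit (f i).leadingCoeff)
    (hs : ((∏ i, f i).map (IsLocalRing.residue A)).Separable) (hw : ∀ i, ∃ j, ¬ ℓ ∣ w j i)
    (hd0 : ∀ j, d j ≠ 0) (j0 : Fin r) (ϖ t : A) (m : ℤ) (hϖ : Irreducible ϖ) (ht : IsUnit t)
    (hm : ¬ (ℓ : ℤ) ∣ m) (hdj : d j0 = algebraMap A k t * algebraMap A k ϖ ^ m)
    (Inf : Prop) (hInf : Inf ↔ ∃ j, ¬ ℓ ∣ ∑ i, w j i * (f i).natDegree)
    (h3a : Inf → 3 ≤ ℓ * (∑ i, (f i).natDegree - 1))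
    (h3b : ¬ Inf → 3 ≤ ℓ * (∑ i, (f i).natDegree - 2))
    (x : F) (y : Fin r → F) (hx : Transcendental k x)
    (hxy : ∀ j, algebraMap k F (d j) * y j ^ ℓ =
      ∏ i, (aeval x ((f i).map (algebraMap A k))) ^ w j i)
    (hF : IntermediateField.adjoin k (insert x (Set.range y)) = (⊤ : IntermediateField k F))
    (S : (algebraicClosure k Ω ≃ₐ[k] algebraicClosure k Ω) →*
      (geomPro ℓ k F Ω ≃ₐ[F] geomPro ℓ k F Ω)) (hcont : Continuous S)
    (hcompat : ∀ σ (c : algebraicClosure k Ω) (z : geomPro ℓ k F Ω), (z : Ω) = (c : Ω) →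
      (S σ z : Ω) = (σ c : Ω)) :
    ∃ W : ValuationSubring (geomPro ℓ k F Ω),
      ((∀ c : k, algebraMap F (geomPro ℓ k F Ω) (algebraMap k F c) ∈ W) ∧
       (∀ z ∈ W, ∃ c : algebraicClosure k Ω, ∃ z' ∈ W.nonunits, (z' : Ω) = (z : Ω) - c) ∧
       AB Inf (∏ i, aeval x ((f i).map (algebraMap A k))) x W ∧ ∀ σ z, S σ z ∈ W ↔ z ∈ W) ∧
      ∀ W' : ValuationSubring (geomPro ℓ k F Ω),
        (∀ c : k, algebraMap F (geomPro ℓ k F Ω) (algebraMap k F c) ∈ W') →
        AB Inf (∏ i, aeval x ((f i).map (algebraMap A k))) x W' →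
        (∀ σ z, S σ z ∈ W' ↔ z ∈ W') → W' = W := by
  classical
  have hℓp : ℓ.Prime := Fact.out
  have hℓ2 := hℓp.two_le
  have hac : IsAlgClosure k (algebraicClosure k Ω) := inferInstance
  have hkb : IsAlgClosed (algebraicClosure k Ω) := hac.1
  have hN : Normal k (algebraicClosure k Ω) := IsAlgClosure.normal k _
  have hGal : IsGalois k (algebraicClosure k Ω) := ⟨⟩
  have hch : CharZero (algebraicClosure k Ω) :=
    charZero_of_injective_algebraMap (algebraMap k (algebraicClosure k Ω)).injective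
  letI : Algebra A (algebraicClosure k Ω) :=
    ((algebraMap k (algebraicClosure k Ω)).comp (algebraMap A k)).toAlgebra
  haveI hst : IsScalarTower A k (algebraicClosure k Ω) :=
    IsScalarTower.of_algebraMap_eq (fun _ => rfl)
  obtain ⟨V, hV⟩ := Pool.Agent.Y809.PS.val A k (algebraicClosure k Ω)
  have hVa : ∀ a : A, algebraMap A (algebraicClosure k Ω) a ∈ V := fun a =>
    (hV _).2 isIntegral_algebraMap
  have hVm : ∀ a ∈ IsLocalRing.maximalIdeal A, algebraMap A (algebraicClosure k Ω) a ∈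
      V.nonunits := by
    intro a ha
    refine nonunits_iff.2 ⟨hVa a, ?_⟩
    by_cases ha0 : a = 0
    · left
      rw [ha0, map_zero]
    right
    intro hi
    rw [hV, IsScalarTower.algebraMap_apply A k (algebraicClosure k Ω), ← map_inv₀,
      isIntegral_algebraMap_iff (algebraMap k (algebraicClosure k Ω)).injective] at hi
    obtain ⟨b, hb⟩ := IsIntegrallyClosed.isIntegral_iff.1 hi
    have h1 : a * b = 1 := by
      apply IsFractionRing.injective A k
      rw [map_mul, hb, map_one, mul_inv_cancel₀]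
      rw [Ne, map_eq_zero_iff _ (IsFractionRing.injective A k)]
      exact ha0
    exact (IsLocalRing.mem_maximalIdeal _).1 ha (IsUnit.of_mul_eq_one b h1)
  have hdec : ∀ σ : algebraicClosure k Ω ≃ₐ[k] algebraicClosure k Ω, Dec V σ := by
    intro σ z
    rw [hV, hV]
    have h1 : ∀ (τ : algebraicClosure k Ω ≃ₐ[k] algebraicClosure k Ω) (w : algebraicClosure k Ω),
        IsIntegral A w → IsIntegral A (τ w) := fun τ w hw =>
      hw.map (τ.toAlgHom.restrictScalars A)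
    refine ⟨fun h => ?_, h1 σ z⟩
    have h2 := h1 σ.symm _ h
    rwa [σ.symm_apply_apply] at h2
  obtain ⟨P, hP, hGP, hwt, hsum, hcard, hprod⟩ := roots_data V hVa hVm f hlc hs
  -- the equations in `Ω`
  obtain ⟨X0, hX0⟩ : ∃ X0, X0 = algebraMap F Ω x := ⟨_, rfl⟩
  obtain ⟨Y0, hY0⟩ : ∃ Y0 : Fin r → Ω, Y0 = fun j => algebraMap F Ω (y j) := ⟨_, rfl⟩
  have hev : ∀ i, algebraMap F Ω (aeval x ((f i).map (algebraMap A k))) =
      (f i).eval₂ ((algebraMap (algebraicClosure k Ω) Ω).comp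
        (algebraMap A (algebraicClosure k Ω))) X0 := by
    intro i
    rw [aeval_def, eval₂_map, hom_eval₂, hX0]
    congr 1
    ext a
    exact (IsScalarTower.algebraMap_apply k F Ω (algebraMap A k a)).symm
  obtain ⟨Lc, hLc⟩ : ∃ Lc : Fin r → algebraicClosure k Ω, Lc = fun j =>
    ∏ i, algebraMap A (algebraicClosure k Ω) (f i).leadingCoeff ^ w j i := ⟨_, rfl⟩
  have hlcU : ∀ i, IsU V (algebraMap A (algebraicClosure k Ω) (f i).leadingCoeff) := fun i =>
    isU_of_unit hVa (hlc i)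
  have hLcU : ∀ j, IsU V (Lc j) := by
    intro j
    rw [hLc]
    change IsU V (∏ i, algebraMap A (algebraicClosure k Ω) (f i).leadingCoeff ^ w j i)
    induction (Finset.univ : Finset (Fin n)) using Finset.induction_on with
    | empty => rw [Finset.prod_empty]; exact isU_one
    | insert a s ha ih => rw [Finset.prod_insert ha]; exact (isU_pow (hlcU a) _).mul ih
  have hLcσ : ∀ (σ : algebraicClosure k Ω ≃ₐ[k] algebraicClosure k Ω) j, σ (Lc j) = Lc j := by
    intro σ j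
    rw [hLc]
    change σ (∏ i, algebraMap A (algebraicClosure k Ω) (f i).leadingCoeff ^ w j i) = _
    rw [map_prod]
    refine Finset.prod_congr rfl fun i _ => ?_
    rw [map_pow, IsScalarTower.algebraMap_apply A k, σ.commutes]
  obtain ⟨c, hc⟩ : ∃ c : Fin r → algebraicClosure k Ω, c = fun j =>
    algebraMap k (algebraicClosure k Ω) (d j) * (Lc j)⁻¹ := ⟨_, rfl⟩
  have hc0 : ∀ j, c j ≠ 0 := by
    intro j
    rw [hc]
    exact mul_ne_zero ((_root_.map_ne_zero _).2 (hd0 j)) (inv_ne_zero (hLcU j).1)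
  have hxyΩ : ∀ j, algebraMap (algebraicClosure k Ω) Ω (c j) * Y0 j ^ ℓ =
      ∏ e ∈ P, (X0 - algebraMap (algebraicClosure k Ω) Ω e) ^ wt f (w j) e := by
    intro j
    have h1 := congrArg (algebraMap F Ω) (hxy j)
    rw [map_mul, map_pow, map_prod] at h1
    simp only [map_pow, hev] at h1
    rw [hprod Ω (w j) X0] at h1
    have h2 : algebraMap (algebraicClosure k Ω) Ω (Lc j) ≠ 0 :=
      (_root_.map_ne_zero _).2 (hLcU j).1
    have h3 : algebraMap (algebraicClosure k Ω) Ω (algebraMap k (algebraicClosure k Ω) (d j)) =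
        algebraMap F Ω (algebraMap k F (d j)) := IsScalarTower.algebraMap_apply k F Ω (d j)
    have h4 : algebraMap (algebraicClosure k Ω) Ω (c j) =
        algebraMap F Ω (algebraMap k F (d j)) *
          (algebraMap (algebraicClosure k Ω) Ω (Lc j))⁻¹ := by
      rw [hc, map_mul, map_inv₀, h3]
    have h5 : algebraMap (algebraicClosure k Ω) Ω
        (∏ i, algebraMap A (algebraicClosure k Ω) (f i).leadingCoeff ^ w j i) =
        algebraMap (algebraicClosure k Ω) Ω (Lc j) := by rw [hLc]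
    rw [h5] at h1
    rw [h4, hY0, mul_right_comm, h1, mul_comm, ← mul_assoc, inv_mul_cancel₀ h2, one_mul]
  have hwP : ∀ e ∈ P, ∃ j, ¬ ℓ ∣ wt f (w j) e := by
    intro e he
    obtain ⟨i, hi⟩ := (hP e).1 he
    obtain ⟨j, hj⟩ := hw i
    exact ⟨j, by rwa [hwt e i (w j) hi]⟩
  have hInf' : Inf ↔ ∃ j, ¬ ℓ ∣ ∑ e ∈ P, wt f (w j) e := by
    rw [hInf]
    simp only [hsum]
  have hPc : (Inf → 2 ≤ P.card) ∧ (¬ Inf → 3 ≤ P.card) := by
    rw [hcard]
    refine ⟨fun h => ?_, fun h => ?_⟩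
    · have h1 := h3a h
      by_contra h2
      have h4 : ∑ i, (f i).natDegree - 1 = 0 := by omega
      rw [h4] at h1
      omega
    · have h1 := h3b h
      by_contra h2
      have h4 : ∑ i, (f i).natDegree - 2 = 0 := by omega
      rw [h4] at h1
      omega
  have hX0t : Transcendental k X0 := by
    rw [hX0]
    exact (transcendental_algebraMap_iff (R := k) (algebraMap F Ω).injective (a := x)).2 hx
  have halgx : Algebra.IsAlgebraic
      (IntermediateField.adjoin (algebraicClosure k Ω) {X0}) Ω := by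
    rw [hX0]
    refine alg_x hℓp.pos hF fun j => ⟨C (d j)⁻¹ * ∏ i, ((f i).map (algebraMap A k)) ^ w j i, ?_⟩
    rw [map_mul, map_prod, aeval_C]
    simp only [map_pow]
    rw [← hxy j, ← mul_assoc, ← map_mul, inv_mul_cancel₀ (hd0 j), map_one, one_mul]
  obtain ⟨x', B, T, hcase, hR, hAb, hδ⟩ := hMOB ℓ (algebraicClosure k Ω) Ω X0 (trans_up hX0t) halgx
    P (Fin r) (fun j e => wt f (w j) e) c Y0 hc0 hxyΩ hwP
    (by
      by_cases h : Inf
      · exact hPc.1 h
      · exact le_trans (by norm_num) (hPc.2 h))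
    (fun h => hPc.2 fun hI => by
      obtain ⟨j, hj⟩ := hInf'.1 hI
      exact hj (h j))
  have hcase' : (Inf ∧ x' = X0 ∧ B = P) ∨ (¬ Inf ∧ ∃ e0 ∈ P,
      x' = (X0 - algebraMap (algebraicClosure k Ω) Ω e0)⁻¹ ∧
      ∀ b, b ∈ B ↔ ∃ e ∈ P, e ≠ e0 ∧ b = (e - e0)⁻¹) := by
    rcases hcase with ⟨h1, h2, h3⟩ | ⟨h1, -, h3⟩
    · exact Or.inl ⟨hInf'.2 h1, h2, h3⟩
    · refine Or.inr ⟨fun hI => ?_, h3⟩
      obtain ⟨j, hj⟩ := hInf'.1 hI
      exact hj (h1 j)
  have hBcard : 3 ≤ ℓ * (B.card - 1) := by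
    rcases hcase with ⟨h1, h2, h3⟩ | ⟨h1, h2, h3⟩
    · rw [h3, hcard]
      exact h3a (hInf'.2 h1)
    · have h4 : ¬ Inf := fun hI => by
        obtain ⟨j, hj⟩ := hInf'.1 hI
        exact hj (h1 j)
      have h5 := h3b h4
      have h6 : B.card - 1 = ∑ i, (f i).natDegree - 2 := by
        rw [← hcard]; omega
      rw [h6]
      exact h5
  have hFld : Fld ℓ x' B T (Mc ℓ k F Ω) := by
    refine ⟨hR, hBcard, fun b hb Y hY z => ?_⟩
    rw [mem_Mc, ← hMAX ℓ (algebraicClosure k Ω) Ω x' B T hR _ hAb b hb Y hY z, hX0, hY0]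
    exact (maxPro_geom' hF z).symm
  -- the branch points
  have hPσ : ∀ (σ : algebraicClosure k Ω ≃ₐ[k] algebraicClosure k Ω), ∀ e ∈ P, σ e ∈ P := by
    intro σ e he
    obtain ⟨i, hi⟩ := (hP e).1 he
    refine (hP _).2 ⟨i, ?_⟩
    have h1 : aeval (σ e) (f i) = (σ.toAlgHom.restrictScalars A) (aeval e (f i)) := by
      rw [← Polynomial.aeval_algHom_apply]
      rfl
    rw [h1, hi, map_zero]
  have hPine : ∀ (σ : algebraicClosure k Ω ≃ₐ[k] algebraicClosure k Ω), Ine V σ →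
      ∀ e ∈ P, σ e = e := by
    intro σ hσ e he
    by_contra hne
    exact (hGP.2 _ (hPσ σ e he) e he hne).not_nonunit (hσ.2 e (hGP.1 e he))
  have hGB : Good V B := by
    rcases hcase' with ⟨-, -, h⟩ | ⟨-, e0, he0, -, hB⟩
    · rw [h]
      exact hGP
    · refine ⟨fun b hb => ?_, fun b hb b' hb' hne => ?_⟩
      · obtain ⟨e, he, hne, rfl⟩ := (hB b).1 hb
        exact (hGP.2 e he e0 he0 hne).2.2
      · obtain ⟨e, he, hne1, rfl⟩ := (hB b).1 hb
        obtain ⟨e', he', hne2, rfl⟩ := (hB b').1 hb'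
        have hee : e' ≠ e := by
          rintro rfl
          exact hne rfl
        have h1 : (e - e0)⁻¹ - (e' - e0)⁻¹ = (e' - e) * ((e - e0)⁻¹ * (e' - e0)⁻¹) := by
          have h2 : e - e0 ≠ 0 := sub_ne_zero.2 hne1
          have h3 : e' - e0 ≠ 0 := sub_ne_zero.2 hne2
          field_simp
          ring
        rw [h1]
        exact (hGP.2 e' he' e he hee).mul
          ((hGP.2 e he e0 he0 hne1).inv.mul (hGP.2 e' he' e0 he0 hne2).inv)
  obtain ⟨E, hE⟩ : ∃ E : IntermediateField k (algebraicClosure k Ω),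
      E = IntermediateField.adjoin k (P : Set (algebraicClosure k Ω)) := ⟨_, rfl⟩
  have hPE : ∀ e ∈ P, e ∈ E := fun e he => by
    rw [hE]
    exact IntermediateField.subset_adjoin _ _ he
  have hEfin : FiniteDimensional k E := by
    rw [hE]
    haveI : Finite (P : Set (algebraicClosure k Ω)) := inferInstance
    exact IntermediateField.finiteDimensional_adjoin fun e _ => Algebra.IsIntegral.isIntegral e
  have hEnor : Normal k E := by
    rw [IntermediateField.normal_iff_forall_map_le']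
    intro σ
    rw [hE, IntermediateField.adjoin_map]
    refine IntermediateField.adjoin_le_iff.2 ?_
    rintro _ ⟨e, he, rfl⟩
    exact IntermediateField.subset_adjoin _ _ (hPσ σ e he)
  have hEine : ∀ σ : algebraicClosure k Ω ≃ₐ[k] algebraicClosure k Ω, Ine V σ →
      ∀ c ∈ E, σ c = c := by
    intro σ hσ c hc
    have h1 : E ≤ Pool.Agent.Y529.PS.IN.fixF σ := by
      rw [hE]
      exact IntermediateField.adjoin_le_iff.2 fun e he => hPine σ hσ e he
    exact h1 hc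
  have hBE : ∀ b ∈ B, b ∈ E := by
    intro b hb
    rcases hcase' with ⟨-, -, h⟩ | ⟨-, e0, he0, -, hB⟩
    · rw [h] at hb
      exact hPE b hb
    · obtain ⟨e, he, -, rfl⟩ := (hB b).1 hb
      exact inv_mem (sub_mem (hPE e he) (hPE e0 he0))
  -- the semilinear action
  have hX0M : X0 ∈ Mc ℓ k F Ω := by
    rw [mem_Mc, hX0]
    exact (geomPro ℓ k F Ω).algebraMap_mem x
  have hY0M : ∀ j, Y0 j ∈ Mc ℓ k F Ω := by
    intro j
    rw [mem_Mc, hY0]
    exact (geomPro ℓ k F Ω).algebraMap_mem (y j)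
  obtain ⟨s, hs'⟩ : ∃ s : (algebraicClosure k Ω ≃ₐ[k] algebraicClosure k Ω) →*
      RingAut (Mc ℓ k F Ω), ∀ σ z, eqM ℓ k F Ω (s σ z) = S σ (eqM ℓ k F Ω z) :=
    ⟨conjSec (eqM ℓ k F Ω) S, fun σ z => conjSec_apply (eqM ℓ k F Ω) S σ z⟩
  have hconst : ∀ σ c, s σ (algebraMap (algebraicClosure k Ω) (Mc ℓ k F Ω) c) =
      algebraMap (algebraicClosure k Ω) (Mc ℓ k F Ω) (σ c) := by
    intro σ c
    apply (eqM ℓ k F Ω).injective
    rw [hs']
    exact Subtype.ext (hcompat σ c _ rfl)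
  have hbase : ∀ σ (z : F) (v : Mc ℓ k F Ω), (v : Ω) = algebraMap F Ω z → s σ v = v := by
    intro σ z v hv
    apply (eqM ℓ k F Ω).injective
    rw [hs']
    have h1 : eqM ℓ k F Ω v = algebraMap F (geomPro ℓ k F Ω) z := Subtype.ext hv
    rw [h1]
    exact (S σ).commutes z
  have hSL : SL k (algebraicClosure k Ω) (Mc ℓ k F Ω) s := by
    refine ⟨hconst, fun z => ?_⟩
    haveI : Algebra.IsIntegral F (geomPro ℓ k F Ω) := inferInstance
    obtain ⟨E', hE', hfix⟩ := cont_fix S hcont (eqM ℓ k F Ω z)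
    refine ⟨E', hE', fun σ hσ => (eqM ℓ k F Ω).injective ?_⟩
    rw [hs', hfix σ hσ]
  have hXfix : ∀ σ, s σ ⟨X0, hX0M⟩ = ⟨X0, hX0M⟩ := fun σ => hbase σ x _ hX0
  have hx'M : x' ∈ Mc ℓ k F Ω := by
    rcases hcase' with ⟨-, h, -⟩ | ⟨-, e0, he0, h, -⟩
    · rw [h]; exact hX0M
    · rw [h]
      exact inv_mem (sub_mem hX0M ((Mc ℓ k F Ω).algebraMap_mem e0))
  have hx'fix : ∀ σ ∈ E.fixingSubgroup, ∀ z : Mc ℓ k F Ω, (z : Ω) = x' → s σ z = z := by
    intro σ hσ z hz
    rcases hcase' with ⟨-, h, -⟩ | ⟨-, e0, he0, h, -⟩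
    · have h1 : z = ⟨X0, hX0M⟩ := Subtype.ext (hz.trans h)
      rw [h1, hXfix]
    · have h1 : z = ((⟨X0, hX0M⟩ : Mc ℓ k F Ω) - algebraMap (algebraicClosure k Ω) _ e0)⁻¹ :=
        Subtype.ext (hz.trans h)
      have h2 : σ e0 = e0 := (IntermediateField.mem_fixingSubgroup_iff _ _).1 hσ e0 (hPE e0 he0)
      rw [h1, map_inv₀, map_sub, hXfix, hconst, h2]
  have htr : ∀ e : algebraicClosure k Ω, X0 - algebraMap (algebraicClosure k Ω) Ω e ≠ 0 := by
    intro e he
    apply trans_up hX0t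
    rw [sub_eq_zero.1 he]
    exact isAlgebraic_algebraMap _
  have habv : ∀ W : ValuationSubring (Mc ℓ k F Ω),
      (∀ c : algebraicClosure k Ω, algebraMap _ (Mc ℓ k F Ω) c ∈ W) →
      (Abv x' B W ↔ AbvP ⟨X0, hX0M⟩ P Inf W) := fun W hW =>
    abv_iff hX0M hx'M htr hcase' hW
  have hstab : ∀ (σ : algebraicClosure k Ω ≃ₐ[k] algebraicClosure k Ω)
      (W : ValuationSubring (Mc ℓ k F Ω)),
      (∀ c : algebraicClosure k Ω, algebraMap _ (Mc ℓ k F Ω) c ∈ W) → Abv x' B W →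
      Abv x' B (W.comap ((s σ : Mc ℓ k F Ω ≃+* Mc ℓ k F Ω) : Mc ℓ k F Ω →+* Mc ℓ k F Ω)) := by
    intro σ W hW h
    rw [habv W hW] at h
    rw [habv _ (fun c => by
      rw [ValuationSubring.mem_comap]
      change s σ _ ∈ W
      rw [hconst]
      exact hW _)]
    refine h.comap (s σ) (σ : algebraicClosure k Ω ≃+* algebraicClosure k Ω) (fun c => hconst σ c)
      (hXfix σ) fun e he => ?_
    exact hPσ σ.symm e he
  -- an inertia element which moves some `T b`
  have hnt : ∃ b ∈ B, ∃ σ : algebraicClosure k Ω ≃ₐ[k] algebraicClosure k Ω, Ine V σ ∧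
      ∃ z : Mc ℓ k F Ω, (z : Ω) = T b ∧ s σ z ≠ z := by
    by_contra hno
    push Not at hno
    obtain ⟨δ, u, hδe, huG, hδS⟩ := hδ j0
    have hu := huG {v | IsU V v ∧ ∀ σ : algebraicClosure k Ω ≃ₐ[k] algebraicClosure k Ω,
        Ine V σ → σ v = v} ⟨isU_one, fun σ _ => map_one σ⟩
      (fun a ha a' ha' => ⟨ha.1.mul ha'.1, fun σ hσ => by rw [map_mul, ha.2 σ hσ, ha'.2 σ hσ]⟩)
      (fun a ha => ⟨ha.1.inv, fun σ hσ => by rw [map_inv₀, ha.2 σ hσ]⟩)
      (fun e he e' he' hne => ⟨hGP.2 e he e' he' hne, fun σ hσ => by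
        rw [map_sub, hPine σ hσ e he, hPine σ hσ e' he']⟩)
    obtain ⟨σ, hσ, hσδ⟩ := tam ℓ A k (algebraicClosure k Ω) V hℓ hVa hVm ϖ t m hϖ ht hm δ
      ((Lc j0)⁻¹ * u) ((hLcU j0).inv.mul hu.1)
      (fun σ hσ => by rw [map_mul, map_inv₀, hLcσ σ j0, hu.2 σ hσ])
      (by
        rw [hδe, hc]
        change algebraMap k (algebraicClosure k Ω) (d j0) * (Lc j0)⁻¹ * u = _
        rw [hdj, map_mul, map_zpow₀, ← IsScalarTower.algebraMap_apply,
          ← IsScalarTower.algebraMap_apply, mul_assoc])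
    apply hσδ
    have hσE : σ ∈ E.fixingSubgroup :=
      (IntermediateField.mem_fixingSubgroup_iff _ _).2 fun c hc => hEine σ hσ c hc
    have hTM : ∀ b ∈ B, T b ∈ Mc ℓ k F Ω := by
      intro b hb
      have hTb0 : T b ≠ 0 := by
        intro h0
        have h1 := hR.root b hb
        rw [h0, zero_pow hℓp.ne_zero] at h1
        apply hR.tr
        rw [sub_eq_zero.1 h1.symm]
        exact isAlgebraic_algebraMap _
      rw [hFld.mem b hb ((∏ e ∈ B, T e) / T b) (div_mul_cancel₀ _ hTb0)]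
      exact (maxPro ℓ (algebraicClosure k Ω) (KY (algebraicClosure k Ω) (T b)
        ((∏ e ∈ B, T e) / T b)) Ω).algebraMap_mem ⟨T b, IntermediateField.algebraMap_mem _
          (⟨T b, IntermediateField.mem_adjoin_simple_self _ _⟩ :
            IntermediateField.adjoin (algebraicClosure k Ω) {T b})⟩
    obtain ⟨v, hv, hvs⟩ := hδS (fixOne (s σ)) ⟨⟨x', hx'M⟩, rfl, hx'fix σ hσE _ rfl⟩
      (fun b hb => ⟨⟨T b, hTM b hb⟩, rfl, hno b hb σ hσ _ rfl⟩)
    have h1 : v = algebraMap (algebraicClosure k Ω) (Mc ℓ k F Ω) δ * ⟨Y0 j0, hY0M j0⟩ :=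
      Subtype.ext hv
    have h2 : s σ ⟨Y0 j0, hY0M j0⟩ = ⟨Y0 j0, hY0M j0⟩ := hbase σ (y j0) _ (congrFun hY0 j0)
    rw [h1, map_mul, h2, hconst] at hvs
    have h3 : (⟨Y0 j0, hY0M j0⟩ : Mc ℓ k F Ω) ≠ 0 := by
      intro h4
      have h5 : Y0 j0 = 0 := congrArg Subtype.val h4
      have h6 := hxyΩ j0
      rw [h5, zero_pow hℓp.ne_zero, mul_zero] at h6
      obtain ⟨e, -, he⟩ := Finset.prod_eq_zero_iff.1 h6.symm
      exact pow_ne_zero _ (htr e) he
    exact (algebraMap (algebraicClosure k Ω) (Mc ℓ k F Ω)).injective (mul_right_cancel₀ h3 hvs)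
  obtain ⟨W, ⟨h1, h2, h3, h4⟩, hun⟩ := hGLOB ℓ A k (algebraicClosure k Ω) Ω V hℓ hVa hVm hdec x' B T
    (Mc ℓ k F Ω) hFld hGB E hEfin hEnor hBE hEine s hSL hx'fix hstab hnt
  -- transport to the Galois group of `geomPro`
  have hAB : ∀ W' : ValuationSubring (geomPro ℓ k F Ω),
      (∀ c : k, algebraMap F (geomPro ℓ k F Ω) (algebraMap k F c) ∈ W') →
      (AB Inf (∏ i, aeval x ((f i).map (algebraMap A k))) x W' ↔
        Abv x' B (W'.comap ((eqM ℓ k F Ω : Mc ℓ k F Ω ≃+* geomPro ℓ k F Ω) :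
          Mc ℓ k F Ω →+* geomPro ℓ k F Ω))) := by
    intro W' hW'
    have hcW : ∀ c : algebraicClosure k Ω, eqM ℓ k F Ω (algebraMap _ (Mc ℓ k F Ω) c) ∈ W' :=
      fun c => const_mem_N _ W' hW' c _ rfl
    have hcomap := habv (W'.comap ((eqM ℓ k F Ω : Mc ℓ k F Ω ≃+* geomPro ℓ k F Ω) :
          Mc ℓ k F Ω →+* geomPro ℓ k F Ω)) (fun c => hcW c)
    rw [hcomap]
    unfold AB AbvP
    have hXe : algebraMap F (geomPro ℓ k F Ω) x⁻¹ = eqM ℓ k F Ω (⟨X0, hX0M⟩ : Mc ℓ k F Ω)⁻¹ := by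
      apply Subtype.ext
      change algebraMap F Ω x⁻¹ = X0⁻¹
      rw [hX0, map_inv₀]
    obtain ⟨C0, hC0⟩ : ∃ C0 : algebraicClosure k Ω,
        C0 = ∏ i, algebraMap A (algebraicClosure k Ω) (f i).leadingCoeff ^ (1 : ℕ) := ⟨_, rfl⟩
    have hprodN : algebraMap F (geomPro ℓ k F Ω) (∏ i, aeval x ((f i).map (algebraMap A k))) =
        ((eqM ℓ k F Ω : Mc ℓ k F Ω →+* geomPro ℓ k F Ω).comp
          (algebraMap (algebraicClosure k Ω) (Mc ℓ k F Ω))) C0 *
        ∏ e ∈ P, (eqM ℓ k F Ω ⟨X0, hX0M⟩ -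
          ((eqM ℓ k F Ω : Mc ℓ k F Ω →+* geomPro ℓ k F Ω).comp
            (algebraMap (algebraicClosure k Ω) (Mc ℓ k F Ω))) e) := by
      apply (algebraMap (geomPro ℓ k F Ω) Ω).injective
      have h5 : algebraMap (geomPro ℓ k F Ω) Ω
          (algebraMap F (geomPro ℓ k F Ω) (∏ i, aeval x ((f i).map (algebraMap A k)))) =
          algebraMap F Ω (∏ i, aeval x ((f i).map (algebraMap A k))) := rfl
      have h6 := hprod Ω (fun _ => 1) X0
      rw [← hC0] at h6
      simp only [pow_one] at h6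
      have h7 : algebraMap F Ω (∏ i, aeval x ((f i).map (algebraMap A k))) =
          algebraMap (algebraicClosure k Ω) Ω C0 *
            ∏ e ∈ P, (X0 - algebraMap (algebraicClosure k Ω) Ω e) := by
        rw [map_prod]
        simp only [hev]
        rw [h6]
        congr 1
        refine Finset.prod_congr rfl fun e he => ?_
        obtain ⟨i, hi⟩ := (hP e).1 he
        rw [hwt e i _ hi, pow_one]
      rw [h5, h7, map_mul, map_prod (algebraMap (geomPro ℓ k F Ω) Ω)]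
      rfl
    rw [hprodN, prod_non W' _ (fun c => hcW c) _ ?_ P ?_, hXe]
    · simp only [comap_non]
      rfl
    · intro e he
      exact htr e (congrArg (fun z : geomPro ℓ k F Ω => (z : Ω)) he)
    · rw [hC0]
      refine Finset.prod_ne_zero_iff.2 fun i _ => ?_
      rw [pow_one]
      exact (hlcU i).1
  have hmem : ∀ z, z ∈ W.comap ((eqM ℓ k F Ω).symm : geomPro ℓ k F Ω →+* Mc ℓ k F Ω) ↔
      (eqM ℓ k F Ω).symm z ∈ W := fun z => Iff.rfl
  have hcomm : ∀ σ z, (eqM ℓ k F Ω).symm (S σ z) = s σ ((eqM ℓ k F Ω).symm z) := by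
    intro σ z
    apply (eqM ℓ k F Ω).injective
    rw [hs', RingEquiv.apply_symm_apply, RingEquiv.apply_symm_apply]
  refine ⟨W.comap ((eqM ℓ k F Ω).symm : geomPro ℓ k F Ω →+* Mc ℓ k F Ω), ⟨?_, ?_, ?_, ?_⟩, ?_⟩
  · intro c
    rw [hmem]
    have h5 : (eqM ℓ k F Ω).symm (algebraMap F (geomPro ℓ k F Ω) (algebraMap k F c)) =
        algebraMap (algebraicClosure k Ω) (Mc ℓ k F Ω) (algebraMap k (algebraicClosure k Ω) c) :=
      Subtype.ext (IsScalarTower.algebraMap_apply k F Ω c).symm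
    rw [h5]
    exact h1 _
  · intro z hz
    obtain ⟨c, hc⟩ := h2 _ hz
    refine ⟨c, eqM ℓ k F Ω ((eqM ℓ k F Ω).symm z - algebraMap _ _ c), ?_, rfl⟩
    rw [comap_non, RingEquiv.symm_apply_apply]
    exact hc
  · rw [hAB]
    · exact h3
    · intro c
      rw [hmem]
      have h5 : (eqM ℓ k F Ω).symm (algebraMap F (geomPro ℓ k F Ω) (algebraMap k F c)) =
          algebraMap (algebraicClosure k Ω) (Mc ℓ k F Ω) (algebraMap k (algebraicClosure k Ω) c) :=
        Subtype.ext (IsScalarTower.algebraMap_apply k F Ω c).symm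
      rw [h5]
      exact h1 _
  · intro σ z
    rw [hmem, hmem, hcomm]
    exact h4 σ trivial _
  · intro W' hW' hAB' hst
    have h5 := hun (W'.comap ((eqM ℓ k F Ω : Mc ℓ k F Ω ≃+* geomPro ℓ k F Ω) :
          Mc ℓ k F Ω →+* geomPro ℓ k F Ω)) (fun c => const_mem_N _ W' hW' c _ rfl)
      ((hAB W' hW').1 hAB') (fun σ _ z => by
        change eqM ℓ k F Ω (s σ z) ∈ W' ↔ eqM ℓ k F Ω z ∈ W'
        rw [hs']
        exact hst σ _)
    rw [← h5]
    ext z
    change z ∈ W' ↔ eqM ℓ k F Ω ((eqM ℓ k F Ω).symm z) ∈ W'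
    rw [RingEquiv.apply_symm_apply]

end main

end Pool.Agent.H93S
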