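import Pool.Agent.H93S.Stm

/-!
# SC, piece H90 (helper31): Hilbert 90 for continuous cocycles
-/

set_option autoImplicit false
set_option linter.all false

open scoped Topology

namespace Pool.Agent.H93S

theorem h90 : S_H90 := by
  intro k κ _ _ _ _ _ χ hχ0 hmul hE0
  obtain ⟨E₀, hE₀, hχE⟩ := hE0
  have hac : IsAlgClosed κ := IsAlgClosure.isAlgClosed k
  have halg : Algebra.IsAlgebraic k κ := IsAlgClosure.isAlgebraic
  have hnor : Normal k κ := IsAlgClosure.normal k κ
  have hgal : IsGalois k κ := ⟨⟩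
  let E : IntermediateField k κ := IntermediateField.normalClosure k E₀ κ
  have hEn : Normal k E := normalClosure.normal k E₀ κ
  have hEf : FiniteDimensional k E := normalClosure.is_finiteDimensional k E₀ κ
  have hEE : E₀ ≤ E := E₀.le_normalClosure
  let r : (κ ≃ₐ[k] κ) → (E ≃ₐ[k] E) := fun σ => σ.restrictNormal E
  let l : (E ≃ₐ[k] E) → (κ ≃ₐ[k] κ) := fun τ => τ.liftNormal κ
  have hr : ∀ (σ : κ ≃ₐ[k] κ) (x : E), ((r σ x : E) : κ) = σ x := fun σ x =>
    AlgEquiv.restrictNormal_commutes σ E x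
  have hl : ∀ (τ : E ≃ₐ[k] E) (x : E), l τ (x : κ) = ((τ x : E) : κ) := fun τ x =>
    AlgEquiv.liftNormal_commutes τ κ x
  have hker : ∀ σ σ' : κ ≃ₐ[k] κ, (∀ x : E, σ (x : κ) = σ' (x : κ)) → χ σ = χ σ' := by
    intro σ σ' hx
    have h3 : χ (σ⁻¹ * σ') = 1 := by
      apply hχE
      rw [IntermediateField.mem_fixingSubgroup_iff]
      intro x hxE
      rw [AlgEquiv.mul_apply, ← hx ⟨x, hEE hxE⟩, ← AlgEquiv.mul_apply, inv_mul_cancel]
      rfl
    have h4 := hmul σ (σ⁻¹ * σ')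
    rw [← mul_assoc, mul_inv_cancel, one_mul, h3, map_one, mul_one] at h4
    exact h4.symm
  have hone : ∀ τ : κ ≃ₐ[k] κ, τ ∈ E.fixingSubgroup → χ τ = 1 := by
    intro τ hτ
    apply hχE
    rw [IntermediateField.mem_fixingSubgroup_iff] at hτ ⊢
    exact fun x hx => hτ x (hEE hx)
  have hmem : ∀ σ : κ ≃ₐ[k] κ, χ σ ∈ E := by
    intro σ
    have h1 : χ σ ∈ IntermediateField.fixedField E.fixingSubgroup := by
      rw [IntermediateField.mem_fixedField_iff]
      intro τ hτ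
      have h2 := hmul τ σ
      rw [hone τ hτ, one_mul] at h2
      rw [← h2]
      apply hker
      intro x
      rw [AlgEquiv.mul_apply, ← hr]
      exact (IntermediateField.mem_fixingSubgroup_iff _ _).1 hτ _ (r σ x).2
    rwa [InfiniteGalois.fixedField_fixingSubgroup] at h1
  let f : (E ≃ₐ[k] E) → Eˣ := fun τ =>
    Units.mk0 ⟨χ (l τ), hmem (l τ)⟩ (fun h => hχ0 (l τ) (congrArg (fun y : E => (y : κ)) h))
  have hf : groupCohomology.IsMulCocycle₁ f := by
    intro τ τ'
    apply Units.ext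
    apply Subtype.ext
    have h1 : χ (l (τ * τ')) = χ (l τ * l τ') := by
      apply hker
      intro x
      rw [hl, AlgEquiv.mul_apply, AlgEquiv.mul_apply, hl, hl]
    show χ (l (τ * τ')) = ((τ ⟨χ (l τ'), hmem (l τ')⟩ : E) : κ) * χ (l τ)
    rw [h1, hmul, ← hl, mul_comm]
  obtain ⟨x, hx⟩ := groupCohomology.isMulCoboundary₁_of_isMulCocycle₁_of_aut_to_units f hf
  have hx0 : ((x : E) : κ) ≠ 0 := by
    intro h0
    have : (x : E) = 0 := Subtype.ext h0
    exact x.ne_zero this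
  refine ⟨((x : E) : κ), hx0, fun σ => ?_⟩
  have h3 := hx (r σ)
  rw [div_eq_iff_eq_mul] at h3
  have h4 : r σ (x : E) = ⟨χ (l (r σ)), hmem (l (r σ))⟩ * (x : E) := congrArg Units.val h3
  have h5 : χ (l (r σ)) = χ σ := by
    apply hker
    intro y
    rw [hl, hr]
  have h6 := congrArg (fun y : E => (y : κ)) h4
  have h7 : ((r σ (x : E) : E) : κ) = χ (l (r σ)) * ((x : E) : κ) := h6
  rw [hr, h5] at h7
  rw [h7, mul_div_cancel_right₀ _ hx0]

end Pool.Agent.H93S
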