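import Pool.Agent.H93S.Stm
import Pool.Agent.R925.L.Dvr

/-!
# SC, piece GLOB (helper31): descent from a finite Galois extension
-/

set_option autoImplicit false
set_option linter.all false

open Polynomial FF

namespace Pool.Agent.H93S

open Pool.Agent.Y157.PS Pool.Agent.Y948.PS

namespace Glob

variable {k κ : Type} [Field k] [Field κ] [Algebra k κ]

/-- the automorphisms that fix `E` -/
lemma exists_res (E : IntermediateField k κ) (σ : κ ≃ₐ[k] κ) (h : ∀ c ∈ E, σ c = c) :
    ∃ σ' : κ ≃ₐ[E] κ, σ'.restrictScalars k = σ := by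
  refine ⟨AlgEquiv.ofRingEquiv (f := σ.toRingEquiv) fun r => h r r.2, ?_⟩
  ext x
  rfl

lemma res_fix (E : IntermediateField k κ) (σ : κ ≃ₐ[E] κ) :
    σ.restrictScalars k ∈ E.fixingSubgroup := by
  rw [IntermediateField.mem_fixingSubgroup_iff]
  intro x hx
  exact σ.commutes ⟨x, hx⟩

/-- the homomorphism `Gal(κ/E) → Gal(κ/k)` -/
def resH (E : IntermediateField k κ) : (κ ≃ₐ[E] κ) →* (κ ≃ₐ[k] κ) where
  toFun σ := σ.restrictScalars k
  map_one' := by ext x; rfl
  map_mul' σ τ := by ext x; rfl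

lemma conj_mem (E : IntermediateField k κ) (hE : Normal k E) (g σ : κ ≃ₐ[k] κ)
    (hσ : ∀ c ∈ E, σ c = c) : ∀ c ∈ E, (g * σ * g⁻¹) c = c := by
  intro c hc
  have h1 : g⁻¹ c ∈ E := by
    have h2 := AlgEquiv.restrictNormal_commutes g⁻¹ E ⟨c, hc⟩
    have h3 : algebraMap E κ ((g⁻¹.restrictNormal E) ⟨c, hc⟩) = g⁻¹ c := h2
    rw [← h3]
    exact ((g⁻¹.restrictNormal E) ⟨c, hc⟩).2
  rw [AlgEquiv.mul_apply, AlgEquiv.mul_apply, hσ _ h1, ← AlgEquiv.mul_apply, mul_inv_cancel,
    AlgEquiv.one_apply]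

end Glob

open Glob

theorem glob (h : S_LOCB) : S_GLOB := by
  intro ℓ _ A k κ Ω _ _ _ _ _ _ _ _ _ _ _ _ _ _ _ _ V hℓ hAV hmV hDec x B T M hFld hGood E hEf hEn
    hBE hIE s hs hsx hAbv hex
  -- the valuation ring of `E`
  let O : ValuationSubring E := V.comap (algebraMap E κ)
  letI algAE : Algebra A E := ((algebraMap k E).comp (algebraMap A k)).toAlgebra
  haveI tAE : IsScalarTower A k E := IsScalarTower.of_algebraMap_eq fun a => rfl
  have hAE : ∀ a : A, ((algebraMap A E a : E) : κ) = algebraMap A κ a := by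
    intro a
    rw [IsScalarTower.algebraMap_apply A k κ]
    rfl
  have hOmem : ∀ z : E, z ∈ O ↔ (z : κ) ∈ V := fun z => Iff.rfl
  have hnon : ∀ z : E, (z ∈ O.nonunits ↔ (z : κ) ∈ V.nonunits) := by
    intro z
    rw [ValuationSubring.mem_nonunits_iff_or, ValuationSubring.mem_nonunits_iff_or]
    constructor
    · rintro (h1 | h1)
      · left
        rw [h1]
        rfl
      · right
        intro h2
        exact h1 h2
    · rintro (h1 | h1)
      · left
        exact Subtype.ext h1
      · right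
        intro h2
        exact h1 h2
  obtain ⟨hDVR, hRes⟩ := Pool.Agent.R925.L.dvr_ext (A := A) (k := k) (E := E) O (fun a => by
    rw [hOmem, hAE]
    exact hAV a) (fun a ha => by
    have h1 : algebraMap A E a ∈ O.nonunits := by
      rw [hnon, hAE]
      exact hmV a ha
    exact (ValuationSubring.mem_nonunits_iff O).1 h1)
  letI algOκ : Algebra O κ := ((algebraMap E κ).comp (algebraMap O E)).toAlgebra
  haveI tO : IsScalarTower O E κ := IsScalarTower.of_algebraMap_eq fun a => rfl
  have hac : IsAlgClosed κ := IsAlgClosure.isAlgClosed k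
  have halg : Algebra.IsAlgebraic k κ := IsAlgClosure.isAlgebraic
  have halgE : Algebra.IsAlgebraic E κ := Algebra.IsAlgebraic.tower_top (K := k) E
  haveI hcl : IsAlgClosure E κ := ⟨hac, halgE⟩
  haveI : CharZero E := charZero_of_injective_algebraMap (algebraMap k E).injective
  have hℓO : IsUnit (ℓ : O) := by
    obtain ⟨b, hb⟩ := hℓ.exists_right_inv
    have h1 : algebraMap A κ b ∈ V := hAV b
    have h2 : (ℓ : κ) * algebraMap A κ b = 1 := by
      rw [← map_natCast (algebraMap A κ), ← map_mul, hb, map_one]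
    refine IsUnit.of_mul_eq_one (⟨algebraMap A E b, by rw [hOmem, hAE]; exact h1⟩ : O) ?_
    apply Subtype.ext
    apply Subtype.ext
    show ((((ℓ : O) : E) * algebraMap A E b : E) : κ) = 1
    rw [← h2]
    push_cast
    rw [hAE]
  let s' : (κ ≃ₐ[E] κ) →* RingAut M := s.comp (resH E)
  have hs' : ∀ σ, s' σ = s (σ.restrictScalars k) := fun σ => rfl
  have hSL : SL E κ M s' := by
    refine ⟨fun σ c => ?_, fun z => ?_⟩
    · rw [hs', hs.const]
      rfl
    · obtain ⟨E₁, hE₁, hz⟩ := hs.cont z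
      let E₂ : IntermediateField E κ := IntermediateField.extendScalars (le_sup_left : E ≤ E ⊔ E₁)
      have hf0 : FiniteDimensional k ↥(E ⊔ E₁) := IntermediateField.finiteDimensional_sup E E₁
      have hf1 : FiniteDimensional k ↥E₂ := hf0
      have hf2 : FiniteDimensional E ↥E₂ := Module.Finite.of_restrictScalars_finite k E E₂
      refine ⟨E₂, hf2, fun σ hσ => ?_⟩
      rw [hs']
      apply hz
      rw [IntermediateField.mem_fixingSubgroup_iff] at hσ ⊢
      intro y hy
      exact hσ y ((le_sup_right : E₁ ≤ E ⊔ E₁) hy)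
  obtain ⟨W, ⟨hWc, hWr, hWa, hWf⟩, hWu⟩ := h ℓ O E κ Ω V hℓO (fun a => a.2) (fun a ha => by
      rw [IsLocalRing.mem_maximalIdeal, mem_nonunits_iff] at ha
      have h1 : (a : E) ∈ O.nonunits := by
        rw [ValuationSubring.mem_nonunits_iff, ← not_le]
        intro h2
        apply ha
        have h3 : O.valuation (a : E) = 1 := le_antisymm ((O.valuation_le_one_iff _).2 a.2) h2
        exact (O.valuation_eq_one_iff a).2 h3
      exact (hnon a).1 h1) x B T M hFld hGood
    (fun b hb => ⟨⟨b, hBE b hb⟩, rfl⟩) s' hSL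
    (fun σ z hz => by
      rw [hs']
      exact hsx _ (res_fix E σ) z hz) (by
      obtain ⟨b, hb, σ, hσ, z, hz, hne⟩ := hex
      obtain ⟨σ', hσ'⟩ := exists_res E σ (hIE σ hσ)
      refine ⟨b, hb, σ', ?_, z, hz, ?_⟩
      · have h1 : ∀ w, σ' w = σ w := fun w => by rw [← hσ']; rfl
        exact ⟨fun w => by rw [h1]; exact hσ.1 w, fun w hw => by rw [h1]; exact hσ.2 w hw⟩
      · rw [hs', hσ']
        exact hne)
  have hdec : ∀ σ : κ ≃ₐ[E] κ, Dec V σ := fun σ => hDec (σ.restrictScalars k)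
  refine ⟨W, ⟨hWc, hWr, hWa, fun g _ => ?_⟩, fun W' h1 h2 h3 => ?_⟩
  · have key : W.comap ((s g : M ≃+* M) : M →+* M) = W := by
      refine hWu _ (fun c => ?_) (hAbv g W hWc hWa) (fun σ _ z => ?_)
      · show s g (algebraMap κ M c) ∈ W
        rw [hs.const]
        exact hWc _
      · show s g (s' σ z) ∈ W ↔ s g z ∈ W
        obtain ⟨σ', hσ'⟩ := exists_res E (g * σ.restrictScalars k * g⁻¹)
          (conj_mem E hEn g _ fun c hc => σ.commutes ⟨c, hc⟩)
        have h1 : s g (s' σ z) = s' σ' (s g z) := by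
          rw [hs', hs', hσ', ← RingAut.mul_apply, ← RingAut.mul_apply, ← map_mul, ← map_mul,
            inv_mul_cancel_right]
        rw [h1]
        exact hWf σ' (hdec σ') (s g z)
    intro z
    have h1 : z ∈ W.comap ((s g : M ≃+* M) : M →+* M) ↔ z ∈ W := by rw [key]
    exact h1
  · exact hWu W' h1 h2 fun σ _ z => h3 (σ.restrictScalars k) trivial z

end Pool.Agent.H93S
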