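import Pool.Agent.H93S.Gcom
import Pool.Agent.H93S.Glob

/-!
# Project SC: inertia elements which do not commute with the geometric group move a radical
-/

set_option autoImplicit false
set_option linter.all false

open Polynomial FF

namespace Pool.Agent.H93S

open Pool.Agent.Y157.PS Pool.Agent.Y948.PS Glob

/-- the fixed field of a subgroup which contains the fixing subgroup of a finite extension -/
theorem open_fix {k κ : Type} [Field k] [Field κ] [Algebra k κ] [IsGalois k κ]
    (H : Subgroup (κ ≃ₐ[k] κ)) (E₁ : IntermediateField k κ) (hE₁ : FiniteDimensional k E₁)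
    (hH : E₁.fixingSubgroup ≤ H) :
    ∃ E : IntermediateField k κ, FiniteDimensional k E ∧ ∀ σ, σ ∈ H ↔ ∀ c ∈ E, σ c = c := by
  have ho : IsOpen (H : Set (κ ≃ₐ[k] κ)) :=
    Subgroup.isOpen_mono hH E₁.fixingSubgroup_isOpen
  have hcl : IsClosed (H : Set (κ ≃ₐ[k] κ)) := Subgroup.isClosed_of_isOpen H ho
  refine ⟨IntermediateField.fixedField H, ?_, fun σ => ?_⟩
  · have h1 : IntermediateField.fixedField H ≤ E₁ := by
      have h2 : IntermediateField.fixedField H ≤ IntermediateField.fixedField E₁.fixingSubgroup := by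
        intro z hz
        rw [IntermediateField.mem_fixedField_iff] at hz ⊢
        exact fun σ hσ => hz σ (hH hσ)
      rwa [InfiniteGalois.fixedField_fixingSubgroup] at h2
    exact FiniteDimensional.of_injective (IntermediateField.inclusion h1).toLinearMap
      (IntermediateField.inclusion h1).injective
  · have h1 := InfiniteGalois.fixingSubgroup_fixedField (⟨H, hcl⟩ : ClosedSubgroup (κ ≃ₐ[k] κ))
    have h2 : (IntermediateField.fixedField H).fixingSubgroup = H := h1
    constructor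
    · intro hσ c hc
      rw [← h2] at hσ
      exact (IntermediateField.mem_fixingSubgroup_iff _ _).1 hσ c hc
    · intro h
      rw [← h2]
      exact (IntermediateField.mem_fixingSubgroup_iff _ _).2 h

/-- a finite set of elements is fixed by an open subgroup -/
theorem SL.cont_set {k κ M : Type} [Field k] [Field κ] [Field M] [Algebra k κ] [Algebra κ M]
    {s : (κ ≃ₐ[k] κ) →* RingAut M} (hs : SL k κ M s) (S : Finset M) :
    ∃ E : IntermediateField k κ, FiniteDimensional k E ∧
      ∀ σ ∈ E.fixingSubgroup, ∀ z ∈ S, s σ z = z := by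
  classical
  induction S using Finset.induction_on with
  | empty => exact ⟨⊥, inferInstance, fun σ _ z hz => absurd hz (Finset.notMem_empty z)⟩
  | insert a S ha ih =>
    obtain ⟨E, hE, h⟩ := ih
    obtain ⟨E', hE', h'⟩ := hs.cont a
    refine ⟨E ⊔ E', IntermediateField.finiteDimensional_sup E E', fun σ hσ z hz => ?_⟩
    rw [IntermediateField.mem_fixingSubgroup_iff] at hσ
    rcases Finset.mem_insert.1 hz with rfl | hz
    · exact h' σ ((IntermediateField.mem_fixingSubgroup_iff _ _).2 fun c hc =>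
        hσ c ((le_sup_right : E' ≤ E ⊔ E') hc))
    · exact h σ ((IntermediateField.mem_fixingSubgroup_iff _ _).2 fun c hc =>
        hσ c ((le_sup_left : E ≤ E ⊔ E') hc)) z hz

theorem moves {ℓ : ℕ} [Fact ℓ.Prime] {A k κ Ω : Type} [CommRing A] [IsDomain A]
    [IsDiscreteValuationRing A] [Finite (IsLocalRing.ResidueField A)] [Field k] [CharZero k]
    [Algebra A k] [IsFractionRing A k] [Field κ] [Algebra k κ] [Algebra A κ]
    [IsScalarTower A k κ] [IsAlgClosure k κ] [Field Ω] [IsAlgClosed Ω] [Algebra κ Ω]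
    (V : ValuationSubring κ) (hℓ : IsUnit (ℓ : A)) (hAV : ∀ a : A, algebraMap A κ a ∈ V)
    (hmV : ∀ a ∈ IsLocalRing.maximalIdeal A, algebraMap A κ a ∈ V.nonunits)
    {x : Ω} {B : Finset κ} {T : κ → Ω} {M : IntermediateField κ Ω} (hF : Fld ℓ x B T M)
    (hG : Good V B) {s : (κ ≃ₐ[k] κ) →* RingAut M} (hs : SL k κ M s)
    (E : IntermediateField k κ) (hEf : FiniteDimensional k E)
    (σ : κ ≃ₐ[k] κ) (hσ : Ine V σ) (hσE : ∀ c ∈ E, σ c = c)
    (γ : M ≃+* M) (hγ : ∀ c : κ, γ (algebraMap κ M c) = algebraMap κ M c)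
    (hγx : ∀ z : M, (z : Ω) = x → γ z = z) (z₀ : M) (hne : s σ (γ z₀) ≠ γ (s σ z₀)) :
    ∃ b ∈ B, ∃ σ : κ ≃ₐ[k] κ, Ine V σ ∧ (∀ c ∈ E, σ c = c) ∧
      ∃ z : M, (z : Ω) = T b ∧ s σ z ≠ z := by
  classical
  by_contra hno
  push Not at hno
  apply hne
  have hℓp : ℓ.Prime := Fact.out
  have hℓ0 := hℓp.ne_zero
  have hac : IsAlgClosed κ := IsAlgClosure.isAlgClosed k
  have halg : Algebra.IsAlgebraic k κ := IsAlgClosure.isAlgebraic
  have hN : Normal k κ := IsAlgClosure.normal k κ
  have hGal : IsGalois k κ := ⟨⟩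
  have hTM : ∀ e ∈ B, T e ∈ M := fun e he => hF.T_mem hℓ0 he
  -- the subgroup
  let H : Subgroup (κ ≃ₐ[k] κ) :=
    { carrier := {τ | (∀ c ∈ E, τ c = c) ∧ ∀ b ∈ B, ∀ z : M, (z : Ω) = T b → s τ z = z}
      mul_mem' := by
        rintro τ τ' ⟨h1, h2⟩ ⟨h3, h4⟩
        refine ⟨fun c hc => ?_, fun b hb z hz => ?_⟩
        · rw [AlgEquiv.mul_apply, h3 c hc, h1 c hc]
        · rw [map_mul, RingAut.mul_apply, h4 b hb z hz, h2 b hb z hz]
      one_mem' := ⟨fun c _ => rfl, fun b hb z hz => by rw [map_one]; rfl⟩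
      inv_mem' := by
        rintro τ ⟨h1, h2⟩
        refine ⟨fun c hc => ?_, fun b hb z hz => ?_⟩
        · conv_lhs => rw [← h1 c hc]
          rw [← AlgEquiv.mul_apply, inv_mul_cancel, AlgEquiv.one_apply]
        · conv_lhs => rw [← h2 b hb z hz]
          rw [← RingAut.mul_apply, ← map_mul, inv_mul_cancel, map_one, RingAut.one_apply] }
  obtain ⟨S, hS⟩ : ∃ S : Finset M, ∀ b (hb : b ∈ B), (⟨T b, hTM b hb⟩ : M) ∈ S :=
    ⟨B.attach.image fun e : {e // e ∈ B} => (⟨T e.1, hTM e.1 e.2⟩ : M), fun b hb =>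
      Finset.mem_image.2 ⟨⟨b, hb⟩, Finset.mem_attach _ _, rfl⟩⟩
  obtain ⟨E₀, hE₀, hfix₀⟩ := hs.cont_set S
  obtain ⟨E', hE'f, hE'⟩ := open_fix H (E ⊔ E₀) (IntermediateField.finiteDimensional_sup E E₀) (by
    intro τ hτ
    rw [IntermediateField.mem_fixingSubgroup_iff] at hτ
    refine ⟨fun c hc => hτ c ((le_sup_left : E ≤ E ⊔ E₀) hc), fun b hb z hz => ?_⟩
    have h1 : z = ⟨T b, hTM b hb⟩ := Subtype.ext hz
    rw [h1]
    exact hfix₀ τ ((IntermediateField.mem_fixingSubgroup_iff _ _).2 fun c hc =>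
      hτ c ((le_sup_right : E₀ ≤ E ⊔ E₀) hc)) _ (hS b hb))
  -- the valuation ring of `E'`
  let O : ValuationSubring E' := V.comap (algebraMap E' κ)
  letI algAE : Algebra A E' := ((algebraMap k E').comp (algebraMap A k)).toAlgebra
  haveI tAE : IsScalarTower A k E' := IsScalarTower.of_algebraMap_eq fun a => rfl
  have hAE : ∀ a : A, ((algebraMap A E' a : E') : κ) = algebraMap A κ a := by
    intro a
    rw [IsScalarTower.algebraMap_apply A k κ]
    rfl
  have hOmem : ∀ z : E', z ∈ O ↔ (z : κ) ∈ V := fun z => Iff.rfl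
  have hnon : ∀ z : E', (z ∈ O.nonunits ↔ (z : κ) ∈ V.nonunits) := by
    intro z
    rw [ValuationSubring.mem_nonunits_iff_or, ValuationSubring.mem_nonunits_iff_or]
    constructor
    · rintro (h1 | h1)
      · left
        rw [h1]
        rfl
      · right
        intro h2
        exact h1 h2
    · rintro (h1 | h1)
      · left
        exact Subtype.ext h1
      · right
        intro h2
        exact h1 h2
  obtain ⟨hDVR, hRes⟩ := Pool.Agent.R925.L.dvr_ext (A := A) (k := k) (E := E') O (fun a => by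
    rw [hOmem, hAE]
    exact hAV a) (fun a ha => by
    have h1 : algebraMap A E' a ∈ O.nonunits := by
      rw [hnon, hAE]
      exact hmV a ha
    exact (ValuationSubring.mem_nonunits_iff O).1 h1)
  letI algOκ : Algebra O κ := ((algebraMap E' κ).comp (algebraMap O E')).toAlgebra
  haveI tO : IsScalarTower O E' κ := IsScalarTower.of_algebraMap_eq fun a => rfl
  have halgE : Algebra.IsAlgebraic E' κ := Algebra.IsAlgebraic.tower_top (K := k) E'
  haveI hcl : IsAlgClosure E' κ := ⟨hac, halgE⟩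
  haveI : CharZero E' := charZero_of_injective_algebraMap (algebraMap k E').injective
  have hℓO : IsUnit (ℓ : O) := by
    obtain ⟨b, hb⟩ := hℓ.exists_right_inv
    have h1 : algebraMap A κ b ∈ V := hAV b
    have h2 : (ℓ : κ) * algebraMap A κ b = 1 := by
      rw [← map_natCast (algebraMap A κ), ← map_mul, hb, map_one]
    refine IsUnit.of_mul_eq_one (⟨algebraMap A E' b, by rw [hOmem, hAE]; exact h1⟩ : O) ?_
    apply Subtype.ext
    apply Subtype.ext
    show ((((ℓ : O) : E') * algebraMap A E' b : E') : κ) = 1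
    rw [← h2]
    push_cast
    rw [hAE]
  let s' : (κ ≃ₐ[E'] κ) →* RingAut M := s.comp (resH E')
  have hs' : ∀ σ, s' σ = s (σ.restrictScalars k) := fun σ => rfl
  have hSL : SL E' κ M s' := by
    refine ⟨fun σ c => ?_, fun z => ?_⟩
    · rw [hs', hs.const]
      rfl
    · obtain ⟨E₁, hE₁, hz⟩ := hs.cont z
      let E₂ : IntermediateField E' κ :=
        IntermediateField.extendScalars (le_sup_left : E' ≤ E' ⊔ E₁)
      have hf0 : FiniteDimensional k ↥(E' ⊔ E₁) := IntermediateField.finiteDimensional_sup E' E₁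
      have hf1 : FiniteDimensional k ↥E₂ := hf0
      have hf2 : FiniteDimensional E' ↥E₂ := Module.Finite.of_restrictScalars_finite k E' E₂
      refine ⟨E₂, hf2, fun σ hσ => ?_⟩
      rw [hs']
      apply hz
      rw [IntermediateField.mem_fixingSubgroup_iff] at hσ ⊢
      intro y hy
      exact hσ y ((le_sup_right : E₁ ≤ E' ⊔ E₁) hy)
  obtain ⟨σ', hσ'⟩ := exists_res E' σ ((hE' σ).1 ⟨hσE, fun b hb z hz => hno b hb σ hσ hσE z hz⟩)
  have hIσ' : Ine V σ' := by
    have h1 : ∀ w, σ' w = σ w := fun w => by rw [← hσ']; rfl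
    exact ⟨fun w => by rw [h1]; exact hσ.1 w, fun w hw => by rw [h1]; exact hσ.2 w hw⟩
  have h := good_comm (A := O) (k := E') V hℓO (fun a => a.2) (fun a ha => by
      rw [IsLocalRing.mem_maximalIdeal, mem_nonunits_iff] at ha
      have h1 : (a : E') ∈ O.nonunits := by
        rw [ValuationSubring.mem_nonunits_iff, ← not_le]
        intro h2
        apply ha
        have h3 : O.valuation (a : E') = 1 := le_antisymm ((O.valuation_le_one_iff _).2 a.2) h2
        exact (O.valuation_eq_one_iff a).2 h3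
      exact (hnon a).1 h1) hF hG hSL (fun τ b hb z hz => by
      rw [hs']
      exact ((hE' (τ.restrictScalars k)).2 (fun c hc => τ.commutes ⟨c, hc⟩)).2 b hb z hz)
    σ' hIσ' γ hγ hγx z₀
  rw [hs', hσ'] at h
  exact h

/-- descent from a finite Galois extension `E` of `k`, with an inertia element of `E` -/
theorem glob2 (h : S_LOCB) {ℓ : ℕ} [Fact ℓ.Prime] {A k κ Ω : Type} [CommRing A] [IsDomain A]
    [IsDiscreteValuationRing A] [Finite (IsLocalRing.ResidueField A)] [Field k] [CharZero k]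
    [Algebra A k] [IsFractionRing A k] [Field κ] [Algebra k κ] [Algebra A κ]
    [IsScalarTower A k κ] [IsAlgClosure k κ] [Field Ω] [IsAlgClosed Ω] [Algebra κ Ω]
    (V : ValuationSubring κ) (hℓ : IsUnit (ℓ : A)) (hAV : ∀ a : A, algebraMap A κ a ∈ V)
    (hmV : ∀ a ∈ IsLocalRing.maximalIdeal A, algebraMap A κ a ∈ V.nonunits)
    (hDec : ∀ σ : κ ≃ₐ[k] κ, Dec V σ)
    {x : Ω} {B : Finset κ} {T : κ → Ω} {M : IntermediateField κ Ω} (hFld : Fld ℓ x B T M)
    (hGood : Good V B) (E : IntermediateField k κ) (hEf : FiniteDimensional k E)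
    (hEn : Normal k E) (hBE : ∀ b ∈ B, b ∈ E) {s : (κ ≃ₐ[k] κ) →* RingAut M} (hs : SL k κ M s)
    (hsx : ∀ σ ∈ E.fixingSubgroup, ∀ z : M, (z : Ω) = x → s σ z = z)
    (hAbv : ∀ (σ : κ ≃ₐ[k] κ) (W : ValuationSubring M), (∀ c : κ, algebraMap κ M c ∈ W) →
      Abv x B W → Abv x B (W.comap ((s σ : M ≃+* M) : M →+* M)))
    (hex : ∃ b ∈ B, ∃ σ : κ ≃ₐ[k] κ, Ine V σ ∧ (∀ c ∈ E, σ c = c) ∧
      ∃ z : M, (z : Ω) = T b ∧ s σ z ≠ z) :
    One (fun _ => True) x B s := by
  -- the valuation ring of `E`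
  let O : ValuationSubring E := V.comap (algebraMap E κ)
  letI algAE : Algebra A E := ((algebraMap k E).comp (algebraMap A k)).toAlgebra
  haveI tAE : IsScalarTower A k E := IsScalarTower.of_algebraMap_eq fun a => rfl
  have hAE : ∀ a : A, ((algebraMap A E a : E) : κ) = algebraMap A κ a := by
    intro a
    rw [IsScalarTower.algebraMap_apply A k κ]
    rfl
  have hOmem : ∀ z : E, z ∈ O ↔ (z : κ) ∈ V := fun z => Iff.rfl
  have hnon : ∀ z : E, (z ∈ O.nonunits ↔ (z : κ) ∈ V.nonunits) := by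
    intro z
    rw [ValuationSubring.mem_nonunits_iff_or, ValuationSubring.mem_nonunits_iff_or]
    constructor
    · rintro (h1 | h1)
      · left
        rw [h1]
        rfl
      · right
        intro h2
        exact h1 h2
    · rintro (h1 | h1)
      · left
        exact Subtype.ext h1
      · right
        intro h2
        exact h1 h2
  obtain ⟨hDVR, hRes⟩ := Pool.Agent.R925.L.dvr_ext (A := A) (k := k) (E := E) O (fun a => by
    rw [hOmem, hAE]
    exact hAV a) (fun a ha => by
    have h1 : algebraMap A E a ∈ O.nonunits := by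
      rw [hnon, hAE]
      exact hmV a ha
    exact (ValuationSubring.mem_nonunits_iff O).1 h1)
  letI algOκ : Algebra O κ := ((algebraMap E κ).comp (algebraMap O E)).toAlgebra
  haveI tO : IsScalarTower O E κ := IsScalarTower.of_algebraMap_eq fun a => rfl
  have hac : IsAlgClosed κ := IsAlgClosure.isAlgClosed k
  have halg : Algebra.IsAlgebraic k κ := IsAlgClosure.isAlgebraic
  have halgE : Algebra.IsAlgebraic E κ := Algebra.IsAlgebraic.tower_top (K := k) E
  haveI hcl : IsAlgClosure E κ := ⟨hac, halgE⟩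
  haveI : CharZero E := charZero_of_injective_algebraMap (algebraMap k E).injective
  have hℓO : IsUnit (ℓ : O) := by
    obtain ⟨b, hb⟩ := hℓ.exists_right_inv
    have h1 : algebraMap A κ b ∈ V := hAV b
    have h2 : (ℓ : κ) * algebraMap A κ b = 1 := by
      rw [← map_natCast (algebraMap A κ), ← map_mul, hb, map_one]
    refine IsUnit.of_mul_eq_one (⟨algebraMap A E b, by rw [hOmem, hAE]; exact h1⟩ : O) ?_
    apply Subtype.ext
    apply Subtype.ext
    show ((((ℓ : O) : E) * algebraMap A E b : E) : κ) = 1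
    rw [← h2]
    push_cast
    rw [hAE]
  let s' : (κ ≃ₐ[E] κ) →* RingAut M := s.comp (resH E)
  have hs' : ∀ σ, s' σ = s (σ.restrictScalars k) := fun σ => rfl
  have hSL : SL E κ M s' := by
    refine ⟨fun σ c => ?_, fun z => ?_⟩
    · rw [hs', hs.const]
      rfl
    · obtain ⟨E₁, hE₁, hz⟩ := hs.cont z
      let E₂ : IntermediateField E κ := IntermediateField.extendScalars (le_sup_left : E ≤ E ⊔ E₁)
      have hf0 : FiniteDimensional k ↥(E ⊔ E₁) := IntermediateField.finiteDimensional_sup E E₁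
      have hf1 : FiniteDimensional k ↥E₂ := hf0
      have hf2 : FiniteDimensional E ↥E₂ := Module.Finite.of_restrictScalars_finite k E E₂
      refine ⟨E₂, hf2, fun σ hσ => ?_⟩
      rw [hs']
      apply hz
      rw [IntermediateField.mem_fixingSubgroup_iff] at hσ ⊢
      intro y hy
      exact hσ y ((le_sup_right : E₁ ≤ E ⊔ E₁) hy)
  obtain ⟨W, ⟨hWc, hWr, hWa, hWf⟩, hWu⟩ := h ℓ O E κ Ω V hℓO (fun a => a.2) (fun a ha => by
      rw [IsLocalRing.mem_maximalIdeal, mem_nonunits_iff] at ha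
      have h1 : (a : E) ∈ O.nonunits := by
        rw [ValuationSubring.mem_nonunits_iff, ← not_le]
        intro h2
        apply ha
        have h3 : O.valuation (a : E) = 1 := le_antisymm ((O.valuation_le_one_iff _).2 a.2) h2
        exact (O.valuation_eq_one_iff a).2 h3
      exact (hnon a).1 h1) x B T M hFld hGood
    (fun b hb => ⟨⟨b, hBE b hb⟩, rfl⟩) s' hSL
    (fun σ z hz => by
      rw [hs']
      exact hsx _ (res_fix E σ) z hz) (by
      obtain ⟨b, hb, σ, hσ, hσE, z, hz, hne⟩ := hex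
      obtain ⟨σ', hσ'⟩ := exists_res E σ hσE
      refine ⟨b, hb, σ', ?_, z, hz, ?_⟩
      · have h1 : ∀ w, σ' w = σ w := fun w => by rw [← hσ']; rfl
        exact ⟨fun w => by rw [h1]; exact hσ.1 w, fun w hw => by rw [h1]; exact hσ.2 w hw⟩
      · rw [hs', hσ']
        exact hne)
  have hdec : ∀ σ : κ ≃ₐ[E] κ, Dec V σ := fun σ => hDec (σ.restrictScalars k)
  refine ⟨W, ⟨hWc, hWr, hWa, fun g _ => ?_⟩, fun W' h1 h2 h3 => ?_⟩
  · have key : W.comap ((s g : M ≃+* M) : M →+* M) = W := by
      refine hWu _ (fun c => ?_) (hAbv g W hWc hWa) (fun σ _ z => ?_)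
      · show s g (algebraMap κ M c) ∈ W
        rw [hs.const]
        exact hWc _
      · show s g (s' σ z) ∈ W ↔ s g z ∈ W
        obtain ⟨σ', hσ'⟩ := exists_res E (g * σ.restrictScalars k * g⁻¹)
          (conj_mem E hEn g _ fun c hc => σ.commutes ⟨c, hc⟩)
        have h1 : s g (s' σ z) = s' σ' (s g z) := by
          rw [hs', hs', hσ', ← RingAut.mul_apply, ← RingAut.mul_apply, ← map_mul, ← map_mul,
            inv_mul_cancel_right]
        rw [h1]
        exact hWf σ' (hdec σ') (s g z)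
    intro z
    have h1 : z ∈ W.comap ((s g : M ≃+* M) : M →+* M) ↔ z ∈ W := by rw [key]
    exact h1
  · exact hWu W' h1 h2 fun σ _ z => h3 (σ.restrictScalars k) trivial z

end Pool.Agent.H93S
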