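import Pool.Agent.H93S.Fof
import Pool.Agent.H93S.Mov
import Pool.Agent.H93S.Core
import Pool.Agent.H93S.H90

/-!
# Project SC: sections of the geometrically pro-`ℓ` fundamental group of uniformly ramified covers
-/

set_option autoImplicit false
set_option linter.all false

open Polynomial FF

namespace Pool.Agent.H93S

open Pool.Agent.Y157.PS Pool.Agent.Y948.PS Pool.Agent.Y31.PS Pool.Agent.R925.Q Pool.Agent.R925.X
  Pool.Agent.R925.L

/-- the roots of a separable polynomial -/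
theorem roots_f {k κ : Type} [Field k] [Field κ] [Algebra k κ] [IsAlgClosed κ] (f : k[X])
    (hsep : f.Separable) : ∃ (P : Finset κ) (c0 : κ), c0 ≠ 0 ∧ (∀ e, e ∈ P ↔ aeval e f = 0) ∧
      P.card = f.natDegree ∧ ∀ (K : Type) [Field K] (j : κ →+* K) (X : K),
        f.eval₂ (j.comp (algebraMap k κ)) X = j c0 * ∏ e ∈ P, (X - j e) := by
  classical
  have hf0 : f ≠ 0 := hsep.ne_zero
  have hm0 : f.map (algebraMap k κ) ≠ 0 := (Polynomial.map_ne_zero_iff
    (algebraMap k κ).injective).2 hf0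
  have hnd : (f.map (algebraMap k κ)).roots.Nodup := nodup_roots hsep.map
  have hsp := (IsAlgClosed.splits (f.map (algebraMap k κ))).eq_prod_roots
  have hcard : Multiset.card (f.map (algebraMap k κ)).roots = f.natDegree := by
    rw [← (IsAlgClosed.splits (f.map (algebraMap k κ))).natDegree_eq_card_roots,
      natDegree_map]
  refine ⟨(f.map (algebraMap k κ)).roots.toFinset, (f.map (algebraMap k κ)).leadingCoeff,
    leadingCoeff_ne_zero.2 hm0, fun e => ?_, ?_, fun K _ j X => ?_⟩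
  · rw [Multiset.mem_toFinset, mem_roots hm0, IsRoot.def, eval_map, aeval_def]
  · rw [Multiset.toFinset_card_of_nodup hnd, hcard]
  · rw [← eval₂_map]
    conv_lhs => rw [hsp]
    rw [eval₂_mul, eval₂_C, Finset.prod_eq_multiset_prod, Multiset.toFinset_val, hnd.dedup]
    congr 1
    rw [← coe_eval₂RingHom, map_multiset_prod, Multiset.map_map]
    congr 1
    refine Multiset.map_congr rfl fun a _ => ?_
    simp

section main

variable {A k F Ω : Type} [CommRing A] [IsDomain A] [IsDiscreteValuationRing A]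
    [Finite (IsLocalRing.ResidueField A)] [Field k] [CharZero k] [Algebra A k] [IsFractionRing A k]
    [Field F] [Field Ω] [Algebra k F] [Algebra F Ω] [Algebra k Ω] [IsScalarTower k F Ω]
    [IsAlgClosed Ω] [Algebra.IsAlgebraic F Ω]

theorem core2 [IsAdicComplete (IsLocalRing.maximalIdeal A) A] {ℓ : ℕ} [Fact ℓ.Prime]
    (hℓ : IsUnit (ℓ : A)) (f : k[X]) (hsep : f.Separable) (Inf : Prop)
    (h3a : Inf → 3 ≤ ℓ * (f.natDegree - 1)) (h3b : ¬ Inf → 3 ≤ ℓ * (f.natDegree - 2))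
    (x : F) (hx : Transcendental k x)
    (N : IntermediateField (IntermediateField.adjoin (algebraicClosure k Ω) {algebraMap F Ω x}) Ω)
    (hN1 : FiniteDimensional
      (IntermediateField.adjoin (algebraicClosure k Ω) {algebraMap F Ω x}) N)
    (hN2 : IsGalois (IntermediateField.adjoin (algebraicClosure k Ω) {algebraMap F Ω x}) N)
    (hN3 : ∃ m : ℕ, Module.finrank
      (IntermediateField.adjoin (algebraicClosure k Ω) {algebraMap F Ω x}) N = ℓ ^ m)
    (hFN : ∀ z : F, algebraMap F Ω z ∈ N)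
    (hidx : ∀ W : ValuationSubring Ω, (∀ c : k, algebraMap k Ω c ∈ W) → W ≠ ⊤ →
      ((algebraMap F Ω (aeval x f) ∈ W.nonunits ∨ (Inf ∧ (algebraMap F Ω x)⁻¹ ∈ W.nonunits)) →
        (valGrp W (IntermediateField.adjoin (algebraicClosure k Ω)
          {algebraMap F Ω x}).toSubfield).relIndex (valGrp W (geomF k F Ω).toSubfield) = ℓ) ∧
      (¬ (algebraMap F Ω (aeval x f) ∈ W.nonunits ∨ (Inf ∧ (algebraMap F Ω x)⁻¹ ∈ W.nonunits)) →
        (valGrp W (IntermediateField.adjoin (algebraicClosure k Ω)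
          {algebraMap F Ω x}).toSubfield).relIndex (valGrp W (geomF k F Ω).toSubfield) = 1))
    (hcr4 : ∀ a b c d : algebraicClosure k Ω, aeval a f = 0 → aeval b f = 0 → aeval c f = 0 →
      aeval d f = 0 → a ≠ b → a ≠ c → a ≠ d → b ≠ c → b ≠ d → c ≠ d →
      ((algebraMap k (algebraicClosure k Ω)).comp (algebraMap A k)).IsIntegralElem
        ((a - c) * (b - d) / ((a - d) * (b - c))))
    (hcr3 : Inf → ∀ a b c : algebraicClosure k Ω, aeval a f = 0 → aeval b f = 0 →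
      aeval c f = 0 → a ≠ b → a ≠ c → b ≠ c →
      ((algebraMap k (algebraicClosure k Ω)).comp (algebraMap A k)).IsIntegralElem
        ((a - c) / (b - c)))
    (σ₀ : algebraicClosure k Ω ≃ₐ[k] algebraicClosure k Ω)
    (hσ₀ : ∀ c, ((algebraMap k (algebraicClosure k Ω)).comp (algebraMap A k)).IsIntegralElem c →
      σ₀ c = c ∨ ¬ ((algebraMap k (algebraicClosure k Ω)).comp (algebraMap A k)).IsIntegralElem
        (σ₀ c - c)⁻¹)
    (hσP : ∀ e : algebraicClosure k Ω, aeval e f = 0 → σ₀ e = e)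
    (hσM : ∀ g : geomPro ℓ k F Ω ≃ₐ[F] geomPro ℓ k F Ω,
      (∀ (c : algebraicClosure k Ω) (z : geomPro ℓ k F Ω), (z : Ω) = (c : Ω) →
        (g z : Ω) = (σ₀ c : Ω)) →
      ∃ γ : geomPro ℓ k F Ω ≃ₐ[F] geomPro ℓ k F Ω,
        (∀ (c : algebraicClosure k Ω) (z : geomPro ℓ k F Ω), (z : Ω) = (c : Ω) → γ z = z) ∧
        ∃ z, g (γ z) ≠ γ (g z))
    (S : (algebraicClosure k Ω ≃ₐ[k] algebraicClosure k Ω) →*
      (geomPro ℓ k F Ω ≃ₐ[F] geomPro ℓ k F Ω)) (hcont : Continuous S)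
    (hcompat : ∀ σ (c : algebraicClosure k Ω) (z : geomPro ℓ k F Ω), (z : Ω) = (c : Ω) →
      (S σ z : Ω) = (σ c : Ω)) :
    ∃ W : ValuationSubring (geomPro ℓ k F Ω),
      ((∀ c : k, algebraMap F (geomPro ℓ k F Ω) (algebraMap k F c) ∈ W) ∧
       (∀ z ∈ W, ∃ c : algebraicClosure k Ω, ∃ z' ∈ W.nonunits, (z' : Ω) = (z : Ω) - c) ∧
       AB Inf (aeval x f) x W ∧ ∀ σ z, S σ z ∈ W ↔ z ∈ W) ∧
      ∀ W' : ValuationSubring (geomPro ℓ k F Ω),
        (∀ c : k, algebraMap F (geomPro ℓ k F Ω) (algebraMap k F c) ∈ W') →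
        AB Inf (aeval x f) x W' →
        (∀ σ z, S σ z ∈ W' ↔ z ∈ W') → W' = W := by
  classical
  have hℓp : ℓ.Prime := Fact.out
  have hℓ2 := hℓp.two_le
  have hac : IsAlgClosure k (algebraicClosure k Ω) := inferInstance
  have hkb : IsAlgClosed (algebraicClosure k Ω) := hac.1
  have hN : Normal k (algebraicClosure k Ω) := IsAlgClosure.normal k _
  have hGal : IsGalois k (algebraicClosure k Ω) := ⟨⟩
  have hch : CharZero (algebraicClosure k Ω) :=
    charZero_of_injective_algebraMap (algebraMap k (algebraicClosure k Ω)).injective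
  letI : Algebra A (algebraicClosure k Ω) :=
    ((algebraMap k (algebraicClosure k Ω)).comp (algebraMap A k)).toAlgebra
  haveI hst : IsScalarTower A k (algebraicClosure k Ω) :=
    IsScalarTower.of_algebraMap_eq (fun _ => rfl)
  obtain ⟨V, hV⟩ := Pool.Agent.Y809.PS.val A k (algebraicClosure k Ω)
  have hV' : ∀ z, ((algebraMap k (algebraicClosure k Ω)).comp (algebraMap A k)).IsIntegralElem z ↔
      z ∈ V := fun z => (hV z).symm
  have hVa : ∀ a : A, algebraMap A (algebraicClosure k Ω) a ∈ V := fun a =>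
    (hV _).2 isIntegral_algebraMap
  have hVm : ∀ a ∈ IsLocalRing.maximalIdeal A, algebraMap A (algebraicClosure k Ω) a ∈
      V.nonunits := by
    intro a ha
    refine nonunits_iff.2 ⟨hVa a, ?_⟩
    by_cases ha0 : a = 0
    · left
      rw [ha0, map_zero]
    right
    intro hi
    rw [hV, IsScalarTower.algebraMap_apply A k (algebraicClosure k Ω), ← map_inv₀,
      isIntegral_algebraMap_iff (algebraMap k (algebraicClosure k Ω)).injective] at hi
    obtain ⟨b, hb⟩ := IsIntegrallyClosed.isIntegral_iff.1 hi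
    have h1 : a * b = 1 := by
      apply IsFractionRing.injective A k
      rw [map_mul, hb, map_one, mul_inv_cancel₀]
      rw [Ne, map_eq_zero_iff _ (IsFractionRing.injective A k)]
      exact ha0
    exact (IsLocalRing.mem_maximalIdeal _).1 ha (IsUnit.of_mul_eq_one b h1)
  have hdec : ∀ σ : algebraicClosure k Ω ≃ₐ[k] algebraicClosure k Ω, Dec V σ := by
    intro σ z
    rw [hV, hV]
    have h1 : ∀ (τ : algebraicClosure k Ω ≃ₐ[k] algebraicClosure k Ω) (w : algebraicClosure k Ω),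
        IsIntegral A w → IsIntegral A (τ w) := fun τ w hw =>
      hw.map (τ.toAlgHom.restrictScalars A)
    refine ⟨fun h => ?_, h1 σ z⟩
    have h2 := h1 σ.symm _ h
    rwa [σ.symm_apply_apply] at h2
  -- the branch points
  obtain ⟨P, c0, hc0, hP, hcard, hprod⟩ := roots_f (κ := algebraicClosure k Ω) f hsep
  obtain ⟨X0, hX0⟩ : ∃ X0, X0 = algebraMap F Ω x := ⟨_, rfl⟩
  have hX0t : Transcendental (algebraicClosure k Ω) X0 := by
    rw [hX0]
    exact trans_up ((transcendental_algebraMap_iff (R := k) (algebraMap F Ω).injective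
      (a := x)).2 hx)
  have htr : ∀ e : algebraicClosure k Ω, X0 - algebraMap (algebraicClosure k Ω) Ω e ≠ 0 := by
    intro e he
    apply hX0t
    rw [sub_eq_zero.1 he]
    exact isAlgebraic_algebraMap _
  have hPc : (Inf → 2 ≤ P.card) ∧ (¬ Inf → 3 ≤ P.card) := by
    rw [hcard]
    refine ⟨fun h => ?_, fun h => ?_⟩
    · have h1 := h3a h
      by_contra h2
      have h4 : f.natDegree - 1 = 0 := by omega
      rw [h4] at h1
      omega
    · have h1 := h3b h
      by_contra h2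
      have h4 : f.natDegree - 2 = 0 := by omega
      rw [h4] at h1
      omega
  obtain ⟨x', B, hx't, hS, hBc1, hBc2, hGB, hBS, hxS, habv⟩ := coord V hX0t P Inf hPc.1 hPc.2
    (fun a ha b hb c hc d hd h1 h2 h3 h4 h5 h6 => (hV' _).1 (hcr4 a b c d ((hP a).1 ha)
      ((hP b).1 hb) ((hP c).1 hc) ((hP d).1 hd) h1 h2 h3 h4 h5 h6))
    (fun hI a ha b hb c hc h1 h2 h3 => (hV' _).1 (hcr3 hI a b c ((hP a).1 ha)
      ((hP b).1 hb) ((hP c).1 hc) h1 h2 h3))
  have hB2 : 2 ≤ B.card := by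
    by_cases hI : Inf
    · rw [hBc1 hI]
      exact hPc.1 hI
    · have h1 := hBc2 hI
      have h2 := hPc.2 hI
      omega
  have hB3 : 3 ≤ ℓ * (B.card - 1) := by
    by_cases hI : Inf
    · rw [hBc1 hI, hcard]
      exact h3a hI
    · have h1 := hBc2 hI
      have h2 : B.card - 1 = f.natDegree - 2 := by
        rw [← hcard]; omega
      rw [h2]
      exact h3b hI
  have hTex : ∀ b : algebraicClosure k Ω, ∃ z : Ω, z ^ ℓ = x' - algebraMap _ Ω b := fun b =>
    IsAlgClosed.exists_pow_nat_eq _ hℓp.pos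
  choose T hT using hTex
  -- values of `f`
  have hcomp : (algebraMap (algebraicClosure k Ω) Ω).comp (algebraMap k (algebraicClosure k Ω)) =
      (algebraMap F Ω).comp (algebraMap k F) := by
    ext c
    exact IsScalarTower.algebraMap_apply k F Ω c
  have hfΩ : algebraMap F Ω (aeval x f) = algebraMap (algebraicClosure k Ω) Ω c0 *
      ∏ e ∈ P, (X0 - algebraMap (algebraicClosure k Ω) Ω e) := by
    rw [← hprod Ω (algebraMap (algebraicClosure k Ω) Ω) X0, hcomp, hX0, aeval_def, hom_eval₂]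
  have hFld : Fld ℓ x' B T (Mc ℓ k F Ω) := by
    subst hX0
    refine fld_of hx P Inf N hN1 hN2 hN3 hFN (fun W hW hWt => ?_) hx't hS hB3 hB2 habv
      (fun b _ => hT b)
    have h1 : algebraMap F Ω (aeval x f) ∈ W.nonunits ↔
        ∃ e ∈ P, algebraMap F Ω x - algebraMap _ Ω e ∈ W.nonunits := by
      rw [hfΩ]
      exact prod_non W (algebraMap (algebraicClosure k Ω) Ω) hW (algebraMap F Ω x) htr P hc0
    have h2 := hidx W (fun c => hW (algebraMap k (algebraicClosure k Ω) c)) hWt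
    rw [h1] at h2
    exact h2
  -- the field of the branch points
  have hPσ : ∀ (σ : algebraicClosure k Ω ≃ₐ[k] algebraicClosure k Ω), ∀ e ∈ P, σ e ∈ P := by
    intro σ e he
    rw [hP] at he ⊢
    have h1 : aeval (σ e) f = σ (aeval e f) := (Polynomial.aeval_algHom_apply σ.toAlgHom e f)
    rw [h1, he, map_zero]
  obtain ⟨E, hE⟩ : ∃ E : IntermediateField k (algebraicClosure k Ω),
      E = IntermediateField.adjoin k (P : Set (algebraicClosure k Ω)) := ⟨_, rfl⟩
  have hPE : ∀ e ∈ P, e ∈ E := fun e he => by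
    rw [hE]
    exact IntermediateField.subset_adjoin _ _ he
  have hEfin : FiniteDimensional k E := by
    rw [hE]
    haveI : Finite (P : Set (algebraicClosure k Ω)) := inferInstance
    exact IntermediateField.finiteDimensional_adjoin fun e _ => Algebra.IsIntegral.isIntegral e
  have hEnor : Normal k E := by
    rw [IntermediateField.normal_iff_forall_map_le']
    intro σ
    rw [hE, IntermediateField.adjoin_map]
    refine IntermediateField.adjoin_le_iff.2 ?_
    rintro _ ⟨e, he, rfl⟩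
    exact IntermediateField.subset_adjoin _ _ (hPσ σ e he)
  have hBE : ∀ b ∈ B, b ∈ E := hBS E.toSubfield hPE
  have hσ₀E : ∀ c ∈ E, σ₀ c = c := by
    intro c hc
    have h1 : E ≤ Pool.Agent.Y529.PS.IN.fixF σ₀ := by
      rw [hE]
      exact IntermediateField.adjoin_le_iff.2 fun e he => hσP e ((hP e).1 he)
    exact h1 hc
  have hIne₀ : Ine V σ₀ := by
    refine ⟨hdec σ₀, fun z hz => ?_⟩
    rw [ValuationSubring.mem_nonunits_iff_or]
    rcases hσ₀ z ((hV' z).2 hz) with h | h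
    · left
      rw [h, sub_self]
    · right
      rwa [hV'] at h
  -- the semilinear action
  have hX0M : X0 ∈ Mc ℓ k F Ω := by
    rw [mem_Mc, hX0]
    exact (geomPro ℓ k F Ω).algebraMap_mem x
  obtain ⟨s, hs'⟩ : ∃ s : (algebraicClosure k Ω ≃ₐ[k] algebraicClosure k Ω) →*
      RingAut (Mc ℓ k F Ω), ∀ σ z, eqM ℓ k F Ω (s σ z) = S σ (eqM ℓ k F Ω z) :=
    ⟨conjSec (eqM ℓ k F Ω) S, fun σ z => conjSec_apply (eqM ℓ k F Ω) S σ z⟩
  have hconst : ∀ σ c, s σ (algebraMap (algebraicClosure k Ω) (Mc ℓ k F Ω) c) =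
      algebraMap (algebraicClosure k Ω) (Mc ℓ k F Ω) (σ c) := by
    intro σ c
    apply (eqM ℓ k F Ω).injective
    rw [hs']
    exact Subtype.ext (hcompat σ c _ rfl)
  have hbase : ∀ σ (z : F) (v : Mc ℓ k F Ω), (v : Ω) = algebraMap F Ω z → s σ v = v := by
    intro σ z v hv
    apply (eqM ℓ k F Ω).injective
    rw [hs']
    have h1 : eqM ℓ k F Ω v = algebraMap F (geomPro ℓ k F Ω) z := Subtype.ext hv
    rw [h1]
    exact (S σ).commutes z
  have hSL : SL k (algebraicClosure k Ω) (Mc ℓ k F Ω) s := by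
    refine ⟨hconst, fun z => ?_⟩
    haveI : Algebra.IsIntegral F (geomPro ℓ k F Ω) := inferInstance
    obtain ⟨E', hE', hfix⟩ := cont_fix S hcont (eqM ℓ k F Ω z)
    refine ⟨E', hE', fun σ hσ => (eqM ℓ k F Ω).injective ?_⟩
    rw [hs', hfix σ hσ]
  have hXfix : ∀ σ, s σ ⟨X0, hX0M⟩ = ⟨X0, hX0M⟩ := fun σ => hbase σ x _ hX0
  have hx'M : x' ∈ Mc ℓ k F Ω := (hS _).1 hX0M
  have hx'fix : ∀ σ ∈ E.fixingSubgroup, ∀ z : Mc ℓ k F Ω, (z : Ω) = x' → s σ z = z := by
    intro σ hσ z hz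
    obtain ⟨v, hv, hvs⟩ := hxS (fixOne (s σ)) ⟨⟨X0, hX0M⟩, rfl, hXfix σ⟩ (fun e he =>
      ⟨algebraMap _ _ e, rfl, by
        rw [hconst, (IntermediateField.mem_fixingSubgroup_iff _ _).1 hσ e (hPE e he)]⟩)
    have h1 : z = v := Subtype.ext (hz.trans hv.symm)
    rw [h1, hvs]
  have hstab : ∀ (σ : algebraicClosure k Ω ≃ₐ[k] algebraicClosure k Ω)
      (W : ValuationSubring (Mc ℓ k F Ω)),
      (∀ c : algebraicClosure k Ω, algebraMap _ (Mc ℓ k F Ω) c ∈ W) → Abv x' B W →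
      Abv x' B (W.comap ((s σ : Mc ℓ k F Ω ≃+* Mc ℓ k F Ω) : Mc ℓ k F Ω →+* Mc ℓ k F Ω)) := by
    intro σ W hW h
    rw [habv _ hX0M W hW] at h
    rw [habv _ hX0M _ (fun c => by
      rw [ValuationSubring.mem_comap]
      change s σ _ ∈ W
      rw [hconst]
      exact hW _)]
    refine h.comap (s σ) (σ : algebraicClosure k Ω ≃+* algebraicClosure k Ω) (fun c => hconst σ c)
      (hXfix σ) fun e he => ?_
    exact hPσ σ.symm e he
  -- an inertia element which moves some `T b`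
  have hnt : ∃ b ∈ B, ∃ σ : algebraicClosure k Ω ≃ₐ[k] algebraicClosure k Ω, Ine V σ ∧
      (∀ c ∈ E, σ c = c) ∧ ∃ z : Mc ℓ k F Ω, (z : Ω) = T b ∧ s σ z ≠ z := by
    obtain ⟨γ, hγ, z₁, hz₁⟩ := hσM (S σ₀) (fun c z hz => hcompat σ₀ c z hz)
    let γ' : Mc ℓ k F Ω ≃+* Mc ℓ k F Ω :=
      ((eqM ℓ k F Ω).trans (γ : geomPro ℓ k F Ω ≃+* geomPro ℓ k F Ω)).trans (eqM ℓ k F Ω).symm
    have hγ' : ∀ z, eqM ℓ k F Ω (γ' z) = γ (eqM ℓ k F Ω z) := fun z =>
      (eqM ℓ k F Ω).apply_symm_apply _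
    have hγc : ∀ c : algebraicClosure k Ω, γ' (algebraMap _ _ c) = algebraMap _ _ c := by
      intro c
      apply (eqM ℓ k F Ω).injective
      rw [hγ']
      exact hγ c _ rfl
    have hγX : γ' ⟨X0, hX0M⟩ = ⟨X0, hX0M⟩ := by
      apply (eqM ℓ k F Ω).injective
      rw [hγ']
      have h1 : eqM ℓ k F Ω ⟨X0, hX0M⟩ = algebraMap F (geomPro ℓ k F Ω) x := Subtype.ext hX0
      rw [h1]
      exact γ.commutes x
    refine moves V hℓ hVa hVm hFld hGB hSL E hEfin σ₀ hIne₀ hσ₀E γ' hγc (fun z hz => ?_)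
      ((eqM ℓ k F Ω).symm z₁) fun h => hz₁ ?_
    · obtain ⟨v, hv, hvs⟩ := hxS (fixOne γ') ⟨⟨X0, hX0M⟩, rfl, hγX⟩ (fun e he =>
        ⟨algebraMap _ _ e, rfl, hγc e⟩)
      have h1 : z = v := Subtype.ext (hz.trans hv.symm)
      rw [h1, hvs]
    · have h1 := congrArg (eqM ℓ k F Ω) h
      rw [hs', hγ', hγ', hs', RingEquiv.apply_symm_apply] at h1
      exact h1
  obtain ⟨W, ⟨h1, h2, h3, h4⟩, hun⟩ := glob2 (locb h90 co) V hℓ hVa hVm hdec hFld hGB E hEfin
    hEnor hBE hSL hx'fix hstab hnt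
  -- transport to the Galois group of `geomPro`
  have hAB : ∀ W' : ValuationSubring (geomPro ℓ k F Ω),
      (∀ c : k, algebraMap F (geomPro ℓ k F Ω) (algebraMap k F c) ∈ W') →
      (AB Inf (aeval x f) x W' ↔
        Abv x' B (W'.comap ((eqM ℓ k F Ω : Mc ℓ k F Ω ≃+* geomPro ℓ k F Ω) :
          Mc ℓ k F Ω →+* geomPro ℓ k F Ω))) := by
    intro W' hW'
    have hcW : ∀ c : algebraicClosure k Ω, eqM ℓ k F Ω (algebraMap _ (Mc ℓ k F Ω) c) ∈ W' :=
      fun c => const_mem_N _ W' hW' c _ rfl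
    have hcomap := habv _ hX0M (W'.comap ((eqM ℓ k F Ω : Mc ℓ k F Ω ≃+* geomPro ℓ k F Ω) :
          Mc ℓ k F Ω →+* geomPro ℓ k F Ω)) (fun c => hcW c)
    rw [hcomap]
    unfold AB AbvP
    have hXe : algebraMap F (geomPro ℓ k F Ω) x⁻¹ = eqM ℓ k F Ω (⟨X0, hX0M⟩ : Mc ℓ k F Ω)⁻¹ := by
      apply Subtype.ext
      change algebraMap F Ω x⁻¹ = X0⁻¹
      rw [hX0, map_inv₀]
    have hprodN : algebraMap F (geomPro ℓ k F Ω) (aeval x f) =
        ((eqM ℓ k F Ω : Mc ℓ k F Ω →+* geomPro ℓ k F Ω).comp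
          (algebraMap (algebraicClosure k Ω) (Mc ℓ k F Ω))) c0 *
        ∏ e ∈ P, (eqM ℓ k F Ω ⟨X0, hX0M⟩ -
          ((eqM ℓ k F Ω : Mc ℓ k F Ω →+* geomPro ℓ k F Ω).comp
            (algebraMap (algebraicClosure k Ω) (Mc ℓ k F Ω))) e) := by
      apply (algebraMap (geomPro ℓ k F Ω) Ω).injective
      have h5 : algebraMap (geomPro ℓ k F Ω) Ω
          (algebraMap F (geomPro ℓ k F Ω) (aeval x f)) = algebraMap F Ω (aeval x f) := rfl
      rw [h5, hfΩ, map_mul, map_prod (algebraMap (geomPro ℓ k F Ω) Ω)]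
      rfl
    rw [hprodN, prod_non W' _ (fun c => hcW c) _ ?_ P hc0, hXe]
    · simp only [comap_non]
      rfl
    · intro e he
      exact htr e (congrArg (fun z : geomPro ℓ k F Ω => (z : Ω)) he)
  have hmem : ∀ z, z ∈ W.comap ((eqM ℓ k F Ω).symm : geomPro ℓ k F Ω →+* Mc ℓ k F Ω) ↔
      (eqM ℓ k F Ω).symm z ∈ W := fun z => Iff.rfl
  have hcomm : ∀ σ z, (eqM ℓ k F Ω).symm (S σ z) = s σ ((eqM ℓ k F Ω).symm z) := by
    intro σ z
    apply (eqM ℓ k F Ω).injective
    rw [hs', RingEquiv.apply_symm_apply, RingEquiv.apply_symm_apply]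
  have hcm : ∀ c : k, algebraMap F (geomPro ℓ k F Ω) (algebraMap k F c) ∈
      W.comap ((eqM ℓ k F Ω).symm : geomPro ℓ k F Ω →+* Mc ℓ k F Ω) := by
    intro c
    rw [hmem]
    have h5 : (eqM ℓ k F Ω).symm (algebraMap F (geomPro ℓ k F Ω) (algebraMap k F c)) =
        algebraMap (algebraicClosure k Ω) (Mc ℓ k F Ω) (algebraMap k (algebraicClosure k Ω) c) :=
      Subtype.ext (IsScalarTower.algebraMap_apply k F Ω c).symm
    rw [h5]
    exact h1 _
  refine ⟨W.comap ((eqM ℓ k F Ω).symm : geomPro ℓ k F Ω →+* Mc ℓ k F Ω), ⟨hcm, ?_, ?_, ?_⟩, ?_⟩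
  · intro z hz
    obtain ⟨c, hc⟩ := h2 _ hz
    refine ⟨c, eqM ℓ k F Ω ((eqM ℓ k F Ω).symm z - algebraMap _ _ c), ?_, rfl⟩
    rw [comap_non, RingEquiv.symm_apply_apply]
    exact hc
  · rw [hAB _ hcm]
    exact h3
  · intro σ z
    rw [hmem, hmem, hcomm]
    exact h4 σ trivial _
  · intro W' hW' hAB' hst
    have h5 := hun (W'.comap ((eqM ℓ k F Ω : Mc ℓ k F Ω ≃+* geomPro ℓ k F Ω) :
          Mc ℓ k F Ω →+* geomPro ℓ k F Ω)) (fun c => const_mem_N _ W' hW' c _ rfl)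
      ((hAB W' hW').1 hAB') (fun σ _ z => by
        change eqM ℓ k F Ω (s σ z) ∈ W' ↔ eqM ℓ k F Ω z ∈ W'
        rw [hs']
        exact hst σ _)
    rw [← h5]
    ext z
    change z ∈ W' ↔ eqM ℓ k F Ω ((eqM ℓ k F Ω).symm z) ∈ W'
    rw [RingEquiv.apply_symm_apply]

end main

end Pool.Agent.H93S
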