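import Pool.Agent.H93S.Rot4

/-!
# Project SC: sections of uniformly ramified covers whose branch points are permuted by rotations
-/

set_option autoImplicit false
set_option linter.all false

open Polynomial FF

namespace Pool.Agent.H93S

open Pool.Agent.Y157.PS Pool.Agent.Y948.PS Pool.Agent.Y31.PS Pool.Agent.R925.Q Pool.Agent.R925.X
  Pool.Agent.R925.L

section main

variable {A k F Ω : Type} [CommRing A] [IsDomain A] [IsDiscreteValuationRing A]
    [Finite (IsLocalRing.ResidueField A)] [Field k] [CharZero k] [Algebra A k] [IsFractionRing A k]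
    [Field F] [Field Ω] [Algebra k F] [Algebra F Ω] [Algebra k Ω] [IsScalarTower k F Ω]
    [IsAlgClosed Ω] [Algebra.IsAlgebraic F Ω]

theorem core3 [IsAdicComplete (IsLocalRing.maximalIdeal A) A] {ℓ : ℕ} [Fact ℓ.Prime]
    (hℓ : IsUnit (ℓ : A)) {j : ℕ} (hj : 1 ≤ j) (g : A[X]) (hlc : IsUnit g.leadingCoeff)
    (hs : ((expand A (ℓ ^ j) g).map (IsLocalRing.residue A)).Separable)
    {ϖ t : A} (hϖ : Irreducible ϖ) (ht : IsUnit t) {α : ℤ} (hα : ¬ ((ℓ ^ j : ℕ) : ℤ) ∣ α) {a : k}
    (ha : a = algebraMap A k t * algebraMap A k ϖ ^ α) (Ends : Prop) (f h : k[X])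
    (hf : f = (g.map (algebraMap A k)).comp (Polynomial.C a * X ^ (ℓ ^ j)))
    (hh : (Ends ∧ h = X * f) ∨ (¬ Ends ∧ h = f))
    (h3a : Ends → 1 ≤ g.natDegree) (h3b : ¬ Ends → 3 ≤ ℓ ^ j * g.natDegree)
    (x : F) (hx : Transcendental k x)
    (N : IntermediateField (IntermediateField.adjoin (algebraicClosure k Ω) {algebraMap F Ω x}) Ω)
    (hN1 : FiniteDimensional
      (IntermediateField.adjoin (algebraicClosure k Ω) {algebraMap F Ω x}) N)
    (hN2 : IsGalois (IntermediateField.adjoin (algebraicClosure k Ω) {algebraMap F Ω x}) N)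
    (hN3 : ∃ m : ℕ, Module.finrank
      (IntermediateField.adjoin (algebraicClosure k Ω) {algebraMap F Ω x}) N = ℓ ^ m)
    (hFN : ∀ z : F, algebraMap F Ω z ∈ N)
    (hidx : ∀ W : ValuationSubring Ω, (∀ c : k, algebraMap k Ω c ∈ W) → W ≠ ⊤ →
      ((algebraMap F Ω (aeval x h) ∈ W.nonunits ∨ (Ends ∧ (algebraMap F Ω x)⁻¹ ∈ W.nonunits)) →
        (valGrp W (IntermediateField.adjoin (algebraicClosure k Ω)
          {algebraMap F Ω x}).toSubfield).relIndex (valGrp W (geomF k F Ω).toSubfield) = ℓ) ∧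
      (¬ (algebraMap F Ω (aeval x h) ∈ W.nonunits ∨ (Ends ∧ (algebraMap F Ω x)⁻¹ ∈ W.nonunits)) →
        (valGrp W (IntermediateField.adjoin (algebraicClosure k Ω)
          {algebraMap F Ω x}).toSubfield).relIndex (valGrp W (geomF k F Ω).toSubfield) = 1))
    (S : (algebraicClosure k Ω ≃ₐ[k] algebraicClosure k Ω) →*
      (geomPro ℓ k F Ω ≃ₐ[F] geomPro ℓ k F Ω)) (hcont : Continuous S)
    (hcompat : ∀ σ (c : algebraicClosure k Ω) (z : geomPro ℓ k F Ω), (z : Ω) = (c : Ω) →
      (S σ z : Ω) = (σ c : Ω)) :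
    ∃ W : ValuationSubring (geomPro ℓ k F Ω),
      ((∀ c : k, algebraMap F (geomPro ℓ k F Ω) (algebraMap k F c) ∈ W) ∧
       (∀ z ∈ W, ∃ c : algebraicClosure k Ω, ∃ z' ∈ W.nonunits, (z' : Ω) = (z : Ω) - c) ∧
       AB True x x W ∧ ∀ σ z, S σ z ∈ W ↔ z ∈ W) ∧
      ∀ W' : ValuationSubring (geomPro ℓ k F Ω),
        (∀ c : k, algebraMap F (geomPro ℓ k F Ω) (algebraMap k F c) ∈ W') →
        AB True (x * aeval x f) x W' →
        (∀ σ z, S σ z ∈ W' ↔ z ∈ W') → W' = W := by
  classical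
  have hℓp : ℓ.Prime := Fact.out
  have hℓ2 := hℓp.two_le
  have hac : IsAlgClosure k (algebraicClosure k Ω) := inferInstance
  have hkb : IsAlgClosed (algebraicClosure k Ω) := hac.1
  have hN : Normal k (algebraicClosure k Ω) := IsAlgClosure.normal k _
  have hGal : IsGalois k (algebraicClosure k Ω) := ⟨⟩
  have hch : CharZero (algebraicClosure k Ω) :=
    charZero_of_injective_algebraMap (algebraMap k (algebraicClosure k Ω)).injective
  letI : Algebra A (algebraicClosure k Ω) :=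
    ((algebraMap k (algebraicClosure k Ω)).comp (algebraMap A k)).toAlgebra
  haveI hst : IsScalarTower A k (algebraicClosure k Ω) :=
    IsScalarTower.of_algebraMap_eq (fun _ => rfl)
  obtain ⟨V, hV⟩ := Pool.Agent.Y809.PS.val A k (algebraicClosure k Ω)
  have hV' : ∀ z, ((algebraMap k (algebraicClosure k Ω)).comp (algebraMap A k)).IsIntegralElem z ↔
      z ∈ V := fun z => (hV z).symm
  have hVa : ∀ a : A, algebraMap A (algebraicClosure k Ω) a ∈ V := fun a =>
    (hV _).2 isIntegral_algebraMap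
  have hVm : ∀ a ∈ IsLocalRing.maximalIdeal A, algebraMap A (algebraicClosure k Ω) a ∈
      V.nonunits := by
    intro a ha
    refine nonunits_iff.2 ⟨hVa a, ?_⟩
    by_cases ha0 : a = 0
    · left
      rw [ha0, map_zero]
    right
    intro hi
    rw [hV, IsScalarTower.algebraMap_apply A k (algebraicClosure k Ω), ← map_inv₀,
      isIntegral_algebraMap_iff (algebraMap k (algebraicClosure k Ω)).injective] at hi
    obtain ⟨b, hb⟩ := IsIntegrallyClosed.isIntegral_iff.1 hi
    have h1 : a * b = 1 := by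
      apply IsFractionRing.injective A k
      rw [map_mul, hb, map_one, mul_inv_cancel₀]
      rw [Ne, map_eq_zero_iff _ (IsFractionRing.injective A k)]
      exact ha0
    exact (IsLocalRing.mem_maximalIdeal _).1 ha (IsUnit.of_mul_eq_one b h1)
  have hdec : ∀ σ : algebraicClosure k Ω ≃ₐ[k] algebraicClosure k Ω, Dec V σ := by
    intro σ z
    rw [hV, hV]
    have h1 : ∀ (τ : algebraicClosure k Ω ≃ₐ[k] algebraicClosure k Ω) (w : algebraicClosure k Ω),
        IsIntegral A w → IsIntegral A (τ w) := fun τ w hw =>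
      hw.map (τ.toAlgHom.restrictScalars A)
    refine ⟨fun h => ?_, h1 σ z⟩
    have h2 := h1 σ.symm _ h
    rwa [σ.symm_apply_apply] at h2
  obtain ⟨X0, hX0⟩ : ∃ X0, X0 = algebraMap F Ω x := ⟨_, rfl⟩
  have hX0t : Transcendental (algebraicClosure k Ω) X0 := by
    rw [hX0]
    exact trans_up ((transcendental_algebraMap_iff (R := k) (algebraMap F Ω).injective
      (a := x)).2 hx)
  -- the radical of `a`
  have hm0 : 0 < ℓ ^ j := pow_pos hℓp.pos j
  have hℓj : ℓ ≤ ℓ ^ j := Nat.le_self_pow (by omega) ℓ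
  have hinj : Function.Injective (algebraMap A (algebraicClosure k Ω)) := by
    rw [IsScalarTower.algebraMap_eq A k (algebraicClosure k Ω)]
    exact (algebraMap k (algebraicClosure k Ω)).injective.comp (IsFractionRing.injective A k)
  have haκ : algebraMap k (algebraicClosure k Ω) a =
      algebraMap A (algebraicClosure k Ω) t * algebraMap A (algebraicClosure k Ω) ϖ ^ α := by
    rw [ha, map_mul, map_zpow₀, ← IsScalarTower.algebraMap_apply,
      ← IsScalarTower.algebraMap_apply]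
  have ha0 : algebraMap k (algebraicClosure k Ω) a ≠ 0 := by
    rw [haκ]
    refine mul_ne_zero ?_ (zpow_ne_zero _ ?_)
    · rw [Ne, map_eq_zero_iff _ hinj]
      exact ht.ne_zero
    · rw [Ne, map_eq_zero_iff _ hinj]
      exact hϖ.ne_zero
  obtain ⟨ρ, hρa⟩ := IsAlgClosed.exists_pow_nat_eq (algebraMap k (algebraicClosure k Ω) a) hm0
  have hρ0 : ρ ≠ 0 := by
    rintro rfl
    rw [zero_pow hm0.ne'] at hρa
    exact ha0 hρa.symm
  have hρ : ρ ^ (ℓ ^ j) = algebraMap A (algebraicClosure k Ω) t *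
      algebraMap A (algebraicClosure k Ω) ϖ ^ α := by rw [hρa, haκ]
  -- the branch points
  obtain ⟨C, hGC, hC0, hrot, hCcard, hCprod⟩ := rot_data A k V hVa hVm (ℓ := ℓ) hj g hlc hs
  have hGB : Good V (insert 0 C) := good_zero hj hGC hC0 hrot
  have hρΩ : algebraMap (algebraicClosure k Ω) Ω ρ ≠ 0 := (_root_.map_ne_zero _).2 hρ0
  have hxρt : Transcendental (algebraicClosure k Ω)
      (algebraMap (algebraicClosure k Ω) Ω ρ * X0) := by
    intro hal
    apply hX0t
    have h1 : X0 = algebraMap (algebraicClosure k Ω) Ω ρ⁻¹ *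
        (algebraMap (algebraicClosure k Ω) Ω ρ * X0) := by
      rw [map_inv₀, inv_mul_cancel_left₀ hρΩ]
    rw [h1]
    exact (isAlgebraic_algebraMap _).mul hal
  have htr : ∀ e : algebraicClosure k Ω, algebraMap (algebraicClosure k Ω) Ω ρ * X0 -
      algebraMap (algebraicClosure k Ω) Ω e ≠ 0 := by
    intro e he
    apply hxρt
    rw [sub_eq_zero.1 he]
    exact isAlgebraic_algebraMap _
  have hc0 : algebraMap A (algebraicClosure k Ω) g.leadingCoeff ≠ 0 := by
    rw [Ne, map_eq_zero_iff _ hinj]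
    exact hlc.ne_zero
  have hcompA : (algebraMap (algebraicClosure k Ω) Ω).comp (algebraMap A (algebraicClosure k Ω)) =
      (algebraMap F Ω).comp ((algebraMap k F).comp (algebraMap A k)) := by
    ext c
    exact IsScalarTower.algebraMap_apply k F Ω (algebraMap A k c)
  have hfΩ : algebraMap F Ω (aeval x f) = algebraMap (algebraicClosure k Ω) Ω
      (algebraMap A (algebraicClosure k Ω) g.leadingCoeff) *
      ∏ e ∈ C, (algebraMap (algebraicClosure k Ω) Ω ρ * X0 -
        algebraMap (algebraicClosure k Ω) Ω e) := by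
    rw [← hCprod Ω, hcompA, mul_pow, ← map_pow, hρa, hf, aeval_comp, map_mul, map_pow, aeval_X,
      aeval_C, aeval_def, eval₂_map, hom_eval₂, map_mul, map_pow, hX0]
    congr 2
    exact (IsScalarTower.algebraMap_apply k F Ω a).symm
  have hxfΩ : algebraMap F Ω (x * aeval x f) = algebraMap (algebraicClosure k Ω) Ω
      (ρ⁻¹ * algebraMap A (algebraicClosure k Ω) g.leadingCoeff) *
      ∏ e ∈ insert 0 C, (algebraMap (algebraicClosure k Ω) Ω ρ * X0 -
        algebraMap (algebraicClosure k Ω) Ω e) := by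
    rw [Finset.prod_insert hC0, map_zero, sub_zero, map_mul, hfΩ, map_mul, map_inv₀, ← hX0]
    field_simp
  have hc0' : ρ⁻¹ * algebraMap A (algebraicClosure k Ω) g.leadingCoeff ≠ 0 :=
    mul_ne_zero (inv_ne_zero hρ0) hc0
  -- the semilinear action
  have hX0M : X0 ∈ Mc ℓ k F Ω := by
    rw [mem_Mc, hX0]
    exact (geomPro ℓ k F Ω).algebraMap_mem x
  obtain ⟨s, hs'⟩ : ∃ s : (algebraicClosure k Ω ≃ₐ[k] algebraicClosure k Ω) →*
      RingAut (Mc ℓ k F Ω), ∀ σ z, eqM ℓ k F Ω (s σ z) = S σ (eqM ℓ k F Ω z) :=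
    ⟨conjSec (eqM ℓ k F Ω) S, fun σ z => conjSec_apply (eqM ℓ k F Ω) S σ z⟩
  have hconst : ∀ σ c, s σ (algebraMap (algebraicClosure k Ω) (Mc ℓ k F Ω) c) =
      algebraMap (algebraicClosure k Ω) (Mc ℓ k F Ω) (σ c) := by
    intro σ c
    apply (eqM ℓ k F Ω).injective
    rw [hs']
    exact Subtype.ext (hcompat σ c _ rfl)
  have hbase : ∀ σ (z : F) (v : Mc ℓ k F Ω), (v : Ω) = algebraMap F Ω z → s σ v = v := by
    intro σ z v hv
    apply (eqM ℓ k F Ω).injective
    rw [hs']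
    have h1 : eqM ℓ k F Ω v = algebraMap F (geomPro ℓ k F Ω) z := Subtype.ext hv
    rw [h1]
    exact (S σ).commutes z
  have hSL : SL k (algebraicClosure k Ω) (Mc ℓ k F Ω) s := by
    refine ⟨hconst, fun z => ?_⟩
    haveI : Algebra.IsIntegral F (geomPro ℓ k F Ω) := inferInstance
    obtain ⟨E', hE', hfix⟩ := cont_fix S hcont (eqM ℓ k F Ω z)
    refine ⟨E', hE', fun σ hσ => (eqM ℓ k F Ω).injective ?_⟩
    rw [hs', hfix σ hσ]
  have hXfix : ∀ σ, s σ ⟨X0, hX0M⟩ = ⟨X0, hX0M⟩ := fun σ => hbase σ x _ hX0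
  have hsf : ∀ σ, ∀ z : Mc ℓ k F Ω, (z : Ω) = ∏ θ ∈ C,
      (algebraMap (algebraicClosure k Ω) Ω ρ * X0 - algebraMap (algebraicClosure k Ω) Ω θ) →
      s σ z = z := by
    intro σ z hz
    refine hbase σ (algebraMap k F (algebraMap A k g.leadingCoeff)⁻¹ * aeval x f) z ?_
    rw [hz, map_mul, hfΩ, ← mul_assoc, ← IsScalarTower.algebraMap_apply, map_inv₀]
    have h1 : algebraMap k Ω (algebraMap A k g.leadingCoeff) =
        algebraMap (algebraicClosure k Ω) Ω
          (algebraMap A (algebraicClosure k Ω) g.leadingCoeff) := rfl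
    rw [h1, inv_mul_cancel₀ ((_root_.map_ne_zero _).2 hc0), one_mul]
  -- the theorem for `Mc`
  have hone : OneE V (⟨X0, hX0M⟩ : Mc ℓ k F Ω) ρ C s := by
    by_cases hE : Ends
    · have hh' : h = X * f := by
        rcases hh with h1 | h1
        · exact h1.2
        · exact absurd hE h1.1
      obtain ⟨P, hP⟩ : ∃ P : Finset (algebraicClosure k Ω), ∀ θ, θ ∈ insert 0 C ↔
        ∃ e ∈ P, θ = ρ * e := ⟨_, mem_scale hρ0 (insert 0 C)⟩
      have hTex : ∀ b : algebraicClosure k Ω, ∃ z : Ω,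
          z ^ ℓ = algebraMap (algebraicClosure k Ω) Ω ρ * X0 - algebraMap _ Ω b := fun b =>
        IsAlgClosed.exists_pow_nat_eq _ hℓp.pos
      choose T hT using hTex
      have hBcard : (insert 0 C).card = C.card + 1 := Finset.card_insert_of_notMem hC0
      have hCge : 2 ≤ C.card := by
        rw [hCcard]
        have h1 := h3a hE
        calc 2 ≤ ℓ := hℓ2
          _ ≤ ℓ ^ j := hℓj
          _ ≤ ℓ ^ j * g.natDegree := Nat.le_mul_of_pos_right _ h1
      have hFld : Fld ℓ (algebraMap (algebraicClosure k Ω) Ω ρ * X0) (insert 0 C) T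
          (Mc ℓ k F Ω) := by
        subst hX0
        refine fld_of hx P Ends N hN1 hN2 hN3 hFN (fun W hW hWt => ?_) hxρt (fun S => ?_) ?_ ?_
          (fun M hxM W hW => ?_) (fun b _ => hT b)
        · have h1 : algebraMap F Ω (aeval x h) ∈ W.nonunits ↔
              ∃ e ∈ P, algebraMap F Ω x - algebraMap _ Ω e ∈ W.nonunits := by
            rw [hh', map_mul, aeval_X, hxfΩ, ← ex_scale hρ0 hP hW]
            exact prod_non W (algebraMap (algebraicClosure k Ω) Ω) hW _ htr _ hc0'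
          have h2 := hidx W (fun c => hW (algebraMap k (algebraicClosure k Ω) c)) hWt
          rw [h1] at h2
          exact h2
        · constructor
          · intro h1
            exact mul_mem (S.algebraMap_mem _) h1
          · intro h1
            have h2 : algebraMap F Ω x = algebraMap (algebraicClosure k Ω) Ω ρ⁻¹ *
                (algebraMap (algebraicClosure k Ω) Ω ρ * algebraMap F Ω x) := by
              rw [map_inv₀, inv_mul_cancel_left₀ hρΩ]
            rw [h2]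
            exact mul_mem (S.algebraMap_mem _) h1
        · rw [hBcard, Nat.add_sub_cancel]
          calc 3 ≤ 2 * 2 := by norm_num
            _ ≤ ℓ * C.card := Nat.mul_le_mul hℓ2 hCge
        · omega
        · have hx'M : algebraMap (algebraicClosure k Ω) Ω ρ * algebraMap F Ω x ∈ M :=
            mul_mem (M.algebraMap_mem _) hxM
          rw [abv_iff hx'M hx'M htr (Or.inl ⟨hE, rfl, rfl⟩) hW]
          exact abvP_scale (X := (⟨algebraMap F Ω x, hxM⟩ : M)) (X' := (⟨_, hx'M⟩ : M)) hρ0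
            (Subtype.ext rfl) hP hW
      exact rotB V hℓ hVa hVm (Finset.mem_insert_self 0 C) (Finset.erase_insert hC0) hρ0 hFld hGB
        hrot hSL hX0M hXfix hsf hϖ ht hα hρ
    · have hh' : h = f := by
        rcases hh with h1 | h1
        · exact absurd h1.1 hE
        · exact h1.2
      obtain ⟨P, hP⟩ : ∃ P : Finset (algebraicClosure k Ω), ∀ θ, θ ∈ C ↔
        ∃ e ∈ P, θ = ρ * e := ⟨_, mem_scale hρ0 C⟩
      obtain ⟨Y0, hY0⟩ := IsAlgClosed.exists_pow_nat_eq (∏ θ ∈ C,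
        (algebraMap (algebraicClosure k Ω) Ω ρ * X0 - algebraMap (algebraicClosure k Ω) Ω θ))
        hℓp.pos
      have hCl : ℓ ∣ C.card := by
        rw [hCcard]
        exact Dvd.dvd.mul_right (dvd_pow_self ℓ (by omega)) _
      have hC3 : 3 ≤ C.card := by
        rw [hCcard]
        exact h3b hE
      have halg0 : Algebra.IsAlgebraic (IntermediateField.adjoin (algebraicClosure k Ω) {X0}) Ω :=
        by
        rw [hX0]
        exact alg_of_N N hN1 hFN
      have hM : ∀ z, z ∈ Mc ℓ k F Ω ↔ z ∈ maxPro ℓ (algebraicClosure k Ω)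
          (KY (algebraicClosure k Ω) (algebraMap _ Ω ρ * X0) Y0) Ω := by
        subst hX0
        refine sameM hx P hE N hN1 hN2 hN3 hFN (fun W hW hWt => ?_) hρ0 hP hCl hC3 hY0
        have h1 : algebraMap F Ω (aeval x h) ∈ W.nonunits ↔
            ∃ e ∈ P, algebraMap F Ω x - algebraMap _ Ω e ∈ W.nonunits := by
          rw [hh', hfΩ, ← ex_scale hρ0 hP hW]
          exact prod_non W (algebraMap (algebraicClosure k Ω) Ω) hW _ htr _ hc0
        have h2 := hidx W (fun c => hW (algebraMap k (algebraicClosure k Ω) c)) hWt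
        rw [h1] at h2
        exact h2
      exact rotA V hj hℓ hVa hVm hX0t halg0 hCl hC3 hGC hC0 hrot hρ0 hY0 hM hSL hX0M hXfix hsf hϖ
        ht hα hρ
  obtain ⟨W, ⟨h1, h2, h3, h4⟩, hun⟩ := hone
  -- transport to the Galois group of `geomPro`
  have hXe : algebraMap F (geomPro ℓ k F Ω) x = eqM ℓ k F Ω (⟨X0, hX0M⟩ : Mc ℓ k F Ω) :=
    Subtype.ext hX0.symm
  have hXe' : algebraMap F (geomPro ℓ k F Ω) x⁻¹ = eqM ℓ k F Ω (⟨X0, hX0M⟩ : Mc ℓ k F Ω)⁻¹ := by
    rw [map_inv₀, hXe, map_inv₀]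
  have hAB : ∀ W' : ValuationSubring (geomPro ℓ k F Ω),
      (∀ c : k, algebraMap F (geomPro ℓ k F Ω) (algebraMap k F c) ∈ W') →
      AB True (x * aeval x f) x W' →
      ((⟨X0, hX0M⟩ : Mc ℓ k F Ω) ∈ (W'.comap ((eqM ℓ k F Ω : Mc ℓ k F Ω ≃+* geomPro ℓ k F Ω) :
          Mc ℓ k F Ω →+* geomPro ℓ k F Ω)).nonunits ∨
        (⟨X0, hX0M⟩ : Mc ℓ k F Ω)⁻¹ ∈ (W'.comap ((eqM ℓ k F Ω : Mc ℓ k F Ω ≃+* geomPro ℓ k F Ω) :
          Mc ℓ k F Ω →+* geomPro ℓ k F Ω)).nonunits ∨
        ∃ θ ∈ C, algebraMap (algebraicClosure k Ω) (Mc ℓ k F Ω) ρ * ⟨X0, hX0M⟩ -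
          algebraMap (algebraicClosure k Ω) (Mc ℓ k F Ω) θ ∈
          (W'.comap ((eqM ℓ k F Ω : Mc ℓ k F Ω ≃+* geomPro ℓ k F Ω) :
            Mc ℓ k F Ω →+* geomPro ℓ k F Ω)).nonunits) := by
    intro W' hW' hab
    have hcW : ∀ c : algebraicClosure k Ω, eqM ℓ k F Ω (algebraMap _ (Mc ℓ k F Ω) c) ∈ W' :=
      fun c => const_mem_N _ W' hW' c _ rfl
    rcases hab with hab | ⟨-, hab⟩
    · have hprodN : algebraMap F (geomPro ℓ k F Ω) (x * aeval x f) =
          ((eqM ℓ k F Ω : Mc ℓ k F Ω →+* geomPro ℓ k F Ω).comp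
            (algebraMap (algebraicClosure k Ω) (Mc ℓ k F Ω)))
              (ρ⁻¹ * algebraMap A (algebraicClosure k Ω) g.leadingCoeff) *
          ∏ e ∈ insert 0 C, (eqM ℓ k F Ω (algebraMap (algebraicClosure k Ω) (Mc ℓ k F Ω) ρ *
              ⟨X0, hX0M⟩) - ((eqM ℓ k F Ω : Mc ℓ k F Ω →+* geomPro ℓ k F Ω).comp
              (algebraMap (algebraicClosure k Ω) (Mc ℓ k F Ω))) e) := by
        apply (algebraMap (geomPro ℓ k F Ω) Ω).injective
        have h5 : algebraMap (geomPro ℓ k F Ω) Ω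
            (algebraMap F (geomPro ℓ k F Ω) (x * aeval x f)) = algebraMap F Ω (x * aeval x f) :=
          rfl
        rw [h5, hxfΩ, map_mul (algebraMap (geomPro ℓ k F Ω) Ω),
          map_prod (algebraMap (geomPro ℓ k F Ω) Ω)]
        rfl
      rw [hprodN, prod_non W' _ (fun c => hcW c) _ ?_ _ hc0'] at hab
      · obtain ⟨θ, hθ, h5⟩ := hab
        rcases Finset.mem_insert.1 hθ with rfl | hθ
        · left
          rw [comap_non]
          rw [map_zero, sub_zero, map_mul] at h5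
          have h6 := non_mul (hcW ρ⁻¹) h5
          rw [map_inv₀, map_inv₀, inv_mul_cancel_left₀] at h6
          · exact h6
          · exact (_root_.map_ne_zero (eqM ℓ k F Ω)).2 ((_root_.map_ne_zero _).2 hρ0)
        · right; right
          refine ⟨θ, hθ, ?_⟩
          rw [comap_non]
          exact h5
      · intro e he
        exact htr e (congrArg (fun z : geomPro ℓ k F Ω => (z : Ω)) he)
    · right; left
      rw [comap_non]
      rw [hXe'] at hab
      exact hab
  have hmem : ∀ z, z ∈ W.comap ((eqM ℓ k F Ω).symm : geomPro ℓ k F Ω →+* Mc ℓ k F Ω) ↔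
      (eqM ℓ k F Ω).symm z ∈ W := fun z => Iff.rfl
  have hcomm : ∀ σ z, (eqM ℓ k F Ω).symm (S σ z) = s σ ((eqM ℓ k F Ω).symm z) := by
    intro σ z
    apply (eqM ℓ k F Ω).injective
    rw [hs', RingEquiv.apply_symm_apply, RingEquiv.apply_symm_apply]
  have hcm : ∀ c : k, algebraMap F (geomPro ℓ k F Ω) (algebraMap k F c) ∈
      W.comap ((eqM ℓ k F Ω).symm : geomPro ℓ k F Ω →+* Mc ℓ k F Ω) := by
    intro c
    rw [hmem]
    have h5 : (eqM ℓ k F Ω).symm (algebraMap F (geomPro ℓ k F Ω) (algebraMap k F c)) =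
        algebraMap (algebraicClosure k Ω) (Mc ℓ k F Ω) (algebraMap k (algebraicClosure k Ω) c) :=
      Subtype.ext (IsScalarTower.algebraMap_apply k F Ω c).symm
    rw [h5]
    exact h1 _
  refine ⟨W.comap ((eqM ℓ k F Ω).symm : geomPro ℓ k F Ω →+* Mc ℓ k F Ω), ⟨hcm, ?_, ?_, ?_⟩, ?_⟩
  · intro z hz
    obtain ⟨c, hc⟩ := h2 _ hz
    refine ⟨c, eqM ℓ k F Ω ((eqM ℓ k F Ω).symm z - algebraMap _ _ c), ?_, rfl⟩
    rw [comap_non, RingEquiv.symm_apply_apply]
    exact hc
  · rcases h3 with h3 | h3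
    · left
      rw [hXe, comap_non, RingEquiv.symm_apply_apply]
      exact h3
    · right
      refine ⟨trivial, ?_⟩
      rw [hXe', comap_non, RingEquiv.symm_apply_apply]
      exact h3
  · intro σ z
    rw [hmem, hmem, hcomm]
    exact h4 σ (hdec σ) _
  · intro W' hW' hAB' hst
    have h5 := hun (W'.comap ((eqM ℓ k F Ω : Mc ℓ k F Ω ≃+* geomPro ℓ k F Ω) :
          Mc ℓ k F Ω →+* geomPro ℓ k F Ω)) (fun c => const_mem_N _ W' hW' c _ rfl)
      (hAB W' hW' hAB') (fun σ _ z => by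
        change eqM ℓ k F Ω (s σ z) ∈ W' ↔ eqM ℓ k F Ω z ∈ W'
        rw [hs']
        exact hst σ _)
    rw [← h5]
    ext z
    change z ∈ W' ↔ eqM ℓ k F Ω ((eqM ℓ k F Ω).symm z) ∈ W'
    rw [RingEquiv.apply_symm_apply]

end main

end Pool.Agent.H93S
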