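import Pool.Agent.H93S.Rot6
import Pool.Agent.H93S.Core3

/-!
# Project SC: sections of uniformly ramified covers whose branch points are permuted by rotations,
without a condition on the valuations
-/

set_option autoImplicit false
set_option linter.all false

open Polynomial FF

namespace Pool.Agent.H93S

open Pool.Agent.Y157.PS Pool.Agent.Y948.PS Pool.Agent.Y31.PS Pool.Agent.R925.Q Pool.Agent.R925.X
  Pool.Agent.R925.L

/-- the roots of a separable polynomial -/
theorem roots_f' {k κ : Type} [Field k] [Field κ] [Algebra k κ] [IsAlgClosed κ] (f : k[X])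
    (hsep : f.Separable) : ∃ P : Finset κ, (∀ e, e ∈ P ↔ aeval e f = 0) ∧
      P.card = f.natDegree ∧ ∀ (K : Type) [Field K] (j : κ →+* K) (X : K),
        f.eval₂ (j.comp (algebraMap k κ)) X =
          j (algebraMap k κ f.leadingCoeff) * ∏ e ∈ P, (X - j e) := by
  classical
  have hf0 : f ≠ 0 := hsep.ne_zero
  have hm0 : f.map (algebraMap k κ) ≠ 0 := (Polynomial.map_ne_zero_iff
    (algebraMap k κ).injective).2 hf0
  have hnd : (f.map (algebraMap k κ)).roots.Nodup := nodup_roots hsep.map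
  have hsp := (IsAlgClosed.splits (f.map (algebraMap k κ))).eq_prod_roots
  have hcard : Multiset.card (f.map (algebraMap k κ)).roots = f.natDegree := by
    rw [← (IsAlgClosed.splits (f.map (algebraMap k κ))).natDegree_eq_card_roots,
      natDegree_map]
  refine ⟨(f.map (algebraMap k κ)).roots.toFinset, fun e => ?_, ?_, fun K _ j X => ?_⟩
  · rw [Multiset.mem_toFinset, mem_roots hm0, IsRoot.def, eval_map, aeval_def]
  · rw [Multiset.toFinset_card_of_nodup hnd, hcard]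
  · rw [← eval₂_map]
    conv_lhs => rw [hsp]
    rw [eval₂_mul, eval₂_C, Finset.prod_eq_multiset_prod, Multiset.toFinset_val, hnd.dedup,
      leadingCoeff_map]
    congr 1
    rw [← coe_eval₂RingHom, map_multiset_prod, Multiset.map_map]
    congr 1
    refine Multiset.map_congr rfl fun a _ => ?_
    simp

section main

variable {A k F Ω : Type} [CommRing A] [IsDomain A] [IsDiscreteValuationRing A]
    [Finite (IsLocalRing.ResidueField A)] [Field k] [CharZero k] [Algebra A k] [IsFractionRing A k]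
    [Field F] [Field Ω] [Algebra k F] [Algebra F Ω] [Algebra k Ω] [IsScalarTower k F Ω]
    [IsAlgClosed Ω] [Algebra.IsAlgebraic F Ω]

theorem core4 [IsAdicComplete (IsLocalRing.maximalIdeal A) A] {ℓ : ℕ} [Fact ℓ.Prime]
    (hℓ : IsUnit (ℓ : A)) (g : k[X]) (Ends : Prop) (f h : k[X]) (hf : f = expand k ℓ g)
    (hh : (Ends ∧ h = X * f) ∨ (¬ Ends ∧ h = f)) (hsep : h.Separable)
    (h3a : Ends → 1 ≤ g.natDegree) (h3b : ¬ Ends → 3 ≤ ℓ * g.natDegree)
    (hcr : ∀ e e' : algebraicClosure k Ω, aeval e f = 0 → aeval e' f = 0 → e ≠ e' →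
      ((algebraMap k (algebraicClosure k Ω)).comp (algebraMap A k)).IsIntegralElem (e / e') ∧
      ((algebraMap k (algebraicClosure k Ω)).comp (algebraMap A k)).IsIntegralElem
        (e' / (e - e')))
    {ϖ : A} (hϖ : Irreducible ϖ) {α : ℤ} (hα : ¬ (ℓ : ℤ) ∣ α) {n : ℕ}
    (hval : ∀ e : algebraicClosure k Ω, aeval e f = 0 →
      ((algebraMap k (algebraicClosure k Ω)).comp (algebraMap A k)).IsIntegralElem
        (e ^ (ℓ * n) / algebraMap k (algebraicClosure k Ω) (algebraMap A k ϖ) ^ α) ∧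
      ((algebraMap k (algebraicClosure k Ω)).comp (algebraMap A k)).IsIntegralElem
        (e ^ (ℓ * n) / algebraMap k (algebraicClosure k Ω) (algebraMap A k ϖ) ^ α)⁻¹)
    (x : F) (hx : Transcendental k x)
    (N : IntermediateField (IntermediateField.adjoin (algebraicClosure k Ω) {algebraMap F Ω x}) Ω)
    (hN1 : FiniteDimensional
      (IntermediateField.adjoin (algebraicClosure k Ω) {algebraMap F Ω x}) N)
    (hN2 : IsGalois (IntermediateField.adjoin (algebraicClosure k Ω) {algebraMap F Ω x}) N)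
    (hN3 : ∃ m : ℕ, Module.finrank
      (IntermediateField.adjoin (algebraicClosure k Ω) {algebraMap F Ω x}) N = ℓ ^ m)
    (hFN : ∀ z : F, algebraMap F Ω z ∈ N)
    (hidx : ∀ W : ValuationSubring Ω, (∀ c : k, algebraMap k Ω c ∈ W) → W ≠ ⊤ →
      ((algebraMap F Ω (aeval x h) ∈ W.nonunits ∨ (Ends ∧ (algebraMap F Ω x)⁻¹ ∈ W.nonunits)) →
        (valGrp W (IntermediateField.adjoin (algebraicClosure k Ω)
          {algebraMap F Ω x}).toSubfield).relIndex (valGrp W (geomF k F Ω).toSubfield) = ℓ) ∧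
      (¬ (algebraMap F Ω (aeval x h) ∈ W.nonunits ∨ (Ends ∧ (algebraMap F Ω x)⁻¹ ∈ W.nonunits)) →
        (valGrp W (IntermediateField.adjoin (algebraicClosure k Ω)
          {algebraMap F Ω x}).toSubfield).relIndex (valGrp W (geomF k F Ω).toSubfield) = 1))
    (S : (algebraicClosure k Ω ≃ₐ[k] algebraicClosure k Ω) →*
      (geomPro ℓ k F Ω ≃ₐ[F] geomPro ℓ k F Ω)) (hcont : Continuous S)
    (hcompat : ∀ σ (c : algebraicClosure k Ω) (z : geomPro ℓ k F Ω), (z : Ω) = (c : Ω) →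
      (S σ z : Ω) = (σ c : Ω)) :
    ∃ W : ValuationSubring (geomPro ℓ k F Ω),
      ((∀ c : k, algebraMap F (geomPro ℓ k F Ω) (algebraMap k F c) ∈ W) ∧
       (∀ z ∈ W, ∃ c : algebraicClosure k Ω, ∃ z' ∈ W.nonunits, (z' : Ω) = (z : Ω) - c) ∧
       AB True x x W ∧ ∀ σ z, S σ z ∈ W ↔ z ∈ W) ∧
      ∀ W' : ValuationSubring (geomPro ℓ k F Ω),
        (∀ c : k, algebraMap F (geomPro ℓ k F Ω) (algebraMap k F c) ∈ W') →
        AB True (x * aeval x f) x W' →
        (∀ σ z, S σ z ∈ W' ↔ z ∈ W') → W' = W := by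
  classical
  have hℓp : ℓ.Prime := Fact.out
  have hℓ2 := hℓp.two_le
  have hac : IsAlgClosure k (algebraicClosure k Ω) := inferInstance
  have hkb : IsAlgClosed (algebraicClosure k Ω) := hac.1
  have hN : Normal k (algebraicClosure k Ω) := IsAlgClosure.normal k _
  have hGal : IsGalois k (algebraicClosure k Ω) := ⟨⟩
  have hch : CharZero (algebraicClosure k Ω) :=
    charZero_of_injective_algebraMap (algebraMap k (algebraicClosure k Ω)).injective
  letI : Algebra A (algebraicClosure k Ω) :=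
    ((algebraMap k (algebraicClosure k Ω)).comp (algebraMap A k)).toAlgebra
  haveI hst : IsScalarTower A k (algebraicClosure k Ω) :=
    IsScalarTower.of_algebraMap_eq (fun _ => rfl)
  obtain ⟨V, hV⟩ := Pool.Agent.Y809.PS.val A k (algebraicClosure k Ω)
  have hV' : ∀ z, ((algebraMap k (algebraicClosure k Ω)).comp (algebraMap A k)).IsIntegralElem z ↔
      z ∈ V := fun z => (hV z).symm
  have hVa : ∀ a : A, algebraMap A (algebraicClosure k Ω) a ∈ V := fun a =>
    (hV _).2 isIntegral_algebraMap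
  have hVm : ∀ a ∈ IsLocalRing.maximalIdeal A, algebraMap A (algebraicClosure k Ω) a ∈
      V.nonunits := by
    intro a ha
    refine nonunits_iff.2 ⟨hVa a, ?_⟩
    by_cases ha0 : a = 0
    · left
      rw [ha0, map_zero]
    right
    intro hi
    rw [hV, IsScalarTower.algebraMap_apply A k (algebraicClosure k Ω), ← map_inv₀,
      isIntegral_algebraMap_iff (algebraMap k (algebraicClosure k Ω)).injective] at hi
    obtain ⟨b, hb⟩ := IsIntegrallyClosed.isIntegral_iff.1 hi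
    have h1 : a * b = 1 := by
      apply IsFractionRing.injective A k
      rw [map_mul, hb, map_one, mul_inv_cancel₀]
      rw [Ne, map_eq_zero_iff _ (IsFractionRing.injective A k)]
      exact ha0
    exact (IsLocalRing.mem_maximalIdeal _).1 ha (IsUnit.of_mul_eq_one b h1)
  have hdec : ∀ σ : algebraicClosure k Ω ≃ₐ[k] algebraicClosure k Ω, Dec V σ := by
    intro σ z
    rw [hV, hV]
    have h1 : ∀ (τ : algebraicClosure k Ω ≃ₐ[k] algebraicClosure k Ω) (w : algebraicClosure k Ω),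
        IsIntegral A w → IsIntegral A (τ w) := fun τ w hw =>
      hw.map (τ.toAlgHom.restrictScalars A)
    refine ⟨fun h => ?_, h1 σ z⟩
    have h2 := h1 σ.symm _ h
    rwa [σ.symm_apply_apply] at h2
  obtain ⟨X0, hX0⟩ : ∃ X0, X0 = algebraMap F Ω x := ⟨_, rfl⟩
  have hX0t : Transcendental (algebraicClosure k Ω) X0 := by
    rw [hX0]
    exact trans_up ((transcendental_algebraMap_iff (R := k) (algebraMap F Ω).injective
      (a := x)).2 hx)
  have hinj : Function.Injective (algebraMap A (algebraicClosure k Ω)) := by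
    rw [IsScalarTower.algebraMap_eq A k (algebraicClosure k Ω)]
    exact (algebraMap k (algebraicClosure k Ω)).injective.comp (IsFractionRing.injective A k)
  -- the branch points
  have hsepf : f.Separable := by
    rcases hh with ⟨-, h1⟩ | ⟨-, h1⟩
    · rw [h1] at hsep
      exact hsep.of_mul_right
    · rwa [← h1]
  obtain ⟨C₀, hC₀, hC₀card, hC₀prod⟩ := roots_f' (κ := algebraicClosure k Ω) f hsepf
  have h00 : (0 : algebraicClosure k Ω) ∉ C₀ := by
    intro h1
    rw [hC₀, hf] at h1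
    rw [hf] at hsepf
    exact expand_zero hℓ2 g hsepf h1
  have hC₀rot : ∀ ζ : algebraicClosure k Ω, ζ ^ (ℓ ^ 1) = 1 → ∀ θ ∈ C₀, ζ * θ ∈ C₀ := by
    intro ζ hζ θ hθ
    rw [pow_one] at hζ
    rw [hC₀, hf, expand_aeval] at hθ ⊢
    rw [mul_pow, hζ, one_mul, hθ]
  have hC₀σ : ∀ (σ : algebraicClosure k Ω ≃ₐ[k] algebraicClosure k Ω), ∀ e ∈ C₀, σ e ∈ C₀ := by
    intro σ e he
    rw [hC₀] at he ⊢
    have h1 : aeval (σ e) f = σ (aeval e f) := (Polynomial.aeval_algHom_apply σ.toAlgHom e f)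
    rw [h1, he, map_zero]
  have hC₀0 : ∀ θ ∈ C₀, θ ≠ 0 := fun θ hθ h => h00 (h ▸ hθ)
  have hC₀div : ∀ θ ∈ C₀, ∀ θ' ∈ C₀, θ / θ' ∈ V := by
    intro θ hθ θ' hθ'
    by_cases hne : θ = θ'
    · rw [hne, div_self (hC₀0 θ' hθ')]
      exact one_mem _
    · exact (hV' _).1 (hcr θ θ' ((hC₀ θ).1 hθ) ((hC₀ θ').1 hθ') hne).1
  have hC₀diff : ∀ θ ∈ C₀, ∀ θ' ∈ C₀, θ ≠ θ' → IsU V ((θ - θ') / θ') := by
    intro θ hθ θ' hθ' hne
    refine ⟨div_ne_zero (sub_ne_zero.2 hne) (hC₀0 θ' hθ'), ?_, ?_⟩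
    · rw [sub_div, div_self (hC₀0 θ' hθ')]
      exact sub_mem (hC₀div θ hθ θ' hθ') (one_mem _)
    · rw [inv_div]
      exact (hV' _).1 (hcr θ θ' ((hC₀ θ).1 hθ) ((hC₀ θ').1 hθ') hne).2
  have hα' : ¬ ((ℓ ^ 1 : ℕ) : ℤ) ∣ α := by rwa [pow_one]
  have hC₀val : ∀ θ ∈ C₀, IsU V (θ ^ (ℓ ^ 1 * n) / algebraMap A (algebraicClosure k Ω) ϖ ^ α) := by
    intro θ hθ
    have h1 := hval θ ((hC₀ θ).1 hθ)
    rw [pow_one]
    refine ⟨div_ne_zero (pow_ne_zero _ (hC₀0 θ hθ)) (zpow_ne_zero _ ?_), (hV' _).1 h1.1,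
      (hV' _).1 h1.2⟩
    rw [Ne, map_eq_zero_iff _ hinj]
    exact hϖ.ne_zero
  have hfdeg : f.natDegree = ℓ * g.natDegree := by
    rw [hf, natDegree_expand, mul_comm]
  obtain ⟨θ₀, hθ₀⟩ : C₀.Nonempty := by
    rw [← Finset.card_pos, hC₀card, hfdeg]
    by_cases hE : Ends
    · exact Nat.mul_pos hℓp.pos (h3a hE)
    · have h1 := h3b hE
      omega
  have hθ₀0 := hC₀0 θ₀ hθ₀
  obtain ⟨ρ, hρd⟩ : ∃ ρ, ρ = θ₀⁻¹ := ⟨_, rfl⟩
  have hρ0 : ρ ≠ 0 := by
    rw [hρd]
    exact inv_ne_zero hθ₀0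
  obtain ⟨C, hCdef⟩ : ∃ C, C = C₀.image (fun e => ρ * e) := ⟨_, rfl⟩
  have hCmem : ∀ θ, θ ∈ C ↔ ∃ e ∈ C₀, θ = ρ * e := by
    intro θ
    rw [hCdef, Finset.mem_image]
    exact ⟨fun ⟨e, he, h1⟩ => ⟨e, he, h1.symm⟩, fun ⟨e, he, h1⟩ => ⟨e, he, h1.symm⟩⟩
  have hinjρ : Function.Injective (fun e => ρ * e) := mul_right_injective₀ hρ0
  have hCcard : C.card = ℓ * g.natDegree := by
    rw [hCdef, Finset.card_image_of_injective _ hinjρ, hC₀card, hfdeg]
  have hC0 : (0 : algebraicClosure k Ω) ∉ C := by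
    intro h1
    obtain ⟨e, he, h2⟩ := (hCmem 0).1 h1
    exact mul_ne_zero hρ0 (hC₀0 e he) h2.symm
  have hρΩ : algebraMap (algebraicClosure k Ω) Ω ρ ≠ 0 := (_root_.map_ne_zero _).2 hρ0
  have hxρt : Transcendental (algebraicClosure k Ω)
      (algebraMap (algebraicClosure k Ω) Ω ρ * X0) := by
    intro hal
    apply hX0t
    have h1 : X0 = algebraMap (algebraicClosure k Ω) Ω ρ⁻¹ *
        (algebraMap (algebraicClosure k Ω) Ω ρ * X0) := by
      rw [map_inv₀, inv_mul_cancel_left₀ hρΩ]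
    rw [h1]
    exact (isAlgebraic_algebraMap _).mul hal
  have htr : ∀ e : algebraicClosure k Ω, algebraMap (algebraicClosure k Ω) Ω ρ * X0 -
      algebraMap (algebraicClosure k Ω) Ω e ≠ 0 := by
    intro e he
    apply hxρt
    rw [sub_eq_zero.1 he]
    exact isAlgebraic_algebraMap _
  have hcomp : (algebraMap (algebraicClosure k Ω) Ω).comp (algebraMap k (algebraicClosure k Ω)) =
      (algebraMap F Ω).comp (algebraMap k F) := by
    ext c
    exact IsScalarTower.algebraMap_apply k F Ω c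
  obtain ⟨c0, hc0d⟩ : ∃ c0 : algebraicClosure k Ω, c0 =
    algebraMap k (algebraicClosure k Ω) f.leadingCoeff * (θ₀ ^ ℓ) ^ g.natDegree := ⟨_, rfl⟩
  have hc0 : c0 ≠ 0 := by
    rw [hc0d]
    refine mul_ne_zero ((_root_.map_ne_zero _).2 (leadingCoeff_ne_zero.2 hsepf.ne_zero)) ?_
    exact pow_ne_zero _ (pow_ne_zero _ hθ₀0)
  have hprodC : ∏ e ∈ C, (algebraMap (algebraicClosure k Ω) Ω ρ * X0 -
      algebraMap (algebraicClosure k Ω) Ω e) = algebraMap (algebraicClosure k Ω) Ω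
        (((θ₀ ^ ℓ) ^ g.natDegree)⁻¹) * ∏ e ∈ C₀, (X0 - algebraMap (algebraicClosure k Ω) Ω e) := by
    rw [hCdef, Finset.prod_image fun a _ b _ h1 => hinjρ h1]
    have h1 : ∀ e : algebraicClosure k Ω, algebraMap (algebraicClosure k Ω) Ω ρ * X0 -
        algebraMap (algebraicClosure k Ω) Ω (ρ * e) = algebraMap (algebraicClosure k Ω) Ω ρ *
          (X0 - algebraMap (algebraicClosure k Ω) Ω e) := by
      intro e
      rw [map_mul, mul_sub]
    rw [Finset.prod_congr rfl fun e _ => h1 e, Finset.prod_mul_distrib, Finset.prod_const,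
      hC₀card, hfdeg, ← map_pow, hρd, inv_pow, pow_mul]
  have hfΩ : algebraMap F Ω (aeval x f) = algebraMap (algebraicClosure k Ω) Ω c0 *
      ∏ e ∈ C, (algebraMap (algebraicClosure k Ω) Ω ρ * X0 -
        algebraMap (algebraicClosure k Ω) Ω e) := by
    rw [hprodC, ← mul_assoc, ← map_mul, hc0d, mul_assoc, mul_inv_cancel₀ (pow_ne_zero _
      (pow_ne_zero _ hθ₀0)), mul_one, ← hC₀prod Ω (algebraMap (algebraicClosure k Ω) Ω) X0, hcomp,
      hX0, aeval_def, hom_eval₂]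
  have hxfΩ : algebraMap F Ω (x * aeval x f) = algebraMap (algebraicClosure k Ω) Ω (ρ⁻¹ * c0) *
      ∏ e ∈ insert 0 C, (algebraMap (algebraicClosure k Ω) Ω ρ * X0 -
        algebraMap (algebraicClosure k Ω) Ω e) := by
    rw [Finset.prod_insert hC0, map_zero, sub_zero, map_mul, hfΩ, map_mul, map_inv₀, ← hX0]
    field_simp
  have hc0' : ρ⁻¹ * c0 ≠ 0 := mul_ne_zero (inv_ne_zero hρ0) hc0
  -- the semilinear action
  have hX0M : X0 ∈ Mc ℓ k F Ω := by
    rw [mem_Mc, hX0]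
    exact (geomPro ℓ k F Ω).algebraMap_mem x
  obtain ⟨s, hs'⟩ : ∃ s : (algebraicClosure k Ω ≃ₐ[k] algebraicClosure k Ω) →*
      RingAut (Mc ℓ k F Ω), ∀ σ z, eqM ℓ k F Ω (s σ z) = S σ (eqM ℓ k F Ω z) :=
    ⟨conjSec (eqM ℓ k F Ω) S, fun σ z => conjSec_apply (eqM ℓ k F Ω) S σ z⟩
  have hconst : ∀ σ c, s σ (algebraMap (algebraicClosure k Ω) (Mc ℓ k F Ω) c) =
      algebraMap (algebraicClosure k Ω) (Mc ℓ k F Ω) (σ c) := by
    intro σ c
    apply (eqM ℓ k F Ω).injective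
    rw [hs']
    exact Subtype.ext (hcompat σ c _ rfl)
  have hbase : ∀ σ (z : F) (v : Mc ℓ k F Ω), (v : Ω) = algebraMap F Ω z → s σ v = v := by
    intro σ z v hv
    apply (eqM ℓ k F Ω).injective
    rw [hs']
    have h1 : eqM ℓ k F Ω v = algebraMap F (geomPro ℓ k F Ω) z := Subtype.ext hv
    rw [h1]
    exact (S σ).commutes z
  have hSL : SL k (algebraicClosure k Ω) (Mc ℓ k F Ω) s := by
    refine ⟨hconst, fun z => ?_⟩
    haveI : Algebra.IsIntegral F (geomPro ℓ k F Ω) := inferInstance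
    obtain ⟨E', hE', hfix⟩ := cont_fix S hcont (eqM ℓ k F Ω z)
    refine ⟨E', hE', fun σ hσ => (eqM ℓ k F Ω).injective ?_⟩
    rw [hs', hfix σ hσ]
  have hXfix : ∀ σ, s σ ⟨X0, hX0M⟩ = ⟨X0, hX0M⟩ := fun σ => hbase σ x _ hX0
  have hsf : ∀ σ : algebraicClosure k Ω ≃ₐ[k] algebraicClosure k Ω,
      σ (θ₀ ^ (ℓ ^ 1)) = θ₀ ^ (ℓ ^ 1) → ∀ z : Mc ℓ k F Ω, (z : Ω) = ∏ θ ∈ C,
      (algebraMap (algebraicClosure k Ω) Ω ρ * X0 - algebraMap (algebraicClosure k Ω) Ω θ) →
      s σ z = z := by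
    intro σ hσ z hz
    rw [pow_one] at hσ
    have hσc : σ c0 = c0 := by
      rw [hc0d, map_mul, map_pow, hσ, σ.commutes]
    have hfM : algebraMap F Ω (aeval x f) ∈ Mc ℓ k F Ω := by
      rw [mem_Mc]
      exact (geomPro ℓ k F Ω).algebraMap_mem _
    have h1 : z = algebraMap (algebraicClosure k Ω) (Mc ℓ k F Ω) c0⁻¹ * ⟨_, hfM⟩ := by
      apply Subtype.ext
      change (z : Ω) = algebraMap (algebraicClosure k Ω) Ω c0⁻¹ * algebraMap F Ω (aeval x f)
      rw [hz, hfΩ, ← mul_assoc, ← map_mul, inv_mul_cancel₀ hc0, map_one, one_mul]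
    rw [h1, map_mul, hconst, map_inv₀, hσc, hbase σ (aeval x f) ⟨_, hfM⟩ rfl]
  have halg0 : Algebra.IsAlgebraic (IntermediateField.adjoin (algebraicClosure k Ω) {X0}) Ω := by
    rw [hX0]
    exact alg_of_N N hN1 hFN
  -- the theorem for `Mc`
  have hone : OneE V (⟨X0, hX0M⟩ : Mc ℓ k F Ω) ρ C s := by
    have hgoal := rotE V hℓ hVa hVm hdec (j := 1) le_rfl h00 hC₀rot hC₀σ hC₀div hC₀diff hϖ hα'
      hC₀val hθ₀ (C := C) (by rw [← hρd]; exact hCmem) hX0t halg0 hSL hX0M hXfix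
      (by rw [← hρd]; exact hsf)
    rw [← hρd] at hgoal
    refine hgoal ?_
    by_cases hE : Ends
    · right
      have hh' : h = X * f := by
        rcases hh with h1 | h1
        · exact h1.2
        · exact absurd hE h1.1
      obtain ⟨P, hP⟩ : ∃ P : Finset (algebraicClosure k Ω), ∀ θ, θ ∈ insert 0 C ↔
        ∃ e ∈ P, θ = ρ * e := ⟨_, mem_scale hρ0 (insert 0 C)⟩
      have hTex : ∀ b : algebraicClosure k Ω, ∃ z : Ω,
          z ^ ℓ = algebraMap (algebraicClosure k Ω) Ω ρ * X0 - algebraMap _ Ω b := fun b =>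
        IsAlgClosed.exists_pow_nat_eq _ hℓp.pos
      choose T hT using hTex
      have hBcard : (insert 0 C).card = C.card + 1 := Finset.card_insert_of_notMem hC0
      have hCge : 2 ≤ C.card := by
        rw [hCcard]
        have h1 := h3a hE
        calc 2 ≤ ℓ := hℓ2
          _ ≤ ℓ * g.natDegree := Nat.le_mul_of_pos_right _ h1
      refine ⟨T, ?_⟩
      subst hX0
      refine fld_of hx P Ends N hN1 hN2 hN3 hFN (fun W hW hWt => ?_) hxρt (fun S => ?_) ?_ ?_
        (fun M hxM W hW => ?_) (fun b _ => hT b)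
      · have h1 : algebraMap F Ω (aeval x h) ∈ W.nonunits ↔
            ∃ e ∈ P, algebraMap F Ω x - algebraMap _ Ω e ∈ W.nonunits := by
          rw [hh', map_mul, aeval_X, hxfΩ, ← ex_scale hρ0 hP hW]
          exact prod_non W (algebraMap (algebraicClosure k Ω) Ω) hW _ htr _ hc0'
        have h2 := hidx W (fun c => hW (algebraMap k (algebraicClosure k Ω) c)) hWt
        rw [h1] at h2
        exact h2
      · constructor
        · intro h1
          exact mul_mem (S.algebraMap_mem _) h1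
        · intro h1
          have h2 : algebraMap F Ω x = algebraMap (algebraicClosure k Ω) Ω ρ⁻¹ *
              (algebraMap (algebraicClosure k Ω) Ω ρ * algebraMap F Ω x) := by
            rw [map_inv₀, inv_mul_cancel_left₀ hρΩ]
          rw [h2]
          exact mul_mem (S.algebraMap_mem _) h1
      · rw [hBcard, Nat.add_sub_cancel]
        calc 3 ≤ 2 * 2 := by norm_num
          _ ≤ ℓ * C.card := Nat.mul_le_mul hℓ2 hCge
      · omega
      · have hx'M : algebraMap (algebraicClosure k Ω) Ω ρ * algebraMap F Ω x ∈ M :=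
          mul_mem (M.algebraMap_mem _) hxM
        rw [abv_iff hx'M hx'M htr (Or.inl ⟨hE, rfl, rfl⟩) hW]
        exact abvP_scale (X := (⟨algebraMap F Ω x, hxM⟩ : M)) (X' := (⟨_, hx'M⟩ : M)) hρ0
          (Subtype.ext rfl) hP hW
    · left
      have hh' : h = f := by
        rcases hh with h1 | h1
        · exact absurd h1.1 hE
        · exact h1.2
      obtain ⟨P, hP⟩ : ∃ P : Finset (algebraicClosure k Ω), ∀ θ, θ ∈ C ↔
        ∃ e ∈ P, θ = ρ * e := ⟨_, mem_scale hρ0 C⟩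
      obtain ⟨Y0, hY0⟩ := IsAlgClosed.exists_pow_nat_eq (∏ θ ∈ C,
        (algebraMap (algebraicClosure k Ω) Ω ρ * X0 - algebraMap (algebraicClosure k Ω) Ω θ))
        hℓp.pos
      have hCl : ℓ ∣ C.card := by
        rw [hCcard]
        exact Dvd.intro _ rfl
      have hC3 : 3 ≤ C.card := by
        rw [hCcard]
        exact h3b hE
      refine ⟨hCl, hC3, Y0, hY0, ?_⟩
      subst hX0
      refine sameM hx P hE N hN1 hN2 hN3 hFN (fun W hW hWt => ?_) hρ0 hP hCl hC3 hY0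
      have h1 : algebraMap F Ω (aeval x h) ∈ W.nonunits ↔
          ∃ e ∈ P, algebraMap F Ω x - algebraMap _ Ω e ∈ W.nonunits := by
        rw [hh', hfΩ, ← ex_scale hρ0 hP hW]
        exact prod_non W (algebraMap (algebraicClosure k Ω) Ω) hW _ htr _ hc0
      have h2 := hidx W (fun c => hW (algebraMap k (algebraicClosure k Ω) c)) hWt
      rw [h1] at h2
      exact h2
  obtain ⟨W, ⟨h1, h2, h3, h4⟩, hun⟩ := hone
  -- transport to the Galois group of `geomPro`
  have hXe : algebraMap F (geomPro ℓ k F Ω) x = eqM ℓ k F Ω (⟨X0, hX0M⟩ : Mc ℓ k F Ω) :=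
    Subtype.ext hX0.symm
  have hXe' : algebraMap F (geomPro ℓ k F Ω) x⁻¹ = eqM ℓ k F Ω (⟨X0, hX0M⟩ : Mc ℓ k F Ω)⁻¹ := by
    rw [map_inv₀, hXe, map_inv₀]
  have hAB : ∀ W' : ValuationSubring (geomPro ℓ k F Ω),
      (∀ c : k, algebraMap F (geomPro ℓ k F Ω) (algebraMap k F c) ∈ W') →
      AB True (x * aeval x f) x W' →
      ((⟨X0, hX0M⟩ : Mc ℓ k F Ω) ∈ (W'.comap ((eqM ℓ k F Ω : Mc ℓ k F Ω ≃+* geomPro ℓ k F Ω) :
          Mc ℓ k F Ω →+* geomPro ℓ k F Ω)).nonunits ∨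
        (⟨X0, hX0M⟩ : Mc ℓ k F Ω)⁻¹ ∈ (W'.comap ((eqM ℓ k F Ω : Mc ℓ k F Ω ≃+* geomPro ℓ k F Ω) :
          Mc ℓ k F Ω →+* geomPro ℓ k F Ω)).nonunits ∨
        ∃ θ ∈ C, algebraMap (algebraicClosure k Ω) (Mc ℓ k F Ω) ρ * ⟨X0, hX0M⟩ -
          algebraMap (algebraicClosure k Ω) (Mc ℓ k F Ω) θ ∈
          (W'.comap ((eqM ℓ k F Ω : Mc ℓ k F Ω ≃+* geomPro ℓ k F Ω) :
            Mc ℓ k F Ω →+* geomPro ℓ k F Ω)).nonunits) := by
    intro W' hW' hab
    have hcW : ∀ c : algebraicClosure k Ω, eqM ℓ k F Ω (algebraMap _ (Mc ℓ k F Ω) c) ∈ W' :=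
      fun c => const_mem_N _ W' hW' c _ rfl
    rcases hab with hab | ⟨-, hab⟩
    · have hprodN : algebraMap F (geomPro ℓ k F Ω) (x * aeval x f) =
          ((eqM ℓ k F Ω : Mc ℓ k F Ω →+* geomPro ℓ k F Ω).comp
            (algebraMap (algebraicClosure k Ω) (Mc ℓ k F Ω)))
              (ρ⁻¹ * c0) *
          ∏ e ∈ insert 0 C, (eqM ℓ k F Ω (algebraMap (algebraicClosure k Ω) (Mc ℓ k F Ω) ρ *
              ⟨X0, hX0M⟩) - ((eqM ℓ k F Ω : Mc ℓ k F Ω →+* geomPro ℓ k F Ω).comp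
              (algebraMap (algebraicClosure k Ω) (Mc ℓ k F Ω))) e) := by
        apply (algebraMap (geomPro ℓ k F Ω) Ω).injective
        have h5 : algebraMap (geomPro ℓ k F Ω) Ω
            (algebraMap F (geomPro ℓ k F Ω) (x * aeval x f)) = algebraMap F Ω (x * aeval x f) :=
          rfl
        rw [h5, hxfΩ, map_mul (algebraMap (geomPro ℓ k F Ω) Ω),
          map_prod (algebraMap (geomPro ℓ k F Ω) Ω)]
        rfl
      rw [hprodN, prod_non W' _ (fun c => hcW c) _ ?_ _ hc0'] at hab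
      · obtain ⟨θ, hθ, h5⟩ := hab
        rcases Finset.mem_insert.1 hθ with rfl | hθ
        · left
          rw [comap_non]
          rw [map_zero, sub_zero, map_mul] at h5
          have h6 := non_mul (hcW ρ⁻¹) h5
          rw [map_inv₀, map_inv₀, inv_mul_cancel_left₀] at h6
          · exact h6
          · exact (_root_.map_ne_zero (eqM ℓ k F Ω)).2 ((_root_.map_ne_zero _).2 hρ0)
        · right; right
          refine ⟨θ, hθ, ?_⟩
          rw [comap_non]
          exact h5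
      · intro e he
        exact htr e (congrArg (fun z : geomPro ℓ k F Ω => (z : Ω)) he)
    · right; left
      rw [comap_non]
      rw [hXe'] at hab
      exact hab
  have hmem : ∀ z, z ∈ W.comap ((eqM ℓ k F Ω).symm : geomPro ℓ k F Ω →+* Mc ℓ k F Ω) ↔
      (eqM ℓ k F Ω).symm z ∈ W := fun z => Iff.rfl
  have hcomm : ∀ σ z, (eqM ℓ k F Ω).symm (S σ z) = s σ ((eqM ℓ k F Ω).symm z) := by
    intro σ z
    apply (eqM ℓ k F Ω).injective
    rw [hs', RingEquiv.apply_symm_apply, RingEquiv.apply_symm_apply]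
  have hcm : ∀ c : k, algebraMap F (geomPro ℓ k F Ω) (algebraMap k F c) ∈
      W.comap ((eqM ℓ k F Ω).symm : geomPro ℓ k F Ω →+* Mc ℓ k F Ω) := by
    intro c
    rw [hmem]
    have h5 : (eqM ℓ k F Ω).symm (algebraMap F (geomPro ℓ k F Ω) (algebraMap k F c)) =
        algebraMap (algebraicClosure k Ω) (Mc ℓ k F Ω) (algebraMap k (algebraicClosure k Ω) c) :=
      Subtype.ext (IsScalarTower.algebraMap_apply k F Ω c).symm
    rw [h5]
    exact h1 _
  refine ⟨W.comap ((eqM ℓ k F Ω).symm : geomPro ℓ k F Ω →+* Mc ℓ k F Ω), ⟨hcm, ?_, ?_, ?_⟩, ?_⟩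
  · intro z hz
    obtain ⟨c, hc⟩ := h2 _ hz
    refine ⟨c, eqM ℓ k F Ω ((eqM ℓ k F Ω).symm z - algebraMap _ _ c), ?_, rfl⟩
    rw [comap_non, RingEquiv.symm_apply_apply]
    exact hc
  · rcases h3 with h3 | h3
    · left
      rw [hXe, comap_non, RingEquiv.symm_apply_apply]
      exact h3
    · right
      refine ⟨trivial, ?_⟩
      rw [hXe', comap_non, RingEquiv.symm_apply_apply]
      exact h3
  · intro σ z
    rw [hmem, hmem, hcomm]
    exact h4 σ (hdec σ) _
  · intro W' hW' hAB' hst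
    have h5 := hun (W'.comap ((eqM ℓ k F Ω : Mc ℓ k F Ω ≃+* geomPro ℓ k F Ω) :
          Mc ℓ k F Ω →+* geomPro ℓ k F Ω)) (fun c => const_mem_N _ W' hW' c _ rfl)
      (hAB W' hW' hAB') (fun σ _ z => by
        change eqM ℓ k F Ω (s σ z) ∈ W' ↔ eqM ℓ k F Ω z ∈ W'
        rw [hs']
        exact hst σ _)
    rw [← h5]
    ext z
    change z ∈ W' ↔ eqM ℓ k F Ω ((eqM ℓ k F Ω).symm z) ∈ W'
    rw [RingEquiv.apply_symm_apply]

end main

end Pool.Agent.H93S
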