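import Mathlib

/-! Closed walks: trace formula, counting, connectivity. -/

set_option autoImplicit false

namespace Pool.Agent.H93S

open Matrix Finset

/-- powers of a matrix as sums over paths -/
theorem pow_path {V : Type} [Fintype V] [DecidableEq V] (G : Matrix V V ℝ) :
    ∀ (k : ℕ) (x y : V), (G ^ (k + 1)) x y =
      ∑ p : Fin k → V, ∏ a : Fin (k + 1), G (Fin.cons (α := fun _ => V) x p a)
        (Fin.snoc (α := fun _ => V) p y a) := by
  intro k
  induction k with
  | zero =>
    intro x y
    simp [Fin.snoc]
  | succ k ih =>
    intro x y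
    rw [pow_succ', Matrix.mul_apply]
    simp only [ih]
    rw [← (Fin.consEquiv (fun _ => V)).sum_comp, Fintype.sum_prod_type]
    refine Finset.sum_congr rfl fun z _ => ?_
    rw [Finset.mul_sum]
    refine Finset.sum_congr rfl fun p _ => ?_
    rw [Fin.prod_univ_succ (n := k + 1)]
    congr 1
    refine Finset.prod_congr rfl fun a _ => ?_
    have e := congrFun (Fin.cons_snoc_eq_snoc_cons z p y) a.succ
    rw [Fin.cons_succ] at e
    have e2 : Fin.cons (α := fun _ => V) x ((Fin.consEquiv fun _ => V) (z, p)) a.succ =
        Fin.cons (α := fun _ => V) z p a := rfl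
    rw [e2]
    exact congrArg (G (Fin.cons (α := fun _ => V) z p a)) e

/-- the trace of a power as a sum over closed walks -/
theorem trace_pow_closed {V : Type} [Fintype V] [DecidableEq V] (G : Matrix V V ℝ) (k : ℕ) :
    (G ^ (k + 1)).trace = ∑ i : Fin (k + 1) → V, ∏ a : Fin (k + 1), G (i a) (i (a + 1)) := by
  rw [Matrix.trace]
  simp only [Matrix.diag_apply, pow_path]
  rw [← (Fin.consEquiv (fun _ => V)).sum_comp, Fintype.sum_prod_type]
  refine Finset.sum_congr rfl fun x _ => Finset.sum_congr rfl fun p _ => ?_
  refine Finset.prod_congr rfl fun a _ => ?_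
  simp only [Fin.consEquiv_apply]
  congr 1
  refine Fin.lastCases ?_ (fun b => ?_) a
  · simp
  · rw [Fin.snoc_castSucc, Fin.coeSucc_eq_succ]
    simp

/-- the sum over sequences, weighted by the number of distinct terms -/
theorem sum_image_pow (n : ℕ) (hn : 0 < n) : ∀ k : ℕ,
    ∑ p : Fin k → Fin n, ((n : ℝ)⁻¹) ^ (Finset.univ.image p).card ≤ k.factorial := by
  intro k
  have hn' : (0 : ℝ) < n := by exact_mod_cast hn
  induction k with
  | zero => simp
  | succ k ih =>
    rw [← (Fin.consEquiv (fun _ => Fin n)).sum_comp, Fintype.sum_prod_type, Finset.sum_comm]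
    have key : ∀ p : Fin k → Fin n,
        ∑ x : Fin n, ((n : ℝ)⁻¹) ^ (Finset.univ.image
          ((Fin.consEquiv (fun _ => Fin n)) (x, p))).card ≤
        ((n : ℝ)⁻¹) ^ (Finset.univ.image p).card * (k + 1) := by
      intro p
      have him : ∀ x : Fin n, Finset.univ.image ((Fin.consEquiv (fun _ => Fin n)) (x, p)) =
          insert x (Finset.univ.image p) := by
        intro x
        ext y
        simp only [Finset.mem_image, Finset.mem_univ, true_and, Finset.mem_insert,
          Fin.consEquiv_apply]
        constructor
        · rintro ⟨a, ha⟩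
          refine Fin.cases (fun h => ?_) (fun b h => ?_) a ha
          · left; simpa using h.symm
          · right; exact ⟨b, by simpa using h⟩
        · rintro (h | ⟨b, h⟩)
          · exact ⟨0, by simpa using h.symm⟩
          · exact ⟨b.succ, by simpa using h⟩
      simp only [him]
      have hsplit : ∀ x : Fin n, ((n : ℝ)⁻¹) ^ (insert x (Finset.univ.image p)).card ≤
          ((n : ℝ)⁻¹) ^ (Finset.univ.image p).card *
            ((if x ∈ Finset.univ.image p then 1 else 0) + (n : ℝ)⁻¹) := by
        intro x
        by_cases hx : x ∈ Finset.univ.image p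
        · rw [Finset.insert_eq_of_mem hx, if_pos hx]
          have : (0 : ℝ) ≤ ((n : ℝ)⁻¹) ^ (Finset.univ.image p).card := by positivity
          have h2 : (0 : ℝ) ≤ (n : ℝ)⁻¹ := by positivity
          nlinarith [mul_nonneg this h2]
        · rw [Finset.card_insert_of_notMem hx, if_neg hx, pow_succ, zero_add]
      refine (Finset.sum_le_sum fun x _ => hsplit x).trans ?_
      rw [← Finset.mul_sum, Finset.sum_add_distrib, Finset.sum_ite_mem, Finset.univ_inter,
        Finset.sum_const, Finset.sum_const, Finset.card_univ, Fintype.card_fin, nsmul_eq_mul,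
        nsmul_eq_mul, mul_inv_cancel₀ hn'.ne', mul_one]
      apply mul_le_mul_of_nonneg_left _ (by positivity)
      have : (Finset.univ.image p).card ≤ k := by
        refine Finset.card_image_le.trans ?_
        simp
      have h2 : ((Finset.univ.image p).card : ℝ) ≤ k := by exact_mod_cast this
      linarith
    refine (Finset.sum_le_sum fun p _ => key p).trans ?_
    rw [← Finset.sum_mul, Nat.factorial_succ]
    push_cast
    rw [mul_comm]
    apply mul_le_mul_of_nonneg_left ih (by positivity)

/-- connectivity: a closed alternating walk has at most one vertex more than it has edges -/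
theorem walk_conn {α β : Type} [DecidableEq α] [DecidableEq β] (i : ℕ → α) (j : ℕ → β) :
    ∀ t : ℕ, ((range (t + 1)).image i).card + ((range (t + 1)).image j).card ≤
      ((range (t + 1)).image (fun a => (i a, j a)) ∪
        (range t).image (fun a => (i (a + 1), j a))).card + 1 := by
  intro t
  induction t with
  | zero => simp
  | succ t ih =>
    -- edges so far
    set D := (range (t + 1)).image (fun a => (i a, j a)) ∪
        (range t).image (fun a => (i (a + 1), j a)) with hD
    set D1 := insert (i (t + 1), j t) D with hD1
    set D2 := insert (i (t + 1), j (t + 1)) D1 with hD2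
    have hI : (range (t + 1 + 1)).image i = insert (i (t + 1)) ((range (t + 1)).image i) := by
      rw [Finset.range_add_one, Finset.image_insert]
    have hJ : (range (t + 1 + 1)).image j = insert (j (t + 1)) ((range (t + 1)).image j) := by
      rw [Finset.range_add_one, Finset.image_insert]
    have hDD : (range (t + 1 + 1)).image (fun a => (i a, j a)) ∪
        (range (t + 1)).image (fun a => (i (a + 1), j a)) = D2 := by
      rw [hD2, hD1, hD, Finset.range_add_one (n := t + 1), Finset.image_insert,
        Finset.range_add_one (n := t), Finset.image_insert (f := fun a => (i (a + 1), j a))]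
      ext x
      simp only [Finset.mem_union, Finset.mem_insert]
      tauto
    rw [hI, hJ, hDD]
    have c1 : (insert (i (t + 1)) ((range (t + 1)).image i)).card + D.card ≤
        ((range (t + 1)).image i).card + D1.card := by
      by_cases h : i (t + 1) ∈ (range (t + 1)).image i
      · rw [Finset.insert_eq_of_mem h]
        have : D.card ≤ D1.card := Finset.card_le_card (Finset.subset_insert _ _)
        omega
      · rw [Finset.card_insert_of_notMem h]
        have h2 : (i (t + 1), j t) ∉ D := by
          intro h3
          apply h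
          rw [hD, Finset.mem_union, Finset.mem_image, Finset.mem_image] at h3
          rcases h3 with ⟨a, ha, he⟩ | ⟨a, ha, he⟩
          · rw [Prod.mk.injEq] at he
            exact Finset.mem_image.2 ⟨a, ha, he.1⟩
          · rw [Prod.mk.injEq] at he
            refine Finset.mem_image.2 ⟨a + 1, ?_, he.1⟩
            rw [Finset.mem_range] at ha ⊢
            omega
        rw [hD1, Finset.card_insert_of_notMem h2]
        omega
    have c2 : (insert (j (t + 1)) ((range (t + 1)).image j)).card + D1.card ≤
        ((range (t + 1)).image j).card + D2.card := by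
      by_cases h : j (t + 1) ∈ (range (t + 1)).image j
      · rw [Finset.insert_eq_of_mem h]
        have : D1.card ≤ D2.card := Finset.card_le_card (Finset.subset_insert _ _)
        omega
      · rw [Finset.card_insert_of_notMem h]
        have h2 : (i (t + 1), j (t + 1)) ∉ D1 := by
          intro h3
          apply h
          rw [hD1, Finset.mem_insert, hD, Finset.mem_union, Finset.mem_image,
            Finset.mem_image] at h3
          rcases h3 with he | ⟨a, ha, he⟩ | ⟨a, ha, he⟩
          · rw [Prod.mk.injEq] at he
            exact Finset.mem_image.2 ⟨t, Finset.mem_range.2 (Nat.lt_succ_self t), he.2.symm⟩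
          · rw [Prod.mk.injEq] at he
            exact Finset.mem_image.2 ⟨a, ha, he.2⟩
          · rw [Prod.mk.injEq] at he
            refine Finset.mem_image.2 ⟨a, ?_, he.2⟩
            rw [Finset.mem_range] at ha ⊢
            omega
        rw [hD2, Finset.card_insert_of_notMem h2]
        omega
    omega

/-- the cyclic form -/
theorem walk_conn_fin {α β : Type} [DecidableEq α] [DecidableEq β] (k : ℕ)
    (i : Fin (k + 1) → α) (j : Fin (k + 1) → β) :
    (univ.image i).card + (univ.image j).card ≤
      ((univ : Finset (Fin (k + 1) ⊕ Fin (k + 1))).image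
        (Sum.elim (fun a => (i a, j a)) (fun a => (i (a + 1), j a)))).card + 1 := by
  have h := walk_conn (fun a => i (Fin.ofNat (k + 1) a)) (fun a => j (Fin.ofNat (k + 1) a)) k
  have h1 : (range (k + 1)).image (fun a => i (Fin.ofNat (k + 1) a)) = univ.image i := by
    ext x
    simp only [Finset.mem_image, Finset.mem_range, Finset.mem_univ, true_and]
    constructor
    · rintro ⟨a, -, h⟩; exact ⟨_, h⟩
    · rintro ⟨a, h⟩
      exact ⟨a.1, a.2, by rw [← h]; congr 1; exact Fin.ext (Nat.mod_eq_of_lt a.2)⟩
  have h2 : (range (k + 1)).image (fun a => j (Fin.ofNat (k + 1) a)) = univ.image j := by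
    ext x
    simp only [Finset.mem_image, Finset.mem_range, Finset.mem_univ, true_and]
    constructor
    · rintro ⟨a, -, h⟩; exact ⟨_, h⟩
    · rintro ⟨a, h⟩
      exact ⟨a.1, a.2, by rw [← h]; congr 1; exact Fin.ext (Nat.mod_eq_of_lt a.2)⟩
  rw [h1, h2] at h
  refine h.trans (Nat.add_le_add_right (Finset.card_le_card ?_) 1)
  intro x hx
  rw [Finset.mem_union, Finset.mem_image, Finset.mem_image] at hx
  rw [Finset.mem_image]
  rcases hx with ⟨a, -, ha⟩ | ⟨a, ha', ha⟩
  · exact ⟨Sum.inl (Fin.ofNat (k + 1) a), Finset.mem_univ _, ha⟩
  · refine ⟨Sum.inr (Fin.ofNat (k + 1) a), Finset.mem_univ _, ?_⟩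
    rw [← ha]
    simp only [Sum.elim_inr]
    congr 2
    rw [Finset.mem_range] at ha'
    apply Fin.ext
    rw [Fin.val_add_one_of_lt]
    · simp only [Fin.val_ofNat]
      rw [Nat.mod_eq_of_lt (by omega), Nat.mod_eq_of_lt (by omega)]
    · rw [Fin.lt_def]
      simp only [Fin.val_ofNat, Fin.val_last]
      rw [Nat.mod_eq_of_lt (by omega)]
      exact ha'

end Pool.Agent.H93S
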