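import Mathlib
import Pool.Agent.H93S.Count

/-! Random flips: the moment bound. -/

set_option autoImplicit false

namespace Pool.Agent.H93S

open Matrix Finset

section ex

variable {ε : Type} [Fintype ε] [DecidableEq ε]

/-- weight of an outcome -/
noncomputable def wt (p : ε → ℝ) (ξ : ε → Bool) : ℝ := ∏ e, (if ξ e then p e else 1 - p e)

/-- expectation -/
noncomputable def Ex (p : ε → ℝ) (X : (ε → Bool) → ℝ) : ℝ := ∑ ξ, wt p ξ * X ξ

theorem Ex_prod (p : ε → ℝ) (f : ε → Bool → ℝ) :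
    Ex p (fun ξ => ∏ e, f e (ξ e)) = ∏ e, (p e * f e true + (1 - p e) * f e false) := by
  unfold Ex wt
  simp only [← Finset.prod_mul_distrib]
  have h := Finset.prod_univ_sum (fun _ : ε => (Finset.univ : Finset Bool))
    (fun e b => (if b then p e else 1 - p e) * f e b)
  rw [Fintype.piFinset_univ] at h
  rw [← h]
  refine Finset.prod_congr rfl fun e _ => ?_
  simp

theorem wt_nonneg (p : ε → ℝ) (hp : ∀ e, 0 ≤ p e ∧ p e ≤ 1) (ξ : ε → Bool) : 0 ≤ wt p ξ := by
  refine Finset.prod_nonneg fun e _ => ?_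
  split_ifs
  · exact (hp e).1
  · linarith [(hp e).2]

theorem sum_wt (p : ε → ℝ) : ∑ ξ, wt p ξ = 1 := by
  have h := Ex_prod p (fun _ _ => 1)
  unfold Ex at h
  simpa using h

theorem exists_le_Ex (p : ε → ℝ) (hp : ∀ e, 0 ≤ p e ∧ p e ≤ 1) (X : (ε → Bool) → ℝ) (K : ℝ)
    (h : Ex p X ≤ K) : ∃ ξ, X ξ ≤ K := by
  by_contra hc
  push Not at hc
  have h1 : K < Ex p X := by
    have h2 : ∑ ξ, wt p ξ * K < ∑ ξ, wt p ξ * X ξ := by
      have hex : ∃ ξ, 0 < wt p ξ := by
        by_contra h3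
        push Not at h3
        have h4 : ∑ ξ, wt p ξ ≤ 0 := Finset.sum_nonpos fun ξ _ => h3 ξ
        rw [sum_wt] at h4
        linarith
      obtain ⟨ξ₀, h0⟩ := hex
      apply Finset.sum_lt_sum
      · intro ξ _
        exact mul_le_mul_of_nonneg_left (hc ξ).le (wt_nonneg p hp ξ)
      · exact ⟨ξ₀, Finset.mem_univ _, mul_lt_mul_of_pos_left (hc ξ₀) h0⟩
    rw [← Finset.sum_mul, sum_wt, one_mul] at h2
    exact h2
  linarith

/-- the centred entry -/
noncomputable def cen (p : ε → ℝ) (A : ε → ℝ) (e : ε) (b : Bool) : ℝ :=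
  A e * (2 * p e - if b then 2 else 0)

/-- moments of one entry -/
theorem mu_bound (p A L : ℝ) (hp0 : 0 ≤ p) (hp1 : p ≤ 1) (hpL : p ≤ L) (hA : |A| = 1) (k : ℕ)
    (hk : 1 ≤ k) :
    |p * (A * (2 * p - 2)) ^ k + (1 - p) * (A * (2 * p - 0)) ^ k| ≤ 2 ^ k * (2 * L) := by
  have h1 : |(A * (2 * p - 2)) ^ k| ≤ 2 ^ k := by
    rw [abs_pow, abs_mul, hA, one_mul]
    apply pow_le_pow_left₀ (abs_nonneg _)
    rw [abs_le]
    constructor <;> linarith
  have h2 : |(A * (2 * p - 0)) ^ k| ≤ 2 ^ k * p := by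
    rw [abs_pow, abs_mul, hA, one_mul, sub_zero, abs_of_nonneg (by linarith), mul_pow]
    apply mul_le_mul_of_nonneg_left _ (by positivity)
    calc p ^ k ≤ p ^ 1 := pow_le_pow_of_le_one hp0 hp1 hk
      _ = p := pow_one p
  refine (abs_add_le _ _).trans ?_
  rw [abs_mul, abs_mul, abs_of_nonneg hp0, abs_of_nonneg (by linarith : (0 : ℝ) ≤ 1 - p)]
  have h3 : (0 : ℝ) ≤ 2 ^ k := by positivity
  have h4 : p * |(A * (2 * p - 2)) ^ k| ≤ p * 2 ^ k := mul_le_mul_of_nonneg_left h1 hp0
  have h5 : (1 - p) * |(A * (2 * p - 0)) ^ k| ≤ 1 * (2 ^ k * p) :=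
    mul_le_mul (by linarith) h2 (abs_nonneg _) (by norm_num)
  have h6 : 2 ^ k * p ≤ 2 ^ k * L := mul_le_mul_of_nonneg_left hpL h3
  linarith

theorem moment_bound {ι : Type} [Fintype ι] [DecidableEq ι] (p A : ε → ℝ) (L : ℝ)
    (hp0 : ∀ e, 0 ≤ p e) (hp1 : ∀ e, p e ≤ 1) (hpL : ∀ e, p e ≤ L) (hA : ∀ e, |A e| = 1)
    (c : ι → ε) (m : ℕ) (hm : Fintype.card ι = 2 * m) (n : ℝ) (hn : 0 < n)
    (hnL : 1 ≤ n * (2 * L)) :
    Ex p (fun ξ => ∏ x, cen p A (c x) (ξ (c x))) ≤
      4 ^ m * (n * (2 * L)) ^ m * (n⁻¹) ^ (univ.image c).card := by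
  have hL : 0 < 2 * L := by
    by_contra h
    push Not at h
    have : n * (2 * L) ≤ 0 := mul_nonpos_of_nonneg_of_nonpos hn.le h
    linarith
  have e1 : (fun ξ : ε → Bool => ∏ x, cen p A (c x) (ξ (c x))) =
      fun ξ => ∏ e, (cen p A e (ξ e)) ^ (univ.filter fun x => c x = e).card := by
    funext ξ
    rw [← Finset.prod_fiberwise (univ : Finset ι) c]
    refine Finset.prod_congr rfl fun e _ => ?_
    rw [← Finset.prod_const]
    refine Finset.prod_congr rfl fun x hx => ?_
    rw [(Finset.mem_filter.1 hx).2]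
  rw [e1, Ex_prod p (fun e b => (cen p A e b) ^ (univ.filter fun x => c x = e).card)]
  set mul : ε → ℕ := fun e => (univ.filter fun x => c x = e).card with hmul
  have hsum : ∑ e ∈ univ.image c, mul e = 2 * m := by
    rw [← hm, ← Finset.card_univ (α := ι)]
    exact (Finset.card_eq_sum_card_image c univ).symm
  by_cases hone : ∃ e, mul e = 1
  · obtain ⟨e, he⟩ := hone
    have hz : ∏ e, (p e * cen p A e true ^ mul e + (1 - p e) * cen p A e false ^ mul e) = 0 := by
      apply Finset.prod_eq_zero (Finset.mem_univ e)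
      rw [he]
      simp only [cen, pow_one, if_true, Bool.false_eq_true, if_false]
      ring
    rw [hz]
    positivity
  · push Not at hone
    -- all multiplicities on the image are at least two
    have hge : ∀ e ∈ univ.image c, 2 ≤ mul e := by
      intro e he
      obtain ⟨x, -, hx⟩ := Finset.mem_image.1 he
      have h1 : 0 < mul e := Finset.card_pos.2 ⟨x, Finset.mem_filter.2 ⟨Finset.mem_univ _, hx⟩⟩
      have h2 := hone e
      omega
    have hd : (univ.image c).card ≤ m := by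
      have h1 : (univ.image c).card * 2 ≤ ∑ e ∈ univ.image c, mul e := by
        rw [← smul_eq_mul, ← Finset.sum_const]
        exact Finset.sum_le_sum hge
      omega
    have hzero : ∀ e, e ∉ univ.image c → mul e = 0 := by
      intro e he
      rw [hmul, Finset.card_eq_zero, Finset.filter_eq_empty_iff]
      intro x _ hx
      exact he (Finset.mem_image.2 ⟨x, Finset.mem_univ _, hx⟩)
    have hprod : ∏ e, (p e * cen p A e true ^ mul e + (1 - p e) * cen p A e false ^ mul e) =
        ∏ e ∈ univ.image c,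
          (p e * cen p A e true ^ mul e + (1 - p e) * cen p A e false ^ mul e) := by
      symm
      apply Finset.prod_subset (Finset.subset_univ _)
      intro e _ he
      rw [hzero e he]
      simp
    rw [hprod]
    refine (le_abs_self _).trans ?_
    rw [Finset.abs_prod]
    have hb : ∀ e ∈ univ.image c,
        |p e * cen p A e true ^ mul e + (1 - p e) * cen p A e false ^ mul e| ≤
          2 ^ mul e * (2 * L) := by
      intro e he
      have := mu_bound (p e) (A e) L (hp0 e) (hp1 e) (hpL e) (hA e) (mul e)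
        (by have := hge e he; omega)
      simpa [cen] using this
    refine (Finset.prod_le_prod (fun e _ => abs_nonneg _) hb).trans ?_
    rw [Finset.prod_mul_distrib, Finset.prod_pow_eq_pow_sum, hsum, Finset.prod_const, pow_mul]
    have h4 : ((2 : ℝ) ^ 2) ^ m = 4 ^ m := by norm_num
    rw [h4, mul_assoc]
    apply mul_le_mul_of_nonneg_left _ (by positivity)
    calc (2 * L) ^ (univ.image c).card = (n * (2 * L)) ^ (univ.image c).card *
          (n⁻¹) ^ (univ.image c).card := by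
          rw [← mul_pow]
          congr 1
          field_simp
      _ ≤ (n * (2 * L)) ^ m * (n⁻¹) ^ (univ.image c).card := by
          apply mul_le_mul_of_nonneg_right _ (by positivity)
          exact pow_le_pow_right₀ hnL hd

end ex

/-- the expected trace -/
theorem trace_bound (n : ℕ) (hn : 0 < n) (k : ℕ) (p A : Fin n × Fin n → ℝ) (L : ℝ)
    (hp0 : ∀ e, 0 ≤ p e) (hp1 : ∀ e, p e ≤ 1) (hpL : ∀ e, p e ≤ L) (hA : ∀ e, |A e| = 1)
    (hnL : 1 ≤ (n : ℝ) * (2 * L)) :
    ∃ ξ : Fin n × Fin n → Bool,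
      (((Matrix.of fun i j => cen p A (i, j) (ξ (i, j))) *
        (Matrix.of fun i j => cen p A (i, j) (ξ (i, j)))ᵀ) ^ (k + 1)).trace ≤
      4 ^ (k + 1) * (n * (2 * L)) ^ (k + 1) * n * ((k + 1).factorial : ℝ) ^ 2 := by
  have hn' : (0 : ℝ) < n := by exact_mod_cast hn
  have hn1 : (1 : ℝ) ≤ n := by exact_mod_cast hn
  apply exists_le_Ex p (fun e => ⟨hp0 e, hp1 e⟩)
  have hexp : ∀ ξ : Fin n × Fin n → Bool,
      (((Matrix.of fun i j => cen p A (i, j) (ξ (i, j))) *
        (Matrix.of fun i j => cen p A (i, j) (ξ (i, j)))ᵀ) ^ (k + 1)).trace =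
      ∑ i : Fin (k + 1) → Fin n, ∑ j : Fin (k + 1) → Fin n,
        ∏ x : Fin (k + 1) ⊕ Fin (k + 1), cen p A
          (Sum.elim (fun a => (i a, j a)) (fun a => (i (a + 1), j a)) x)
          (ξ (Sum.elim (fun a => (i a, j a)) (fun a => (i (a + 1), j a)) x)) := by
    intro ξ
    rw [trace_pow_closed]
    refine Finset.sum_congr rfl fun i _ => ?_
    simp only [Matrix.mul_apply, Matrix.transpose_apply, Matrix.of_apply]
    have h := Finset.prod_univ_sum (fun _ : Fin (k + 1) => (Finset.univ : Finset (Fin n)))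
      (fun a j => cen p A (i a, j) (ξ (i a, j)) * cen p A (i (a + 1), j) (ξ (i (a + 1), j)))
    rw [Fintype.piFinset_univ] at h
    rw [h]
    refine Finset.sum_congr rfl fun j _ => ?_
    rw [Fintype.prod_sum_type, Finset.prod_mul_distrib]
    rfl
  have hEx : Ex p (fun ξ => (((Matrix.of fun i j => cen p A (i, j) (ξ (i, j))) *
        (Matrix.of fun i j => cen p A (i, j) (ξ (i, j)))ᵀ) ^ (k + 1)).trace) =
      ∑ i : Fin (k + 1) → Fin n, ∑ j : Fin (k + 1) → Fin n,
        Ex p (fun ξ => ∏ x : Fin (k + 1) ⊕ Fin (k + 1), cen p A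
          (Sum.elim (fun a => (i a, j a)) (fun a => (i (a + 1), j a)) x)
          (ξ (Sum.elim (fun a => (i a, j a)) (fun a => (i (a + 1), j a)) x))) := by
    unfold Ex
    simp only [hexp, Finset.mul_sum]
    rw [Finset.sum_comm]
    refine Finset.sum_congr rfl fun i _ => ?_
    rw [Finset.sum_comm]
  rw [hEx]
  have hterm : ∀ (i j : Fin (k + 1) → Fin n),
      Ex p (fun ξ => ∏ x : Fin (k + 1) ⊕ Fin (k + 1), cen p A
          (Sum.elim (fun a => (i a, j a)) (fun a => (i (a + 1), j a)) x)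
          (ξ (Sum.elim (fun a => (i a, j a)) (fun a => (i (a + 1), j a)) x))) ≤
      4 ^ (k + 1) * ((n : ℝ) * (2 * L)) ^ (k + 1) * n *
        (((n : ℝ)⁻¹) ^ (univ.image i).card * ((n : ℝ)⁻¹) ^ (univ.image j).card) := by
    intro i j
    refine (moment_bound p A L hp0 hp1 hpL hA
      (Sum.elim (fun a => (i a, j a)) (fun a => (i (a + 1), j a))) (k + 1)
      (by simp; ring) n hn' hnL).trans ?_
    rw [mul_assoc (4 ^ (k + 1) * ((n : ℝ) * (2 * L)) ^ (k + 1))]
    have hpos : (0 : ℝ) ≤ 4 ^ (k + 1) * ((n : ℝ) * (2 * L)) ^ (k + 1) := by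
      have : (0 : ℝ) ≤ (n : ℝ) * (2 * L) := by linarith
      positivity
    apply mul_le_mul_of_nonneg_left _ hpos
    have hw := walk_conn_fin k i j
    rw [← pow_add]
    calc ((n : ℝ)⁻¹) ^ ((univ : Finset (Fin (k + 1) ⊕ Fin (k + 1))).image
          (Sum.elim (fun a => (i a, j a)) (fun a => (i (a + 1), j a)))).card
        = n * ((n : ℝ)⁻¹) ^ (((univ : Finset (Fin (k + 1) ⊕ Fin (k + 1))).image
          (Sum.elim (fun a => (i a, j a)) (fun a => (i (a + 1), j a)))).card + 1) := by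
          rw [pow_succ]
          field_simp
      _ ≤ n * ((n : ℝ)⁻¹) ^ ((univ.image i).card + (univ.image j).card) := by
          apply mul_le_mul_of_nonneg_left _ hn'.le
          exact pow_le_pow_of_le_one (by positivity) (inv_le_one_of_one_le₀ hn1) hw
  refine (Finset.sum_le_sum fun i _ => Finset.sum_le_sum fun j _ => hterm i j).trans ?_
  simp only [← Finset.mul_sum]
  rw [← Finset.sum_mul]
  have hpos : (0 : ℝ) ≤ 4 ^ (k + 1) * ((n : ℝ) * (2 * L)) ^ (k + 1) * n := by
    have : (0 : ℝ) ≤ (n : ℝ) * (2 * L) := by linarith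
    positivity
  apply mul_le_mul_of_nonneg_left _ hpos
  have hs := sum_image_pow n hn (k + 1)
  have hs0 : 0 ≤ ∑ p : Fin (k + 1) → Fin n, ((n : ℝ)⁻¹) ^ (Finset.univ.image p).card :=
    Finset.sum_nonneg fun _ _ => by positivity
  rw [sq]
  exact mul_le_mul hs hs hs0 (by positivity)

end Pool.Agent.H93S
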