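import Mathlib
import Pool.Agent.H93S.Mom

/-! Rounding: a sign matrix near a given matrix. -/

set_option autoImplicit false

namespace Pool.Agent.H93S

open Matrix Finset

theorem dot_nonneg {n : Type} [Fintype n] (x : n → ℝ) : 0 ≤ x ⬝ᵥ x := by
  unfold dotProduct
  exact Finset.sum_nonneg fun i _ => mul_self_nonneg _

theorem cs_dot {n : Type} [Fintype n] (x y : n → ℝ) : (x ⬝ᵥ y) ^ 2 ≤ (x ⬝ᵥ x) * (y ⬝ᵥ y) := by
  unfold dotProduct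
  have := Finset.sum_mul_sq_le_sq_mul_sq (Finset.univ : Finset n) x y
  simpa [sq] using this

theorem dot_mulVec_sq {n : Type} [Fintype n] [DecidableEq n] (G : Matrix n n ℝ) (hG : Gᵀ = G)
    (x : n → ℝ) : (G *ᵥ x) ⬝ᵥ (G *ᵥ x) = x ⬝ᵥ ((G ^ 2) *ᵥ x) := by
  rw [sq, ← Matrix.mulVec_mulVec, Matrix.dotProduct_mulVec x G]
  congr 1
  rw [← Matrix.mulVec_transpose, hG]

theorem pow_two_pow_bound {n : Type} [Fintype n] [DecidableEq n] (x : n → ℝ) :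
    ∀ (l : ℕ) (G : Matrix n n ℝ), Gᵀ = G →
      (x ⬝ᵥ (G *ᵥ x)) ^ (2 ^ l) ≤ (x ⬝ᵥ ((G ^ (2 ^ l)) *ᵥ x)) * (x ⬝ᵥ x) ^ (2 ^ l - 1) := by
  intro l
  induction l with
  | zero => intro G _; simp
  | succ l ih =>
    intro G hG
    have hx := dot_nonneg x
    have h1 : (x ⬝ᵥ (G *ᵥ x)) ^ 2 ≤ (x ⬝ᵥ x) * (x ⬝ᵥ ((G ^ 2) *ᵥ x)) := by
      rw [← dot_mulVec_sq G hG]
      exact cs_dot _ _
    have hG2 : (G ^ 2)ᵀ = G ^ 2 := by rw [Matrix.transpose_pow, hG]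
    have h2 := ih (G ^ 2) hG2
    have e1 : (2 : ℕ) ^ (l + 1) = 2 * 2 ^ l := by rw [pow_succ]; ring
    have e2 : 2 ^ (l + 1) - 1 = 2 ^ l + (2 ^ l - 1) := by
      have : 0 < 2 ^ l := by positivity
      omega
    calc (x ⬝ᵥ (G *ᵥ x)) ^ (2 ^ (l + 1)) = ((x ⬝ᵥ (G *ᵥ x)) ^ 2) ^ (2 ^ l) := by
          rw [e1, pow_mul]
      _ ≤ ((x ⬝ᵥ x) * (x ⬝ᵥ ((G ^ 2) *ᵥ x))) ^ (2 ^ l) :=
          pow_le_pow_left₀ (sq_nonneg _) h1 _
      _ = (x ⬝ᵥ x) ^ (2 ^ l) * (x ⬝ᵥ ((G ^ 2) *ᵥ x)) ^ (2 ^ l) := mul_pow _ _ _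
      _ ≤ (x ⬝ᵥ x) ^ (2 ^ l) *
          ((x ⬝ᵥ (((G ^ 2) ^ (2 ^ l)) *ᵥ x)) * (x ⬝ᵥ x) ^ (2 ^ l - 1)) :=
          mul_le_mul_of_nonneg_left h2 (by positivity)
      _ = (x ⬝ᵥ ((G ^ (2 ^ (l + 1))) *ᵥ x)) * (x ⬝ᵥ x) ^ (2 ^ (l + 1) - 1) := by
          rw [← pow_mul G, ← e1, e2, pow_add]
          ring

theorem frob_bound {n : Type} [Fintype n] [DecidableEq n] (K : Matrix n n ℝ) (hK : Kᵀ = K)
    (x : n → ℝ) : x ⬝ᵥ ((K ^ 2) *ᵥ x) ≤ (K ^ 2).trace * (x ⬝ᵥ x) := by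
  rw [← dot_mulVec_sq K hK]
  have h1 : (K ^ 2).trace = ∑ i, ∑ j, K i j ^ 2 := by
    rw [Matrix.trace]
    refine Finset.sum_congr rfl fun i _ => ?_
    rw [Matrix.diag_apply, sq, Matrix.mul_apply]
    refine Finset.sum_congr rfl fun j _ => ?_
    have : K j i = K i j := congrFun (congrFun hK i) j
    rw [this, sq]
  rw [h1, Finset.sum_mul]
  unfold dotProduct
  refine Finset.sum_le_sum fun i _ => ?_
  have := Finset.sum_mul_sq_le_sq_mul_sq (Finset.univ : Finset n) (fun j => K i j) x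
  have e : (K *ᵥ x) i = ∑ j, K i j * x j := rfl
  rw [e, ← sq]
  simpa [sq] using this

/-- the quadratic form of `F Fᵀ` is controlled by the trace of a power -/
theorem form_bound {n : ℕ} (F : Matrix (Fin n) (Fin n) ℝ) (l : ℕ) (hl : 1 ≤ l) (x : Fin n → ℝ) :
    ((Fᵀ *ᵥ x) ⬝ᵥ (Fᵀ *ᵥ x)) ^ (2 ^ l) ≤
      ((F * Fᵀ) ^ (2 ^ l)).trace * (x ⬝ᵥ x) ^ (2 ^ l) := by
  have hG : (F * Fᵀ)ᵀ = F * Fᵀ := by rw [Matrix.transpose_mul, Matrix.transpose_transpose]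
  have h0 : (Fᵀ *ᵥ x) ⬝ᵥ (Fᵀ *ᵥ x) = x ⬝ᵥ ((F * Fᵀ) *ᵥ x) := by
    rw [← Matrix.mulVec_mulVec, Matrix.dotProduct_mulVec x F, ← Matrix.mulVec_transpose]
  rw [h0]
  obtain ⟨l', rfl⟩ : ∃ l', l = l' + 1 := ⟨l - 1, by omega⟩
  have h1 := pow_two_pow_bound x (l' + 1) (F * Fᵀ) hG
  have hK : ((F * Fᵀ) ^ (2 ^ l'))ᵀ = (F * Fᵀ) ^ (2 ^ l') := by
    rw [Matrix.transpose_pow, hG]
  have h2 := frob_bound ((F * Fᵀ) ^ (2 ^ l')) hK x
  rw [← pow_mul, ← pow_succ] at h2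
  refine h1.trans ?_
  have hx := dot_nonneg x
  calc (x ⬝ᵥ (((F * Fᵀ) ^ (2 ^ (l' + 1))) *ᵥ x)) * (x ⬝ᵥ x) ^ (2 ^ (l' + 1) - 1)
      ≤ (((F * Fᵀ) ^ (2 ^ (l' + 1))).trace * (x ⬝ᵥ x)) * (x ⬝ᵥ x) ^ (2 ^ (l' + 1) - 1) :=
        mul_le_mul_of_nonneg_right h2 (by positivity)
    _ = ((F * Fᵀ) ^ (2 ^ (l' + 1))).trace * (x ⬝ᵥ x) ^ (2 ^ (l' + 1)) := by
        rw [mul_assoc, ← pow_succ']
        congr 2
        have : 0 < 2 ^ (l' + 1) := by positivity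
        omega

/-- rounding -/
theorem exists_flip (n : ℕ) (hn : 0 < n) (l : ℕ) (hl : 1 ≤ l) (hnl : (n : ℝ) ≤ 3 ^ (2 ^ l))
    (A T : Matrix (Fin n) (Fin n) ℝ) (L : ℝ) (hA : ∀ i j, A i j = 1 ∨ A i j = -1)
    (hT : ∀ i j, |T i j| ≤ L) (hL1 : L ≤ 1) (hnL : 1 ≤ (n : ℝ) * (2 * L)) :
    ∃ M : Matrix (Fin n) (Fin n) ℝ, (∀ i j, M i j = 1 ∨ M i j = -1) ∧
      ∀ x : Fin n → ℝ,
        ((M - ((1 - L) • A + T))ᵀ *ᵥ x) ⬝ᵥ ((M - ((1 - L) • A + T))ᵀ *ᵥ x) ≤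
          12 * (n * (2 * L)) * ((2 : ℝ) ^ l) ^ 2 * (x ⬝ᵥ x) := by
  obtain ⟨k, hk⟩ : ∃ k, 2 ^ l = k + 1 := ⟨2 ^ l - 1, by
    have : 0 < 2 ^ l := by positivity
    omega⟩
  set p : Fin n × Fin n → ℝ := fun e => (L - A e.1 e.2 * T e.1 e.2) / 2 with hp
  have hAT : ∀ e : Fin n × Fin n, |A e.1 e.2 * T e.1 e.2| ≤ L := by
    intro e
    rw [abs_mul]
    rcases hA e.1 e.2 with h | h <;> rw [h] <;> simpa using hT e.1 e.2
  have hp0 : ∀ e, 0 ≤ p e := fun e => by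
    have := (abs_le.1 (hAT e)).2
    simp only [hp]; linarith
  have hpL : ∀ e, p e ≤ L := fun e => by
    have := (abs_le.1 (hAT e)).1
    simp only [hp]; linarith
  have hp1 : ∀ e, p e ≤ 1 := fun e => (hpL e).trans hL1
  have hA1 : ∀ e : Fin n × Fin n, |(fun e : Fin n × Fin n => A e.1 e.2) e| = 1 := by
    intro e
    rcases hA e.1 e.2 with h | h <;> simp [h]
  obtain ⟨ξ, hξ⟩ := trace_bound n hn k p (fun e => A e.1 e.2) L hp0 hp1 hpL hA1 hnL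
  refine ⟨Matrix.of fun i j => A i j * (if ξ (i, j) then -1 else 1), ?_, ?_⟩
  · intro i j
    rw [Matrix.of_apply]
    rcases hA i j with h | h <;> split_ifs <;> simp [h]
  · have hF : (Matrix.of fun i j => A i j * (if ξ (i, j) then -1 else 1)) -
        ((1 - L) • A + T) = Matrix.of fun i j => cen p (fun e => A e.1 e.2) (i, j) (ξ (i, j)) := by
      ext i j
      simp only [Matrix.sub_apply, Matrix.add_apply, Matrix.smul_apply, Matrix.of_apply,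
        smul_eq_mul, cen, hp]
      have hsq : A i j * A i j = 1 := by rcases hA i j with h | h <;> rw [h] <;> norm_num
      split_ifs
      · linear_combination (T i j) * hsq
      · linear_combination (T i j) * hsq
    rw [hF]
    generalize hFF : (Matrix.of fun i j => cen p (fun e => A e.1 e.2) (i, j) (ξ (i, j)) :
      Matrix (Fin n) (Fin n) ℝ) = F at hξ ⊢
    intro x
    have hx := dot_nonneg x
    have h1 := form_bound F l hl x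
    rw [hk] at h1
    have hn0 : (0 : ℝ) ≤ (n : ℝ) * (2 * L) := by linarith
    have h2 : ((F * Fᵀ) ^ (k + 1)).trace ≤
        (12 * (n * (2 * L)) * ((2 : ℝ) ^ l) ^ 2) ^ (k + 1) := by
      refine hξ.trans ?_
      have hfac : ((k + 1).factorial : ℝ) ≤ ((2 : ℝ) ^ l) ^ (k + 1) := by
        have h3 : (k + 1).factorial ≤ (k + 1) ^ (k + 1) := Nat.factorial_le_pow _
        have h4 : ((k + 1 : ℕ) : ℝ) = (2 : ℝ) ^ l := by rw [← hk]; push_cast; ring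
        rw [← h4]
        exact_mod_cast h3
      have hfac2 : ((k + 1).factorial : ℝ) ^ 2 ≤ (((2 : ℝ) ^ l) ^ (k + 1)) ^ 2 :=
        pow_le_pow_left₀ (by positivity) hfac 2
      rw [hk] at hnl
      calc 4 ^ (k + 1) * (n * (2 * L)) ^ (k + 1) * n * ((k + 1).factorial : ℝ) ^ 2
          ≤ 4 ^ (k + 1) * (n * (2 * L)) ^ (k + 1) * 3 ^ (k + 1) *
            (((2 : ℝ) ^ l) ^ (k + 1)) ^ 2 := by
            apply mul_le_mul _ hfac2 (by positivity) (by positivity)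
            exact mul_le_mul_of_nonneg_left hnl (by positivity)
        _ = (12 * (n * (2 * L)) * ((2 : ℝ) ^ l) ^ 2) ^ (k + 1) := by
            rw [show 12 * ((n : ℝ) * (2 * L)) * ((2 : ℝ) ^ l) ^ 2 =
              4 * ((n : ℝ) * (2 * L)) * 3 * ((2 : ℝ) ^ l) ^ 2 by ring,
              mul_pow _ (((2 : ℝ) ^ l) ^ 2), mul_pow _ (3 : ℝ), mul_pow (4 : ℝ),
              pow_right_comm ((2 : ℝ) ^ l) 2 (k + 1)]
    have h3 : ((Fᵀ *ᵥ x) ⬝ᵥ (Fᵀ *ᵥ x)) ^ (k + 1) ≤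
        (12 * (n * (2 * L)) * ((2 : ℝ) ^ l) ^ 2 * (x ⬝ᵥ x)) ^ (k + 1) := by
      rw [mul_pow _ (x ⬝ᵥ x)]
      exact h1.trans (mul_le_mul_of_nonneg_right h2 (by positivity))
    exact le_of_pow_le_pow_left₀ (Nat.succ_ne_zero k) (by positivity) h3

end Pool.Agent.H93S
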