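import Mathlib
import Pool.Agent.H93S.Flip
import Pool.Agent.H93S.Comp

/-! Norms and the assembly for one Hadamard matrix. -/

set_option autoImplicit false

namespace Pool.Agent.H93S

open Matrix Finset

/-- the Euclidean norm -/
noncomputable def nr {n : Type} [Fintype n] (v : n → ℝ) : ℝ := Real.sqrt (v ⬝ᵥ v)

section nr

variable {n : Type} [Fintype n]

theorem nr_nonneg (v : n → ℝ) : 0 ≤ nr v := Real.sqrt_nonneg _

theorem nr_sq (v : n → ℝ) : nr v ^ 2 = v ⬝ᵥ v := Real.sq_sqrt (dot_nonneg v)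

theorem dot_le (u v : n → ℝ) : u ⬝ᵥ v ≤ nr u * nr v := by
  have h := cs_dot u v
  rw [← nr_sq, ← nr_sq, ← mul_pow] at h
  exact (abs_le.1 (abs_le_of_sq_le_sq h (mul_nonneg (nr_nonneg _) (nr_nonneg _)))).2

theorem abs_dot_le (u v : n → ℝ) : |u ⬝ᵥ v| ≤ nr u * nr v := by
  have h := cs_dot u v
  rw [← nr_sq, ← nr_sq, ← mul_pow] at h
  exact abs_le_of_sq_le_sq h (mul_nonneg (nr_nonneg _) (nr_nonneg _))

theorem nr_add (u v : n → ℝ) : nr (u + v) ≤ nr u + nr v := by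
  have h0 : 0 ≤ nr u + nr v := add_nonneg (nr_nonneg _) (nr_nonneg _)
  apply Real.sqrt_le_iff.2
  refine ⟨h0, ?_⟩
  have h1 := dot_le u v
  have h2 : (u + v) ⬝ᵥ (u + v) = u ⬝ᵥ u + 2 * (u ⬝ᵥ v) + v ⬝ᵥ v := by
    rw [add_dotProduct, dotProduct_add, dotProduct_add, dotProduct_comm v u]
    ring
  rw [h2, ← nr_sq u, ← nr_sq v]
  nlinarith

theorem nr_smul (c : ℝ) (hc : 0 ≤ c) (v : n → ℝ) : nr (c • v) = c * nr v := by
  unfold nr
  rw [smul_dotProduct, dotProduct_smul, smul_eq_mul, smul_eq_mul, ← mul_assoc,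
    Real.sqrt_mul (mul_self_nonneg c), Real.sqrt_mul_self hc]

theorem nr_neg (v : n → ℝ) : nr (-v) = nr v := by
  unfold nr
  rw [neg_dotProduct, dotProduct_neg, neg_neg]

/-- the bound for the transpose gives the bound for the matrix -/
theorem nr_of_transpose (D : Matrix n n ℝ) (δ : ℝ)
    (h : ∀ x : n → ℝ, nr (Dᵀ *ᵥ x) ≤ δ * nr x) (x : n → ℝ) : nr (D *ᵥ x) ≤ δ * nr x := by
  have h1 : nr (D *ᵥ x) ^ 2 ≤ nr x * (δ * nr (D *ᵥ x)) := by
    rw [nr_sq]
    have e : (D *ᵥ x) ⬝ᵥ (D *ᵥ x) = x ⬝ᵥ (Dᵀ *ᵥ (D *ᵥ x)) := by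
      rw [Matrix.dotProduct_mulVec x Dᵀ, Matrix.vecMul_transpose]
    rw [e]
    exact (dot_le _ _).trans (mul_le_mul_of_nonneg_left (h _) (nr_nonneg _))
  by_cases hz : nr (D *ᵥ x) = 0
  · rw [hz]
    have := h x
    exact (nr_nonneg _).trans this
  · have hpos : 0 < nr (D *ᵥ x) := lt_of_le_of_ne (nr_nonneg _) (Ne.symm hz)
    have h2 : nr (D *ᵥ x) * nr (D *ᵥ x) ≤ (δ * nr x) * nr (D *ᵥ x) := by
      rw [← sq]
      linarith [h1]
    exact le_of_mul_le_mul_right h2 hpos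

end nr

/-- everything from one Hadamard matrix of order `n + r` -/
theorem of_blocks (n r : ℕ) (hn : 0 < n) (l : ℕ) (hl : 1 ≤ l) (hnl : (n : ℝ) ≤ 3 ^ (2 ^ l))
    (H : Matrix (Fin n ⊕ Fin r) (Fin n ⊕ Fin r) ℝ) (hH : ∀ i j, H i j = 1 ∨ H i j = -1)
    (hHH : H * Hᵀ = ((n + r : ℕ) : ℝ) • (1 : Matrix (Fin n ⊕ Fin r) (Fin n ⊕ Fin r) ℝ))
    (q : ℝ) (hq1 : 1 ≤ q) (hrq : (r : ℝ) ≤ q) (hqn : 2 * q ≤ Real.sqrt n) :
    ∃ U S M : Matrix (Fin n) (Fin n) ℝ, U * Uᵀ = 1 ∧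
      (∀ i j, S i j = 1 ∨ S i j = -1) ∧ (∀ i j, M i j = 1 ∨ M i j = -1) ∧
      (∀ i j, |Real.sqrt n * U i j - S i j| ≤ 3 * q / Real.sqrt n) ∧
      ∀ x : Fin n → ℝ, nr ((M - Real.sqrt n • U)ᵀ *ᵥ x) ≤
        (Real.sqrt (48 * q * Real.sqrt n) * 2 ^ l + 5 * q) * nr x := by
  set s : ℝ := Real.sqrt ((n + r : ℕ) : ℝ) with hs
  set w : ℝ := Real.sqrt n with hw
  have hn' : (0 : ℝ) < n := by exact_mod_cast hn
  have hw0 : 0 < w := Real.sqrt_pos.2 hn'
  have hws : w ≤ s := Real.sqrt_le_sqrt (by push_cast; linarith [Nat.cast_nonneg (α := ℝ) r])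
  have hs0 : 0 < s := lt_of_lt_of_le hw0 hws
  have hw2 : w ^ 2 = n := Real.sq_sqrt hn'.le
  have hs2 : s ^ 2 = n + r := by
    rw [hs, Real.sq_sqrt (by positivity)]; push_cast; ring
  have hr0 : (0 : ℝ) ≤ r := Nat.cast_nonneg r
  have hsw : s - w ≤ q / w := by
    rw [le_div_iff₀ hw0]
    nlinarith
  have hs2w : s ≤ 2 * w := by
    have : q / w ≤ 1 / 2 := by
      rw [div_le_iff₀ hw0]; linarith
    nlinarith
  set A := H.toBlocks₁₁ with hA
  set B := H.toBlocks₁₂ with hB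
  set C := H.toBlocks₂₁ with hC
  set E := H.toBlocks₂₂ with hE
  have hA1 : ∀ i j, A i j = 1 ∨ A i j = -1 := fun i j => hH _ _
  have abs1 : ∀ i j, |H i j| = 1 := fun i j => by
    rcases hH i j with h | h <;> simp [h]
  have hHb : H = Matrix.fromBlocks A B C E := (Matrix.fromBlocks_toBlocks H).symm
  have hblk : Matrix.fromBlocks (A * Aᵀ + B * Bᵀ) (A * Cᵀ + B * Eᵀ) (C * Aᵀ + E * Bᵀ)
      (C * Cᵀ + E * Eᵀ) = Matrix.fromBlocks ((s ^ 2) • (1 : Matrix (Fin n) (Fin n) ℝ)) 0 0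
        ((s ^ 2) • (1 : Matrix (Fin r) (Fin r) ℝ)) := by
    have h1 := hHH
    rw [hHb, Matrix.fromBlocks_transpose, Matrix.fromBlocks_multiply] at h1
    rw [h1, ← Matrix.fromBlocks_one, Matrix.fromBlocks_smul, smul_zero, smul_zero, hs2]
    push_cast
    rfl
  obtain ⟨h1, h2, -, h4⟩ := Matrix.fromBlocks_inj.1 hblk
  have hrs : ((Fintype.card (Fin r) : ℕ) : ℝ) < s := by
    rw [Fintype.card_fin]; linarith
  obtain ⟨Y, hY, hYb⟩ := exists_Y B E s hrs (fun i a => (abs1 _ _).le) (fun a b => (abs1 _ _).le)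
  rw [Fintype.card_fin] at hYb
  have hW := comp_orth A B C E s h1 h2 h4 Y hY
  set T := Y * C with hT
  set L : ℝ := 2 * q / w with hL
  have hTb : ∀ i j, |T i j| ≤ L := by
    intro i j
    rw [hT, Matrix.mul_apply]
    refine (Finset.abs_sum_le_sum_abs _ _).trans ?_
    calc ∑ a, |Y i a * C a j| ≤ ∑ _a : Fin r, 1 / (s - r) := by
          apply Finset.sum_le_sum
          intro a _
          rw [abs_mul, hC]
          have : |H.toBlocks₂₁ a j| = 1 := abs1 _ _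
          rw [this, mul_one]
          exact hYb i a
      _ = r * (1 / (s - r)) := by
          rw [Finset.sum_const, Finset.card_univ, Fintype.card_fin, nsmul_eq_mul]
      _ ≤ L := by
          rw [hL, mul_one_div, div_le_div_iff₀ (by linarith) hw0]
          nlinarith
  have hL1 : L ≤ 1 := by
    rw [hL, div_le_one hw0]; exact hqn
  have hL0 : 0 ≤ L := by rw [hL]; positivity
  have hnL' : (n : ℝ) * (2 * L) = 4 * q * w := by
    rw [hL, ← hw2]; field_simp; ring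
  have hnL : 1 ≤ (n : ℝ) * (2 * L) := by
    rw [hnL']
    nlinarith
  obtain ⟨M, hM1, hM2⟩ := exists_flip n hn l hl hnl A T L hA1 hTb hL1 hnL
  have hsinv : s⁻¹ * s = 1 := inv_mul_cancel₀ hs0.ne'
  refine ⟨s⁻¹ • (A + T), A, M, ?_, hA1, hM1, ?_, ?_⟩
  · rw [Matrix.transpose_smul, Matrix.smul_mul, Matrix.mul_smul, hW, smul_smul, smul_smul]
    have : s⁻¹ * (s⁻¹ * s ^ 2) = 1 := by field_simp
    rw [mul_assoc, this, one_smul]
  · intro i j
    have e : w * (s⁻¹ • (A + T)) i j - A i j = -(1 - w / s) * A i j + (w / s) * T i j := by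
      rw [Matrix.smul_apply, Matrix.add_apply, smul_eq_mul]
      field_simp
      ring
    rw [e]
    have ha : |A i j| = 1 := abs1 _ _
    have hws1 : w / s ≤ 1 := by rw [div_le_one hs0]; exact hws
    have hws0 : 0 ≤ w / s := by positivity
    have h5 : 1 - w / s ≤ q / w := by
      have : 1 - w / s = (s - w) / s := by field_simp
      rw [this]
      have h6 : 0 ≤ s - w := by linarith
      calc (s - w) / s ≤ (s - w) / 1 := by
            apply div_le_div_of_nonneg_left h6 one_pos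
            nlinarith
        _ ≤ q / w := by rw [div_one]; exact hsw
    refine (abs_add_le _ _).trans ?_
    rw [abs_mul, abs_mul, ha, mul_one, abs_neg, abs_of_nonneg (by linarith), abs_of_nonneg hws0]
    have h7 : w / s * |T i j| ≤ 1 * L :=
      mul_le_mul hws1 (hTb i j) (abs_nonneg _) (by norm_num)
    have h8 : 3 * q / w = q / w + L := by rw [hL]; field_simp; ring
    rw [h8]
    linarith
  · intro x
    have e : (M - w • (s⁻¹ • (A + T)))ᵀ *ᵥ x =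
        (M - ((1 - L) • A + T))ᵀ *ᵥ x + ((-(L • (Aᵀ *ᵥ x))) +
          (1 - w / s) • ((A + T)ᵀ *ᵥ x)) := by
      have e1 : M - w • (s⁻¹ • (A + T)) = (M - ((1 - L) • A + T)) + ((-(L • A)) +
          (1 - w / s) • (A + T)) := by
        rw [smul_smul, ← div_eq_mul_inv, sub_smul, sub_smul, one_smul, one_smul]
        abel
      rw [e1]
      simp only [Matrix.transpose_add, Matrix.transpose_neg, Matrix.transpose_smul,
        Matrix.add_mulVec, Matrix.neg_mulVec, Matrix.smul_mulVec]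
    rw [e]
    have n0 := nr_nonneg x
    -- first term
    have b1 : nr ((M - ((1 - L) • A + T))ᵀ *ᵥ x) ≤ Real.sqrt (48 * q * w) * 2 ^ l * nr x := by
      apply Real.sqrt_le_iff.2
      refine ⟨by positivity, ?_⟩
      refine (hM2 x).trans ?_
      rw [mul_pow, mul_pow, nr_sq, Real.sq_sqrt (by positivity), hnL']
      apply le_of_eq
      ring
    -- second term
    have b2 : nr (-(L • (Aᵀ *ᵥ x))) ≤ 4 * q * nr x := by
      rw [nr_neg, nr_smul L hL0]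
      have h5 : nr (Aᵀ *ᵥ x) ≤ s * nr x := by
        apply Real.sqrt_le_iff.2
        refine ⟨by positivity, ?_⟩
        rw [mul_pow, nr_sq]
        have e1 : (Aᵀ *ᵥ x) ⬝ᵥ (Aᵀ *ᵥ x) = x ⬝ᵥ ((A * Aᵀ) *ᵥ x) := by
          rw [← Matrix.mulVec_mulVec, Matrix.dotProduct_mulVec x A, ← Matrix.mulVec_transpose]
        have e2 : (Bᵀ *ᵥ x) ⬝ᵥ (Bᵀ *ᵥ x) = x ⬝ᵥ ((B * Bᵀ) *ᵥ x) := by
          rw [← Matrix.mulVec_mulVec, Matrix.dotProduct_mulVec x B, ← Matrix.mulVec_transpose]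
        have e3 : x ⬝ᵥ ((A * Aᵀ) *ᵥ x) + x ⬝ᵥ ((B * Bᵀ) *ᵥ x) = s ^ 2 * (x ⬝ᵥ x) := by
          rw [← dotProduct_add, ← Matrix.add_mulVec, h1, Matrix.smul_mulVec, Matrix.one_mulVec,
            dotProduct_smul, smul_eq_mul]
        rw [e1]
        have e4 := dot_nonneg (Bᵀ *ᵥ x)
        rw [e2] at e4
        linarith
      have h6 : L * s ≤ 4 * q := by
        rw [hL, div_mul_eq_mul_div, div_le_iff₀ hw0]
        nlinarith
      calc L * nr (Aᵀ *ᵥ x) ≤ L * (s * nr x) := mul_le_mul_of_nonneg_left h5 hL0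
        _ = (L * s) * nr x := by ring
        _ ≤ 4 * q * nr x := mul_le_mul_of_nonneg_right h6 n0
    -- third term
    have b3 : nr ((1 - w / s) • ((A + T)ᵀ *ᵥ x)) ≤ q * nr x := by
      have hws1 : w / s ≤ 1 := by rw [div_le_one hs0]; exact hws
      rw [nr_smul _ (by linarith)]
      have h5 : nr ((A + T)ᵀ *ᵥ x) = s * nr x := by
        have e1 : ((A + T)ᵀ *ᵥ x) ⬝ᵥ ((A + T)ᵀ *ᵥ x) = s ^ 2 * (x ⬝ᵥ x) := by
          have : ((A + T)ᵀ *ᵥ x) ⬝ᵥ ((A + T)ᵀ *ᵥ x) = x ⬝ᵥ (((A + T) * (A + T)ᵀ) *ᵥ x) := by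
            rw [← Matrix.mulVec_mulVec, Matrix.dotProduct_mulVec x (A + T),
              ← Matrix.mulVec_transpose]
          rw [this, hW, Matrix.smul_mulVec, Matrix.one_mulVec, dotProduct_smul, smul_eq_mul]
        unfold nr
        rw [e1, Real.sqrt_mul (sq_nonneg s), Real.sqrt_sq hs0.le]
      rw [h5, ← mul_assoc]
      apply mul_le_mul_of_nonneg_right _ n0
      have : (1 - w / s) * s = s - w := by field_simp
      rw [this]
      refine hsw.trans ?_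
      rw [div_le_iff₀ hw0]
      nlinarith
    have b4 := nr_add ((M - ((1 - L) • A + T))ᵀ *ᵥ x) ((-(L • (Aᵀ *ᵥ x))) +
          (1 - w / s) • ((A + T)ᵀ *ᵥ x))
    have b5 := nr_add (-(L • (Aᵀ *ᵥ x))) ((1 - w / s) • ((A + T)ᵀ *ᵥ x))
    calc _ ≤ Real.sqrt (48 * q * w) * 2 ^ l * nr x + (4 * q * nr x + q * nr x) := by linarith
      _ = (Real.sqrt (48 * q * w) * 2 ^ l + 5 * q) * nr x := by ring

end Pool.Agent.H93S
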