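import Mathlib
import Pool.Agent.H93S.Nrm
import Pool.Agent.N328.PH.Growth
import Pool.Agent.H108R3.Had.P7

/-! Large orders. -/

set_option autoImplicit false

namespace Pool.Agent.H93S

open Matrix Finset

/-- Hadamard matrices of an order slightly above `n` -/
theorem near_order : ∃ N0 : ℕ, ∀ n : ℕ, N0 ≤ n → ∃ r : ℕ, ∃ q : ℝ, 1 ≤ q ∧ (r : ℝ) ≤ q ∧
    q * 2 ^ 18 ≤ Real.log n ∧ 10 * q ≤ Real.log (Real.log n) ∧ ∃ H : Matrix (Fin n ⊕ Fin r) (Fin n ⊕ Fin r) ℝ,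
      (∀ i j, H i j = 1 ∨ H i j = -1) ∧
      H * Hᵀ = ((n + r : ℕ) : ℝ) • (1 : Matrix (Fin n ⊕ Fin r) (Fin n ⊕ Fin r) ℝ) := by
  obtain ⟨N0, h0⟩ := Pool.Agent.N328.PH.growth
  refine ⟨N0 + 1, fun n hn => ?_⟩
  obtain ⟨k, hk1, hk2⟩ := h0 n (by omega)
  obtain ⟨q, hq⟩ : ∃ q : ℕ, q = 2 ^ k := ⟨_, rfl⟩
  have hqpos : 0 < q := by rw [hq]; positivity
  obtain ⟨l, hl⟩ : ∃ l : ℕ, l = (n + q - 1) / q := ⟨_, rfl⟩
  have hdiv := Nat.div_add_mod (n + q - 1) q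
  have hmod := Nat.mod_lt (n + q - 1) hqpos
  rw [← hl] at hdiv
  have hN1 : n ≤ q * l := by omega
  have hN2 : q * l < n + q := by omega
  have hln : l ≤ n := by
    rw [hl]
    apply Nat.div_le_of_le_mul
    obtain ⟨q', hq'⟩ : ∃ q', q = q' + 1 := ⟨q - 1, by omega⟩
    obtain ⟨n', hn'⟩ : ∃ n', n = n' + 1 := ⟨n - 1, by omega⟩
    rw [hq', hn']
    have h3 : (q' + 1) * (n' + 1) = q' * n' + q' + n' + 1 := by ring
    have h4 : 0 ≤ q' * n' := Nat.zero_le _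
    omega
  obtain ⟨r, hr⟩ : ∃ r : ℕ, q * l = n + r := ⟨q * l - n, by omega⟩
  obtain ⟨H, hH1, hH2⟩ := Pool.Agent.H108R3.Had.t_P7 k l (hk1 l hln)
  have hsize : 2 ^ k * l = n + r := by rw [← hq]; exact hr
  let e : Fin n ⊕ Fin r ≃ Fin (2 ^ k * l) := finSumFinEquiv.trans (finCongr hsize.symm)
  refine ⟨r, (q : ℝ), by exact_mod_cast hqpos, ?_, ?_, ?_, (H.submatrix e e).map (Int.cast), ?_, ?_⟩
  · have : r < q := by omega
    exact_mod_cast this.le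
  · have h3 : k + 18 ≤ 5 * 2 ^ (k + 2) - 1 := by
      have : k + 2 < 2 ^ (k + 2) := Nat.lt_two_pow_self
      have h4 : 4 ≤ 2 ^ (k + 2) := by
        calc 4 = 2 ^ 2 := by norm_num
          _ ≤ 2 ^ (k + 2) := Nat.pow_le_pow_right (by norm_num) (by omega)
      omega
    have h5 : (2 : ℕ) ^ (k + 18) ≤ 2 ^ (5 * 2 ^ (k + 2) - 1) :=
      Nat.pow_le_pow_right (by norm_num) h3
    have h6 : ((2 ^ (k + 18) : ℕ) : ℝ) ≤ ((2 ^ (5 * 2 ^ (k + 2) - 1) : ℕ) : ℝ) := by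
      exact_mod_cast h5
    rw [hq]
    push_cast at h6 hk2 ⊢
    rw [pow_add] at h6
    linarith
  · have h3 : (19 * 2 ^ k : ℕ) ≤ 5 * 2 ^ (k + 2) - 1 := by
      have e1 : 2 ^ (k + 2) = 4 * 2 ^ k := by rw [pow_add]; ring
      have : 0 < 2 ^ k := by positivity
      omega
    have h4 : ((5 * 2 ^ (k + 2) - 1 : ℕ) : ℝ) * Real.log 2 ≤ Real.log (Real.log n) := by
      rw [← Real.log_pow]
      apply Real.log_le_log (by positivity)
      push_cast at hk2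
      exact hk2
    have h5 : ((19 * 2 ^ k : ℕ) : ℝ) ≤ ((5 * 2 ^ (k + 2) - 1 : ℕ) : ℝ) := by exact_mod_cast h3
    have h6 := Real.log_two_gt_d9
    have h7 : (0 : ℝ) < 2 ^ k := by positivity
    rw [hq]
    push_cast at h5 ⊢
    nlinarith
  · intro i j
    rw [Matrix.map_apply, Matrix.submatrix_apply]
    rcases hH1 (e i) (e j) with h | h <;> rw [h] <;> simp
  · have h1 : (H.submatrix e e) * (H.submatrix e e)ᵀ =
        ((2 ^ k * l : ℕ) : ℤ) • (1 : Matrix (Fin n ⊕ Fin r) (Fin n ⊕ Fin r) ℤ) := by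
      rw [Matrix.transpose_submatrix, Matrix.submatrix_mul_equiv, hH2, Matrix.submatrix_smul]
      simp only [Pi.smul_apply, Matrix.submatrix_one_equiv]
    have h2 : (H.submatrix e e).map (Int.cast : ℤ → ℝ) *
        ((H.submatrix e e).map (Int.cast : ℤ → ℝ))ᵀ =
        ((H.submatrix e e) * (H.submatrix e e)ᵀ).map (Int.cast : ℤ → ℝ) := by
      rw [← Matrix.transpose_map]
      exact (Matrix.map_mul (f := Int.castRingHom ℝ)).symm
    rw [h2, h1, hsize]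
    ext i j
    rw [Matrix.map_apply, Matrix.smul_apply, Matrix.smul_apply, Matrix.one_apply,
      Matrix.one_apply]
    split_ifs <;> simp

theorem log_pow_le : ∃ N1 : ℕ, ∀ n : ℕ, N1 ≤ n → Real.log n ^ 8 ≤ n ∧ 3 ≤ Real.log n := by
  have h1 := (Real.isLittleO_pow_log_id_atTop (n := 8)).bound (c := 1) one_pos
  have h2 := (tendsto_natCast_atTop_atTop (R := ℝ)).eventually h1
  have h3 := (Real.tendsto_log_atTop.comp (tendsto_natCast_atTop_atTop (R := ℝ))).eventually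
    (Filter.eventually_ge_atTop (3 : ℝ))
  obtain ⟨N1, h⟩ := Filter.eventually_atTop.1 (h2.and h3)
  refine ⟨N1, fun n hn => ?_⟩
  obtain ⟨h4, h5⟩ := h n hn
  refine ⟨?_, h5⟩
  simp only [id_eq, one_mul, Real.norm_eq_abs, Nat.abs_cast] at h4
  exact (le_abs_self _).trans h4

theorem main : ∃ n₀ : ℕ, ∀ n : ℕ, n₀ ≤ n → ∃ U S M : Matrix (Fin n) (Fin n) ℝ, U * Uᵀ = 1 ∧
      (∀ i j, S i j = 1 ∨ S i j = -1) ∧ (∀ i j, M i j = 1 ∨ M i j = -1) ∧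
      (∀ i j, |Real.sqrt n * U i j - S i j| ≤ Real.log (Real.log n) / Real.sqrt n) ∧
      ∀ x : Fin n → ℝ, nr ((M - Real.sqrt n • U)ᵀ *ᵥ x) ≤
        ((n : ℝ) ^ (1 / 4 : ℝ) * Real.log n ^ 2) * nr x := by
  obtain ⟨N0, h0⟩ := near_order
  obtain ⟨N1, h1⟩ := log_pow_le
  refine ⟨N0 + N1 + 1, fun n hn => ?_⟩
  obtain ⟨r, q, hq1, hrq, hqL, hqLL, H, hH1, hH2⟩ := h0 n (by omega)
  obtain ⟨hL8, hL3⟩ := h1 n (by omega)
  have hnpos : 0 < n := by omega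
  have hn' : (0 : ℝ) < n := by exact_mod_cast hnpos
  set Lg := Real.log n with hLg
  set w := Real.sqrt n with hw
  set v := (n : ℝ) ^ (1 / 4 : ℝ) with hv
  have hv0 : 0 < v := Real.rpow_pos_of_pos hn' _
  have hv2 : v ^ 2 = w := by
    rw [hv, hw, Real.sqrt_eq_rpow, ← Real.rpow_natCast, ← Real.rpow_mul hn'.le]
    norm_num
  have hv4 : v ^ 4 = n := by
    rw [hv, ← Real.rpow_natCast, ← Real.rpow_mul hn'.le]
    norm_num
  have hw0 : 0 < w := Real.sqrt_pos.2 hn'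
  have hLv : Lg ^ 2 ≤ v := by
    have : (Lg ^ 2) ^ 4 ≤ v ^ 4 := by rw [hv4, ← pow_mul]; exact hL8
    exact le_of_pow_le_pow_left₀ (by norm_num) hv0.le this
  have hv9 : 9 ≤ v := by nlinarith
  have hqn : 2 * q ≤ w := by
    rw [← hv2]
    nlinarith
  -- the exponent
  obtain ⟨l, hl⟩ : ∃ l, l = Nat.clog 2 ⌈Lg⌉₊ := ⟨_, rfl⟩
  have hceil : 3 ≤ ⌈Lg⌉₊ := by
    have : (3 : ℝ) ≤ (⌈Lg⌉₊ : ℝ) := hL3.trans (Nat.le_ceil _)
    exact_mod_cast this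
  have hl1 : 1 ≤ l := by
    rw [hl]
    exact Nat.clog_pos (by norm_num) (by omega)
  have hl2 : ⌈Lg⌉₊ ≤ 2 ^ l := by rw [hl]; exact Nat.le_pow_clog (by norm_num) _
  have hl3 : 2 ^ (l - 1) < ⌈Lg⌉₊ := by
    rw [hl]
    exact Nat.pow_pred_clog_lt_self (by norm_num) (by omega)
  have hl4 : ((2 : ℝ) ^ l) ≤ 3 * Lg := by
    have e1 : 2 ^ l = 2 * 2 ^ (l - 1) := by
      rw [← pow_succ']; congr 1; omega
    have e2 : 2 ^ l ≤ 2 * ⌈Lg⌉₊ := by rw [e1]; omega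
    have e3 : ((2 ^ l : ℕ) : ℝ) ≤ ((2 * ⌈Lg⌉₊ : ℕ) : ℝ) := by exact_mod_cast e2
    have e4 : (⌈Lg⌉₊ : ℝ) < Lg + 1 := Nat.ceil_lt_add_one (by linarith)
    push_cast at e3
    linarith
  have hnl : (n : ℝ) ≤ 3 ^ (2 ^ l) := by
    have e1 : Lg ≤ ((2 ^ l : ℕ) : ℝ) := (Nat.le_ceil _).trans (by exact_mod_cast hl2)
    have e2 : (n : ℝ) = Real.exp Lg := (Real.exp_log hn').symm
    rw [e2]
    calc Real.exp Lg ≤ Real.exp ((2 ^ l : ℕ) : ℝ) := Real.exp_le_exp.2 e1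
      _ = (Real.exp 1) ^ (2 ^ l) := by rw [← Real.exp_nat_mul, mul_one]
      _ ≤ 3 ^ (2 ^ l) := pow_le_pow_left₀ (Real.exp_pos _).le
          (by have := Real.exp_one_lt_d9; linarith) _
  obtain ⟨U, S, M, a1, a2, a3, a4, a5⟩ := of_blocks n r hnpos l hl1 hnl H hH1 hH2 q hq1 hrq hqn
  refine ⟨U, S, M, a1, a2, a3, ?_, ?_⟩
  · intro i j
    refine (a4 i j).trans ?_
    apply div_le_div_of_nonneg_right _ hw0.le
    linarith
  · intro x
    refine (a5 x).trans (mul_le_mul_of_nonneg_right ?_ (nr_nonneg _))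
    have b1 : Real.sqrt (48 * q * w) ≤ v * Lg / 6 := by
      apply Real.sqrt_le_iff.2
      refine ⟨by positivity, ?_⟩
      have : (v * Lg / 6) ^ 2 = w * (Lg ^ 2 / 36) := by rw [← hv2]; ring
      rw [this]
      have h7 : 48 * q ≤ Lg ^ 2 / 36 := by nlinarith
      calc 48 * q * w = w * (48 * q) := by ring
        _ ≤ w * (Lg ^ 2 / 36) := mul_le_mul_of_nonneg_left h7 hw0.le
    have b2 : Real.sqrt (48 * q * w) * 2 ^ l ≤ (v * Lg / 6) * (3 * Lg) :=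
      mul_le_mul b1 hl4 (by positivity) (by positivity)
    have b3 : 5 * q ≤ v * Lg ^ 2 / 2 := by
      have : (0 : ℝ) ≤ (v - 9) * Lg ^ 2 := mul_nonneg (by linarith) (sq_nonneg _)
      nlinarith
    calc Real.sqrt (48 * q * w) * 2 ^ l + 5 * q ≤ (v * Lg / 6) * (3 * Lg) + v * Lg ^ 2 / 2 :=
          add_le_add b2 b3
      _ = v * Lg ^ 2 := by ring

end Pool.Agent.H93S
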