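import Pool.Agent.H93S.Co

/-!
# Project SC: uniformisers of `κ(T_b)(Y)` (piece UNI)
-/

set_option autoImplicit false
set_option linter.all false

open Polynomial FF

namespace Pool.Agent.H93S

open Pool.Agent.Y157.PS Pool.Agent.Y948.PS

namespace Uni

theorem ratF {κ Ω : Type} [Field κ] [Field Ω] [Algebra κ Ω] {X0 : Ω}
    (h : Transcendental κ X0) :
    RatF κ (⟨X0, IntermediateField.mem_adjoin_simple_self κ X0⟩ :
      IntermediateField.adjoin κ {X0}) := by
  constructor
  · have h1 := transcendental_algebraMap_iff (R := κ)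
      (algebraMap (IntermediateField.adjoin κ {X0}) Ω).injective
      (a := (⟨X0, IntermediateField.mem_adjoin_simple_self κ X0⟩ :
        IntermediateField.adjoin κ {X0}))
    exact h1.1 h
  · apply IntermediateField.map_injective (IntermediateField.adjoin κ {X0}).val
    rw [IntermediateField.adjoin_map, Set.image_singleton, ← AlgHom.fieldRange_eq_map,
      IntermediateField.fieldRange_val]
    rfl

variable {ℓ : ℕ} {κ Ω : Type} [Field κ] [Field Ω] [Algebra κ Ω]

theorem val_const (W : ValuationSubring Ω) (hκ : ∀ c : κ, algebraMap κ Ω c ∈ W) {c : κ}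
    (hc : c ≠ 0) : W.valuation (algebraMap κ Ω c) = 1 := by
  rw [← isU_iff]
  refine ⟨fun h => hc ((map_eq_zero _).1 h), hκ c, ?_⟩
  rw [← map_inv₀]
  exact hκ _

theorem tr_root {x : Ω} (hx : Transcendental κ x) {t : Ω} {b : κ}
    (ht : t ^ ℓ = x - algebraMap κ Ω b) : Transcendental κ t := by
  intro h
  apply hx
  have h1 : x = t ^ ℓ + algebraMap κ Ω b := by rw [ht]; ring
  rw [h1]
  exact (h.pow ℓ).add (isAlgebraic_algebraMap b)

/-- the value of `t ^ ℓ - θ ^ ℓ` -/
theorem val_pow_sub [CharZero κ] [IsAlgClosed κ] (hℓ : 0 < ℓ) (W : ValuationSubring Ω)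
    (hκ : ∀ c : κ, algebraMap κ Ω c ∈ W) {t : Ω} {θ : κ} (hθ : θ ≠ 0)
    (h : W.valuation (t - algebraMap κ Ω θ) < 1) :
    W.valuation (t ^ ℓ - algebraMap κ Ω (θ ^ ℓ)) = W.valuation (t - algebraMap κ Ω θ) := by
  classical
  have ha : θ ^ ℓ ≠ 0 := pow_ne_zero _ hθ
  have h2 := congrArg (aeval t) (prod_rts (ℓ := ℓ) hℓ ha)
  rw [map_prod, map_sub, map_pow, aeval_X, aeval_C] at h2
  rw [← h2, map_prod, ← Finset.mul_prod_erase _ _ ((mem_rts hℓ _ _).2 rfl : θ ∈ rts ℓ (θ ^ ℓ))]
  have h3 : ∀ θ' ∈ (rts ℓ (θ ^ ℓ)).erase θ, W.valuation (aeval t (X - C θ' : κ[X])) = 1 := by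
    intro θ' hθ'
    have h4 : θ - θ' ≠ 0 := sub_ne_zero.2 (Finset.mem_erase.1 hθ').1.symm
    have h5 : aeval t (X - C θ' : κ[X]) = (t - algebraMap κ Ω θ) + algebraMap κ Ω (θ - θ') := by
      rw [map_sub, aeval_X, aeval_C, map_sub]
      ring
    rw [h5, Valuation.map_add_eq_of_lt_right _ (by rwa [val_const W hκ h4]), val_const W hκ h4]
  rw [Finset.prod_congr rfl h3, Finset.prod_const_one, mul_one, map_sub, aeval_X, aeval_C]

end Uni

open Uni in
theorem uni (hK : S_K0) (hC : S_CO) : S_UNI := by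
  intro ℓ _ κ Ω _ _ _ _ _ _ x B T hR b hb Y hY W hκ hW
  have hℓ : 0 < ℓ := (Fact.out : ℓ.Prime).pos
  obtain ⟨C, hcard, h0, hmem, hCY⟩ := hC ℓ κ B b hb
  have htr : Transcendental κ (T b) := tr_root hR.tr (hR.root b hb)
  have hTb0 : T b ≠ 0 := by
    intro h
    rw [h] at htr
    exact htr isAlgebraic_zero
  have hYl := hCY Ω T x Y hR.root hTb0 hY
  haveI : Algebra.IsAlgebraic (IntermediateField.adjoin κ {x}) Ω := hR.alg
  haveI halg : Algebra.IsAlgebraic (IntermediateField.adjoin κ {T b}) Ω :=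
    alg_adjoin (ratF hR.tr) htr
  haveI : IsAlgClosure (IntermediateField.adjoin κ {T b}) Ω := ⟨inferInstance, halg⟩
  have hRW : ∃ z : IntermediateField.adjoin κ {T b},
      algebraMap (IntermediateField.adjoin κ {T b}) Ω z ∉ W := by
    by_contra hc
    push Not at hc
    exact hW (top_of_R W hc)
  have hdvd : ℓ ∣ C.card := by rw [hcard]; exact dvd_mul_right _ _
  have hne : C.Nonempty := by
    rw [← Finset.card_pos, hcard]
    have := hR.two
    exact Nat.mul_pos hℓ (by omega)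
  obtain ⟨π, h1, h2, h3, h4⟩ := hK ℓ κ (IntermediateField.adjoin κ {T b}) Ω
    ⟨T b, IntermediateField.mem_adjoin_simple_self κ (T b)⟩ (ratF htr) C hdvd hne Y hYl W hκ hRW
  change (∃ e ∈ C, π = Y ∧ IsU W ((T b - algebraMap κ Ω e) / Y ^ ℓ)) ∨
          (∃ a, a ∉ C ∧ π = T b - algebraMap κ Ω a) ∨
          π = (T b)⁻¹ at h3
  have hTmem : T b ∈ KY κ (T b) Y :=
    algebraMap_mem (KY κ (T b) Y)
      (⟨T b, IntermediateField.mem_adjoin_simple_self κ (T b)⟩ : IntermediateField.adjoin κ {T b})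
  have hcmem : ∀ c : κ, algebraMap κ Ω c ∈ KY κ (T b) Y := fun c =>
    algebraMap_mem (KY κ (T b) Y)
      (⟨algebraMap κ Ω c, algebraMap_mem _ _⟩ : IntermediateField.adjoin κ {T b})
  have hlt : W.valuation π < 1 := (ValuationSubring.mem_nonunits_iff _).1 h1
  refine ⟨π, ⟨?_, h2, hlt, ?_⟩, ?_⟩
  · rcases h3 with ⟨e, he, rfl, _⟩ | ⟨a, ha, rfl⟩ | rfl
    · exact IntermediateField.mem_adjoin_simple_self _ _
    · exact sub_mem hTmem (hcmem a)
    · exact inv_mem hTmem
  · intro z hz hz0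
    obtain ⟨n, hn⟩ := h4 z hz hz0
    refine ⟨n, ?_⟩
    have h5 := (isU_iff W).1 hn
    rw [map_div₀, map_zpow₀] at h5
    rwa [div_eq_one_iff_eq] at h5
    exact zpow_ne_zero _ ((Valuation.pos_iff _).2 h2).ne'
  · rcases h3 with ⟨θ, hθ, rfl, hu⟩ | ⟨θ, hθ, rfl⟩ | rfl
    · left
      have h5 := (isU_iff W).1 hu
      rw [map_div₀, map_pow, div_eq_one_iff_eq] at h5
      · obtain ⟨e, he, hne', hθe⟩ := (hmem θ).1 hθ
        refine ⟨e, he, ?_⟩
        have hθ0 : θ ≠ 0 := fun h => h0 (h ▸ hθ)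
        have h6 : W.valuation (T b - algebraMap κ Ω θ) < 1 := by
          rw [h5]
          exact pow_lt_one₀ zero_le hlt hℓ.ne'
        have h7 := val_pow_sub hℓ W hκ hθ0 h6
        rw [hθe, hR.root b hb, h5] at h7
        rw [← h7, map_sub (algebraMap κ Ω)]
        congr 1
        ring
      · exact (pow_pos ((Valuation.pos_iff _).2 h2) _).ne'
    · by_cases h0' : θ = 0
      · left
        refine ⟨b, hb, ?_⟩
        rw [h0', map_zero, sub_zero, ← hR.root b hb, map_pow]
      · right; left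
        refine ⟨b + θ ^ ℓ, ?_, ?_⟩
        · intro hmemB
          apply hθ
          refine (hmem θ).2 ⟨b + θ ^ ℓ, hmemB, ?_, by ring⟩
          intro h
          exact pow_ne_zero ℓ h0' (left_eq_add.1 h.symm)
        · have h7 := val_pow_sub hℓ W hκ h0' hlt
          rw [hR.root b hb] at h7
          rw [← h7, map_add (algebraMap κ Ω)]
          congr 1
          ring
    · right; right
      have h5 : 1 < W.valuation (T b) := by
        rw [map_inv₀] at hlt
        exact (inv_lt_one₀ ((Valuation.pos_iff _).2 hTb0)).1 hlt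
      have h6 : x = T b ^ ℓ + algebraMap κ Ω b := by rw [hR.root b hb]; ring
      have h7 : W.valuation (algebraMap κ Ω b) < W.valuation (T b ^ ℓ) := by
        rw [map_pow]
        exact ((W.valuation_le_one_iff _).2 (hκ b)).trans_lt (one_lt_pow₀ h5 hℓ.ne')
      have h8 : W.valuation x = W.valuation (T b) ^ ℓ := by
        conv_lhs => rw [h6]
        rw [Valuation.map_add_eq_of_lt_left _ h7, map_pow]
      rw [map_inv₀, map_inv₀, h8, inv_pow]

end Pool.Agent.H93S
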