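import Pool.Agent.H93S.Idx
import Pool.Agent.H93S.Coord
import Pool.Agent.H93S.Uni

/-!
# Project SC: the field `M` of a uniformly ramified cover
-/

set_option autoImplicit false
set_option linter.all false

open Polynomial FF

namespace Pool.Agent.H93S

open Pool.Agent.Y157.PS Pool.Agent.Y948.PS Pool.Agent.Y31.PS Pool.Agent.R925.Q Pool.Agent.R925.X
  Pool.Agent.R925.L

section

variable {ℓ : ℕ} {k F Ω : Type} [Field k] [Field F] [Field Ω] [Algebra k F]
  [Algebra F Ω] [Algebra k Ω] [IsScalarTower k F Ω]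

/-- `k̄ F` as an extension of `κ` -/
noncomputable def Gf (k F Ω : Type) [Field k] [Field F] [Field Ω] [Algebra k F]
    [Algebra F Ω] [Algebra k Ω] [IsScalarTower k F Ω] :
    IntermediateField (algebraicClosure k Ω) Ω :=
  { (geomF k F Ω).toSubfield with
    algebraMap_mem' := fun c => IntermediateField.subset_adjoin F _ c.2 }

theorem mem_Gf (z : Ω) : z ∈ Gf k F Ω ↔ z ∈ geomF k F Ω := Iff.rfl

theorem Gf_sub : (Gf k F Ω).toSubfield = (geomF k F Ω).toSubfield := rfl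

theorem maxPro_Gf (z : Ω) :
    z ∈ maxPro ℓ (algebraicClosure k Ω) (Gf k F Ω) Ω ↔ z ∈ geomPro ℓ k F Ω := by
  let e : Gf k F Ω ≃+* geomF k F Ω :=
    { toFun := fun w => ⟨w.1, w.2⟩
      invFun := fun w => ⟨w.1, w.2⟩
      left_inv := fun w => rfl
      right_inv := fun w => rfl
      map_mul' := fun w w' => rfl
      map_add' := fun w w' => rfl }
  refine maxPro_congr e (fun a => rfl) (fun W => ⟨fun h c => ?_, fun h c => ?_⟩) z
  · exact Pool.Agent.W620.SC.const_mem h c.2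
  · exact h (algebraMap k (algebraicClosure k Ω) c)

end

/-- the exponent of the Galois closure -/
theorem exp_of {ℓ : ℕ} {R Ω : Type} [Field R] [Field Ω] [Algebra R Ω] (N : IntermediateField R Ω)
    (h1 : FiniteDimensional R N) (h2 : IsGalois R N) (h3 : ∃ m : ℕ, Module.finrank R N = ℓ ^ m) :
    ∃ m : ℕ, ∀ (γ δ : Ω ≃ₐ[R] Ω), ∀ t ∈ N, (γ ^ ℓ ^ m) (δ t) = δ t := by
  obtain ⟨m, hm⟩ := h3
  refine ⟨m, fun γ δ t ht => ?_⟩
  have hδ : δ t ∈ N := by
    have h4 := AlgEquiv.restrictNormal_commutes δ N ⟨t, ht⟩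
    have h5 : algebraMap N Ω ((δ.restrictNormal N) ⟨t, ht⟩) = δ t := h4
    rw [← h5]
    exact ((δ.restrictNormal N) ⟨t, ht⟩).2
  have h4 : (AlgEquiv.restrictNormalHom N γ) ^ (ℓ ^ m) = 1 := by
    rw [← hm, ← IsGalois.card_aut_eq_finrank]
    exact pow_card_eq_one'
  rw [← map_pow] at h4
  have h5 := AlgEquiv.restrictNormal_commutes (γ ^ (ℓ ^ m)) N ⟨δ t, hδ⟩
  have h6 : (γ ^ (ℓ ^ m)).restrictNormal N = 1 := h4
  rw [h6] at h5
  exact h5.symm

section

variable {ℓ : ℕ} [Fact ℓ.Prime] {k F Ω : Type} [Field k] [CharZero k] [Field F] [Field Ω]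
  [Algebra k F] [Algebra F Ω] [Algebra k Ω] [IsScalarTower k F Ω] [IsAlgClosed Ω]
  [Algebra.IsAlgebraic F Ω]

omit [CharZero k] [IsAlgClosed Ω] in
theorem alg_of_N {X0 : Ω} (N : IntermediateField
      (IntermediateField.adjoin (algebraicClosure k Ω) {X0}) Ω)
    (h1 : FiniteDimensional (IntermediateField.adjoin (algebraicClosure k Ω) {X0}) N)
    (hF : ∀ z : F, algebraMap F Ω z ∈ N) :
    Algebra.IsAlgebraic (IntermediateField.adjoin (algebraicClosure k Ω) {X0}) Ω := by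
  let i : F →+* N := (algebraMap F Ω).codRestrict N.toSubfield hF
  letI : Algebra F N := i.toAlgebra
  haveI : IsScalarTower F N Ω := IsScalarTower.of_algebraMap_eq fun r => rfl
  have h2 : Algebra.IsAlgebraic N Ω := Algebra.IsAlgebraic.tower_top (K := F) N
  have h3 : Algebra.IsAlgebraic (IntermediateField.adjoin (algebraicClosure k Ω) {X0}) N :=
    inferInstance
  exact Algebra.IsAlgebraic.trans _ N Ω

end

section gen

variable {ℓ : ℕ} [Fact ℓ.Prime] {κ Ω : Type} [Field κ] [IsAlgClosed κ] [Field Ω] [Algebra κ Ω]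

/-- a uniformly ramified extension, in a good coordinate -/
theorem uf_gen {X0 x' : Ω} (hx' : Transcendental κ x')
    (halg0 : Algebra.IsAlgebraic (IntermediateField.adjoin κ {X0}) Ω)
    (hS : ∀ S : IntermediateField κ Ω, X0 ∈ S ↔ x' ∈ S)
    (P : Finset κ) (Inf : Prop)
    (N : IntermediateField (IntermediateField.adjoin κ {X0}) Ω)
    (hN1 : FiniteDimensional (IntermediateField.adjoin κ {X0}) N)
    (hN2 : IsGalois (IntermediateField.adjoin κ {X0}) N)
    (hN3 : ∃ m : ℕ, Module.finrank (IntermediateField.adjoin κ {X0}) N = ℓ ^ m)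
    {L : IntermediateField κ Ω} (hXL : X0 ∈ L) (hLN : ∀ t ∈ L, t ∈ N)
    (hidx : ∀ W : ValuationSubring Ω, (∀ c : κ, algebraMap _ Ω c ∈ W) → W ≠ ⊤ →
      (((∃ e ∈ P, X0 - algebraMap _ Ω e ∈ W.nonunits) ∨ (Inf ∧ X0⁻¹ ∈ W.nonunits)) →
        (valGrp W (IntermediateField.adjoin κ {X0}).toSubfield).relIndex
          (valGrp W L.toSubfield) = ℓ) ∧
      (¬ ((∃ e ∈ P, X0 - algebraMap _ Ω e ∈ W.nonunits) ∨ (Inf ∧ X0⁻¹ ∈ W.nonunits)) →
        (valGrp W (IntermediateField.adjoin κ {X0}).toSubfield).relIndex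
          (valGrp W L.toSubfield) = 1))
    {B : Finset κ}
    (habv : ∀ (M : IntermediateField κ Ω) (hxM : X0 ∈ M)
      (W : ValuationSubring M), (∀ c : κ, algebraMap _ M c ∈ W) →
      (Abv x' B W ↔ AbvP ⟨X0, hxM⟩ P Inf W)) :
    IntermediateField.adjoin κ {x'} = IntermediateField.adjoin κ {X0} ∧ Uf ℓ x' B L := by
  have hadj : IntermediateField.adjoin κ {x'} = IntermediateField.adjoin κ {X0} := by
    refine le_antisymm ?_ ?_
    · rw [IntermediateField.adjoin_simple_le_iff, ← hS]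
      exact IntermediateField.mem_adjoin_simple_self _ _
    · rw [IntermediateField.adjoin_simple_le_iff, hS]
      exact IntermediateField.mem_adjoin_simple_self _ _
  refine ⟨hadj, ?_⟩
  have halg : Algebra.IsAlgebraic (IntermediateField.adjoin κ {x'}) Ω := by
    rw [hadj]
    exact halg0
  have hexp : ∃ m : ℕ, ∀ (γ δ : Ω ≃ₐ[IntermediateField.adjoin κ {x'}] Ω),
      ∀ t ∈ L, (γ ^ ℓ ^ m) (δ t) = δ t := by
    rw [hadj]
    obtain ⟨m, hm⟩ := exp_of N hN1 hN2 hN3
    exact ⟨m, fun γ δ t ht => hm γ δ t (hLN t ht)⟩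
  refine uf_of hx' halg ((hS _).1 hXL) hexp fun W hW hWt => ?_
  obtain ⟨Mt, hMt⟩ : ∃ Mt : IntermediateField κ Ω, ∀ z, z ∈ Mt :=
    ⟨⊤, fun z => IntermediateField.mem_top⟩
  have hW' : ∀ c : κ, algebraMap κ Mt c ∈ W.comap (algebraMap Mt Ω) := fun c => hW c
  have h5 := habv Mt (hMt _) (W.comap (algebraMap Mt Ω)) hW'
  have h6 : ((∃ b ∈ B, W.valuation (x' - algebraMap _ Ω b) < 1) ∨ W.valuation x'⁻¹ < 1) ↔
      ((∃ e ∈ P, X0 - algebraMap _ Ω e ∈ W.nonunits) ∨ (Inf ∧ X0⁻¹ ∈ W.nonunits)) := by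
    rw [abv_def (hMt x')] at h5
    unfold AbvP at h5
    simp only [non_incl] at h5
    exact h5
  obtain ⟨h7, h8⟩ := hidx W hW hWt
  rw [h6, hadj]
  exact ⟨h7, h8⟩

end gen

section

variable {ℓ : ℕ} [Fact ℓ.Prime] {k F Ω : Type} [Field k] [CharZero k] [Field F] [Field Ω]
  [Algebra k F] [Algebra F Ω] [Algebra k Ω] [IsScalarTower k F Ω] [IsAlgClosed Ω]
  [Algebra.IsAlgebraic F Ω]

theorem fld_of {x : F} (hx : Transcendental k x)
    (P : Finset (algebraicClosure k Ω)) (Inf : Prop)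
    (N : IntermediateField (IntermediateField.adjoin (algebraicClosure k Ω) {algebraMap F Ω x}) Ω)
    (hN1 : FiniteDimensional
      (IntermediateField.adjoin (algebraicClosure k Ω) {algebraMap F Ω x}) N)
    (hN2 : IsGalois (IntermediateField.adjoin (algebraicClosure k Ω) {algebraMap F Ω x}) N)
    (hN3 : ∃ m : ℕ, Module.finrank
      (IntermediateField.adjoin (algebraicClosure k Ω) {algebraMap F Ω x}) N = ℓ ^ m)
    (hFN : ∀ z : F, algebraMap F Ω z ∈ N)
    (hidx : ∀ W : ValuationSubring Ω, (∀ c : algebraicClosure k Ω, algebraMap _ Ω c ∈ W) →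
      W ≠ ⊤ →
      (((∃ e ∈ P, algebraMap F Ω x - algebraMap _ Ω e ∈ W.nonunits) ∨
          (Inf ∧ (algebraMap F Ω x)⁻¹ ∈ W.nonunits)) →
        (valGrp W (IntermediateField.adjoin (algebraicClosure k Ω)
          {algebraMap F Ω x}).toSubfield).relIndex (valGrp W (geomF k F Ω).toSubfield) = ℓ) ∧
      (¬ ((∃ e ∈ P, algebraMap F Ω x - algebraMap _ Ω e ∈ W.nonunits) ∨
          (Inf ∧ (algebraMap F Ω x)⁻¹ ∈ W.nonunits)) →
        (valGrp W (IntermediateField.adjoin (algebraicClosure k Ω)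
          {algebraMap F Ω x}).toSubfield).relIndex (valGrp W (geomF k F Ω).toSubfield) = 1))
    {x' : Ω} {B : Finset (algebraicClosure k Ω)} (hx' : Transcendental (algebraicClosure k Ω) x')
    (hS : ∀ S : IntermediateField (algebraicClosure k Ω) Ω, algebraMap F Ω x ∈ S ↔ x' ∈ S)
    (h3 : 3 ≤ ℓ * (B.card - 1)) (h2 : 2 ≤ B.card)
    (habv : ∀ (M : IntermediateField (algebraicClosure k Ω) Ω) (hxM : algebraMap F Ω x ∈ M)
      (W : ValuationSubring M), (∀ c : algebraicClosure k Ω, algebraMap _ M c ∈ W) →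
      (Abv x' B W ↔ AbvP ⟨algebraMap F Ω x, hxM⟩ P Inf W))
    {T : algebraicClosure k Ω → Ω} (hT : ∀ b ∈ B, T b ^ ℓ = x' - algebraMap _ Ω b) :
    Fld ℓ x' B T (Mc ℓ k F Ω) := by
  have hac : IsAlgClosure k (algebraicClosure k Ω) := inferInstance
  have hkb : IsAlgClosed (algebraicClosure k Ω) := hac.1
  have hch : CharZero (algebraicClosure k Ω) :=
    charZero_of_injective_algebraMap (algebraMap k (algebraicClosure k Ω)).injective
  have halg0 := alg_of_N N hN1 hFN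
  have hLN : ∀ t ∈ Gf k F Ω, t ∈ N := by
    intro t ht
    have ht' : t ∈ geomF k F Ω := (mem_Gf t).1 ht
    refine adjoin_le_sub (K := F) (S := (algebraicClosure k Ω : Set Ω)) (T := N.toSubfield)
      ?_ ?_ t ht'
    · intro r
      exact hFN r
    · intro c hc
      exact N.algebraMap_mem ⟨c, (IntermediateField.adjoin (algebraicClosure k Ω)
        {algebraMap F Ω x}).algebraMap_mem ⟨c, hc⟩⟩
  have hXL : algebraMap F Ω x ∈ Gf k F Ω := (geomF k F Ω).algebraMap_mem x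
  obtain ⟨hadj, hUf⟩ := uf_gen hx' halg0 hS P Inf N hN1 hN2 hN3 hXL hLN hidx habv
  have halg : Algebra.IsAlgebraic (IntermediateField.adjoin (algebraicClosure k Ω) {x'}) Ω := by
    rw [hadj]
    exact halg0
  have hR : Rad ℓ x' B T := ⟨hx', halg, h2, hT⟩
  refine ⟨hR, h3, fun b hb Y hY z => ?_⟩
  rw [mem_Mc, ← max2 (uni Pool.Agent.Y809.PS.k0 co) hR hUf hb hY z]
  exact (maxPro_Gf z).symm

end

end Pool.Agent.H93S
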