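import Pool.Agent.H93S.Locb2
import Pool.Agent.H93S.Co
import Pool.Agent.Y287.GT.WGTG

/-!
# Project SC: if the inertia group fixes the radicals, then it commutes with the geometric group
-/

set_option autoImplicit false
set_option linter.all false

open Polynomial FF

namespace Pool.Agent.H93S

open Pool.Agent.Y157.PS Pool.Agent.Y948.PS Pool.Agent.Y31.PS Pool.Agent.R925.Q Pool.Agent.R925.X
  Pool.Agent.R925.L

/-- transport of an action -/
def trS {G M M' : Type} [Group G] [Field M] [Field M'] (e : M' ≃+* M) (s : G →* RingAut M) :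
    G →* RingAut M' where
  toFun σ := (e.trans (s σ : M ≃+* M)).trans e.symm
  map_one' := by
    ext z
    change e.symm (s 1 (e z)) = z
    rw [map_one]
    exact e.symm_apply_apply z
  map_mul' σ τ := by
    ext z
    change e.symm (s (σ * τ) (e z)) = e.symm (s σ (e (e.symm (s τ (e z)))))
    rw [map_mul, RingEquiv.apply_symm_apply]
    rfl

theorem trS_apply {G M M' : Type} [Group G] [Field M] [Field M'] (e : M' ≃+* M)
    (s : G →* RingAut M) (σ : G) (z : M') : e (trS e s σ z) = s σ (e z) := by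
  change e (e.symm (s σ (e z))) = _
  rw [RingEquiv.apply_symm_apply]

/-- the Gauss valuation ring of `t` is the Gauss valuation ring of `ζ t`, for a root of unity -/
theorem gauss_scale {κ M : Type} [Field κ] [Field M] [Algebra κ M] {V : ValuationSubring κ} {t : M}
    {O : ValuationSubring M} (hO : Gauss V t O) {ζ : κ} (hζ : IsU V ζ) (γ : M ≃+* M)
    (hγ : ∀ c : κ, γ (algebraMap κ M c) = algebraMap κ M c) (ht : γ t = algebraMap κ M ζ * t) :
    Gauss V t (O.comap (γ : M →+* M)) := by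
  refine ⟨fun c => ?_, fun p hp hu => ?_⟩
  · change γ (algebraMap κ M c) ∈ O ↔ _
    rw [hγ]
    exact hO.1 c
  · have h1 : γ (aeval t p) = aeval t (p.comp (C ζ * X)) := by
      rw [aeval_comp, map_mul, aeval_C, aeval_X, ← ht]
      let γ' : M ≃ₐ[κ] M := AlgEquiv.ofRingEquiv (f := γ) hγ
      change γ' (aeval t p) = aeval (γ' t) p
      exact (Polynomial.aeval_algHom_apply (γ' : M →ₐ[κ] M) t p).symm
    have h2 : IsU O (γ (aeval t p)) := by
      rw [h1]
      have hc : ∀ n, (p.comp (C ζ * X)).coeff n = p.coeff n * ζ ^ n := fun n => by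
        rw [comp_C_mul_X_coeff]
      refine hO.2 _ (fun n => ?_) ?_
      · rw [hc]
        exact mul_mem (hp n) (pow_mem hζ.2.1 n)
      · obtain ⟨n, hn⟩ := hu
        refine ⟨n, ?_⟩
        rw [hc]
        exact hn.mul (isU_pow hζ n)
    refine ⟨fun h => h2.1 (by rw [h, map_zero]), h2.2.1, ?_⟩
    change γ (aeval t p)⁻¹ ∈ O
    rw [map_inv₀]
    exact h2.2.2

theorem non_of_comap_eq {M : Type} [Field M] {O : ValuationSubring M} (γ : M ≃+* M)
    (h : ∀ z, γ z ∈ O ↔ z ∈ O) (z : M) : γ z ∈ O.nonunits ↔ z ∈ O.nonunits := by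
  rw [ValuationSubring.mem_nonunits_iff_or, ValuationSubring.mem_nonunits_iff_or, ← map_inv₀, h,
    map_eq_zero_iff _ γ.injective]

theorem good_comm {ℓ : ℕ} [Fact ℓ.Prime] {A k κ Ω : Type} [CommRing A] [IsDomain A]
    [IsDiscreteValuationRing A] [Finite (IsLocalRing.ResidueField A)] [Field k] [CharZero k]
    [Algebra A k] [IsFractionRing A k] [Field κ] [Algebra k κ] [Algebra A κ]
    [IsScalarTower A k κ] [IsAlgClosure k κ] [Field Ω] [IsAlgClosed Ω] [Algebra κ Ω]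
    (V : ValuationSubring κ) (hℓ : IsUnit (ℓ : A)) (hVa : ∀ a : A, algebraMap A κ a ∈ V)
    (hVm : ∀ a ∈ IsLocalRing.maximalIdeal A, algebraMap A κ a ∈ V.nonunits)
    {x : Ω} {B : Finset κ} {T : κ → Ω} {M : IntermediateField κ Ω} (hF : Fld ℓ x B T M)
    (hG : Good V B) {s : (κ ≃ₐ[k] κ) →* RingAut M} (hs : SL k κ M s)
    (hT : ∀ σ, ∀ b ∈ B, ∀ z : M, (z : Ω) = T b → s σ z = z) (σ : κ ≃ₐ[k] κ) (hσ : Ine V σ)
    (γ : M ≃+* M) (hγ : ∀ c : κ, γ (algebraMap κ M c) = algebraMap κ M c)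
    (hγx : ∀ z : M, (z : Ω) = x → γ z = z) (z : M) : s σ (γ z) = γ (s σ z) := by
  classical
  have hℓp : ℓ.Prime := Fact.out
  have hℓ0 := hℓp.ne_zero
  have hkb : IsAlgClosed κ := IsAlgClosure.isAlgClosed k
  have hch : CharZero κ := charZero_of_injective_algebraMap (algebraMap k κ).injective
  have hR := hF.rad
  have hℓU : IsU V (ℓ : κ) := by
    have h1 := isU_of_unit (V := V) hVa hℓ
    rwa [map_natCast] at h1
  have hxM := hF.x_mem hℓ0
  have hTM : ∀ e ∈ B, T e ∈ M := fun e he => hF.T_mem hℓ0 he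
  have hT0 : ∀ e ∈ B, T e ≠ 0 := fun e he => hR.ne hℓ0 he
  obtain ⟨b, hb⟩ : B.Nonempty := by
    rw [← Finset.card_pos]
    have := hR.two
    omega
  set Y : Ω := ∏ e ∈ B.erase b, T e with hYdef
  have hY : Y * T b = ∏ e ∈ B, T e := Finset.prod_erase_mul _ _ hb
  obtain ⟨C, hCcard, hC0, hCmem, hCprod⟩ := co ℓ κ B b hb
  have hYC := hCprod Ω T x Y hR.root (hT0 b hb) hY
  have hTtr : Transcendental κ (T b) := by
    intro h
    apply hR.tr
    have h1 : x = T b ^ ℓ + algebraMap κ Ω b := by rw [hR.root b hb, sub_add_cancel]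
    rw [h1]
    exact (h.pow ℓ).add (isAlgebraic_algebraMap _)
  haveI hal1 := hR.alg
  have hal : Algebra.IsAlgebraic (IntermediateField.adjoin κ {T b}) Ω :=
    alg_adjoin (R := IntermediateField.adjoin κ {x}) (ratF_adj hR.tr) hTtr
  let R := IntermediateField.adjoin κ {T b}
  haveI hcl : IsAlgClosure R Ω := ⟨inferInstance, hal⟩
  have hrat : RatF κ (⟨T b, IntermediateField.mem_adjoin_simple_self κ (T b)⟩ : R) := ratF_adj hTtr
  let x' : R := ⟨T b, IntermediateField.mem_adjoin_simple_self κ (T b)⟩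
  obtain ⟨M', hM'⟩ : ∃ M' : IntermediateField R Ω,
      ∀ z, z ∈ M' ↔ z ∈ maxPro ℓ κ (KY κ (T b) Y) Ω :=
    ⟨(maxPro ℓ κ (KY κ (T b) Y) Ω).restrictScalars R, fun z => Iff.rfl⟩
  have hMM : ∀ z, z ∈ M' ↔ z ∈ M := fun z => (hM' z).trans (hF.mem b hb Y hY z).symm
  have hYM : Y ∈ M' := (hMM Y).2 (hF.Y_mem hb hY)
  have hCov : Cov ℓ κ R M' x' C ⟨Y, hYM⟩ :=
    a_cov ℓ κ R Ω x' hrat C ⟨B.card - 1, hCcard⟩ (by rw [hCcard]; exact hF.three) Y hYC M' hM'
      ⟨Y, hYM⟩ rfl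
  let eqv : M' ≃+* M :=
    { toFun := fun w => ⟨w.1, (hMM _).1 w.2⟩
      invFun := fun w => ⟨w.1, (hMM _).2 w.2⟩
      left_inv := fun w => rfl
      right_inv := fun w => rfl
      map_mul' := fun w w' => rfl
      map_add' := fun w w' => rfl }
  have hGC : Good V C := good_C hℓU hb hG hCmem
  obtain ⟨F0, iF0, r, hr, ⟨D⟩⟩ := a_ndisc A k κ V hVa hVm ℓ hℓ
  have hrot := a_gex ℓ κ R M' x' C ⟨Y, hYM⟩ hCov F0 V r hr hGC D
  have hCne : C.Nonempty := by
    rw [← Finset.card_pos, hCcard]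
    have := hF.three
    omega
  obtain ⟨e0, he0⟩ := hCne
  obtain ⟨O, -, -, hO, -⟩ := hrot e0 he0
  have hun : ∀ O' : ValuationSubring M', Gauss V (algebraMap R M' x') O' → O' = O := fun O' h =>
    a_gun ℓ κ R M' x' C ⟨Y, hYM⟩ hCov V hrot O' O h hO
  -- the section
  let s' := trS eqv s
  have hs'c : ∀ σ c, s' σ (algebraMap κ M' c) = algebraMap κ M' (σ c) := by
    intro σ c
    apply eqv.injective
    rw [trS_apply]
    exact hs.const σ c
  have hYs : ∀ σ, s σ ⟨Y, hF.Y_mem hb hY⟩ = ⟨Y, hF.Y_mem hb hY⟩ := by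
    intro σ
    have h1 : (⟨Y, hF.Y_mem hb hY⟩ : M) =
        ∏ e ∈ (B.erase b).attach, (⟨T e.1, hTM e.1 (Finset.mem_of_mem_erase e.2)⟩ : M) := by
      apply (algebraMap M Ω).injective
      rw [map_prod]
      exact (Finset.prod_attach (B.erase b) T).symm
    rw [h1, map_prod]
    exact Finset.prod_congr rfl fun (e : {e // e ∈ B.erase b}) _ =>
      hT σ e.1 (Finset.mem_of_mem_erase e.2) _ rfl
  have hsec : Sec k κ R M' x' ⟨Y, hYM⟩ 1 s' := by
    refine ⟨hs'c, fun σ => ?_, fun σ => ?_, fun z => ?_⟩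
    · apply eqv.injective
      rw [trS_apply]
      exact hT σ b hb _ rfl
    · rw [map_one, div_one, map_one, one_mul]
      apply eqv.injective
      rw [trS_apply]
      exact hYs σ
    · obtain ⟨E, hE, hz⟩ := hs.cont (eqv z)
      refine ⟨E, hE, fun σ hσ => eqv.injective ?_⟩
      rw [trS_apply]
      exact hz σ hσ
  have hw := Pool.Agent.Y287.GT.wgtg ℓ A k κ R M' V hℓ hVa hVm x' C ⟨Y, hYM⟩ hCov hGC F0 r hr D s'
    hsec O hO hun
  -- the root of unity
  have hp := hℓp.pos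
  have hγT : ∃ ζ : κ, ζ ^ ℓ = 1 ∧ γ ⟨T b, hTM b hb⟩ = algebraMap κ M ζ * ⟨T b, hTM b hb⟩ := by
    have hT0' : (⟨T b, hTM b hb⟩ : M) ≠ 0 := fun h => hT0 b hb (congrArg Subtype.val h)
    have h1 : (γ ⟨T b, hTM b hb⟩ / ⟨T b, hTM b hb⟩) ^ ℓ = 1 := by
      have h2 : (⟨T b, hTM b hb⟩ : M) ^ ℓ = ⟨x, hxM⟩ - algebraMap κ M b := Subtype.ext (hR.root b hb)
      rw [div_pow, ← map_pow, h2, map_sub, hγ, hγx _ rfl, div_self]
      rw [← h2]
      exact pow_ne_zero _ hT0'
    obtain ⟨ζ, hζ⟩ := mu (κ := κ) hℓ0 _ h1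
    refine ⟨ζ, ?_, ?_⟩
    · apply (algebraMap κ M).injective
      rw [map_pow, hζ, h1, map_one]
    · rw [hζ, div_mul_cancel₀ _ hT0']
  obtain ⟨ζ, hζ1, hζT⟩ := hγT
  have hζU : IsU V ζ := isU_of_pow hp (by rw [hζ1]; exact isU_one)
  let γ' : M' ≃+* M' := (eqv.trans γ).trans eqv.symm
  have hγ' : ∀ z, eqv (γ' z) = γ (eqv z) := fun z => eqv.apply_symm_apply _
  have hγ'c : ∀ c : κ, γ' (algebraMap κ M' c) = algebraMap κ M' c := by
    intro c
    apply eqv.injective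
    rw [hγ']
    exact hγ c
  have hγ't : γ' (algebraMap R M' x') = algebraMap κ M' ζ * algebraMap R M' x' := by
    apply eqv.injective
    rw [hγ']
    exact hζT
  have hγO : ∀ z, γ' z ∈ O ↔ z ∈ O := by
    intro z
    have h1 := hun _ (gauss_scale hO hζU γ' hγ'c hγ't)
    have h2 : z ∈ O.comap (γ' : M' →+* M') ↔ z ∈ O := by rw [h1]
    exact h2
  have hγN := non_of_comap_eq γ' hγO
  -- inertia elements preserve `O`
  have hIne_inv : Ine V σ⁻¹ := by
    refine ⟨fun z => ?_, fun z hz => ?_⟩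
    · have h1 := hσ.1 (σ⁻¹ z)
      rw [← AlgEquiv.mul_apply, mul_inv_cancel, AlgEquiv.one_apply] at h1
      exact h1.symm
    · have h0 : σ⁻¹ z ∈ V := by
        have h1 := hσ.1 (σ⁻¹ z)
        rw [← AlgEquiv.mul_apply, mul_inv_cancel, AlgEquiv.one_apply] at h1
        exact h1.1 hz
      have h1 := hσ.2 (σ⁻¹ z) h0
      rw [← AlgEquiv.mul_apply, mul_inv_cancel, AlgEquiv.one_apply] at h1
      have h2 := non_neg h1
      rwa [neg_sub] at h2
  have hmemO : ∀ τ, Ine V τ → ∀ z ∈ O, s' τ z ∈ O := by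
    intro τ hτ z hz
    have h1 := add_mem (non_mem (hw τ hτ z hz)) hz
    rwa [sub_add_cancel] at h1
  have hss : ∀ z, s' σ (s' σ⁻¹ z) = z := by
    intro z
    rw [← RingAut.mul_apply, ← map_mul, mul_inv_cancel, map_one, RingAut.one_apply]
  have hss' : ∀ z, s' σ⁻¹ (s' σ z) = z := by
    intro z
    rw [← RingAut.mul_apply, ← map_mul, inv_mul_cancel, map_one, RingAut.one_apply]
  have hsO : ∀ z, s' σ z ∈ O ↔ z ∈ O := by
    intro z
    refine ⟨fun h => ?_, hmemO σ hσ z⟩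
    have h1 := hmemO σ⁻¹ hIne_inv _ h
    rwa [hss'] at h1
  have hsN := non_of_comap_eq (s' σ : M' ≃+* M') hsO
  -- the commutator
  let c0 : M' ≃+* M' := ((γ'.symm.trans (s' σ⁻¹ : M' ≃+* M')).trans γ').trans (s' σ : M' ≃+* M')
  have hc0 : ∀ z, c0 z = s' σ (γ' (s' σ⁻¹ (γ'.symm z))) := fun z => rfl
  have hc0c : ∀ c : κ, c0 (algebraMap κ M' c) = algebraMap κ M' c := by
    intro c
    have h1 : γ'.symm (algebraMap κ M' c) = algebraMap κ M' c := by
      rw [RingEquiv.symm_apply_eq, hγ'c]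
    rw [hc0, h1, hs'c, hγ'c, hs'c, ← AlgEquiv.mul_apply, mul_inv_cancel, AlgEquiv.one_apply]
  have hζfix : ∀ τ : κ ≃ₐ[k] κ, Ine V τ → τ ζ = ζ := by
    intro τ hτ
    exact ine_unit hp hℓU hτ hζU ⟨1, by rw [hζ1, map_one]⟩
  have hc0t : c0 (algebraMap R M' x') = algebraMap R M' x' := by
    have hζ0 : algebraMap κ M' ζ ≠ 0 := (_root_.map_ne_zero _).2 hζU.1
    have h1 : γ'.symm (algebraMap R M' x') = algebraMap κ M' ζ⁻¹ * algebraMap R M' x' := by
      rw [RingEquiv.symm_apply_eq, map_mul, hγ'c, hγ't, ← mul_assoc, ← map_mul,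
        inv_mul_cancel₀ hζU.1, map_one, one_mul]
    rw [hc0, h1, map_mul, hs'c, map_inv₀, hζfix _ hIne_inv, hsec.fixx, map_mul, hγ'c, hγ't,
      ← mul_assoc, ← map_mul, inv_mul_cancel₀ hζU.1, map_one, one_mul, hsec.fixx]
  have hc0R : ∀ y : R, c0 (algebraMap R M' y) = algebraMap R M' y := by
    have h1 : ∀ y ∈ IntermediateField.adjoin κ {T b}, ∃ z : M', (z : Ω) = y ∧ c0 z = z := by
      have h2 : (IntermediateField.adjoin κ {T b}).toSubfield ≤
          { carrier := {z : Ω | ∃ m : M', (m : Ω) = z ∧ c0 m = m}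
            mul_mem' := by
              rintro _ _ ⟨m, rfl, hm⟩ ⟨m', rfl, hm'⟩
              exact ⟨m * m', rfl, by rw [map_mul, hm, hm']⟩
            one_mem' := ⟨1, rfl, map_one c0⟩
            add_mem' := by
              rintro _ _ ⟨m, rfl, hm⟩ ⟨m', rfl, hm'⟩
              exact ⟨m + m', rfl, by rw [map_add, hm, hm']⟩
            zero_mem' := ⟨0, rfl, map_zero c0⟩
            neg_mem' := by
              rintro _ ⟨m, rfl, hm⟩
              exact ⟨-m, rfl, by rw [map_neg, hm]⟩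
            inv_mem' := by
              rintro _ ⟨m, rfl, hm⟩
              exact ⟨m⁻¹, rfl, by rw [map_inv₀, hm]⟩ : Subfield Ω } := by
        intro y hy
        refine adjoin_le_sub ?_ ?_ y hy
        · intro c
          exact ⟨algebraMap κ M' c, rfl, hc0c c⟩
        · intro w hw
          rw [Set.mem_singleton_iff.1 hw]
          exact ⟨algebraMap R M' x', rfl, hc0t⟩
      exact fun y hy => h2 hy
    intro y
    obtain ⟨m, hm, hm'⟩ := h1 y y.2
    have h2 : m = algebraMap R M' y := Subtype.ext hm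
    rw [← h2, hm']
  let c1 : M' ≃ₐ[R] M' := AlgEquiv.ofRingEquiv (f := c0) hc0R
  have hc1 : ∀ z ∈ O, c1 z - z ∈ O.nonunits := by
    intro z hz
    change s' σ (γ' (s' σ⁻¹ (γ'.symm z))) - z ∈ O.nonunits
    have h0 : γ'.symm z ∈ O := by
      rw [← hγO, RingEquiv.apply_symm_apply]
      exact hz
    have h1 := hw σ⁻¹ hIne_inv _ h0
    have h2 := (hsN _).2 ((hγN _).2 h1)
    have h3 := hw σ hσ z hz
    have h4 : s' σ (γ' (s' σ⁻¹ (γ'.symm z))) - z =
        s' σ (γ' (s' σ⁻¹ (γ'.symm z) - γ'.symm z)) + (s' σ z - z) := by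
      rw [map_sub, map_sub, RingEquiv.apply_symm_apply]
      change _ = (s' σ (γ' (s' σ⁻¹ (γ'.symm z))) - s' σ z) + (s' σ z - z)
      ring
    rw [h4]
    exact non_add h2 h3
  have hfin : ∀ z, c0 z = z := by
    intro z
    obtain ⟨N, hzN, hN⟩ := hCov.pow z
    exact (a_g2 ℓ κ R M' x' C ⟨Y, hYM⟩ hCov V O hO).2 hℓU N hN c1 (fun w hw _ => hc1 w hw) z hzN
  -- conclusion
  have h1 := hfin (γ' (s' σ (eqv.symm z)))
  rw [hc0, RingEquiv.symm_apply_apply, hss'] at h1
  have h2 := congrArg eqv h1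
  rw [trS_apply, hγ', hγ', trS_apply, RingEquiv.apply_symm_apply] at h2
  exact h2

end Pool.Agent.H93S
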