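import Pool.Agent.H93S.Max2
import Pool.Agent.H93S.Gm

/-!
# Project SC: uniformisers from ramification indices
-/

set_option autoImplicit false
set_option linter.all false

open Polynomial FF

namespace Pool.Agent.H93S

open Pool.Agent.Y157.PS Pool.Agent.Y948.PS

/-- the elements of `Ωˣ` which have the same value as an element of the field `S` -/
noncomputable def valGrp {Ω : Type} [Field Ω] (W : ValuationSubring Ω) (S : Subfield Ω) : Subgroup Ωˣ :=
  (Units.map (S.subtype : S →* Ω)).range ⊔ W.unitGroup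

section

variable {Ω : Type} [Field Ω] {W : ValuationSubring Ω}

theorem mem_valGrp {S : Subfield Ω} {u : Ωˣ} :
    u ∈ valGrp W S ↔ ∃ t ∈ S, t ≠ 0 ∧ W.valuation (u : Ω) = W.valuation t := by
  unfold valGrp
  rw [Subgroup.mem_sup]
  constructor
  · rintro ⟨_, ⟨a, rfl⟩, c, hc, rfl⟩
    rw [ValuationSubring.mem_unitGroup_iff] at hc
    refine ⟨((a : S) : Ω), (a : S).2, fun h => a.ne_zero (Subtype.ext h), ?_⟩
    rw [Units.val_mul, map_mul, hc, mul_one]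
    rfl
  · rintro ⟨t, ht, ht0, h⟩
    have h0 : (⟨t, ht⟩ : S) ≠ 0 := fun h => ht0 (congrArg Subtype.val h)
    refine ⟨_, ⟨Units.mk0 ⟨t, ht⟩ h0, rfl⟩, (Units.mk0 t ht0)⁻¹ * u, ?_, ?_⟩
    · rw [ValuationSubring.mem_unitGroup_iff, Units.val_mul, map_mul, h, Units.val_inv_eq_inv_val,
        map_inv₀, Units.val_mk0, inv_mul_cancel₀ ((_root_.map_ne_zero _).2 ht0)]
    · apply Units.ext
      rw [Units.val_mul, Units.val_mul, Units.val_inv_eq_inv_val, Units.val_mk0]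
      change t * (t⁻¹ * _) = _
      rw [mul_inv_cancel_left₀ ht0]

theorem unif_one {K L : Subfield Ω} {π : Ω}
    (hK : ∀ z ∈ K, z ≠ 0 → ∃ n : ℤ, W.valuation z = W.valuation π ^ n)
    (h : (valGrp W K).relIndex (valGrp W L) = 1) :
    ∀ z ∈ L, z ≠ 0 → ∃ n : ℤ, W.valuation z = W.valuation π ^ n := by
  intro z hz hz0
  rw [Subgroup.relIndex_eq_one] at h
  obtain ⟨t, ht, ht0, h1⟩ := mem_valGrp.1 (h (mem_valGrp.2 ⟨z, hz, hz0, rfl⟩ :
    Units.mk0 z hz0 ∈ valGrp W L))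
  obtain ⟨n, hn⟩ := hK t ht ht0
  exact ⟨n, by rw [← hn, ← h1, Units.val_mk0]⟩

theorem unif_prime {ℓ : ℕ} [Fact ℓ.Prime] {K L : Subfield Ω} (hKL : K ≤ L) {π₀ : Ω} (hπ₀ : π₀ ∈ K)
    (hπ0 : π₀ ≠ 0) (hlt : W.valuation π₀ < 1)
    (hK : ∀ z ∈ K, z ≠ 0 → ∃ n : ℤ, W.valuation z = W.valuation π₀ ^ n)
    (h : (valGrp W K).relIndex (valGrp W L) = ℓ) :
    ∃ π ∈ L, π ≠ 0 ∧ W.valuation π < 1 ∧ W.valuation π ^ ℓ = W.valuation π₀ ∧
      ∀ z ∈ L, z ≠ 0 → ∃ n : ℤ, W.valuation z = W.valuation π ^ n := by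
  have hℓp : ℓ.Prime := Fact.out
  have hℓ0 := hℓp.ne_zero
  have g0 : W.valuation π₀ ≠ 0 := (_root_.map_ne_zero _).2 hπ0
  have hpw : ∀ a b : W.ValueGroup, a ^ ℓ = b ^ ℓ → a = b := fun a b h =>
    (pow_left_inj₀ zero_le zero_le hℓ0).1 h
  -- the `ℓ`-th powers
  have hpow : ∀ z ∈ L, z ≠ 0 → ∃ n : ℤ, W.valuation z ^ ℓ = W.valuation π₀ ^ n := by
    intro z hz hz0
    have h1 : Units.mk0 z hz0 ∈ valGrp W L := mem_valGrp.2 ⟨z, hz, hz0, rfl⟩
    have h2 := Subgroup.pow_index_mem ((valGrp W K).subgroupOf (valGrp W L))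
      (⟨Units.mk0 z hz0, h1⟩ : valGrp W L)
    have h3 : ((valGrp W K).subgroupOf (valGrp W L)).index = ℓ := h
    rw [h3, Subgroup.mem_subgroupOf] at h2
    obtain ⟨t, ht, ht0, h4⟩ := mem_valGrp.1 h2
    obtain ⟨n, hn⟩ := hK t ht ht0
    refine ⟨n, ?_⟩
    rw [← hn, ← h4, ← map_pow]
    rfl
  -- a new value
  obtain ⟨t, ht, ht0, hnew⟩ : ∃ t ∈ L, t ≠ 0 ∧ ∀ n : ℤ, W.valuation t ≠ W.valuation π₀ ^ n := by
    by_contra hno
    push Not at hno
    have h1 : (valGrp W K).relIndex (valGrp W L) = 1 := by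
      rw [Subgroup.relIndex_eq_one]
      intro u hu
      obtain ⟨t, ht, ht0, h2⟩ := mem_valGrp.1 hu
      obtain ⟨n, hn⟩ := hno t ht ht0
      exact mem_valGrp.2 ⟨π₀ ^ n, zpow_mem hπ₀ n, zpow_ne_zero n hπ0, by rw [h2, hn, map_zpow₀]⟩
    rw [h] at h1
    exact hℓp.one_lt.ne' h1
  obtain ⟨α, hα⟩ := hpow t ht ht0
  have hαℓ : ¬ (ℓ : ℤ) ∣ α := by
    rintro ⟨β, rfl⟩
    apply hnew β
    apply hpw
    rw [hα, ← zpow_natCast (W.valuation π₀ ^ β), ← zpow_mul, mul_comm]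
  have hcop : IsCoprime (ℓ : ℤ) α := by
    rw [Int.isCoprime_iff_gcd_eq_one]
    have h1 : Int.gcd (ℓ : ℤ) α = Nat.gcd ℓ α.natAbs := by
      rw [Int.gcd_def, Int.natAbs_natCast]
    rw [h1]
    exact (Nat.Prime.coprime_iff_not_dvd hℓp).2 fun h => hαℓ (Int.natCast_dvd.2 h)
  obtain ⟨b, a, hab⟩ := hcop
  have hv : W.valuation (t ^ a * π₀ ^ b) ^ ℓ = W.valuation π₀ := by
    have ht' : W.valuation t ≠ 0 := (_root_.map_ne_zero _).2 ht0
    rw [map_mul, map_zpow₀, map_zpow₀, mul_pow, ← zpow_natCast (W.valuation t ^ a), ← zpow_mul,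
      mul_comm a, zpow_mul, zpow_natCast, hα, ← zpow_mul, ← zpow_natCast (W.valuation π₀ ^ b),
      ← zpow_mul, ← zpow_add₀ g0]
    have h1 : α * a + b * ℓ = 1 := by linear_combination hab
    rw [h1, zpow_one]
  have hlt' : W.valuation (t ^ a * π₀ ^ b) < 1 := by
    by_contra h1
    have h2 := one_le_pow₀ (not_lt.1 h1) (n := ℓ)
    rw [hv] at h2
    exact absurd hlt (not_lt.2 h2)
  refine ⟨t ^ a * π₀ ^ b, mul_mem (zpow_mem ht a) (zpow_mem (hKL hπ₀) b),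
    mul_ne_zero (zpow_ne_zero _ ht0) (zpow_ne_zero _ hπ0), hlt', hv, fun z hz hz0 => ?_⟩
  obtain ⟨n, hn⟩ := hpow z hz hz0
  refine ⟨n, hpw _ _ ?_⟩
  rw [hn, ← hv, ← zpow_natCast, ← zpow_mul, ← zpow_natCast, ← zpow_mul]
  congr 1
  exact mul_comm _ _

end

section rat

variable {κ Ω : Type} [Field κ] [IsAlgClosed κ] [Field Ω] [Algebra κ Ω] {x : Ω}

/-- the valuation rings of `κ(x)` -/
theorem place_x (hx : Transcendental κ x)
    (halg : Algebra.IsAlgebraic (IntermediateField.adjoin κ {x}) Ω) (W : ValuationSubring Ω)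
    (hκ : ∀ c : κ, algebraMap κ Ω c ∈ W) (hW : W ≠ ⊤) :
    (∃ a : κ, W.valuation (x - algebraMap κ Ω a) < 1 ∧
      (∀ a', a' ≠ a → W.valuation (x - algebraMap κ Ω a') = 1) ∧
      ∀ z ∈ IntermediateField.adjoin κ {x}, z ≠ 0 →
        ∃ n : ℤ, W.valuation z = W.valuation (x - algebraMap κ Ω a) ^ n) ∨
    (W.valuation x⁻¹ < 1 ∧ (∀ a, 1 < W.valuation (x - algebraMap κ Ω a)) ∧
      ∀ z ∈ IntermediateField.adjoin κ {x}, z ≠ 0 →
        ∃ n : ℤ, W.valuation z = W.valuation x⁻¹ ^ n) := by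
  have hrat := ratF_adj hx
  have hxa : ∀ a : κ, x - algebraMap κ Ω a ≠ 0 := by
    intro a h
    apply hx
    rw [sub_eq_zero.1 h]
    exact isAlgebraic_algebraMap a
  have hne : ∃ z : IntermediateField.adjoin κ {x},
      algebraMap (IntermediateField.adjoin κ {x}) Ω z ∉ W := by
    by_contra hno
    push Not at hno
    exact hW (top_of_R W hno)
  rcases Pool.Agent.Y809.PS.place_or hκ hrat hne with ⟨b, hb, hb'⟩ | ⟨h1, h1'⟩
  · left
    refine ⟨b, hb, hb', fun z hz hz0 => ?_⟩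
    have g0 : W.valuation (x - algebraMap κ Ω b) ≠ 0 := (_root_.map_ne_zero _).2 (hxa b)
    exact Pool.Agent.Y809.PS.val_R hκ hrat _ g0 (fun a => by
      by_cases hab : a = b
      · exact ⟨1, by rw [hab, zpow_one]; rfl⟩
      · exact ⟨0, by rw [hb' a hab, zpow_zero]⟩) ⟨z, hz⟩ (fun h => hz0 (congrArg Subtype.val h))
  · right
    have hx0 : x ≠ 0 := by
      have := hxa 0
      rwa [map_zero, sub_zero] at this
    have g0 : W.valuation x⁻¹ ≠ 0 := (_root_.map_ne_zero _).2 (inv_ne_zero hx0)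
    refine ⟨?_, fun a => ?_, fun z hz hz0 => ?_⟩
    · rw [map_inv₀]
      exact inv_lt_one_of_one_lt₀ h1
    · exact lt_of_lt_of_eq h1 (h1' a).symm
    · exact Pool.Agent.Y809.PS.val_R hκ hrat _ g0 (fun a => ⟨-1, by
        rw [h1' a, map_inv₀, zpow_neg, zpow_one, inv_inv]; rfl⟩) ⟨z, hz⟩
        (fun h => hz0 (congrArg Subtype.val h))

/-- uniformly ramified extensions, in terms of ramification indices -/
theorem uf_of {ℓ : ℕ} [Fact ℓ.Prime] (hx : Transcendental κ x)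
    (halg : Algebra.IsAlgebraic (IntermediateField.adjoin κ {x}) Ω) {B : Finset κ}
    {L : IntermediateField κ Ω} (hxL : x ∈ L)
    (hexp : ∃ m : ℕ, ∀ (γ δ : Ω ≃ₐ[IntermediateField.adjoin κ {x}] Ω), ∀ t ∈ L,
      (γ ^ ℓ ^ m) (δ t) = δ t)
    (hidx : ∀ W : ValuationSubring Ω, (∀ c : κ, algebraMap κ Ω c ∈ W) → W ≠ ⊤ →
      (((∃ b ∈ B, W.valuation (x - algebraMap κ Ω b) < 1) ∨ W.valuation x⁻¹ < 1) →
        (valGrp W (IntermediateField.adjoin κ {x}).toSubfield).relIndex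
          (valGrp W L.toSubfield) = ℓ) ∧
      (¬ ((∃ b ∈ B, W.valuation (x - algebraMap κ Ω b) < 1) ∨ W.valuation x⁻¹ < 1) →
        (valGrp W (IntermediateField.adjoin κ {x}).toSubfield).relIndex
          (valGrp W L.toSubfield) = 1)) : Uf ℓ x B L := by
  have hKL : (IntermediateField.adjoin κ {x}).toSubfield ≤ L.toSubfield := by
    have h1 : IntermediateField.adjoin κ {x} ≤ L := by
      rw [IntermediateField.adjoin_simple_le_iff]
      exact hxL
    exact h1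
  have hxa : ∀ a : κ, x - algebraMap κ Ω a ≠ 0 := by
    intro a h
    apply hx
    rw [sub_eq_zero.1 h]
    exact isAlgebraic_algebraMap a
  have hx0 : x ≠ 0 := by
    have := hxa 0
    rwa [map_zero, sub_zero] at this
  have hxm : x ∈ IntermediateField.adjoin κ {x} := IntermediateField.mem_adjoin_simple_self κ x
  have hxam : ∀ a : κ, x - algebraMap κ Ω a ∈ IntermediateField.adjoin κ {x} := fun a =>
    sub_mem hxm ((IntermediateField.adjoin κ {x}).algebraMap_mem a)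
  refine ⟨hxL, hexp, fun W hκ hW => ?_⟩
  obtain ⟨h1, h2⟩ := hidx W hκ hW
  rcases place_x hx halg W hκ hW with ⟨a, ha, ha', hval⟩ | ⟨hi, hi', hval⟩
  · by_cases haB : a ∈ B
    · obtain ⟨π, hπ, hπ0, hlt, hv, hval'⟩ := unif_prime hKL (hxam a) (hxa a) ha hval
        (h1 (Or.inl ⟨a, haB, ha⟩))
      exact ⟨π, hπ, hπ0, hlt, hval', Or.inl ⟨a, haB, hv.symm⟩⟩
    · refine ⟨x - algebraMap κ Ω a, hKL (hxam a), hxa a, ha, unif_one hval (h2 ?_),
        Or.inr (Or.inl ⟨a, haB, rfl⟩)⟩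
      rintro (⟨b, hb, h⟩ | h)
      · have hba : b ≠ a := fun h => haB (h ▸ hb)
        rw [ha' b hba] at h
        exact lt_irrefl _ h
      · have h3 : W.valuation x ≤ 1 := by
          have h4 : x = (x - algebraMap κ Ω a) + algebraMap κ Ω a := by ring
          rw [h4]
          exact (Valuation.map_add _ _ _).trans (max_le ha.le ((W.valuation_le_one_iff _).2 (hκ a)))
        rw [map_inv₀] at h
        have h5 : 0 < W.valuation x := (Valuation.pos_iff _).2 hx0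
        exact absurd ((inv_lt_one₀ h5).1 h) (not_lt.2 h3)
  · obtain ⟨π, hπ, hπ0, hlt, hv, hval'⟩ := unif_prime hKL (inv_mem hxm) (inv_ne_zero hx0) hi hval
      (h1 (Or.inr hi))
    exact ⟨π, hπ, hπ0, hlt, hval', Or.inr (Or.inr hv.symm)⟩

end rat

end Pool.Agent.H93S
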