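import Pool.Agent.H93S.Stm
import Pool.Agent.R925.L.Padic

/-!
# Project SC: the local theorem when the branch points are rational
-/

set_option autoImplicit false
set_option linter.all false

open Polynomial FF

namespace Pool.Agent.H93S

open Pool.Agent.Y157.PS Pool.Agent.Y948.PS Pool.Agent.Y31.PS Pool.Agent.R925.Q Pool.Agent.R925.X
  Pool.Agent.R925.L

section basics

variable {ℓ : ℕ} {κ Ω : Type} [Field κ] [Field Ω] [Algebra κ Ω] {x : Ω} {B : Finset κ} {T : κ → Ω}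

theorem Rad.sub_ne (h : Rad ℓ x B T) (b : κ) : x - algebraMap κ Ω b ≠ 0 := by
  intro h1
  apply h.tr
  rw [sub_eq_zero.1 h1]
  exact isAlgebraic_algebraMap _

theorem Rad.ne (h : Rad ℓ x B T) (hℓ : ℓ ≠ 0) {b : κ} (hb : b ∈ B) : T b ≠ 0 := by
  intro h1
  have h2 := h.root b hb
  rw [h1, zero_pow hℓ] at h2
  exact h.sub_ne b h2.symm

theorem Rad.exY (h : Rad ℓ x B T) (hℓ : ℓ ≠ 0) {b : κ} (hb : b ∈ B) :
    ∃ Y : Ω, Y * T b = ∏ e ∈ B, T e :=
  ⟨(∏ e ∈ B, T e) / T b, div_mul_cancel₀ _ (h.ne hℓ hb)⟩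

theorem Fld.T_mem {M : IntermediateField κ Ω} (h : Fld ℓ x B T M) (hℓ : ℓ ≠ 0) {b : κ}
    (hb : b ∈ B) : T b ∈ M := by
  obtain ⟨Y, hY⟩ := h.rad.exY hℓ hb
  rw [h.mem b hb Y hY]
  have h1 : T b ∈ KY κ (T b) Y :=
    (KY κ (T b) Y).algebraMap_mem ⟨T b, IntermediateField.mem_adjoin_simple_self κ (T b)⟩
  exact (maxPro ℓ κ (KY κ (T b) Y) Ω).algebraMap_mem ⟨T b, h1⟩

theorem Fld.Y_mem {M : IntermediateField κ Ω} (h : Fld ℓ x B T M) {b : κ}
    (hb : b ∈ B) {Y : Ω} (hY : Y * T b = ∏ e ∈ B, T e) : Y ∈ M := by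
  rw [h.mem b hb Y hY]
  have h1 : Y ∈ KY κ (T b) Y := IntermediateField.mem_adjoin_simple_self _ Y
  exact (maxPro ℓ κ (KY κ (T b) Y) Ω).algebraMap_mem ⟨Y, h1⟩

theorem Fld.x_mem {M : IntermediateField κ Ω} (h : Fld ℓ x B T M) (hℓ : ℓ ≠ 0) : x ∈ M := by
  have h2 := h.rad.two
  obtain ⟨b, hb⟩ : B.Nonempty := by
    rw [← Finset.card_pos]; omega
  have h1 : x = T b ^ ℓ + algebraMap κ Ω b := by
    rw [h.rad.root b hb, sub_add_cancel]
  rw [h1]
  exact add_mem (pow_mem (h.T_mem hℓ hb) _) (M.algebraMap_mem b)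

end basics

/-- the Kummer class of `T b` for a section -/
theorem kummer (hH : S_H90) {ℓ : ℕ} [Fact ℓ.Prime] {k κ M : Type} [Field k] [CharZero k] [Field κ]
    [Algebra k κ] [IsAlgClosure k κ] [Field M] [Algebra κ M]
    {s : (κ ≃ₐ[k] κ) →* RingAut M} (hs : SL k κ M s) {t : M} (ht : t ≠ 0)
    (hfix : ∀ σ, s σ (t ^ ℓ) = t ^ ℓ) :
    ∃ ρ : κ, ρ ≠ 0 ∧ (∀ σ, s σ t = algebraMap κ M (σ ρ / ρ) * t) ∧
      ∃ a : k, ρ ^ ℓ = algebraMap k κ a := by
  have hkb : IsAlgClosed κ := IsAlgClosure.isAlgClosed k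
  have hℓ0 : ℓ ≠ 0 := (Fact.out : ℓ.Prime).ne_zero
  have hex : ∀ σ, ∃ c : κ, algebraMap κ M c = s σ t / t := by
    intro σ
    refine Pool.Agent.Y948.PS.mu hℓ0 _ ?_
    rw [div_pow, ← map_pow, hfix, div_self (pow_ne_zero _ ht)]
  choose χ hχ using hex
  have hχt : ∀ σ, s σ t = algebraMap κ M (χ σ) * t := fun σ => by
    rw [hχ, div_mul_cancel₀ _ ht]
  have h0 : ∀ σ, χ σ ≠ 0 := by
    intro σ h
    have h1 := hχt σ
    rw [h, map_zero, zero_mul] at h1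
    exact ht ((map_eq_zero_iff (s σ) (s σ).injective).1 h1)
  have hmul : ∀ σ τ, χ (σ * τ) = χ σ * σ (χ τ) := by
    intro σ τ
    apply (algebraMap κ M).injective
    apply mul_right_cancel₀ ht
    have h1 : s (σ * τ) t = s σ (s τ t) := by rw [map_mul]; rfl
    rw [← hχt, h1, hχt τ, map_mul, hs.const, hχt σ, map_mul]
    ring
  obtain ⟨E, hE, hE'⟩ := hs.cont t
  obtain ⟨ρ, hρ0, hρ⟩ := hH k κ χ h0 hmul ⟨E, hE, fun σ hσ => by
    apply (algebraMap κ M).injective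
    apply mul_right_cancel₀ ht
    rw [← hχt, hE' σ hσ, map_one, one_mul]⟩
  refine ⟨ρ, hρ0, fun σ => by rw [hχt, hρ], ?_⟩
  have hN : Normal k κ := IsAlgClosure.normal k κ
  have hG : IsGalois k κ := ⟨⟩
  have h5 : ρ ^ ℓ ∈ (⊥ : IntermediateField k κ) := by
    rw [InfiniteGalois.mem_bot_iff_fixed]
    intro σ
    have h1 : χ σ ^ ℓ = 1 := by
      apply (algebraMap κ M).injective
      rw [map_pow, hχ, div_pow, ← map_pow, hfix, div_self (pow_ne_zero _ ht), map_one]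
    rw [hρ, div_pow, ← map_pow, div_eq_one_iff_eq (pow_ne_zero _ hρ0)] at h1
    exact h1
  obtain ⟨a, ha⟩ := IntermediateField.mem_bot.1 h5
  exact ⟨a, ha.symm⟩

section val

variable {A k κ : Type} [CommRing A] [IsDomain A]
    [IsDiscreteValuationRing A] [Field k] [Field κ] [Algebra A k] [Algebra k κ] [Algebra A κ]
    [IsScalarTower A k κ] [IsFractionRing A k] [CharZero k] [IsAlgClosure k κ]
    [Finite (IsLocalRing.ResidueField A)]

/-- a radical moved by an inertia element is not a unit times a power of the uniformiser -/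
theorem not_dvd {ℓ : ℕ} [Fact ℓ.Prime] {V : ValuationSubring κ} (hℓ : IsUnit (ℓ : A))
    (hVa : ∀ a : A, algebraMap A κ a ∈ V) {ϖ t : A} (ht : IsUnit t) (hϖ : Irreducible ϖ) {α : ℤ}
    {ρ : κ} (hρ : ρ ^ ℓ = algebraMap A κ t * algebraMap A κ ϖ ^ α) {σ : κ ≃ₐ[k] κ}
    (hσ : Ine V σ) (hne : σ ρ ≠ ρ) : ¬ (ℓ : ℤ) ∣ α := by
  rintro ⟨β, rfl⟩
  apply hne
  have hp := (Fact.out : ℓ.Prime).pos
  have hℓU : IsU V (ℓ : κ) := by
    have h1 := isU_of_unit (V := V) hVa hℓ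
    rwa [map_natCast] at h1
  have hinj : Function.Injective (algebraMap A κ) := by
    rw [IsScalarTower.algebraMap_eq A k κ]
    exact (algebraMap k κ).injective.comp (IsFractionRing.injective A k)
  have hϖ0 : algebraMap A κ ϖ ≠ 0 := by
    intro h
    exact hϖ.ne_zero (hinj (by rw [h, map_zero]))
  have hpow : (ρ / algebraMap A κ ϖ ^ β) ^ ℓ = algebraMap A κ t := by
    rw [div_pow, hρ, ← zpow_natCast (algebraMap A κ ϖ ^ β), ← zpow_mul, mul_comm β,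
      mul_div_cancel_right₀ _ (zpow_ne_zero _ hϖ0)]
  have hu : IsU V (ρ / algebraMap A κ ϖ ^ β) :=
    isU_of_pow hp (by rw [hpow]; exact isU_of_unit hVa ht)
  have h1 := ine_unit hp hℓU hσ hu ⟨algebraMap A k t, by
    rw [hpow, IsScalarTower.algebraMap_apply A k κ]⟩
  have h2 : σ (algebraMap A κ ϖ) = algebraMap A κ ϖ := by
    rw [IsScalarTower.algebraMap_apply A k κ, σ.commutes]
  rw [map_div₀, map_zpow₀, h2] at h1
  exact (div_left_inj' (zpow_ne_zero _ hϖ0)).1 h1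

/-- the branch points in the coordinate `T_b` are integral and distinct modulo the maximal ideal -/
theorem good_C {ℓ : ℕ} [Fact ℓ.Prime] {V : ValuationSubring κ} (hℓU : IsU V (ℓ : κ))
    {B C : Finset κ} {b : κ} (hb : b ∈ B) (hG : Good V B)
    (hC : ∀ θ, θ ∈ C ↔ ∃ e ∈ B, e ≠ b ∧ θ ^ ℓ = e - b) : Good V C := by
  have hp := (Fact.out : ℓ.Prime).pos
  have hU : ∀ θ ∈ C, IsU V θ := by
    intro θ hθ
    obtain ⟨e, he, hne, h⟩ := (hC θ).1 hθ
    exact isU_of_pow hp (by rw [h]; exact hG.2 e he b hb hne)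
  refine ⟨fun θ hθ => (hU θ hθ).2.1, fun θ hθ θ' hθ' hne => ?_⟩
  have h0 : θ - θ' ≠ 0 := sub_ne_zero.2 hne
  obtain ⟨e, he, hne1, h⟩ := (hC θ).1 hθ
  obtain ⟨e', he', hne2, h'⟩ := (hC θ').1 hθ'
  refine isU_of_not_nonunit (sub_mem (hU θ hθ).2.1 (hU θ' hθ').2.1) fun hnn => ?_
  by_cases hee : e = e'
  · subst hee
    have h1 : (θ / θ') ^ ℓ = 1 := by
      rw [div_pow, h, h', div_self]
      rw [← h']
      exact pow_ne_zero _ (hU θ' hθ').1
    have h2 : θ / θ' = 1 := by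
      refine root_eq hℓU hp h1 (one_pow _) ?_
      have h3 : θ - θ' = θ' * (θ / θ' - 1) := by
        rw [mul_sub, mul_one, mul_div_cancel₀ _ (hU θ' hθ').1]
      rw [h3] at hnn
      exact non_of_isU_mul (hU θ' hθ') hnn
    rw [div_eq_one_iff_eq (hU θ' hθ').1] at h2
    exact hne h2
  · have h1 : θ ^ ℓ - θ' ^ ℓ ∈ V.nonunits := by
      obtain ⟨c, hc⟩ : ∃ c ∈ V, θ ^ ℓ - θ' ^ ℓ = c * (θ - θ') := by
        have h2 := sub_dvd_pow_sub_pow (⟨θ, (hU θ hθ).2.1⟩ : V) ⟨θ', (hU θ' hθ').2.1⟩ ℓ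
        obtain ⟨c, hc⟩ := h2
        refine ⟨c, c.2, ?_⟩
        have h3 := congrArg (fun z : V => (z : κ)) hc
        rw [mul_comm]
        exact h3
      rw [hc.2]
      exact non_mul hc.1 hnn
    rw [h, h'] at h1
    have h2 : e - b - (e' - b) = e - e' := by ring
    rw [h2] at h1
    exact (hG.2 e he e' he' hee).not_nonunit h1

end val

end Pool.Agent.H93S
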