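import Pool.Agent.H93S.Locb

/-!
# Project SC: the local theorem when the branch points are rational, 2
-/

set_option autoImplicit false
set_option linter.all false

open Polynomial FF

namespace Pool.Agent.H93S

open Pool.Agent.Y157.PS Pool.Agent.Y948.PS Pool.Agent.Y31.PS Pool.Agent.R925.Q Pool.Agent.R925.X
  Pool.Agent.R925.L

/-- the elements fixed by a group of automorphisms -/
def fixS {G M : Type} [Group G] [Field M] (s : G →* RingAut M) : Subfield M where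
  carrier := {z | ∀ σ, s σ z = z}
  mul_mem' := fun {a b} ha hb σ => by rw [map_mul, ha σ, hb σ]
  one_mem' := fun σ => map_one _
  add_mem' := fun {a b} ha hb σ => by rw [map_add, ha σ, hb σ]
  zero_mem' := fun σ => map_zero _
  neg_mem' := fun {a} ha σ => by rw [map_neg, ha σ]
  inv_mem' := fun a ha σ => by rw [map_inv₀, ha σ]

/-- the automorphisms over the fixed field -/
noncomputable def fixHom {G M : Type} [Group G] [Field M] (s : G →* RingAut M) :
    G →* (M ≃ₐ[fixS s] M) where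
  toFun σ := AlgEquiv.ofRingEquiv (f := (s σ : M ≃+* M)) (fun c => c.2 σ)
  map_one' := by
    ext z
    change s 1 z = z
    rw [map_one]; rfl
  map_mul' σ τ := by
    ext z
    change s (σ * τ) z = s σ (s τ z)
    rw [map_mul]; rfl

theorem fixHom_apply {G M : Type} [Group G] [Field M] (s : G →* RingAut M) (σ : G) (z : M) :
    fixHom s σ z = s σ z := rfl

section nonu

variable {K : Type} [Field K] {W : ValuationSubring K}

theorem inv_add_non {u c : K} (hu : u⁻¹ ∈ W.nonunits) (hu0 : u ≠ 0) (hc : c ∈ W) :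
    (u + c)⁻¹ ∈ W.nonunits := by
  rw [ValuationSubring.mem_nonunits_iff] at hu ⊢
  rw [map_inv₀] at hu ⊢
  have hv : 0 < W.valuation u := (Valuation.pos_iff _).2 hu0
  have h1 : 1 < W.valuation u := (inv_lt_one₀ hv).1 hu
  have h2 : W.valuation c < W.valuation u := ((W.valuation_le_one_iff _).2 hc).trans_lt h1
  rw [Valuation.map_add_eq_of_lt_left _ h2]
  exact hu

theorem non_of_pow {u : K} {n : ℕ} (h : u ^ n ∈ W.nonunits) : u ∈ W.nonunits := by
  rw [ValuationSubring.mem_nonunits_iff] at h ⊢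
  rw [map_pow] at h
  by_contra hc
  exact absurd h (not_lt.2 (one_le_pow_of_one_le' (not_lt.1 hc) n))

theorem non_pow {u : K} (h : u ∈ W.nonunits) {n : ℕ} (hn : n ≠ 0) : u ^ n ∈ W.nonunits := by
  rw [ValuationSubring.mem_nonunits_iff] at h ⊢
  rw [map_pow]
  exact pow_lt_one' h hn

theorem isU_prod {κ : Type} [Field κ] [Algebra κ K] {t : K} (m : Multiset κ)
    (h : ∀ θ ∈ m, IsU W (t - algebraMap κ K θ)) :
    IsU W (m.map fun θ => t - algebraMap κ K θ).prod := by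
  induction m using Multiset.induction_on with
  | empty => rw [Multiset.map_zero, Multiset.prod_zero]; exact isU_one
  | cons a m ih =>
    rw [Multiset.map_cons, Multiset.prod_cons]
    exact (h a (Multiset.mem_cons_self a m)).mul (ih fun θ hθ => h θ (Multiset.mem_cons_of_mem hθ))

/-- a place above `t ^ n = c` is above one of the roots -/
theorem exists_root_non {κ : Type} [Field κ] [IsAlgClosed κ] [Algebra κ K] {t : K} {n : ℕ}
    (hn : 0 < n) (hκ : ∀ c : κ, algebraMap κ K c ∈ W) {c : κ}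
    (h : t ^ n - algebraMap κ K c ∈ W.nonunits) :
    ∃ θ : κ, θ ^ n = c ∧ t - algebraMap κ K θ ∈ W.nonunits := by
  have ht : t ∈ W := by
    have h1 : t ^ n ∈ W := by
      have h2 := add_mem (non_mem h) (hκ c)
      rwa [sub_add_cancel] at h2
    have h3 : IsIntegral W t := by
      apply IsIntegral.of_pow hn
      exact isIntegral_algebraMap (x := (⟨t ^ n, h1⟩ : W))
    obtain ⟨y, hy⟩ := IsIntegrallyClosed.isIntegral_iff.1 h3
    rw [← hy]
    exact y.2
  by_contra hno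
  push Not at hno
  let P : κ[X] := X ^ n - C c
  have hP0 : P ≠ 0 := X_pow_sub_C_ne_zero hn c
  have hsp := (IsAlgClosed.splits P).eq_prod_roots
  have hlc : P.leadingCoeff = 1 := leadingCoeff_X_pow_sub_C hn
  rw [hlc, C_1, one_mul] at hsp
  have h4 : aeval t P = t ^ n - algebraMap κ K c := by
    change aeval t (X ^ n - C c) = _
    rw [map_sub, map_pow, aeval_X, aeval_C]
  have h5 : aeval t P = (P.roots.map fun θ => t - algebraMap κ K θ).prod := by
    conv_lhs => rw [hsp]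
    rw [map_multiset_prod, Multiset.map_map]
    congr 1
    refine Multiset.map_congr rfl fun a _ => ?_
    simp
  have h6 : IsU W (P.roots.map fun θ => t - algebraMap κ K θ).prod := by
    refine isU_prod _ fun θ hθ => ?_
    refine isU_of_not_nonunit (sub_mem ht (hκ θ)) (hno θ ?_)
    rw [mem_roots hP0, IsRoot.def] at hθ
    have h7 : θ ^ n - c = 0 := by
      rw [← hθ]
      change _ = eval θ (X ^ n - C c)
      simp
    exact sub_eq_zero.1 h7
  rw [← h5, h4] at h6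
  exact h6.not_nonunit h

end nonu

theorem locb (hH : S_H90) (hCO : S_CO) : S_LOCB := by
  intro ℓ _ A k κ Ω _ _ _ _ _ _ _ _ _ _ _ _ _ _ _ _ V hℓ hVa hVm x B T M hF hG hBk s hs hx hmv
  classical
  have hℓp : ℓ.Prime := Fact.out
  have hℓ0 := hℓp.ne_zero
  have hkb : IsAlgClosed κ := IsAlgClosure.isAlgClosed k
  have hch : CharZero κ := charZero_of_injective_algebraMap (algebraMap k κ).injective
  have hR := hF.rad
  have hℓU : IsU V (ℓ : κ) := by
    have h1 := isU_of_unit (V := V) hVa hℓ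
    rwa [map_natCast] at h1
  obtain ⟨ϖ, hϖ⟩ := IsDiscreteValuationRing.exists_irreducible A
  have hxM := hF.x_mem hℓ0
  have hTM : ∀ e ∈ B, T e ∈ M := fun e he => hF.T_mem hℓ0 he
  have hT0 : ∀ e ∈ B, T e ≠ 0 := fun e he => hR.ne hℓ0 he
  have hTpow : ∀ e (he : e ∈ B), (⟨T e, hTM e he⟩ : M) ^ ℓ = ⟨x, hxM⟩ - algebraMap κ M e :=
    fun e he => Subtype.ext (hR.root e he)
  have hsfix : ∀ e (he : e ∈ B) σ,
      s σ ((⟨T e, hTM e he⟩ : M) ^ ℓ) = (⟨T e, hTM e he⟩ : M) ^ ℓ := by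
    intro e he σ
    obtain ⟨c, hc⟩ := hBk e he
    rw [hTpow e he, map_sub, hx σ _ rfl, hs.const, ← hc, σ.commutes]
  have hK : ∀ e (he : e ∈ B), ∃ ρ : κ, ρ ≠ 0 ∧
      (∀ σ, s σ ⟨T e, hTM e he⟩ = algebraMap κ M (σ ρ / ρ) * ⟨T e, hTM e he⟩) ∧
      ∃ a : k, ρ ^ ℓ = algebraMap k κ a := fun e he =>
    kummer hH hs (fun h => hT0 e he (congrArg Subtype.val h)) (hsfix e he)
  choose! ρ hρ0 hρs hρk using hK
  obtain ⟨b, hb, σ0, hσ0, z0, hz0, hne0⟩ := hmv
  have hz0' : z0 = ⟨T b, hTM b hb⟩ := Subtype.ext hz0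
  have hσρ : σ0 (ρ b) ≠ ρ b := by
    intro h
    apply hne0
    rw [hz0', hρs b hb, h, div_self (hρ0 b hb), map_one, one_mul]
  -- the valuations
  have hAk : ∀ (t : A) (n : ℤ), algebraMap k κ (algebraMap A k t * algebraMap A k ϖ ^ n) =
      algebraMap A κ t * algebraMap A κ ϖ ^ n := by
    intro t n
    rw [map_mul, map_zpow₀, ← IsScalarTower.algebraMap_apply, ← IsScalarTower.algebraMap_apply]
  obtain ⟨a, ha⟩ := hρk b hb
  have ha0 : a ≠ 0 := by
    rintro rfl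
    rw [map_zero] at ha
    exact pow_ne_zero _ (hρ0 b hb) ha
  obtain ⟨t, α, ht, hat⟩ := exists_unit_zpow (A := A) hϖ ha0
  have hρt : ρ b ^ ℓ = algebraMap A κ t * algebraMap A κ ϖ ^ α := by
    rw [ha, hat, hAk]
  have hα : ¬ (ℓ : ℤ) ∣ α := not_dvd hℓ hVa ht hϖ hρt hσ0 hσρ
  set δ : κ := ∏ e ∈ B.erase b, ρ e with hδ
  have hδ0 : δ ≠ 0 := Finset.prod_ne_zero_iff.2 fun e he => hρ0 e (Finset.mem_of_mem_erase he)
  obtain ⟨a', ha'⟩ : ∃ a' : k, δ ^ ℓ = algebraMap k κ a' := by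
    choose! r hr using hρk
    refine ⟨∏ e ∈ B.erase b, r e, ?_⟩
    rw [hδ, ← Finset.prod_pow, map_prod]
    exact Finset.prod_congr rfl fun e he => hr e (Finset.mem_of_mem_erase he)
  have ha'0 : a' ≠ 0 := by
    rintro rfl
    rw [map_zero] at ha'
    exact pow_ne_zero _ hδ0 ha'
  obtain ⟨t', β, ht', hat'⟩ := exists_unit_zpow (A := A) hϖ ha'0
  have hδt : δ ^ ℓ = algebraMap A κ t' * algebraMap A κ ϖ ^ β := by
    rw [ha', hat', hAk]
  have hdata : Data ℓ 1 A k κ V ϖ (ρ b) δ α β := by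
    refine ⟨le_refl 1, hℓ, hVa, hVm, hϖ, ?_, ⟨t, ht, ?_⟩, ⟨t', ht', hδt⟩⟩
    · rw [pow_one]; exact hα
    · rw [pow_one]; exact hρt
  -- the function `Y`
  set Y : Ω := ∏ e ∈ B.erase b, T e with hYdef
  have hY : Y * T b = ∏ e ∈ B, T e := Finset.prod_erase_mul _ _ hb
  obtain ⟨C, hCcard, hC0, hCmem, hCprod⟩ := hCO ℓ κ B b hb
  have hYC := hCprod Ω T x Y hR.root (hT0 b hb) hY
  have hTtr : Transcendental κ (T b) := by
    intro h
    apply hR.tr
    have h1 : x = T b ^ ℓ + algebraMap κ Ω b := by rw [hR.root b hb, sub_add_cancel]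
    rw [h1]
    exact (h.pow ℓ).add (isAlgebraic_algebraMap _)
  haveI hal1 := hR.alg
  have hal : Algebra.IsAlgebraic (IntermediateField.adjoin κ {T b}) Ω :=
    alg_adjoin (R := IntermediateField.adjoin κ {x}) (ratF_adj hR.tr) hTtr
  let R := IntermediateField.adjoin κ {T b}
  haveI hcl : IsAlgClosure R Ω := ⟨inferInstance, hal⟩
  have hrat : RatF κ (⟨T b, IntermediateField.mem_adjoin_simple_self κ (T b)⟩ : R) := ratF_adj hTtr
  let x' : R := ⟨T b, IntermediateField.mem_adjoin_simple_self κ (T b)⟩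
  obtain ⟨M', hM'⟩ : ∃ M' : IntermediateField R Ω,
      ∀ z, z ∈ M' ↔ z ∈ maxPro ℓ κ (KY κ (T b) Y) Ω :=
    ⟨(maxPro ℓ κ (KY κ (T b) Y) Ω).restrictScalars R, fun z => Iff.rfl⟩
  have hMM : ∀ z, z ∈ M' ↔ z ∈ M := fun z => (hM' z).trans (hF.mem b hb Y hY z).symm
  have hYM : Y ∈ M' := (hMM Y).2 (hF.Y_mem hb hY)
  have hCov : Cov ℓ κ R M' x' C ⟨Y, hYM⟩ :=
    a_cov ℓ κ R Ω x' hrat C ⟨B.card - 1, hCcard⟩ (by rw [hCcard]; exact hF.three) Y hYC M' hM'
      ⟨Y, hYM⟩ rfl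
  let eqv : M' ≃+* M :=
    { toFun := fun w => ⟨w.1, (hMM _).1 w.2⟩
      invFun := fun w => ⟨w.1, (hMM _).2 w.2⟩
      left_inv := fun w => rfl
      right_inv := fun w => rfl
      map_mul' := fun w w' => rfl
      map_add' := fun w w' => rfl }
  -- the local theorem
  have hGC : Good V C := good_C hℓU hb hG hCmem
  have hrot : ∀ ζ : κ, ζ ^ (ℓ ^ 1) = 1 → ∀ θ ∈ C, ζ * θ ∈ C := by
    intro ζ hζ θ hθ
    rw [pow_one] at hζ
    obtain ⟨e, he, hne, h⟩ := (hCmem θ).1 hθ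
    exact (hCmem _).2 ⟨e, he, hne, by rw [mul_pow, hζ, one_mul, h]⟩
  obtain ⟨F0, iF0, r, hr, ⟨D⟩⟩ := a_ndisc A k κ V hVa hVm ℓ hℓ
  have hkey : ∀ s' : (κ ≃ₐ[k] κ) →* RingAut M', Sec2 k κ R M' x' ⟨Y, hYM⟩ (ρ b) δ s' →
      Concl (Dec V) x' C s' := fun s' h => locR hdata hCov hGC hrot hC0 hr D h
  -- the fixed elements
  have hTbfix : (⟨T b, hTM b hb⟩ : M) / algebraMap κ M (ρ b) ∈ fixS s := by
    intro σ
    rw [map_div₀, hs.const, hρs b hb]
    have h1 : algebraMap κ M (ρ b) ≠ 0 := (_root_.map_ne_zero _).2 (hρ0 b hb)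
    have h2 : algebraMap κ M (σ (ρ b)) ≠ 0 :=
      (_root_.map_ne_zero _).2 ((_root_.map_ne_zero σ).2 (hρ0 b hb))
    rw [map_div₀]
    field_simp
  have hYs : ∀ σ, s σ ⟨Y, hF.Y_mem hb hY⟩ = algebraMap κ M (σ δ / δ) * ⟨Y, hF.Y_mem hb hY⟩ := by
    intro σ
    have h1 : (⟨Y, hF.Y_mem hb hY⟩ : M) =
        ∏ e ∈ (B.erase b).attach, (⟨T e.1, hTM e.1 (Finset.mem_of_mem_erase e.2)⟩ : M) := by
      apply (algebraMap M Ω).injective
      rw [map_prod]
      exact (Finset.prod_attach (B.erase b) T).symm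
    rw [h1, map_prod]
    rw [Finset.prod_congr rfl fun (e : {e // e ∈ B.erase b}) _ =>
      hρs e.1 (Finset.mem_of_mem_erase e.2) σ, Finset.prod_mul_distrib]
    congr 1
    rw [hδ, map_prod, ← Finset.prod_div_distrib, map_prod]
    exact Finset.prod_attach _ (fun e => algebraMap κ M (σ (ρ e) / ρ e))
  have hYfix : (⟨Y, hF.Y_mem hb hY⟩ : M) / algebraMap κ M δ ∈ fixS s := by
    intro σ
    rw [map_div₀, hs.const, hYs]
    have h1 : algebraMap κ M δ ≠ 0 := (_root_.map_ne_zero _).2 hδ0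
    have h2 : algebraMap κ M (σ δ) ≠ 0 :=
      (_root_.map_ne_zero _).2 ((_root_.map_ne_zero σ).2 hδ0)
    rw [map_div₀]
    field_simp
  have hαM : ∀ c : κ, eqv (algebraMap κ M' c) = algebraMap κ M c := fun c => rfl
  obtain ⟨W, ⟨h1, h2, h3', h4⟩, hun⟩ :=
    absR (R := R) (F := fixS s) x' C ⟨Y, hYM⟩ (hρ0 b hb) hδ0 hCov hkey eqv ⟨_, hTbfix⟩ ⟨_, hYfix⟩
      (by
        change (⟨T b, _⟩ : M) = algebraMap κ M (ρ b) * (⟨T b, _⟩ / algebraMap κ M (ρ b))
        rw [mul_div_cancel₀ _ ((_root_.map_ne_zero _).2 (hρ0 b hb))])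
      (by
        change (⟨Y, _⟩ : M) = algebraMap κ M δ * (⟨Y, _⟩ / algebraMap κ M δ)
        rw [mul_div_cancel₀ _ ((_root_.map_ne_zero _).2 hδ0)])
      (fixHom s) (fun z => hs.cont z) (fun σ c => hs.const σ c)
  have hρM : algebraMap κ M (ρ b) ≠ 0 := (_root_.map_ne_zero _).2 (hρ0 b hb)
  have htbM : (⟨T b, hTM b hb⟩ : M) ≠ 0 := fun h => hT0 b hb (congrArg Subtype.val h)
  have hxb0 : (⟨x, hxM⟩ : M) - algebraMap κ M b ≠ 0 := by
    rw [← hTpow b hb]
    exact pow_ne_zero _ htbM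
  refine ⟨W, ⟨h1, h2, ?_, fun σ hσ z => h4 σ hσ z⟩, fun W' b1 b2 b3 => hun W' b1 ?_ b3⟩
  · rcases h3' with h3' | h3'
    · have h5 : (⟨T b, hTM b hb⟩ : M) / algebraMap κ M (ρ b) ∈ W.nonunits := h3'
      have h6 : (⟨T b, hTM b hb⟩ : M) ∈ W.nonunits := by
        have h7 := non_mul (h1 (ρ b)) h5
        rwa [hαM, mul_div_cancel₀ _ hρM] at h7
      have h8 := non_pow h6 hℓ0
      rw [hTpow b hb] at h8
      exact ⟨_, h8, Or.inl ⟨b, hb, rfl⟩⟩
    · have h5 : ((⟨T b, hTM b hb⟩ : M) / algebraMap κ M (ρ b))⁻¹ ∈ W.nonunits := h3'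
      have h6 : (⟨T b, hTM b hb⟩ : M)⁻¹ ∈ W.nonunits := by
        have h7 := non_mul (h1 (ρ b)⁻¹) h5
        rw [hαM, map_inv₀, inv_div] at h7
        have h9 : (algebraMap κ M (ρ b))⁻¹ * (algebraMap κ M (ρ b) / (⟨T b, hTM b hb⟩ : M)) =
            (⟨T b, hTM b hb⟩ : M)⁻¹ := by
          field_simp
        rwa [h9] at h7
      have h8 := non_pow h6 hℓ0
      rw [inv_pow, hTpow b hb] at h8
      have h9 := inv_add_non h8 hxb0 (h1 b)
      rw [hαM, sub_add_cancel] at h9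
      exact ⟨_, h9, Or.inr rfl⟩
  · obtain ⟨z, hz, hz'⟩ := b2
    have hconv : ∀ c : κ, eqv (algebraMap κ M' c) = algebraMap κ M c := fun c => rfl
    rcases hz' with ⟨e, he, hze⟩ | hzx
    · have hze' : z = (⟨x, hxM⟩ : M) - algebraMap κ M e := Subtype.ext hze
      by_cases heb : e = b
      · left
        subst heb
        rw [hze', ← hTpow e he] at hz
        have h5 := non_of_pow hz
        have h6 := non_mul (b1 (ρ e)⁻¹) h5
        rw [map_inv₀, inv_mul_eq_div] at h6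
        exact h6
      · right; right
        have h5 : (⟨T b, hTM b hb⟩ : M) ^ ℓ - algebraMap κ M (e - b) = z := by
          rw [hze', hTpow b hb, map_sub]
          ring
        rw [← h5] at hz
        obtain ⟨θ, hθ, h6⟩ := exists_root_non hℓp.pos b1 hz
        exact ⟨θ, (hCmem θ).2 ⟨e, he, heb, hθ⟩, h6⟩
    · right; left
      have hzx' : z = (⟨x, hxM⟩ : M)⁻¹ := Subtype.ext hzx
      have hx0 : (⟨x, hxM⟩ : M) ≠ 0 := by
        intro h
        apply hR.tr
        have h5 : x = 0 := congrArg Subtype.val h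
        rw [h5]
        exact isAlgebraic_zero
      rw [hzx'] at hz
      have h5 := inv_add_non hz hx0 (neg_mem (b1 b))
      rw [← sub_eq_add_neg, ← hTpow b hb, ← inv_pow] at h5
      have h6 := non_of_pow h5
      have h7 := non_mul (b1 (ρ b)) h6
      have h8 : ((⟨T b, hTM b hb⟩ : M) / algebraMap κ M (ρ b))⁻¹ =
          algebraMap κ M (ρ b) * (⟨T b, hTM b hb⟩ : M)⁻¹ := by
        rw [inv_div, div_eq_mul_inv]
      change ((⟨T b, hTM b hb⟩ : M) / algebraMap κ M (ρ b))⁻¹ ∈ W'.nonunits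
      rw [h8]
      exact h7

end Pool.Agent.H93S
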