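import Pool.Agent.H93S.Max1

/-!
# Project SC, piece MAX: the maximal unramified pro-`ℓ` extension does not depend on the exponents
-/

set_option autoImplicit false
set_option linter.all false

open Polynomial FF

namespace Pool.Agent.H93S

open Pool.Agent.Y157.PS Pool.Agent.Y948.PS

namespace Mx

theorem ratF {κ Ω : Type} [Field κ] [Field Ω] [Algebra κ Ω] {X0 : Ω}
    (h : Transcendental κ X0) :
    RatF κ (⟨X0, IntermediateField.mem_adjoin_simple_self κ X0⟩ :
      IntermediateField.adjoin κ {X0}) := by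
  constructor
  · have h1 := transcendental_algebraMap_iff (R := κ)
      (algebraMap (IntermediateField.adjoin κ {X0}) Ω).injective
      (a := (⟨X0, IntermediateField.mem_adjoin_simple_self κ X0⟩ :
        IntermediateField.adjoin κ {X0}))
    exact h1.1 h
  · apply IntermediateField.map_injective (IntermediateField.adjoin κ {X0}).val
    rw [IntermediateField.adjoin_map, Set.image_singleton, ← AlgHom.fieldRange_eq_map,
      IntermediateField.fieldRange_val]
    rfl

section stab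

variable {R Ω : Type} [Field R] [Field Ω] [Algebra R Ω]

theorem stable {ℓ : ℕ} (hℓ0 : ℓ ≠ 0)
    (hμ : ∀ ζ : Ω, ζ ^ ℓ = 1 → ∃ c : R, algebraMap R Ω c = ζ)
    {S : Set Ω} (hS : ∀ s ∈ S, ∃ r : R, s ^ ℓ = algebraMap R Ω r) (γ : Ω ≃ₐ[R] Ω) {t : Ω}
    (ht : t ∈ IntermediateField.adjoin R S) : γ t ∈ IntermediateField.adjoin R S := by
  induction ht using IntermediateField.adjoin_induction with
  | mem y hy =>
    by_cases h0 : y = 0
    · rw [h0, map_zero]; exact zero_mem _
    obtain ⟨r, hr⟩ := hS y hy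
    obtain ⟨c, hc⟩ := hμ (γ y / y) (by
      rw [div_pow, ← map_pow, hr, γ.commutes, div_self]
      rw [← hr]; exact pow_ne_zero _ h0)
    have h2 : γ y = algebraMap R Ω c * y := by rw [hc, div_mul_cancel₀ _ h0]
    rw [h2]
    exact mul_mem (algebraMap_mem _ _) (IntermediateField.subset_adjoin R S hy)
  | algebraMap r => rw [γ.commutes]; exact algebraMap_mem _ _
  | add y w _ _ hy hw => rw [map_add]; exact add_mem hy hw
  | inv y _ hy => rw [map_inv₀]; exact inv_mem hy
  | mul y w _ _ hy hw => rw [map_mul]; exact mul_mem hy hw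

theorem fixed {ℓ : ℕ}
    (hμ : ∀ ζ : Ω, ζ ^ ℓ = 1 → ∃ c : R, algebraMap R Ω c = ζ)
    {S : Set Ω} (hS : ∀ s ∈ S, ∃ r : R, s ^ ℓ = algebraMap R Ω r) (γ : Ω ≃ₐ[R] Ω) {t : Ω}
    (ht : t ∈ IntermediateField.adjoin R S) : (γ ^ ℓ) t = t := by
  induction ht using IntermediateField.adjoin_induction with
  | mem y hy =>
    obtain ⟨r, hr⟩ := hS y hy
    exact root_fix hμ γ y (by rw [hr, γ.commutes])
  | algebraMap r => rw [(γ ^ ℓ).commutes]
  | add y w _ _ hy hw => rw [map_add, hy, hw]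
  | inv y _ hy => rw [map_inv₀, hy]
  | mul y w _ _ hy hw => rw [map_mul, hy, hw]

end stab

/-- values of `x - e` -/
theorem val_ne {Ω κ : Type} [Field Ω] [Field κ] [Algebra κ Ω] (W : ValuationSubring Ω)
    (hκ : ∀ c : κ, algebraMap κ Ω c ∈ W) {x : Ω} {a e : κ} (hae : a ≠ e)
    (h : W.valuation (x - algebraMap κ Ω a) < 1) :
    W.valuation (x - algebraMap κ Ω e) = 1 := by
  have h1 : W.valuation (algebraMap κ Ω (a - e)) = 1 := by
    rw [← isU_iff]
    refine ⟨?_, hκ _, ?_⟩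
    · rw [Ne, map_eq_zero]
      exact sub_ne_zero.2 hae
    · rw [← map_inv₀]; exact hκ _
  have h2 : x - algebraMap κ Ω e = algebraMap κ Ω (a - e) + (x - algebraMap κ Ω a) := by
    rw [map_sub]
    ring
  rw [h2, Valuation.map_add_eq_of_lt_left _ (by rw [h1]; exact h), h1]

theorem val_inf {Ω κ : Type} [Field Ω] [Field κ] [Algebra κ Ω] (W : ValuationSubring Ω)
    (hκ : ∀ c : κ, algebraMap κ Ω c ∈ W) {x : Ω} (hx : x ≠ 0) (e : κ)
    (h : W.valuation x⁻¹ < 1) :
    W.valuation (x - algebraMap κ Ω e) = (W.valuation x⁻¹)⁻¹ := by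
  have h0 : W.valuation x⁻¹ ≠ 0 := ((Valuation.pos_iff _).2 (inv_ne_zero hx)).ne'
  have h1 : W.valuation (algebraMap κ Ω e) < W.valuation x := by
    refine lt_of_le_of_lt ((W.valuation_le_one_iff _).2 (hκ e)) ?_
    rw [map_inv₀] at h
    exact (inv_lt_one₀ ((Valuation.pos_iff _).2 hx)).1 h
  rw [Valuation.map_sub_eq_of_lt_left _ h1, map_inv₀, inv_inv]

end Mx

open Mx in
theorem max (hUNI : S_UNI) : S_MAX := by
  intro ℓ _ κ Ω _ _ _ _ _ _ x B T hR L hL b hb Y hY z
  haveI := hR.alg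
  haveI : CharZero Ω := charZero_of_injective_algebraMap (algebraMap κ Ω).injective
  have hℓ0 : ℓ ≠ 0 := (Fact.out : ℓ.Prime).ne_zero
  have hrat := ratF hR.tr
  have hμ : ∀ ζ : Ω, ζ ^ ℓ = 1 →
      ∃ c : IntermediateField.adjoin κ {x}, algebraMap (IntermediateField.adjoin κ {x}) Ω c = ζ :=
    fun ζ => muR (κ := κ) hℓ0 ζ
  have hx0 : x ≠ 0 := by
    rintro rfl
    exact hR.tr isAlgebraic_zero
  have hTb : T b ≠ 0 := by
    intro h
    have h1 := hR.root b hb
    rw [h, zero_pow hℓ0] at h1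
    have h2 : x = algebraMap κ Ω b := (sub_eq_zero.1 h1.symm)
    exact hR.tr (h2 ▸ isAlgebraic_algebraMap b)
  have hS : ∀ s ∈ T '' (B : Set κ), ∃ r : IntermediateField.adjoin κ {x},
      s ^ ℓ = algebraMap (IntermediateField.adjoin κ {x}) Ω r := by
    rintro _ ⟨e, he, rfl⟩
    refine ⟨⟨x, IntermediateField.mem_adjoin_simple_self κ x⟩ -
      algebraMap κ (IntermediateField.adjoin κ {x}) e, ?_⟩
    rw [hR.root e he, map_sub, ← IsScalarTower.algebraMap_apply]
    rfl
  obtain ⟨K1, hK1⟩ : ∃ K1 : IntermediateField (IntermediateField.adjoin κ {x}) Ω,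
      K1 = IntermediateField.adjoin (IntermediateField.adjoin κ {x}) (T '' (B : Set κ)) :=
    ⟨_, rfl⟩
  have hst : ∀ γ : Ω ≃ₐ[IntermediateField.adjoin κ {x}] Ω, ∀ t ∈ K1, γ t ∈ K1 := by
    intro γ t ht
    rw [hK1] at ht ⊢
    exact stable hℓ0 hμ hS γ ht
  have hfix : ∀ γ : Ω ≃ₐ[IntermediateField.adjoin κ {x}] Ω, ∀ t ∈ K1, (γ ^ ℓ) t = t := by
    intro γ t ht
    rw [hK1] at ht
    exact fixed hμ hS γ ht
  have hT1 : ∀ e ∈ B, T e ∈ K1 := by
    intro e he
    rw [hK1]
    exact IntermediateField.subset_adjoin _ _ ⟨e, he, rfl⟩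
  have hκ1 : ∀ c : κ, algebraMap κ Ω c ∈ K1 := fun c => by
    rw [IsScalarTower.algebraMap_apply κ (IntermediateField.adjoin κ {x}) Ω]
    exact algebraMap_mem K1 _
  have hKκ : IntermediateField.adjoin κ (T '' (B : Set κ)) ≤ K1.restrictScalars κ := by
    rw [IntermediateField.adjoin_le_iff]
    rintro _ ⟨e, he, rfl⟩
    exact hT1 e he
  -- the field `L`
  have hxL : IntermediateField.adjoin κ {x} ≤ L := by
    rw [IntermediateField.adjoin_simple_le_iff]
    exact hL.mem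
  obtain ⟨L0, hL0⟩ : ∃ L0 : IntermediateField (IntermediateField.adjoin κ {x}) Ω,
      ∀ w, w ∈ L0 ↔ w ∈ L := ⟨IntermediateField.extendScalars hxL, fun w =>
        IntermediateField.mem_extendScalars hxL⟩
  have hL1 : L0 ≤ K1 := fun w hw => hKκ (hL.le ((hL0 w).1 hw))
  -- the field `KY`
  have hTKY : T b ∈ KY κ (T b) Y := algebraMap_mem (KY κ (T b) Y)
    (⟨T b, IntermediateField.mem_adjoin_simple_self κ (T b)⟩ : IntermediateField.adjoin κ {T b})
  have hxKY : IntermediateField.adjoin κ {x} ≤ (KY κ (T b) Y).restrictScalars κ := by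
    rw [IntermediateField.adjoin_simple_le_iff]
    have h1 : x = T b ^ ℓ + algebraMap κ Ω b := by
      rw [hR.root b hb]
      ring
    rw [h1]
    exact add_mem (pow_mem hTKY _) (algebraMap_mem ((KY κ (T b) Y).restrictScalars κ) b)
  obtain ⟨K0, hK0⟩ : ∃ K0 : IntermediateField (IntermediateField.adjoin κ {x}) Ω,
      ∀ w, w ∈ K0 ↔ w ∈ KY κ (T b) Y := ⟨IntermediateField.extendScalars hxKY, fun w =>
        IntermediateField.mem_extendScalars hxKY⟩
  have hK01 : K0 ≤ K1 := by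
    intro w hw
    rw [hK0] at hw
    induction hw using IntermediateField.adjoin_induction with
    | mem y hy =>
      rw [Set.mem_singleton_iff.1 hy]
      have h1 : Y = (∏ e ∈ B, T e) / T b := by
        rw [← hY, mul_div_cancel_right₀ _ hTb]
      rw [h1]
      exact div_mem (prod_mem fun e he => hT1 e he) (hT1 b hb)
    | algebraMap r =>
      have h1 : IntermediateField.adjoin κ {T b} ≤ K1.restrictScalars κ := by
        rw [IntermediateField.adjoin_simple_le_iff]
        exact hT1 b hb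
      exact h1 r.2
    | add y w _ _ hy hw => exact add_mem hy hw
    | inv y _ hy => exact inv_mem hy
    | mul y w _ _ hy hw => exact mul_mem hy hw
  -- uniformisers
  have hUK : ∀ W : ValuationSubring Ω, (∀ c : κ, algebraMap κ Ω c ∈ W) → W ≠ ⊤ →
      ∃ π ∈ K0, Unf K1 W π ∧
      ((∃ e ∈ B, W.valuation (x - algebraMap κ Ω e) = W.valuation π ^ ℓ) ∨
        (∃ a : κ, a ∉ B ∧ W.valuation (x - algebraMap κ Ω a) = W.valuation π) ∨
        W.valuation x⁻¹ = W.valuation π ^ ℓ) := by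
    intro W hκ hW
    obtain ⟨π, hπ, hc⟩ := hUNI ℓ κ Ω x B T hR b hb Y hY W hκ hW
    have hπ0 : Unf K0 W π := ⟨(hK0 _).2 hπ.mem, hπ.ne, hπ.lt, fun w hw => hπ.val w ((hK0 _).1 hw)⟩
    have hlt : W.valuation π ^ ℓ < 1 := pow_lt_one₀ zero_le hπ.lt hℓ0
    have hA : ∀ t ∈ K1, Apx K0 W t := by
      intro t ht
      rw [hK1] at ht
      induction ht using IntermediateField.adjoin_induction with
      | mem y hy =>
        obtain ⟨e, he, rfl⟩ := hy
        have h1 : T e ^ ℓ ∈ K0 := by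
          obtain ⟨r, hr⟩ := hS (T e) ⟨e, he, rfl⟩
          rw [hr]
          exact algebraMap_mem K0 r
        have h2 : ∃ m : ℤ, W.valuation (T e ^ ℓ) = W.valuation π ^ (ℓ * m : ℤ) := by
          rw [hR.root e he]
          rcases hc with ⟨e', he', h3⟩ | ⟨a, ha, h3⟩ | h3
          · by_cases h4 : e' = e
            · refine ⟨1, ?_⟩
              rw [← h4, h3, mul_one, zpow_natCast]
            · refine ⟨0, ?_⟩
              rw [mul_zero, zpow_zero]
              exact val_ne W hκ h4 (by rw [h3]; exact hlt)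
          · refine ⟨0, ?_⟩
            rw [mul_zero, zpow_zero]
            exact val_ne (a := a) W hκ (fun h => ha (by rw [h]; exact he)) (by rw [h3]; exact hπ.lt)
          · refine ⟨-1, ?_⟩
            rw [val_inf W hκ hx0 e (by rw [h3]; exact hlt), h3, mul_neg, mul_one, zpow_neg,
              zpow_natCast]
        obtain ⟨m, hm⟩ := h2
        exact Apx.root hπ0 (hres hrat K0 W hκ hW) hℓ0 (vl hℓ0 W hκ) (T e) (Apx.of_mem h1) m hm
      | algebraMap r => exact Apx.of_mem (algebraMap_mem K0 r)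
      | add y w _ _ hy hw => exact hy.add hw
      | inv y _ hy => exact hy.inv
      | mul y w _ _ hy hw => exact hy.mul hw
    exact ⟨π, hπ0.mem, ⟨hK01 hπ0.mem, hπ.ne, hπ.lt, fun w hw hw0 => (hA w hw).val' hπ0 hw0⟩, hc⟩
  have hUL : ∀ W : ValuationSubring Ω, (∀ c : κ, algebraMap κ Ω c ∈ W) → W ≠ ⊤ →
      ∃ π ∈ L0, Unf K1 W π := by
    intro W hκ hW
    obtain ⟨π, hπ0, hπ, hc⟩ := hUK W hκ hW
    have hlt : W.valuation π ^ ℓ < 1 := pow_lt_one₀ zero_le hπ.lt hℓ0
    have h1 : ∃ π' ∈ L, W.valuation π' = W.valuation π := by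
      rcases hc with ⟨e, he, h3⟩ | ⟨a, ha, h3⟩ | h3
      · have h4 : x - algebraMap κ Ω e ∈ W.nonunits := by
          rw [ValuationSubring.mem_nonunits_iff, h3]
          exact hlt
        obtain ⟨y, hy, h5⟩ := hL.fin W hκ e he h4
        refine ⟨y, hy, ?_⟩
        have h6 := (isU_iff W).1 h5
        rw [map_div₀, h3, div_eq_one_iff_eq (pow_ne_zero _ hπ.pos.ne'), map_pow] at h6
        exact (pow_left_inj₀ zero_le zero_le hℓ0).1 h6
      · exact ⟨x - algebraMap κ Ω a, sub_mem hL.mem (algebraMap_mem L a), h3⟩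
      · have h4 : x⁻¹ ∈ W.nonunits := by
          rw [ValuationSubring.mem_nonunits_iff, h3]
          exact hlt
        obtain ⟨y, hy, h5⟩ := hL.inf W hκ h4
        refine ⟨y, hy, ?_⟩
        have h6 := (isU_iff W).1 h5
        rw [map_mul, map_pow] at h6
        have h7 : W.valuation y ^ ℓ = W.valuation π ^ ℓ := by
          rw [← h3, map_inv₀]
          exact eq_inv_of_mul_eq_one_left h6
        exact (pow_left_inj₀ zero_le zero_le hℓ0).1 h7
    obtain ⟨π', hπ', hv⟩ := h1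
    refine ⟨π', (hL0 _).2 hπ', hKκ (hL.le hπ'), ?_, ?_, ?_⟩
    · rintro rfl
      rw [map_zero] at hv
      exact hπ.pos.ne hv
    · rw [hv]
      exact hπ.lt
    · intro w hw hw0
      rw [hv]
      exact hπ.val w hw hw0
  have hUK' : ∀ W : ValuationSubring Ω, (∀ c : κ, algebraMap κ Ω c ∈ W) → W ≠ ⊤ →
      ∃ π ∈ K0, Unf K1 W π := fun W hκ hW => by
    obtain ⟨π, h1, h2, _⟩ := hUK W hκ hW
    exact ⟨π, h1, h2⟩
  have hrL : ∀ w, w ∈ L0 ↔ ∃ k : L, algebraMap L Ω k = w := fun w => by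
    rw [hL0]
    exact ⟨fun h => ⟨⟨w, h⟩, rfl⟩, by rintro ⟨k, rfl⟩; exact k.2⟩
  have hrK : ∀ w, w ∈ K0 ↔ ∃ k : KY κ (T b) Y, algebraMap (KY κ (T b) Y) Ω k = w := fun w => by
    rw [hK0]
    exact ⟨fun h => ⟨⟨w, h⟩, rfl⟩, by rintro ⟨k, rfl⟩; exact k.2⟩
  constructor
  · intro h
    exact down K0 K1 hrK hK01 hst hfix hUK' (up hrat L0 K1 hrL hL1 hst hfix hUL h)
  · intro h
    exact down L0 K1 hrL hL1 hst hfix hUL (up hrat K0 K1 hrK hK01 hst hfix hUK' h)

end Pool.Agent.H93S
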