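import Pool.Agent.H93S.Stm

/-!
# Project SC, piece MAX, 1: `maxPro` of fields between `κ(x)` and `κ(T_b)`
-/

set_option autoImplicit false
set_option linter.all false

open Polynomial FF

namespace Pool.Agent.H93S

open Pool.Agent.Y157.PS Pool.Agent.Y948.PS

namespace Mx

section gen

variable {κ R Ω K : Type} [Field κ] [Field R] [Field Ω] [Field K] [Algebra κ R] [Algebra R Ω]
  [Algebra κ Ω] [IsScalarTower κ R Ω] [Algebra K Ω]

theorem proK1 {ℓ : ℕ} {K1 : IntermediateField R Ω} (hst : ∀ γ : Ω ≃ₐ[R] Ω, ∀ t ∈ K1, γ t ∈ K1)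
    (hfix : ∀ γ : Ω ≃ₐ[R] Ω, ∀ t ∈ K1, (γ ^ ℓ) t = t) {t : Ω} (ht : t ∈ K1) : Pro ℓ R t :=
  ⟨1, fun σ γ => by rw [pow_one]; exact hfix σ _ (hst γ t ht)⟩

/-- the field of the elements with `Mem`, over `K` -/
def MK (ℓ : ℕ) (κ : Type) [Field κ] [Algebra κ Ω] [Algebra.IsAlgebraic R Ω]
    (K1 : IntermediateField R Ω) (K : Type) [Field K] [Algebra K Ω]
    (h : ∀ k : K, Mem ℓ κ K1 (algebraMap K Ω k)) : IntermediateField K Ω :=
  { (MF ℓ κ K1).toSubfield with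
    algebraMap_mem' := h
    inv_mem' := fun a ha => (MF ℓ κ K1).inv_mem ha }

theorem mem_MK {ℓ : ℕ} [Algebra.IsAlgebraic R Ω] {K1 : IntermediateField R Ω}
    (h : ∀ k : K, Mem ℓ κ K1 (algebraMap K Ω k)) {z : Ω} :
    z ∈ MK ℓ κ K1 K h ↔ Mem ℓ κ K1 z := Iff.rfl

theorem up [IsAlgClosed κ] {ℓ : ℕ} [Fact ℓ.Prime] [Algebra.IsAlgebraic R Ω] {x : R}
    (hx : RatF κ x) (K0 K1 : IntermediateField R Ω)
    (hK0 : ∀ z, z ∈ K0 ↔ ∃ k : K, algebraMap K Ω k = z) (h01 : K0 ≤ K1)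
    (hst : ∀ γ : Ω ≃ₐ[R] Ω, ∀ t ∈ K1, γ t ∈ K1)
    (hfix : ∀ γ : Ω ≃ₐ[R] Ω, ∀ t ∈ K1, (γ ^ ℓ) t = t)
    (hU : ∀ W : ValuationSubring Ω, (∀ c : κ, algebraMap κ Ω c ∈ W) → W ≠ ⊤ →
      ∃ π ∈ K0, Unf K1 W π)
    {z : Ω} (hz : z ∈ maxPro ℓ κ K Ω) : Mem ℓ κ K1 z := by
  have hP1 : ∀ t ∈ K1, Mem ℓ κ K1 t := fun t ht =>
    ⟨proK1 hst hfix ht, fun W h1 h2 => Apx.of_mem ht⟩
  have hKK : ∀ k : K, algebraMap K Ω k ∈ K1 := fun k => h01 ((hK0 _).2 ⟨k, rfl⟩)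
  have hle : maxPro ℓ κ K Ω ≤ MK ℓ κ K1 K (fun k => hP1 _ (hKK k)) := by
    refine iSup_le ?_
    rintro ⟨L, hL, hLu⟩ y hy
    change Mem ℓ κ K1 y
    constructor
    · obtain ⟨a, ha⟩ := hL.card
      haveI := hL.fin
      haveI := hL.gal
      refine ⟨a + 1, fun σ γ => ?_⟩
      obtain ⟨τ, hτ⟩ : ∃ τ : Ω ≃ₐ[R] Ω, τ = γ⁻¹ * σ * γ := ⟨_, rfl⟩
      let τ' : Ω ≃ₐ[K] Ω := AlgEquiv.ofRingEquiv (f := (τ ^ ℓ).toRingEquiv)
        (fun k => hfix τ _ (hKK k))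
      have h3 : ∀ (j : ℕ) (w : Ω), (τ' ^ j) w = ((τ ^ ℓ) ^ j) w := by
        intro j
        induction j with
        | zero => intro w; simp
        | succ j ih =>
          intro w
          rw [pow_succ, AlgEquiv.mul_apply, ih, pow_succ, AlgEquiv.mul_apply]
          rfl
      have h4 : (AlgEquiv.restrictNormalHom L τ') ^ (ℓ ^ a) = 1 := by
        rw [← ha, ← IsGalois.card_aut_eq_finrank]
        exact pow_card_eq_one'
      rw [← map_pow] at h4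
      have h5 : (τ' ^ (ℓ ^ a)) y = y := by
        have := AlgEquiv.restrictNormal_commutes (τ' ^ (ℓ ^ a)) L ⟨y, hy⟩
        have h6 : (τ' ^ (ℓ ^ a)).restrictNormal L = 1 := h4
        rw [h6] at this
        exact this.symm
      rw [h3, ← pow_mul, ← pow_succ'] at h5
      have h7 : γ⁻¹ * σ ^ (ℓ ^ (a + 1)) * γ = τ ^ (ℓ ^ (a + 1)) := by
        rw [hτ]
        have := conj_pow (i := ℓ ^ (a + 1)) (a := γ⁻¹) (b := σ)
        rw [inv_inv] at this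
        exact this.symm
      rw [← h7] at h5
      have h8 : γ (γ⁻¹ ((σ ^ (ℓ ^ (a + 1))) (γ y))) = γ y := by
        congr 1
      have h9 : ∀ w, γ (γ⁻¹ w) = w := fun w => by
        rw [← AlgEquiv.mul_apply, mul_inv_cancel, AlgEquiv.one_apply]
      rwa [h9] at h8
    · intro W hκ hW
      obtain ⟨π, hπ0, hπ⟩ := hU W hκ hW
      have hπ' : Unf K0 W π := ⟨hπ0, hπ.ne, hπ.lt, fun z hz => hπ.val z (h01 hz)⟩
      have h1 : Apx K0 W y := by
        refine Apx.of_unr hπ' (hres hx K0 W hκ hW) L.toSubfield ?_ ?_ hy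
        · intro t ht
          obtain ⟨k, rfl⟩ := (hK0 t).1 ht
          exact L.algebraMap_mem k
        · intro w hw hw0
          obtain ⟨t, ht0, ht⟩ := hLu W hκ w hw hw0
          have ht0' : algebraMap K Ω t ≠ 0 := by simpa using ht0
          refine ⟨algebraMap K Ω t, (hK0 _).2 ⟨t, rfl⟩, ht0', ?_⟩
          have h1 := (isU_iff W).1 ht
          rw [map_div₀] at h1
          rwa [div_eq_one_iff_eq] at h1
          exact ((Valuation.pos_iff _).2 ht0').ne'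
      intro s hs hs0
      obtain ⟨n, hn⟩ := hπ.val s hs hs0
      obtain ⟨t, ht, h2⟩ := h1 (π ^ n) (zpow_mem hπ0 n) (zpow_ne_zero _ hπ.ne)
      refine ⟨t, h01 ht, ?_⟩
      rw [hn, ← map_zpow₀]
      exact h2
  exact hle hz

theorem exists_hom (h : ∀ r : R, ∃ k : K, algebraMap K Ω k = algebraMap R Ω r) :
    ∃ i : R →+* K, ∀ r, algebraMap K Ω (i r) = algebraMap R Ω r := by
  choose i hi using h
  have hinj := (algebraMap K Ω).injective
  exact ⟨{ toFun := i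
           map_one' := hinj (by rw [hi, map_one, map_one])
           map_mul' := fun a b => hinj (by rw [hi, map_mul, map_mul, hi, hi])
           map_zero' := hinj (by rw [hi, map_zero, map_zero])
           map_add' := fun a b => hinj (by rw [hi, map_add, map_add, hi, hi]) }, hi⟩

theorem down [IsAlgClosed κ] [CharZero κ] [IsAlgClosed Ω] {ℓ : ℕ} [Fact ℓ.Prime]
    [Algebra.IsAlgebraic R Ω] (K0 K1 : IntermediateField R Ω)
    (hK0 : ∀ z, z ∈ K0 ↔ ∃ k : K, algebraMap K Ω k = z) (h01 : K0 ≤ K1)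
    (hst : ∀ γ : Ω ≃ₐ[R] Ω, ∀ t ∈ K1, γ t ∈ K1)
    (hfix : ∀ γ : Ω ≃ₐ[R] Ω, ∀ t ∈ K1, (γ ^ ℓ) t = t)
    (hU : ∀ W : ValuationSubring Ω, (∀ c : κ, algebraMap κ Ω c ∈ W) → W ≠ ⊤ →
      ∃ π ∈ K0, Unf K1 W π)
    {z : Ω} (hz : Mem ℓ κ K1 z) : z ∈ maxPro ℓ κ K Ω := by
  have hP1 : ∀ t ∈ K1, Mem ℓ κ K1 t := fun t ht =>
    ⟨proK1 hst hfix ht, fun W h1 h2 => Apx.of_mem ht⟩
  have hKK : ∀ k : K, algebraMap K Ω k ∈ K1 := fun k => h01 ((hK0 _).2 ⟨k, rfl⟩)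
  obtain ⟨i, hi⟩ := exists_hom (R := R) (K := K) (Ω := Ω)
    (fun r => (hK0 _).1 (algebraMap_mem K0 r))
  letI : Algebra R K := i.toAlgebra
  haveI : IsScalarTower R K Ω := IsScalarTower.of_algebraMap_eq fun r => (hi r).symm
  haveI : CharZero Ω := charZero_of_injective_algebraMap (algebraMap κ Ω).injective
  haveI : CharZero K := ⟨fun m n h => by
    have := congrArg (algebraMap K Ω) h
    simpa using this⟩
  haveI : Algebra.IsAlgebraic K Ω := Algebra.IsAlgebraic.tower_top (K := R) K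
  haveI : IsAlgClosure K Ω := ⟨inferInstance, inferInstance⟩
  haveI : Normal K Ω := IsAlgClosure.normal K Ω
  have hres : ∀ (σ : Ω ≃ₐ[K] Ω) (j : ℕ) (w : Ω), (σ ^ j) w = ((σ.restrictScalars R) ^ j) w := by
    intro σ j
    induction j with
    | zero => intro w; simp
    | succ j ih =>
      intro w
      rw [pow_succ, AlgEquiv.mul_apply, ih, pow_succ, AlgEquiv.mul_apply]
      rfl
  obtain ⟨N, hzN, hNS, hN⟩ := exists_lev (ℓ := ℓ) (MK ℓ κ K1 K (fun k => hP1 _ (hKK k)))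
    (fun σ y hy => Mem.conj (κ := κ) hst ((mem_MK _).1 hy) (σ.restrictScalars R))
    (fun θ hθ σ => by
      obtain ⟨k, hk⟩ := ((mem_MK _).1 hθ).1
      refine ⟨k, ?_⟩
      rw [hres]
      exact hk (σ.restrictScalars R) 1)
    ((mem_MK _).2 hz)
  have hNu : Unr κ K Ω N := by
    intro W hκ w hw hw0
    by_cases hW : W = ⊤
    · refine ⟨1, one_ne_zero, ?_, ?_, ?_⟩
      · rw [map_one, div_one]; exact hw0
      · rw [hW]; trivial
      · rw [hW]; trivial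
    · obtain ⟨π, hπ0, hπ⟩ := hU W hκ hW
      obtain ⟨n, hn⟩ := (((mem_MK _).1 (hNS hw)).2 W hκ hW).val' hπ hw0
      obtain ⟨t, ht⟩ := (hK0 (π ^ n)).1 (zpow_mem hπ0 n)
      have ht0 : π ^ n ≠ 0 := zpow_ne_zero _ hπ.ne
      refine ⟨t, fun h => ht0 (by rw [← ht, h, map_zero]), ?_⟩
      rw [isU_iff, ht, map_div₀, hn, map_zpow₀, div_self]
      exact zpow_ne_zero _ hπ.pos.ne'
  have h3 : N ≤ maxPro ℓ κ K Ω :=
    le_iSup (fun L : {L : IntermediateField K Ω // Lev ℓ L ∧ Unr κ K Ω L} => L.1) ⟨N, hN, hNu⟩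
  exact h3 hzN

end gen

end Mx

end Pool.Agent.H93S
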