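import Pool.Agent.H93S.Max

/-!
# Project SC: the maximal unramified pro-`ℓ` extension of an arbitrary uniformly ramified cover
-/

set_option autoImplicit false
set_option linter.all false

open Polynomial FF

namespace Pool.Agent.H93S

open Pool.Agent.Y157.PS Pool.Agent.Y948.PS

/-- `L ∋ x` is an extension of `κ(x)` whose Galois closure has exponent `ℓ ^ m`, with ramification
index `ℓ` at all places above `x = b ∈ B` and above `x = ∞`, and unramified elsewhere -/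
structure Uf (ℓ : ℕ) {κ Ω : Type} [Field κ] [Field Ω] [Algebra κ Ω] (x : Ω) (B : Finset κ)
    (L : IntermediateField κ Ω) : Prop where
  mem : x ∈ L
  exp : ∃ m : ℕ, ∀ (γ δ : Ω ≃ₐ[IntermediateField.adjoin κ {x}] Ω), ∀ t ∈ L,
    (γ ^ ℓ ^ m) (δ t) = δ t
  unif : ∀ W : ValuationSubring Ω, (∀ c : κ, algebraMap κ Ω c ∈ W) → W ≠ ⊤ →
    ∃ π ∈ L, π ≠ 0 ∧ W.valuation π < 1 ∧
      (∀ z ∈ L, z ≠ 0 → ∃ n : ℤ, W.valuation z = W.valuation π ^ n) ∧
      ((∃ e ∈ B, W.valuation (x - algebraMap κ Ω e) = W.valuation π ^ ℓ) ∨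
        (∃ a : κ, a ∉ B ∧ W.valuation (x - algebraMap κ Ω a) = W.valuation π) ∨
        W.valuation x⁻¹ = W.valuation π ^ ℓ)

namespace Mx

section gen

variable {κ R Ω K : Type} [Field κ] [Field R] [Field Ω] [Field K] [Algebra κ R] [Algebra R Ω]
  [Algebra κ Ω] [IsScalarTower κ R Ω] [Algebra K Ω]

/-- the subfield of the elements with approximations -/
def ApxF [Algebra.IsAlgebraic R Ω] (K0 : IntermediateField R Ω) (W : ValuationSubring Ω) :
    Subfield Ω where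
  carrier := {z | Apx K0 W z}
  mul_mem' := fun ha hb => Apx.mul ha hb
  one_mem' := Apx.of_mem (one_mem _)
  add_mem' := fun ha hb => Apx.add ha hb
  zero_mem' := Apx.of_mem (zero_mem _)
  neg_mem' := by
    intro a ha
    have h1 := (Apx.of_mem (K0 := K0) (W := W) (neg_mem (one_mem K0))).mul ha
    rwa [neg_one_mul] at h1
  inv_mem' := fun a ha => Apx.inv ha

theorem up2 [IsAlgClosed κ] {ℓ : ℕ} [Fact ℓ.Prime] [Algebra.IsAlgebraic R Ω] {x : R}
    (hx : RatF κ x) (K0 K1 : IntermediateField R Ω)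
    (hK0 : ∀ z, z ∈ K0 ↔ ∃ k : K, algebraMap K Ω k = z) (m : ℕ)
    (hexp : ∀ γ : Ω ≃ₐ[R] Ω, ∀ t ∈ K0, (γ ^ ℓ ^ m) t = t)
    (hA : ∀ t ∈ K0, Mem ℓ κ K1 t)
    (hU : ∀ W : ValuationSubring Ω, (∀ c : κ, algebraMap κ Ω c ∈ W) → W ≠ ⊤ →
      ∃ π π₁ : Ω, Unf K0 W π ∧ Unf K1 W π₁ ∧ W.valuation π = W.valuation π₁)
    {z : Ω} (hz : z ∈ maxPro ℓ κ K Ω) : Mem ℓ κ K1 z := by
  have hle : maxPro ℓ κ K Ω ≤ MK ℓ κ K1 K (fun k => hA _ ((hK0 _).2 ⟨k, rfl⟩)) := by
    refine iSup_le ?_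
    rintro ⟨L, hL, hLu⟩ y hy
    change Mem ℓ κ K1 y
    constructor
    · obtain ⟨a, ha⟩ := hL.card
      haveI := hL.fin
      haveI := hL.gal
      refine ⟨m + a, fun σ γ => ?_⟩
      obtain ⟨τ, hτ⟩ : ∃ τ : Ω ≃ₐ[R] Ω, τ = γ⁻¹ * σ * γ := ⟨_, rfl⟩
      let τ' : Ω ≃ₐ[K] Ω := AlgEquiv.ofRingEquiv (f := (τ ^ ℓ ^ m).toRingEquiv)
        (fun k => hexp τ _ ((hK0 _).2 ⟨k, rfl⟩))
      have h3 : ∀ (j : ℕ) (w : Ω), (τ' ^ j) w = ((τ ^ ℓ ^ m) ^ j) w := by
        intro j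
        induction j with
        | zero => intro w; simp
        | succ j ih =>
          intro w
          rw [pow_succ, AlgEquiv.mul_apply, ih, pow_succ, AlgEquiv.mul_apply]
          rfl
      have h4 : (AlgEquiv.restrictNormalHom L τ') ^ (ℓ ^ a) = 1 := by
        rw [← ha, ← IsGalois.card_aut_eq_finrank]
        exact pow_card_eq_one'
      rw [← map_pow] at h4
      have h5 : (τ' ^ (ℓ ^ a)) y = y := by
        have := AlgEquiv.restrictNormal_commutes (τ' ^ (ℓ ^ a)) L ⟨y, hy⟩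
        have h6 : (τ' ^ (ℓ ^ a)).restrictNormal L = 1 := h4
        rw [h6] at this
        exact this.symm
      rw [h3, ← pow_mul, ← pow_add] at h5
      have h7 : γ⁻¹ * σ ^ (ℓ ^ (m + a)) * γ = τ ^ (ℓ ^ (m + a)) := by
        rw [hτ]
        have := conj_pow (i := ℓ ^ (m + a)) (a := γ⁻¹) (b := σ)
        rw [inv_inv] at this
        exact this.symm
      rw [← h7] at h5
      have h8 : γ (γ⁻¹ ((σ ^ (ℓ ^ (m + a))) (γ y))) = γ y := by
        congr 1
      have h9 : ∀ w, γ (γ⁻¹ w) = w := fun w => by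
        rw [← AlgEquiv.mul_apply, mul_inv_cancel, AlgEquiv.one_apply]
      rwa [h9] at h8
    · intro W hκ hW
      obtain ⟨π, π₁, hπ, hπ₁, hv⟩ := hU W hκ hW
      have h1 : Apx K0 W y := by
        refine Apx.of_unr hπ (hres hx K0 W hκ hW) L.toSubfield ?_ ?_ hy
        · intro t ht
          obtain ⟨k, rfl⟩ := (hK0 t).1 ht
          exact L.algebraMap_mem k
        · intro w hw hw0
          obtain ⟨t, ht0, ht⟩ := hLu W hκ w hw hw0
          have ht0' : algebraMap K Ω t ≠ 0 := by simpa using ht0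
          refine ⟨algebraMap K Ω t, (hK0 _).2 ⟨t, rfl⟩, ht0', ?_⟩
          have h1 := (isU_iff W).1 ht
          rw [map_div₀] at h1
          rwa [div_eq_one_iff_eq] at h1
          exact ((Valuation.pos_iff _).2 ht0').ne'
      intro s hs hs0
      obtain ⟨n, hn⟩ := hπ₁.val s hs hs0
      obtain ⟨t, ht, h2⟩ := h1 (π ^ n) (zpow_mem hπ.mem n) (zpow_ne_zero _ hπ.ne)
      obtain ⟨t₁, ht₁, h3⟩ := (hA t ht).2 W hκ hW s hs hs0
      refine ⟨t₁, ht₁, ?_⟩
      have h4 : y - t₁ = (y - t) + (t - t₁) := by ring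
      rw [h4]
      refine (Valuation.map_add _ _ _).trans (max_le ?_ h3)
      rw [hn, ← hv, ← map_zpow₀]
      exact h2
  exact hle hz

theorem down2 [IsAlgClosed κ] [CharZero κ] [IsAlgClosed Ω] {ℓ : ℕ} [Fact ℓ.Prime]
    [Algebra.IsAlgebraic R Ω] (K0 K1 : IntermediateField R Ω)
    (hK0 : ∀ z, z ∈ K0 ↔ ∃ k : K, algebraMap K Ω k = z)
    (hA : ∀ t ∈ K0, Mem ℓ κ K1 t)
    (hst : ∀ γ : Ω ≃ₐ[R] Ω, ∀ t ∈ K1, γ t ∈ K1)
    (hU : ∀ W : ValuationSubring Ω, (∀ c : κ, algebraMap κ Ω c ∈ W) → W ≠ ⊤ →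
      ∃ π π₁ : Ω, Unf K0 W π ∧ Unf K1 W π₁ ∧ W.valuation π = W.valuation π₁)
    {z : Ω} (hz : Mem ℓ κ K1 z) : z ∈ maxPro ℓ κ K Ω := by
  have hKK : ∀ k : K, Mem ℓ κ K1 (algebraMap K Ω k) := fun k => hA _ ((hK0 _).2 ⟨k, rfl⟩)
  obtain ⟨i, hi⟩ := exists_hom (R := R) (K := K) (Ω := Ω)
    (fun r => (hK0 _).1 (algebraMap_mem K0 r))
  letI : Algebra R K := i.toAlgebra
  haveI : IsScalarTower R K Ω := IsScalarTower.of_algebraMap_eq fun r => (hi r).symm
  haveI : CharZero Ω := charZero_of_injective_algebraMap (algebraMap κ Ω).injective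
  haveI : CharZero K := ⟨fun m n h => by
    have := congrArg (algebraMap K Ω) h
    simpa using this⟩
  haveI : Algebra.IsAlgebraic K Ω := Algebra.IsAlgebraic.tower_top (K := R) K
  haveI : IsAlgClosure K Ω := ⟨inferInstance, inferInstance⟩
  haveI : Normal K Ω := IsAlgClosure.normal K Ω
  have hres : ∀ (σ : Ω ≃ₐ[K] Ω) (j : ℕ) (w : Ω), (σ ^ j) w = ((σ.restrictScalars R) ^ j) w := by
    intro σ j
    induction j with
    | zero => intro w; simp
    | succ j ih =>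
      intro w
      rw [pow_succ, AlgEquiv.mul_apply, ih, pow_succ, AlgEquiv.mul_apply]
      rfl
  obtain ⟨N, hzN, hNS, hN⟩ := exists_lev (ℓ := ℓ) (MK ℓ κ K1 K hKK)
    (fun σ y hy => Mem.conj (κ := κ) hst ((mem_MK _).1 hy) (σ.restrictScalars R))
    (fun θ hθ σ => by
      obtain ⟨k, hk⟩ := ((mem_MK _).1 hθ).1
      refine ⟨k, ?_⟩
      rw [hres]
      exact hk (σ.restrictScalars R) 1)
    ((mem_MK _).2 hz)
  have hNu : Unr κ K Ω N := by
    intro W hκ w hw hw0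
    by_cases hW : W = ⊤
    · refine ⟨1, one_ne_zero, ?_, ?_, ?_⟩
      · rw [map_one, div_one]; exact hw0
      · rw [hW]; trivial
      · rw [hW]; trivial
    · obtain ⟨π, π₁, hπ, hπ₁, hv⟩ := hU W hκ hW
      obtain ⟨n, hn⟩ := (((mem_MK _).1 (hNS hw)).2 W hκ hW).val' hπ₁ hw0
      obtain ⟨t, ht⟩ := (hK0 (π ^ n)).1 (zpow_mem hπ.mem n)
      have ht0 : π ^ n ≠ 0 := zpow_ne_zero _ hπ.ne
      refine ⟨t, fun h => ht0 (by rw [← ht, h, map_zero]), ?_⟩
      rw [isU_iff, ht, map_div₀, hn, map_zpow₀, hv, div_self]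
      exact zpow_ne_zero _ hπ₁.pos.ne'
  have h3 : N ≤ maxPro ℓ κ K Ω :=
    le_iSup (fun L : {L : IntermediateField K Ω // Lev ℓ L ∧ Unr κ K Ω L} => L.1) ⟨N, hN, hNu⟩
  exact h3 hzN

end gen

end Mx

open Mx in
theorem max2 (hUNI : S_UNI) {ℓ : ℕ} [Fact ℓ.Prime] {κ Ω : Type} [Field κ] [IsAlgClosed κ]
    [CharZero κ] [Field Ω] [IsAlgClosed Ω] [Algebra κ Ω] {x : Ω} {B : Finset κ} {T : κ → Ω}
    (hR : Rad ℓ x B T) {L : IntermediateField κ Ω} (hL : Uf ℓ x B L) {b : κ} (hb : b ∈ B) {Y : Ω}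
    (hY : Y * T b = ∏ e ∈ B, T e) (z : Ω) :
    z ∈ maxPro ℓ κ L Ω ↔ z ∈ maxPro ℓ κ (KY κ (T b) Y) Ω := by
  haveI := hR.alg
  haveI : CharZero Ω := charZero_of_injective_algebraMap (algebraMap κ Ω).injective
  have hℓ0 : ℓ ≠ 0 := (Fact.out : ℓ.Prime).ne_zero
  have hrat := ratF hR.tr
  have hμ : ∀ ζ : Ω, ζ ^ ℓ = 1 →
      ∃ c : IntermediateField.adjoin κ {x}, algebraMap (IntermediateField.adjoin κ {x}) Ω c = ζ :=
    fun ζ => muR (κ := κ) hℓ0 ζ
  have hx0 : x ≠ 0 := by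
    rintro rfl
    exact hR.tr isAlgebraic_zero
  have hTb : T b ≠ 0 := by
    intro h
    have h1 := hR.root b hb
    rw [h, zero_pow hℓ0] at h1
    have h2 : x = algebraMap κ Ω b := (sub_eq_zero.1 h1.symm)
    exact hR.tr (h2 ▸ isAlgebraic_algebraMap b)
  have hS : ∀ s ∈ T '' (B : Set κ), ∃ r : IntermediateField.adjoin κ {x},
      s ^ ℓ = algebraMap (IntermediateField.adjoin κ {x}) Ω r := by
    rintro _ ⟨e, he, rfl⟩
    refine ⟨⟨x, IntermediateField.mem_adjoin_simple_self κ x⟩ -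
      algebraMap κ (IntermediateField.adjoin κ {x}) e, ?_⟩
    rw [hR.root e he, map_sub, ← IsScalarTower.algebraMap_apply]
    rfl
  obtain ⟨K1, hK1⟩ : ∃ K1 : IntermediateField (IntermediateField.adjoin κ {x}) Ω,
      K1 = IntermediateField.adjoin (IntermediateField.adjoin κ {x}) (T '' (B : Set κ)) :=
    ⟨_, rfl⟩
  have hst : ∀ γ : Ω ≃ₐ[IntermediateField.adjoin κ {x}] Ω, ∀ t ∈ K1, γ t ∈ K1 := by
    intro γ t ht
    rw [hK1] at ht ⊢
    exact stable hℓ0 hμ hS γ ht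
  have hfix : ∀ γ : Ω ≃ₐ[IntermediateField.adjoin κ {x}] Ω, ∀ t ∈ K1, (γ ^ ℓ) t = t := by
    intro γ t ht
    rw [hK1] at ht
    exact fixed hμ hS γ ht
  have hT1 : ∀ e ∈ B, T e ∈ K1 := by
    intro e he
    rw [hK1]
    exact IntermediateField.subset_adjoin _ _ ⟨e, he, rfl⟩
  have hκ1 : ∀ c : κ, algebraMap κ Ω c ∈ K1 := fun c => by
    rw [IsScalarTower.algebraMap_apply κ (IntermediateField.adjoin κ {x}) Ω]
    exact algebraMap_mem K1 _
  have hKκ : IntermediateField.adjoin κ (T '' (B : Set κ)) ≤ K1.restrictScalars κ := by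
    rw [IntermediateField.adjoin_le_iff]
    rintro _ ⟨e, he, rfl⟩
    exact hT1 e he
  -- the field `L`
  have hxL : IntermediateField.adjoin κ {x} ≤ L := by
    rw [IntermediateField.adjoin_simple_le_iff]
    exact hL.mem
  obtain ⟨L0, hL0⟩ : ∃ L0 : IntermediateField (IntermediateField.adjoin κ {x}) Ω,
      ∀ w, w ∈ L0 ↔ w ∈ L := ⟨IntermediateField.extendScalars hxL, fun w =>
        IntermediateField.mem_extendScalars hxL⟩
  -- the field `KY`
  have hTKY : T b ∈ KY κ (T b) Y := algebraMap_mem (KY κ (T b) Y)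
    (⟨T b, IntermediateField.mem_adjoin_simple_self κ (T b)⟩ : IntermediateField.adjoin κ {T b})
  have hxKY : IntermediateField.adjoin κ {x} ≤ (KY κ (T b) Y).restrictScalars κ := by
    rw [IntermediateField.adjoin_simple_le_iff]
    have h1 : x = T b ^ ℓ + algebraMap κ Ω b := by
      rw [hR.root b hb]
      ring
    rw [h1]
    exact add_mem (pow_mem hTKY _) (algebraMap_mem ((KY κ (T b) Y).restrictScalars κ) b)
  obtain ⟨K0, hK0⟩ : ∃ K0 : IntermediateField (IntermediateField.adjoin κ {x}) Ω,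
      ∀ w, w ∈ K0 ↔ w ∈ KY κ (T b) Y := ⟨IntermediateField.extendScalars hxKY, fun w =>
        IntermediateField.mem_extendScalars hxKY⟩
  have hK01 : K0 ≤ K1 := by
    intro w hw
    rw [hK0] at hw
    induction hw using IntermediateField.adjoin_induction with
    | mem y hy =>
      rw [Set.mem_singleton_iff.1 hy]
      have h1 : Y = (∏ e ∈ B, T e) / T b := by
        rw [← hY, mul_div_cancel_right₀ _ hTb]
      rw [h1]
      exact div_mem (prod_mem fun e he => hT1 e he) (hT1 b hb)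
    | algebraMap r =>
      have h1 : IntermediateField.adjoin κ {T b} ≤ K1.restrictScalars κ := by
        rw [IntermediateField.adjoin_simple_le_iff]
        exact hT1 b hb
      exact h1 r.2
    | add y w _ _ hy hw => exact add_mem hy hw
    | inv y _ hy => exact inv_mem hy
    | mul y w _ _ hy hw => exact mul_mem hy hw
  -- uniformisers
  have hUK : ∀ W : ValuationSubring Ω, (∀ c : κ, algebraMap κ Ω c ∈ W) → W ≠ ⊤ →
      ∃ π ∈ K0, Unf K1 W π ∧
      ((∃ e ∈ B, W.valuation (x - algebraMap κ Ω e) = W.valuation π ^ ℓ) ∨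
        (∃ a : κ, a ∉ B ∧ W.valuation (x - algebraMap κ Ω a) = W.valuation π) ∨
        W.valuation x⁻¹ = W.valuation π ^ ℓ) := by
    intro W hκ hW
    obtain ⟨π, hπ, hc⟩ := hUNI ℓ κ Ω x B T hR b hb Y hY W hκ hW
    have hπ0 : Unf K0 W π := ⟨(hK0 _).2 hπ.mem, hπ.ne, hπ.lt, fun w hw => hπ.val w ((hK0 _).1 hw)⟩
    have hlt : W.valuation π ^ ℓ < 1 := pow_lt_one₀ zero_le hπ.lt hℓ0
    have hA : ∀ t ∈ K1, Apx K0 W t := by
      intro t ht
      rw [hK1] at ht
      induction ht using IntermediateField.adjoin_induction with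
      | mem y hy =>
        obtain ⟨e, he, rfl⟩ := hy
        have h1 : T e ^ ℓ ∈ K0 := by
          obtain ⟨r, hr⟩ := hS (T e) ⟨e, he, rfl⟩
          rw [hr]
          exact algebraMap_mem K0 r
        have h2 : ∃ m : ℤ, W.valuation (T e ^ ℓ) = W.valuation π ^ (ℓ * m : ℤ) := by
          rw [hR.root e he]
          rcases hc with ⟨e', he', h3⟩ | ⟨a, ha, h3⟩ | h3
          · by_cases h4 : e' = e
            · refine ⟨1, ?_⟩
              rw [← h4, h3, mul_one, zpow_natCast]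
            · refine ⟨0, ?_⟩
              rw [mul_zero, zpow_zero]
              exact val_ne W hκ h4 (by rw [h3]; exact hlt)
          · refine ⟨0, ?_⟩
            rw [mul_zero, zpow_zero]
            exact val_ne (a := a) W hκ (fun h => ha (by rw [h]; exact he)) (by rw [h3]; exact hπ.lt)
          · refine ⟨-1, ?_⟩
            rw [val_inf W hκ hx0 e (by rw [h3]; exact hlt), h3, mul_neg, mul_one, zpow_neg,
              zpow_natCast]
        obtain ⟨m, hm⟩ := h2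
        exact Apx.root hπ0 (hres hrat K0 W hκ hW) hℓ0 (vl hℓ0 W hκ) (T e) (Apx.of_mem h1) m hm
      | algebraMap r => exact Apx.of_mem (algebraMap_mem K0 r)
      | add y w _ _ hy hw => exact hy.add hw
      | inv y _ hy => exact hy.inv
      | mul y w _ _ hy hw => exact hy.mul hw
    exact ⟨π, hπ0.mem, ⟨hK01 hπ0.mem, hπ.ne, hπ.lt, fun w hw hw0 => (hA w hw).val' hπ0 hw0⟩, hc⟩
  -- the values of uniformisers of `L` and `K1`
  have hlt1 : ∀ (W : ValuationSubring Ω) {π : Ω}, W.valuation π < 1 → W.valuation π ^ ℓ < 1 :=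
    fun W π h => pow_lt_one₀ zero_le h hℓ0
  have hUL : ∀ W : ValuationSubring Ω, (∀ c : κ, algebraMap κ Ω c ∈ W) → W ≠ ⊤ →
      ∃ π π₁ : Ω, Unf L0 W π ∧ Unf K1 W π₁ ∧ W.valuation π = W.valuation π₁ ∧
        ∀ t ∈ K1, Apx L0 W t := by
    intro W hκ hW
    obtain ⟨π₁, hπ₁0, hπ₁, hc₁⟩ := hUK W hκ hW
    obtain ⟨π, hπL, hπne, hπlt, hπval, hc⟩ := hL.unif W hκ hW
    have hπ : Unf L0 W π := ⟨(hL0 _).2 hπL, hπne, hπlt, fun w hw => hπval w ((hL0 w).1 hw)⟩
    have hA : ∀ t ∈ K1, Apx L0 W t := by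
      intro t ht
      rw [hK1] at ht
      induction ht using IntermediateField.adjoin_induction with
      | mem y hy =>
        obtain ⟨e, he, rfl⟩ := hy
        have h1 : T e ^ ℓ ∈ L0 := by
          obtain ⟨r, hr⟩ := hS (T e) ⟨e, he, rfl⟩
          rw [hr]
          exact algebraMap_mem L0 r
        have h2 : ∃ m : ℤ, W.valuation (T e ^ ℓ) = W.valuation π ^ (ℓ * m : ℤ) := by
          rw [hR.root e he]
          rcases hc with ⟨e', he', h3⟩ | ⟨a, ha, h3⟩ | h3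
          · by_cases h4 : e' = e
            · refine ⟨1, ?_⟩
              rw [← h4, h3, mul_one, zpow_natCast]
            · refine ⟨0, ?_⟩
              rw [mul_zero, zpow_zero]
              exact val_ne W hκ h4 (by rw [h3]; exact hlt1 W hπlt)
          · refine ⟨0, ?_⟩
            rw [mul_zero, zpow_zero]
            exact val_ne (a := a) W hκ (fun h => ha (by rw [h]; exact he)) (by rw [h3]; exact hπlt)
          · refine ⟨-1, ?_⟩
            rw [val_inf W hκ hx0 e (by rw [h3]; exact hlt1 W hπlt), h3, mul_neg, mul_one, zpow_neg,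
              zpow_natCast]
        obtain ⟨m, hm⟩ := h2
        exact Apx.root hπ (hres hrat L0 W hκ hW) hℓ0 (vl hℓ0 W hκ) (T e) (Apx.of_mem h1) m hm
      | algebraMap r => exact Apx.of_mem (algebraMap_mem L0 r)
      | add y w _ _ hy hw => exact hy.add hw
      | inv y _ hy => exact hy.inv
      | mul y w _ _ hy hw => exact hy.mul hw
    refine ⟨π, π₁, hπ, hπ₁, ?_, hA⟩
    have hone : ∀ {a e : κ}, a ≠ e → W.valuation (x - algebraMap κ Ω a) < 1 →
        ¬ W.valuation (x - algebraMap κ Ω e) < 1 := fun h h1 => by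
      rw [val_ne W hκ h h1]; exact lt_irrefl 1
    have hinf : ∀ e : κ, W.valuation x⁻¹ < 1 → ¬ W.valuation (x - algebraMap κ Ω e) < 1 := by
      intro e h1 h2
      rw [val_inf W hκ hx0 e h1] at h2
      have h3 : 0 < W.valuation x⁻¹ := (Valuation.pos_iff _).2 (inv_ne_zero hx0)
      exact absurd h2 (not_lt.2 ((one_le_inv₀ h3).2 h1.le))
    have hp := hlt1 W hπlt
    have hp₁ := hlt1 W hπ₁.lt
    have hpw : W.valuation π ^ ℓ = W.valuation π₁ ^ ℓ → W.valuation π = W.valuation π₁ := fun h =>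
      (pow_left_inj₀ zero_le zero_le hℓ0).1 h
    rcases hc with ⟨e, he, h3⟩ | ⟨a, ha, h3⟩ | h3 <;>
      rcases hc₁ with ⟨e', he', h4⟩ | ⟨a', ha', h4⟩ | h4
    · by_cases h5 : e = e'
      · subst h5
        exact hpw (h3.symm.trans h4)
      · exact absurd (by rw [h4]; exact hp₁) (hone h5 (by rw [h3]; exact hp))
    · have h5 : e ≠ a' := fun h => ha' (h ▸ he)
      exact absurd (by rw [h4]; exact hπ₁.lt) (hone h5 (by rw [h3]; exact hp))
    · exact absurd (by rw [h3]; exact hp) (hinf e (by rw [h4]; exact hp₁))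
    · have h5 : a ≠ e' := fun h => ha (h ▸ he')
      exact absurd (by rw [h4]; exact hp₁) (hone h5 (by rw [h3]; exact hπlt))
    · by_cases h5 : a = a'
      · subst h5
        exact h3.symm.trans h4
      · exact absurd (by rw [h4]; exact hπ₁.lt) (hone h5 (by rw [h3]; exact hπlt))
    · exact absurd (by rw [h3]; exact hπlt) (hinf a (by rw [h4]; exact hp₁))
    · exact absurd (by rw [h4]; exact hp₁) (hinf e' (by rw [h3]; exact hp))
    · exact absurd (by rw [h4]; exact hπ₁.lt) (hinf a' (by rw [h3]; exact hp))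
    · exact hpw (h3.symm.trans h4)
  obtain ⟨m, hexp⟩ := hL.exp
  have hAL : ∀ t ∈ L0, Mem ℓ κ K1 t := by
    intro t ht
    refine ⟨⟨m, fun σ γ => hexp σ γ t ((hL0 t).1 ht)⟩, fun W hκ hW => ?_⟩
    obtain ⟨π, π₁, hπ, hπ₁, hv, hA⟩ := hUL W hκ hW
    refine Apx.of_unr hπ₁ (hres hrat K1 W hκ hW) (ApxF L0 W) hA ?_ (Apx.of_mem ht)
    intro w hw hw0
    obtain ⟨n, hn⟩ := Apx.val' hπ hw hw0
    exact ⟨π₁ ^ n, zpow_mem hπ₁.mem n, zpow_ne_zero _ hπ₁.ne, by rw [hn, hv, map_zpow₀]⟩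
  have hUL' : ∀ W : ValuationSubring Ω, (∀ c : κ, algebraMap κ Ω c ∈ W) → W ≠ ⊤ →
      ∃ π π₁ : Ω, Unf L0 W π ∧ Unf K1 W π₁ ∧ W.valuation π = W.valuation π₁ := by
    intro W hκ hW
    obtain ⟨π, π₁, hπ, hπ₁, hv, -⟩ := hUL W hκ hW
    exact ⟨π, π₁, hπ, hπ₁, hv⟩
  have hUK' : ∀ W : ValuationSubring Ω, (∀ c : κ, algebraMap κ Ω c ∈ W) → W ≠ ⊤ →
      ∃ π ∈ K0, Unf K1 W π := fun W hκ hW => by
    obtain ⟨π, h1, h2, _⟩ := hUK W hκ hW
    exact ⟨π, h1, h2⟩
  have hrL : ∀ w, w ∈ L0 ↔ ∃ k : L, algebraMap L Ω k = w := fun w => by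
    rw [hL0]
    exact ⟨fun h => ⟨⟨w, h⟩, rfl⟩, by rintro ⟨k, rfl⟩; exact k.2⟩
  have hrK : ∀ w, w ∈ K0 ↔ ∃ k : KY κ (T b) Y, algebraMap (KY κ (T b) Y) Ω k = w := fun w => by
    rw [hK0]
    exact ⟨fun h => ⟨⟨w, h⟩, rfl⟩, by rintro ⟨k, rfl⟩; exact k.2⟩
  constructor
  · intro h
    exact down K0 K1 hrK hK01 hst hfix hUK'
      (up2 hrat L0 K1 hrL m (fun γ t ht => hexp γ 1 t ((hL0 t).1 ht)) hAL hUL' h)
  · intro h
    exact down2 L0 K1 hrL hAL hst hUL' (up hrat K0 K1 hrK hK01 hst hfix hUK' h)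

end Pool.Agent.H93S
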