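import Pool.Agent.H93S.Uni

/-!
# Project SC: the coordinate with a branch point at infinity (piece MOB)
-/

set_option autoImplicit false
set_option linter.all false

open Polynomial FF

namespace Pool.Agent.H93S

open Pool.Agent.Y157.PS Pool.Agent.Y948.PS

namespace Mob

open Uni

theorem bez {ℓ n : ℕ} (hℓ : ℓ.Prime) (h : ¬ ℓ ∣ n) (t : ℤ) : ∃ α β : ℤ, α * n + β * ℓ = t := by
  have h1 : Nat.Coprime n ℓ := ((Nat.Prime.coprime_iff_not_dvd hℓ).2 h).symm
  have h2 := Nat.gcd_eq_gcd_ab n ℓ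
  rw [h1] at h2
  refine ⟨t * Nat.gcdA n ℓ, t * Nat.gcdB n ℓ, ?_⟩
  push_cast at h2
  linear_combination -t * h2

theorem core {ℓ : ℕ} [Fact ℓ.Prime] {κ Ω : Type} [Field κ] [IsAlgClosed κ] [CharZero κ] [Field Ω]
    [IsAlgClosed Ω] [Algebra κ Ω] {x : Ω} (htr : Transcendental κ x)
    (halg : Algebra.IsAlgebraic (IntermediateField.adjoin κ {x}) Ω)
    (B : Finset κ) (J : Type) (w : J → κ → ℕ) (c : J → κ) (y : J → Ω) (hc : ∀ j, c j ≠ 0)
    (hy : ∀ j, algebraMap κ Ω (c j) * y j ^ ℓ = ∏ e ∈ B, (x - algebraMap κ Ω e) ^ w j e)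
    (hw : ∀ e ∈ B, ∃ j, ¬ ℓ ∣ w j e) (h2 : 2 ≤ B.card) (hw' : ∃ j, ¬ ℓ ∣ ∑ e ∈ B, w j e)
    (L : IntermediateField κ Ω) (hxL : x ∈ L) (hyL : ∀ j, y j ∈ L)
    (hL : ∀ F : IntermediateField κ Ω, x ∈ F → (∀ j, y j ∈ F) → L ≤ F) :
    ∃ T : κ → Ω, Rad ℓ x B T ∧ Ab ℓ x B T L ∧
      ∀ j, ∃ δ : κ, δ ^ ℓ = c j ∧ algebraMap κ Ω δ * y j = ∏ b ∈ B, T b ^ w j b := by
  have hℓp : ℓ.Prime := Fact.out
  have hℓ : 0 < ℓ := hℓp.pos
  have hT := fun b : κ => IsAlgClosed.exists_pow_nat_eq (x - algebraMap κ Ω b) hℓ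
  choose T hT using hT
  -- the constants
  have hδ : ∀ j, ∃ δ : κ, δ ^ ℓ = c j ∧ algebraMap κ Ω δ * y j = ∏ b ∈ B, T b ^ w j b := by
    intro j
    obtain ⟨δ, hδ⟩ := IsAlgClosed.exists_pow_nat_eq (c j) hℓ
    have h1 : (algebraMap κ Ω δ * y j) ^ ℓ = (∏ b ∈ B, T b ^ w j b) ^ ℓ := by
      rw [mul_pow, ← map_pow, hδ, hy j, ← Finset.prod_pow]
      refine Finset.prod_congr rfl fun b _ => ?_
      rw [← hT b, ← pow_mul, ← pow_mul, mul_comm]
    have hx0 : ∀ b : κ, x - algebraMap κ Ω b ≠ 0 := by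
      intro b h
      apply htr
      rw [sub_eq_zero.1 h]
      exact isAlgebraic_algebraMap b
    have hT0 : ∀ b, T b ≠ 0 := by
      intro b h
      have := hT b
      rw [h, zero_pow hℓ.ne'] at this
      exact hx0 b this.symm
    have hp0 : ∏ b ∈ B, T b ^ w j b ≠ 0 := Finset.prod_ne_zero_iff.2 fun b _ =>
      pow_ne_zero _ (hT0 b)
    obtain ⟨ζ, hζ⟩ := mu (κ := κ) hℓ.ne' ((algebraMap κ Ω δ * y j) / ∏ b ∈ B, T b ^ w j b)
      (by rw [div_pow, h1, div_self (pow_ne_zero _ hp0)])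
    have hζ0 : ζ ≠ 0 := by
      intro h
      rw [h, map_zero] at hζ
      have h3 : algebraMap κ Ω δ * y j = 0 := by
        rcases div_eq_zero_iff.1 hζ.symm with h4 | h4
        · exact h4
        · exact absurd h4 hp0
      rw [h3, zero_pow hℓ.ne'] at h1
      exact pow_ne_zero _ hp0 h1.symm
    have hζl : ζ ^ ℓ = 1 := by
      apply (algebraMap κ Ω).injective
      rw [map_pow, hζ, div_pow, h1, div_self (pow_ne_zero _ hp0), map_one]
    refine ⟨δ * ζ⁻¹, by rw [mul_pow, hδ, inv_pow, hζl, inv_one, mul_one], ?_⟩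
    rw [map_mul, map_inv₀, hζ, inv_div]
    have h5 : algebraMap κ Ω δ * y j ≠ 0 := by
      intro h3
      rw [h3, zero_pow hℓ.ne'] at h1
      exact pow_ne_zero _ hp0 h1.symm
    have h6 : algebraMap κ Ω δ ≠ 0 := left_ne_zero_of_mul h5
    have h7 : y j ≠ 0 := right_ne_zero_of_mul h5
    field_simp
  have hRad : Rad ℓ x B T := ⟨htr, halg, h2, fun b _ => hT b⟩
  have hBne : B.Nonempty := Finset.card_pos.1 (by omega)
  refine ⟨T, hRad, ⟨hxL, ?_, ?_, ?_⟩, hδ⟩
  · -- le
    have hTm : ∀ b ∈ B, T b ∈ IntermediateField.adjoin κ (T '' (B : Set κ)) := fun b hb =>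
      IntermediateField.subset_adjoin _ _ ⟨b, hb, rfl⟩
    refine hL _ ?_ ?_
    · obtain ⟨b, hb⟩ := hBne
      have h1 : x = T b ^ ℓ + algebraMap κ Ω b := by rw [hT b]; ring
      rw [h1]
      exact add_mem (pow_mem (hTm b hb) _) (algebraMap_mem _ _)
    · intro j
      obtain ⟨δ, h3, h4⟩ := hδ j
      have hδ0 : δ ≠ 0 := by
        intro h
        rw [h, zero_pow hℓ.ne'] at h3
        exact hc j h3.symm
      have h5 : y j = algebraMap κ Ω δ⁻¹ * ∏ b ∈ B, T b ^ w j b := by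
        rw [← h4, ← mul_assoc, ← map_mul, inv_mul_cancel₀ hδ0, map_one, one_mul]
      rw [h5]
      exact mul_mem (algebraMap_mem _ _) (prod_mem fun b hb => pow_mem (hTm b hb) _)
  · -- fin
    intro W hκ b hb hnu
    obtain ⟨j, hj⟩ := hw b hb
    obtain ⟨α, β, hαβ⟩ := bez hℓp hj 1
    have hlt : W.valuation (x - algebraMap κ Ω b) < 1 := (ValuationSubring.mem_nonunits_iff _).1 hnu
    have hx0 : x - algebraMap κ Ω b ≠ 0 := by
      intro h
      apply htr
      rw [sub_eq_zero.1 h]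
      exact isAlgebraic_algebraMap b
    have hv : W.valuation (y j) ^ ℓ = W.valuation (x - algebraMap κ Ω b) ^ w j b := by
      have h1 := congrArg W.valuation (hy j)
      rw [map_mul, val_const W hκ (hc j), one_mul, map_pow, map_prod] at h1
      rw [h1, Finset.prod_eq_single b]
      · rw [map_pow]
      · intro e _ hne
        have h3 : x - algebraMap κ Ω e = (x - algebraMap κ Ω b) + algebraMap κ Ω (b - e) := by
          rw [map_sub]; ring
        have h4 : b - e ≠ 0 := sub_ne_zero.2 hne.symm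
        rw [map_pow, h3, Valuation.map_add_eq_of_lt_right _ (by rwa [val_const W hκ h4]),
          val_const W hκ h4, one_pow]
      · intro h
        exact absurd hb h
    refine ⟨y j ^ α * (x - algebraMap κ Ω b) ^ β,
      mul_mem (zpow_mem (hyL j) _) (zpow_mem (sub_mem hxL (algebraMap_mem _ _)) _), ?_⟩
    rw [isU_iff]
    have hv0 : W.valuation (x - algebraMap κ Ω b) ≠ 0 := (Valuation.ne_zero_iff _).2 hx0
    rw [map_div₀, map_pow, map_mul, map_zpow₀, map_zpow₀, mul_pow, ← zpow_natCast, ← zpow_natCast,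
      ← zpow_mul, ← zpow_mul, mul_comm α, zpow_mul, zpow_natCast, hv, ← zpow_natCast, ← zpow_mul,
      ← zpow_add₀ hv0]
    have h5 : (w j b : ℤ) * α + β * ℓ = 1 := by rw [← hαβ]; ring
    rw [h5, zpow_one, div_self hv0]
  · -- inf
    intro W hκ hnu
    obtain ⟨j, hj⟩ := hw'
    obtain ⟨α, β, hαβ⟩ := bez hℓp hj (-1)
    have hx0 : x ≠ 0 := by
      intro h
      rw [h] at htr
      exact htr isAlgebraic_zero
    have hlt : W.valuation x⁻¹ < 1 := (ValuationSubring.mem_nonunits_iff _).1 hnu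
    have hgt : 1 < W.valuation x := by
      rw [map_inv₀] at hlt
      exact (inv_lt_one₀ ((Valuation.pos_iff _).2 hx0)).1 hlt
    have hv0 : W.valuation x ≠ 0 := (Valuation.ne_zero_iff _).2 hx0
    have hv : W.valuation (y j) ^ ℓ = W.valuation x ^ ∑ e ∈ B, w j e := by
      have h1 := congrArg W.valuation (hy j)
      rw [map_mul, val_const W hκ (hc j), one_mul, map_pow, map_prod] at h1
      rw [h1, ← Finset.prod_pow_eq_pow_sum]
      refine Finset.prod_congr rfl fun e _ => ?_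
      rw [map_pow]
      congr 1
      exact Valuation.map_sub_eq_of_lt_left _
        (((W.valuation_le_one_iff _).2 (hκ e)).trans_lt hgt)
    refine ⟨y j ^ α * x ^ β, mul_mem (zpow_mem (hyL j) _) (zpow_mem hxL _), ?_⟩
    rw [isU_iff]
    rw [map_mul, map_pow, map_mul, map_zpow₀, map_zpow₀, mul_pow, ← zpow_natCast, ← zpow_natCast,
      ← zpow_mul, ← zpow_mul, mul_comm α, zpow_mul, zpow_natCast, hv, ← zpow_natCast, ← zpow_mul,
      ← zpow_add₀ hv0]
    have h5 : ((∑ e ∈ B, w j e : ℕ) : ℤ) * α + β * ℓ = -1 := by rw [← hαβ]; ring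
    rw [h5, zpow_neg_one, inv_mul_cancel₀ hv0]

end Mob

open Mob Uni in
theorem mob : S_MOB := by
  classical
  intro ℓ _ κ Ω _ _ _ _ _ _ x htr halg P J w c y hc hy hw h2 h3
  have hℓp : ℓ.Prime := Fact.out
  have hℓ : 0 < ℓ := hℓp.pos
  obtain ⟨L, hL⟩ : ∃ L : IntermediateField κ Ω,
      L = IntermediateField.adjoin κ (insert x (Set.range y)) := ⟨_, rfl⟩
  have hxL : x ∈ L := by
    rw [hL]; exact IntermediateField.subset_adjoin _ _ (Set.mem_insert _ _)
  have hyL : ∀ j, y j ∈ L := fun j => by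
    rw [hL]; exact IntermediateField.subset_adjoin _ _ (Set.mem_insert_of_mem _ ⟨j, rfl⟩)
  have hLF : ∀ F : IntermediateField κ Ω, x ∈ F → (∀ j, y j ∈ F) → L ≤ F := by
    intro F h1 h2
    rw [hL, IntermediateField.adjoin_le_iff]
    rintro z hz
    rcases Set.mem_insert_iff.1 hz with rfl | ⟨j, rfl⟩
    · exact h1
    · exact h2 j
  rw [← hL]
  by_cases hcase : ∃ j, ¬ ℓ ∣ ∑ e ∈ P, w j e
  · obtain ⟨T, hR, hA, hδ⟩ := core htr halg P J w c y hc hy hw h2 hcase L hxL hyL hLF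
    refine ⟨x, P, T, Or.inl ⟨hcase, rfl, rfl⟩, hR, hA, ?_⟩
    intro j
    obtain ⟨δ, h4, h5⟩ := hδ j
    refine ⟨δ, 1, by rw [h4, mul_one], fun G h1 _ _ _ => h1, ?_⟩
    intro S _ hS
    rw [h5]
    exact prod_mem fun b hb => pow_mem (hS b hb) _
  · push Not at hcase
    have h3' := h3 hcase
    obtain ⟨e0, he0⟩ : P.Nonempty := Finset.card_pos.1 (by omega)
    have hne : x - algebraMap κ Ω e0 ≠ 0 := by
      intro h
      apply htr
      rw [sub_eq_zero.1 h]
      exact isAlgebraic_algebraMap e0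
    obtain ⟨x', hx'⟩ : ∃ x', x' = (x - algebraMap κ Ω e0)⁻¹ := ⟨_, rfl⟩
    have hx'0 : x' ≠ 0 := by rw [hx']; exact inv_ne_zero hne
    have hxx' : x = algebraMap κ Ω e0 + x'⁻¹ := by rw [hx', inv_inv]; ring
    have htr' : Transcendental κ x' := by
      intro h
      apply htr
      rw [hxx']
      exact (isAlgebraic_algebraMap e0).add h.inv
    haveI := halg
    have halg' : Algebra.IsAlgebraic (IntermediateField.adjoin κ {x'}) Ω :=
      alg_adjoin (ratF htr) htr'
    obtain ⟨f, hf⟩ : ∃ f : κ → κ, f = fun e => (e - e0)⁻¹ := ⟨_, rfl⟩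
    have hfe : ∀ e, f e = (e - e0)⁻¹ := fun e => by rw [hf]
    have hinj : Set.InjOn f (P.erase e0 : Finset κ) := by
      intro a _ a' _ h
      rw [hfe, hfe] at h
      exact sub_left_injective (inv_injective h)
    obtain ⟨B, hB⟩ : ∃ B : Finset κ, B = (P.erase e0).image f := ⟨_, rfl⟩
    have hBcard : B.card + 1 = P.card := by
      rw [hB, Finset.card_image_of_injOn hinj, Finset.card_erase_of_mem he0]
      omega
    have hBmem : ∀ b, b ∈ B ↔ ∃ e ∈ P, e ≠ e0 ∧ b = (e - e0)⁻¹ := by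
      intro b
      rw [hB, Finset.mem_image]
      constructor
      · rintro ⟨e, he, rfl⟩
        exact ⟨e, (Finset.mem_erase.1 he).2, (Finset.mem_erase.1 he).1, hfe e⟩
      · rintro ⟨e, he, h1, h2⟩
        exact ⟨e, Finset.mem_erase.2 ⟨h1, he⟩, by rw [hfe, h2]⟩
    obtain ⟨w', hw'⟩ : ∃ w' : J → κ → ℕ, w' = fun j b => w j (e0 + b⁻¹) := ⟨_, rfl⟩
    have hw'f : ∀ j e, w' j (f e) = w j e := by
      intro j e
      rw [hw', hfe]
      change w j (e0 + ((e - e0)⁻¹)⁻¹) = w j e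
      rw [inv_inv]
      congr 1
      ring
    have hsum : ∀ j, ∑ b ∈ B, w' j b + w j e0 = ∑ e ∈ P, w j e := by
      intro j
      rw [hB, Finset.sum_image hinj, Finset.sum_congr rfl fun e _ => hw'f j e,
        Finset.sum_erase_add _ _ he0]
    have hn := hcase
    choose n hn using hn
    obtain ⟨u, hu⟩ : ∃ u : J → κ, u = fun j => ∏ e ∈ P.erase e0, ((e0 - e) ^ w j e)⁻¹ := ⟨_, rfl⟩
    have huj : ∀ j, u j = ∏ e ∈ P.erase e0, ((e0 - e) ^ w j e)⁻¹ := fun j => by rw [hu]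
    have hu0 : ∀ j, u j ≠ 0 := by
      intro j
      rw [huj]
      refine Finset.prod_ne_zero_iff.2 fun e he => inv_ne_zero (pow_ne_zero _ ?_)
      exact sub_ne_zero.2 (Finset.mem_erase.1 he).1.symm
    obtain ⟨y', hy'⟩ : ∃ y' : J → Ω, y' = fun j => y j * x' ^ n j := ⟨_, rfl⟩
    have hy'j : ∀ j, y' j = y j * x' ^ n j := fun j => by rw [hy']
    have hy'eq : ∀ j, algebraMap κ Ω (c j * u j) * y' j ^ ℓ =
        ∏ b ∈ B, (x' - algebraMap κ Ω b) ^ w' j b := by
      intro j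
      rw [hy'j, mul_pow, ← pow_mul, mul_comm (n j), ← hn j, map_mul]
      have h4 : algebraMap κ Ω (c j) * algebraMap κ Ω (u j) * (y j ^ ℓ * x' ^ ∑ e ∈ P, w j e) =
          algebraMap κ Ω (u j) * ((algebraMap κ Ω (c j) * y j ^ ℓ) * x' ^ ∑ e ∈ P, w j e) := by
        ring
      rw [h4, hy j, ← Finset.prod_pow_eq_pow_sum, ← Finset.prod_mul_distrib,
        ← Finset.mul_prod_erase _ _ he0]
      have h5 : (x - algebraMap κ Ω e0) ^ w j e0 * x' ^ w j e0 = 1 := by
        rw [← mul_pow, hx', mul_inv_cancel₀ hne, one_pow]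
      rw [h5, one_mul, huj, map_prod, ← Finset.prod_mul_distrib, hB, Finset.prod_image hinj]
      refine Finset.prod_congr rfl fun e he => ?_
      rw [hw'f, hfe, ← mul_pow, map_inv₀, map_pow, ← inv_pow, ← mul_pow]
      congr 1
      have h6 : e - e0 ≠ 0 := sub_ne_zero.2 (Finset.mem_erase.1 he).1
      have h7 : algebraMap κ Ω e - algebraMap κ Ω e0 ≠ 0 := by
        rw [← map_sub]
        exact fun h => h6 ((map_eq_zero _).1 h)
      have h8 : algebraMap κ Ω e0 - algebraMap κ Ω e ≠ 0 := by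
        rw [← neg_ne_zero, neg_sub]
        exact h7
      rw [map_inv₀, map_sub, map_sub, hxx']
      field_simp
      ring
    obtain ⟨T, hR, hA, hδ⟩ := core htr' halg' B J w' (fun j => c j * u j) y'
      (fun j => mul_ne_zero (hc j) (hu0 j)) hy'eq
      (by
        intro b hb
        obtain ⟨e, he, h1, rfl⟩ := (hBmem b).1 hb
        obtain ⟨j, hj⟩ := hw e he
        refine ⟨j, ?_⟩
        rw [← hfe, hw'f]
        exact hj)
      (by omega)
      (by
        obtain ⟨j, hj⟩ := hw e0 he0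
        refine ⟨j, fun h => hj ?_⟩
        have h4 := hcase j
        rw [← hsum j] at h4
        exact (Nat.dvd_add_right h).1 h4)
      L (by rw [hx']; exact inv_mem (sub_mem hxL (algebraMap_mem _ _)))
      (fun j => by
        rw [hy'j]
        exact mul_mem (hyL j) (pow_mem
          (by rw [hx']; exact inv_mem (sub_mem hxL (algebraMap_mem _ _))) _))
      (by
        intro F h1 h4
        refine hLF F ?_ ?_
        · rw [hxx']
          exact add_mem (algebraMap_mem _ _) (inv_mem h1)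
        · intro j
          have h5 : y j = y' j * (x' ^ n j)⁻¹ := by
            rw [hy'j, mul_assoc, mul_inv_cancel₀ (pow_ne_zero _ hx'0), mul_one]
          rw [h5]
          exact mul_mem (h4 j) (inv_mem (pow_mem h1 _)))
    refine ⟨x', B, T, Or.inr ⟨hcase, hBcard, e0, he0, hx', hBmem⟩, hR, hA, ?_⟩
    intro j
    obtain ⟨δ, h4, h5⟩ := hδ j
    refine ⟨δ, u j, h4, ?_, ?_⟩
    · intro G hG1 hGm hGi hGd
      rw [huj]
      have hGp : ∀ a ∈ G, ∀ k : ℕ, a ^ k ∈ G := by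
        intro a ha k
        induction k with
        | zero => rw [pow_zero]; exact hG1
        | succ k ih => rw [pow_succ]; exact hGm _ ih _ ha
      refine Finset.prod_induction _ (· ∈ G) (fun a b ha hb => hGm a ha b hb) hG1 ?_
      intro e he
      exact hGi _ (hGp _ (hGd _ he0 _ (Finset.mem_erase.1 he).2 (Finset.mem_erase.1 he).1.symm) _)
    · intro S hx'S hTS
      have h6 : algebraMap κ Ω δ * y j = (∏ b ∈ B, T b ^ w' j b) * (x' ^ n j)⁻¹ := by
        rw [← h5, hy'j, mul_assoc, mul_assoc, mul_inv_cancel₀ (pow_ne_zero _ hx'0), mul_one]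
      rw [h6]
      exact mul_mem (prod_mem fun b hb => pow_mem (hTS b hb) _) (inv_mem (pow_mem hx'S _))

end Pool.Agent.H93S
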