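import Pool.Agent.H93S.Core
import Pool.Agent.H93S.Max
import Pool.Agent.H93S.Mob
import Pool.Agent.H93S.Uni
import Pool.Agent.H93S.Glob
import Pool.Agent.H93S.H90
import Pool.Agent.Y157.PS.Fin
import Pool.Agent.Y157.PS.Padic
import Pool.Agent.Y157.PS.Ind2

/-!
# Project SC: sections over complete fields, all groups
-/

set_option autoImplicit false
set_option linter.all false

open Polynomial FF

namespace Pool.Agent.H93S

open Pool.Agent.Y157.PS Pool.Agent.Y948.PS Pool.Agent.Y31.PS Pool.Agent.R925.Q Pool.Agent.R925.X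
  Pool.Agent.R925.L

theorem all_max : S_MAX := max (uni Pool.Agent.Y809.PS.k0 co)

theorem all_glob : S_GLOB := glob (locb h90 co)

section algF

variable {ℓ : ℕ} {k F : Type} [Field k] [Field F] [Algebra k F]

/-- `F` is algebraic over `k(x)` -/
theorem alg_F {J : Type} {x : F} {y : J → F} (hℓ : 0 < ℓ)
    (hF : IntermediateField.adjoin k (insert x (Set.range y)) = (⊤ : IntermediateField k F))
    (hy : ∀ j, ∃ p : k[X], y j ^ ℓ = aeval x p) :
    Algebra.IsAlgebraic (IntermediateField.adjoin k {x}) F := by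
  set R := IntermediateField.adjoin k {x} with hR
  have hxR : x ∈ R := IntermediateField.mem_adjoin_simple_self _ _
  have hpow : ∀ j, IsAlgebraic R (y j) := by
    intro j
    obtain ⟨p, hp⟩ := hy j
    have h1 : (y j) ^ ℓ ∈ R := by
      rw [hp, aeval_def, eval₂_eq_sum_range]
      exact sum_mem fun i _ => mul_mem (R.algebraMap_mem _) (pow_mem hxR _)
    have h2 : IsIntegral R (y j) := by
      apply IsIntegral.of_pow hℓ
      exact isIntegral_algebraMap (x := (⟨_, h1⟩ : R))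
    exact h2.isAlgebraic
  constructor
  intro r
  have h1 : r ∈ IntermediateField.adjoin k (insert x (Set.range y)) := by rw [hF]; trivial
  have h2 : ∀ w ∈ IntermediateField.adjoin k (insert x (Set.range y)),
      w ∈ (_root_.algebraicClosure R F).toSubfield := by
    refine adjoin_le_sub ?_ ?_
    · intro c
      exact (_root_.algebraicClosure R F).algebraMap_mem ⟨_, R.algebraMap_mem c⟩
    · intro w hw
      rcases hw with hw | ⟨j, rfl⟩
      · rw [hw]
        exact (_root_.algebraicClosure R F).algebraMap_mem ⟨_, hxR⟩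
      · exact mem_algebraicClosure_iff.2 (hpow j)
  exact mem_algebraicClosure_iff.1 (h2 r h1)

end algF

section main

variable {A k F Ω : Type} [CommRing A] [IsDomain A] [IsDiscreteValuationRing A]
    [Finite (IsLocalRing.ResidueField A)] [Field k] [CharZero k] [Algebra A k] [IsFractionRing A k]
    [Field F] [Field Ω] [Algebra k F] [Algebra F Ω] [Algebra k Ω] [IsScalarTower k F Ω]
    [IsAlgClosed Ω] [Algebra.IsAlgebraic F Ω]

theorem padic [IsAdicComplete (IsLocalRing.maximalIdeal A) A] {ℓ : ℕ} [Fact ℓ.Prime]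
    (hℓ : IsUnit (ℓ : A))
    {n r : ℕ} (f : Fin n → A[X]) (w : Fin r → Fin n → ℕ) (d : Fin r → k)
    (hlc : ∀ i, IsUnit (f i).leadingCoeff)
    (hs : ((∏ i, f i).map (IsLocalRing.residue A)).Separable) (hw : ∀ i, ∃ j, ¬ ℓ ∣ w j i)
    (hd0 : ∀ j, d j ≠ 0) (j0 : Fin r) (ϖ t : A) (m : ℤ) (hϖ : Irreducible ϖ) (ht : IsUnit t)
    (hm : ¬ (ℓ : ℤ) ∣ m) (hdj : d j0 = algebraMap A k t * algebraMap A k ϖ ^ m)
    (Inf : Prop) (hInf : Inf ↔ ∃ j, ¬ ℓ ∣ ∑ i, w j i * (f i).natDegree)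
    (h3a : Inf → 3 ≤ ℓ * (∑ i, (f i).natDegree - 1))
    (h3b : ¬ Inf → 3 ≤ ℓ * (∑ i, (f i).natDegree - 2))
    (x : F) (y : Fin r → F) (hx : Transcendental k x)
    (hxy : ∀ j, algebraMap k F (d j) * y j ^ ℓ =
      ∏ i, (aeval x ((f i).map (algebraMap A k))) ^ w j i)
    (hF : IntermediateField.adjoin k (insert x (Set.range y)) = (⊤ : IntermediateField k F))
    (M : IntermediateField F Ω) (hM : geomPro ℓ k F Ω ≤ M)
    (S : (algebraicClosure k Ω ≃ₐ[k] algebraicClosure k Ω) →* (M ≃ₐ[F] M)) (hcont : Continuous S)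
    (hcompat : ∀ σ (c : algebraicClosure k Ω) (z : M), (z : Ω) = (c : Ω) →
      (S σ z : Ω) = (σ c : Ω)) :
    ∃ W : ValuationSubring M,
      (((∀ c : k, algebraMap F M (algebraMap k F c) ∈ W) ∧
       AB Inf (∏ i, aeval x ((f i).map (algebraMap A k))) x W ∧
       (∀ z : F, algebraMap F M z ∈ W →
          ∃ c : k, algebraMap F M (z - algebraMap k F c) ∈ W.nonunits)) ∧
       ∀ σ, ∀ z : M, (z : Ω) ∈ geomPro ℓ k F Ω → (S σ z ∈ W ↔ z ∈ W)) ∧
      ∀ W' : ValuationSubring M,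
        (∀ c : k, algebraMap F M (algebraMap k F c) ∈ W') →
        AB Inf (∏ i, aeval x ((f i).map (algebraMap A k))) x W' →
        (∀ σ, ∀ z : M, (z : Ω) ∈ geomPro ℓ k F Ω → (S σ z ∈ W' ↔ z ∈ W')) →
        ∀ z : M, (z : Ω) ∈ geomPro ℓ k F Ω → (z ∈ W' ↔ z ∈ W) := by
  have halg : Algebra.IsAlgebraic (IntermediateField.adjoin k {x}) F :=
    alg_F (Fact.out : ℓ.Prime).pos hF fun j =>
      ⟨C (d j)⁻¹ * ∏ i, ((f i).map (algebraMap A k)) ^ w j i, by
        rw [map_mul, map_prod, aeval_C]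
        simp only [map_pow]
        rw [← hxy j, ← mul_assoc, ← map_mul, inv_mul_cancel₀ (hd0 j), map_one, one_mul]⟩
  obtain ⟨T, hTc, hT⟩ := a_ind2 ℓ k F Ω x hx halg M hM _ S hcont
  have hTcompat : ∀ σ (c : algebraicClosure k Ω) (z : geomPro ℓ k F Ω), (z : Ω) = (c : Ω) →
      (T σ z : Ω) = (σ c : Ω) := by
    intro σ c z hz
    have h1 : (z : Ω) ∈ M := hM z.2
    rw [hT σ ⟨(z : Ω), h1⟩ z rfl]
    exact hcompat σ c _ hz
  obtain ⟨W₀, ⟨h1, h2, h3', h4⟩, hun⟩ := core all_max mob all_glob hℓ f w d hlc hs hw hd0 j0 ϖ t m hϖ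
    ht hm hdj Inf hInf h3a h3b x y hx hxy hF T hTc hTcompat
  have hac : IsAlgClosure k (algebraicClosure k Ω) := inferInstance
  have : Normal k (algebraicClosure k Ω) := IsAlgClosure.normal k _
  have hGal : IsGalois k (algebraicClosure k Ω) := ⟨⟩
  have hrat : ∀ c : algebraicClosure k Ω, (∀ σ : algebraicClosure k Ω ≃ₐ[k]
      algebraicClosure k Ω, σ c = c) → ∃ c' : k, algebraMap k (algebraicClosure k Ω) c' = c := by
    intro c hc
    have h5 := (InfiniteGalois.mem_bot_iff_fixed c).2 hc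
    exact IntermediateField.mem_bot.1 h5
  have hincl := fun (W : ValuationSubring M) z => non_incl ((IntermediateField.inclusion hM :
        geomPro ℓ k F Ω →ₐ[F] M) : geomPro ℓ k F Ω →+* M) W z
  obtain ⟨W, ⟨⟨hW1, hW2, hW3⟩, hW4⟩, hWun⟩ := lift_thm (geomPro ℓ k F Ω) M hM S T (fun _ => True) hT
    (fun L W => (∀ c : k, algebraMap F L (algebraMap k F c) ∈ W) ∧
       AB Inf (∏ i, aeval x ((f i).map (algebraMap A k))) x W ∧
       (∀ z : F, algebraMap F L z ∈ W →
          ∃ c : k, algebraMap F L (z - algebraMap k F c) ∈ W.nonunits))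
    (fun L W => (∀ c : k, algebraMap F L (algebraMap k F c) ∈ W) ∧
      AB Inf (∏ i, aeval x ((f i).map (algebraMap A k))) x W)
    (by
      rintro W ⟨a1, a2, a3⟩
      refine ⟨a1, a2.imp (hincl W _).1 (And.imp_right (hincl W _).1), fun z hz => ?_⟩
      obtain ⟨c, hc⟩ := a3 z hz
      exact ⟨c, (hincl W _).1 hc⟩)
    (by
      rintro W ⟨a1, a2⟩
      exact ⟨a1, a2.imp (hincl W _).2 (And.imp_right (hincl W _).2)⟩)
    ⟨W₀, ⟨⟨h1, h3', fun z hz => by
      obtain ⟨c, z', hz', hc⟩ := h2 _ hz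
      obtain ⟨c', rfl⟩ := hrat c fun σ => res_fixed _ W₀ h1 σ (T σ) (h4 σ)
        (fun c z hz => hTcompat σ c z hz) z c z' hz' hc
      refine ⟨c', ?_⟩
      have h5 : algebraMap F (geomPro ℓ k F Ω) (z - algebraMap k F c') = z' := by
        apply Subtype.ext
        rw [hc]
        change algebraMap F Ω (z - algebraMap k F c') = _
        rw [map_sub, ← IsScalarTower.algebraMap_apply]
        rfl
      rw [h5]
      exact hz'⟩, fun σ _ z => h4 σ z⟩, fun W' hW' hst =>
      hun W' hW'.1 hW'.2 fun σ z => hst σ trivial z⟩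
  exact ⟨W, ⟨⟨hW1, hW2, hW3⟩, fun σ z hz => hW4 σ trivial z hz⟩, fun W' b1 b2 b3 z hz =>
    hWun W' ⟨b1, b2⟩ (fun σ _ z hz => b3 σ z hz) z hz⟩

end main

end Pool.Agent.H93S
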