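import Pool.Agent.H93S.Core2
import Pool.Agent.Y157.PS.Fin
import Pool.Agent.Y157.PS.Padic
import Pool.Agent.Y157.PS.Ind2

/-!
# Project SC: sections of uniformly ramified covers over complete fields, all groups
-/

set_option autoImplicit false
set_option linter.all false

open Polynomial FF

namespace Pool.Agent.H93S

open Pool.Agent.Y157.PS Pool.Agent.Y948.PS Pool.Agent.Y31.PS Pool.Agent.R925.Q Pool.Agent.R925.X
  Pool.Agent.R925.L

section main

variable {A k F Ω : Type} [CommRing A] [IsDomain A] [IsDiscreteValuationRing A]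
    [Finite (IsLocalRing.ResidueField A)] [Field k] [CharZero k] [Algebra A k] [IsFractionRing A k]
    [Field F] [Field Ω] [Algebra k F] [Algebra F Ω] [Algebra k Ω] [IsScalarTower k F Ω]
    [IsAlgClosed Ω] [Algebra.IsAlgebraic F Ω]

theorem padic2 [IsAdicComplete (IsLocalRing.maximalIdeal A) A] {ℓ : ℕ} [Fact ℓ.Prime]
    (hℓ : IsUnit (ℓ : A)) (f : k[X]) (hsep : f.Separable) (Inf : Prop)
    (h3a : Inf → 3 ≤ ℓ * (f.natDegree - 1)) (h3b : ¬ Inf → 3 ≤ ℓ * (f.natDegree - 2))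
    (x : F) (hx : Transcendental k x)
    (halg : Algebra.IsAlgebraic (IntermediateField.adjoin k {x}) F)
    (N : IntermediateField (IntermediateField.adjoin (algebraicClosure k Ω) {algebraMap F Ω x}) Ω)
    (hN1 : FiniteDimensional
      (IntermediateField.adjoin (algebraicClosure k Ω) {algebraMap F Ω x}) N)
    (hN2 : IsGalois (IntermediateField.adjoin (algebraicClosure k Ω) {algebraMap F Ω x}) N)
    (hN3 : ∃ m : ℕ, Module.finrank
      (IntermediateField.adjoin (algebraicClosure k Ω) {algebraMap F Ω x}) N = ℓ ^ m)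
    (hFN : ∀ z : F, algebraMap F Ω z ∈ N)
    (hidx : ∀ W : ValuationSubring Ω, (∀ c : k, algebraMap k Ω c ∈ W) → W ≠ ⊤ →
      ((algebraMap F Ω (aeval x f) ∈ W.nonunits ∨ (Inf ∧ (algebraMap F Ω x)⁻¹ ∈ W.nonunits)) →
        (valGrp W (IntermediateField.adjoin (algebraicClosure k Ω)
          {algebraMap F Ω x}).toSubfield).relIndex (valGrp W (geomF k F Ω).toSubfield) = ℓ) ∧
      (¬ (algebraMap F Ω (aeval x f) ∈ W.nonunits ∨ (Inf ∧ (algebraMap F Ω x)⁻¹ ∈ W.nonunits)) →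
        (valGrp W (IntermediateField.adjoin (algebraicClosure k Ω)
          {algebraMap F Ω x}).toSubfield).relIndex (valGrp W (geomF k F Ω).toSubfield) = 1))
    (hcr4 : ∀ a b c d : algebraicClosure k Ω, aeval a f = 0 → aeval b f = 0 → aeval c f = 0 →
      aeval d f = 0 → a ≠ b → a ≠ c → a ≠ d → b ≠ c → b ≠ d → c ≠ d →
      ((algebraMap k (algebraicClosure k Ω)).comp (algebraMap A k)).IsIntegralElem
        ((a - c) * (b - d) / ((a - d) * (b - c))))
    (hcr3 : Inf → ∀ a b c : algebraicClosure k Ω, aeval a f = 0 → aeval b f = 0 →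
      aeval c f = 0 → a ≠ b → a ≠ c → b ≠ c →
      ((algebraMap k (algebraicClosure k Ω)).comp (algebraMap A k)).IsIntegralElem
        ((a - c) / (b - c)))
    (σ₀ : algebraicClosure k Ω ≃ₐ[k] algebraicClosure k Ω)
    (hσ₀ : ∀ c, ((algebraMap k (algebraicClosure k Ω)).comp (algebraMap A k)).IsIntegralElem c →
      σ₀ c = c ∨ ¬ ((algebraMap k (algebraicClosure k Ω)).comp (algebraMap A k)).IsIntegralElem
        (σ₀ c - c)⁻¹)
    (hσP : ∀ e : algebraicClosure k Ω, aeval e f = 0 → σ₀ e = e)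
    (hσM : ∀ g : geomPro ℓ k F Ω ≃ₐ[F] geomPro ℓ k F Ω,
      (∀ (c : algebraicClosure k Ω) (z : geomPro ℓ k F Ω), (z : Ω) = (c : Ω) →
        (g z : Ω) = (σ₀ c : Ω)) →
      ∃ γ : geomPro ℓ k F Ω ≃ₐ[F] geomPro ℓ k F Ω,
        (∀ (c : algebraicClosure k Ω) (z : geomPro ℓ k F Ω), (z : Ω) = (c : Ω) → γ z = z) ∧
        ∃ z, g (γ z) ≠ γ (g z))
    (M : IntermediateField F Ω) (hM : geomPro ℓ k F Ω ≤ M)
    (S : (algebraicClosure k Ω ≃ₐ[k] algebraicClosure k Ω) →* (M ≃ₐ[F] M)) (hcont : Continuous S)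
    (hcompat : ∀ σ (c : algebraicClosure k Ω) (z : M), (z : Ω) = (c : Ω) →
      (S σ z : Ω) = (σ c : Ω)) :
    ∃ W : ValuationSubring M,
      (((∀ c : k, algebraMap F M (algebraMap k F c) ∈ W) ∧
       AB Inf (aeval x f) x W ∧
       (∀ z : F, algebraMap F M z ∈ W →
          ∃ c : k, algebraMap F M (z - algebraMap k F c) ∈ W.nonunits)) ∧
       ∀ σ, ∀ z : M, (z : Ω) ∈ geomPro ℓ k F Ω → (S σ z ∈ W ↔ z ∈ W)) ∧
      ∀ W' : ValuationSubring M,
        (∀ c : k, algebraMap F M (algebraMap k F c) ∈ W') →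
        AB Inf (aeval x f) x W' →
        (∀ σ, ∀ z : M, (z : Ω) ∈ geomPro ℓ k F Ω → (S σ z ∈ W' ↔ z ∈ W')) →
        ∀ z : M, (z : Ω) ∈ geomPro ℓ k F Ω → (z ∈ W' ↔ z ∈ W) := by
  obtain ⟨T, hTc, hT⟩ := a_ind2 ℓ k F Ω x hx halg M hM _ S hcont
  have hTcompat : ∀ σ (c : algebraicClosure k Ω) (z : geomPro ℓ k F Ω), (z : Ω) = (c : Ω) →
      (T σ z : Ω) = (σ c : Ω) := by
    intro σ c z hz
    have h1 : (z : Ω) ∈ M := hM z.2
    rw [hT σ ⟨(z : Ω), h1⟩ z rfl]
    exact hcompat σ c _ hz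
  obtain ⟨W₀, ⟨h1, h2, h3', h4⟩, hun⟩ := core2 hℓ f hsep Inf h3a h3b x hx N hN1 hN2 hN3 hFN hidx
    hcr4 hcr3 σ₀ hσ₀ hσP hσM T hTc hTcompat
  have hac : IsAlgClosure k (algebraicClosure k Ω) := inferInstance
  have : Normal k (algebraicClosure k Ω) := IsAlgClosure.normal k _
  have hGal : IsGalois k (algebraicClosure k Ω) := ⟨⟩
  have hrat : ∀ c : algebraicClosure k Ω, (∀ σ : algebraicClosure k Ω ≃ₐ[k]
      algebraicClosure k Ω, σ c = c) → ∃ c' : k, algebraMap k (algebraicClosure k Ω) c' = c := by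
    intro c hc
    have h5 := (InfiniteGalois.mem_bot_iff_fixed c).2 hc
    exact IntermediateField.mem_bot.1 h5
  have hincl := fun (W : ValuationSubring M) z => non_incl ((IntermediateField.inclusion hM :
        geomPro ℓ k F Ω →ₐ[F] M) : geomPro ℓ k F Ω →+* M) W z
  obtain ⟨W, ⟨⟨hW1, hW2, hW3⟩, hW4⟩, hWun⟩ := lift_thm (geomPro ℓ k F Ω) M hM S T (fun _ => True) hT
    (fun L W => (∀ c : k, algebraMap F L (algebraMap k F c) ∈ W) ∧
       AB Inf (aeval x f) x W ∧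
       (∀ z : F, algebraMap F L z ∈ W →
          ∃ c : k, algebraMap F L (z - algebraMap k F c) ∈ W.nonunits))
    (fun L W => (∀ c : k, algebraMap F L (algebraMap k F c) ∈ W) ∧
      AB Inf (aeval x f) x W)
    (by
      rintro W ⟨a1, a2, a3⟩
      refine ⟨a1, a2.imp (hincl W _).1 (And.imp_right (hincl W _).1), fun z hz => ?_⟩
      obtain ⟨c, hc⟩ := a3 z hz
      exact ⟨c, (hincl W _).1 hc⟩)
    (by
      rintro W ⟨a1, a2⟩
      exact ⟨a1, a2.imp (hincl W _).2 (And.imp_right (hincl W _).2)⟩)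
    ⟨W₀, ⟨⟨h1, h3', fun z hz => by
      obtain ⟨c, z', hz', hc⟩ := h2 _ hz
      obtain ⟨c', rfl⟩ := hrat c fun σ => res_fixed _ W₀ h1 σ (T σ) (h4 σ)
        (fun c z hz => hTcompat σ c z hz) z c z' hz' hc
      refine ⟨c', ?_⟩
      have h5 : algebraMap F (geomPro ℓ k F Ω) (z - algebraMap k F c') = z' := by
        apply Subtype.ext
        rw [hc]
        change algebraMap F Ω (z - algebraMap k F c') = _
        rw [map_sub, ← IsScalarTower.algebraMap_apply]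
        rfl
      rw [h5]
      exact hz'⟩, fun σ _ z => h4 σ z⟩, fun W' hW' hst =>
      hun W' hW'.1 hW'.2 fun σ z => hst σ trivial z⟩
  exact ⟨W, ⟨⟨hW1, hW2, hW3⟩, fun σ z hz => hW4 σ trivial z hz⟩, fun W' b1 b2 b3 z hz =>
    hWun W' ⟨b1, b2⟩ (fun σ _ z hz => b3 σ z hz) z hz⟩

end main

end Pool.Agent.H93S
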