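import Pool.Agent.H93S.Core3
import Pool.Agent.Y157.PS.Fin
import Pool.Agent.Y157.PS.Padic
import Pool.Agent.Y157.PS.Ind2

/-!
# Project SC: sections of twists by rotations over complete fields, all groups
-/

set_option autoImplicit false
set_option linter.all false

open Polynomial FF

namespace Pool.Agent.H93S

open Pool.Agent.Y157.PS Pool.Agent.Y948.PS Pool.Agent.Y31.PS Pool.Agent.R925.Q Pool.Agent.R925.X
  Pool.Agent.R925.L

section main

variable {A k F Ω : Type} [CommRing A] [IsDomain A] [IsDiscreteValuationRing A]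
    [Finite (IsLocalRing.ResidueField A)] [Field k] [CharZero k] [Algebra A k] [IsFractionRing A k]
    [Field F] [Field Ω] [Algebra k F] [Algebra F Ω] [Algebra k Ω] [IsScalarTower k F Ω]
    [IsAlgClosed Ω] [Algebra.IsAlgebraic F Ω]

theorem padic3 [IsAdicComplete (IsLocalRing.maximalIdeal A) A] {ℓ : ℕ} [Fact ℓ.Prime]
    (hℓ : IsUnit (ℓ : A)) {j : ℕ} (hj : 1 ≤ j) (g : A[X]) (hlc : IsUnit g.leadingCoeff)
    (hs : ((expand A (ℓ ^ j) g).map (IsLocalRing.residue A)).Separable)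
    {ϖ t : A} (hϖ : Irreducible ϖ) (ht : IsUnit t) {α : ℤ} (hα : ¬ ((ℓ ^ j : ℕ) : ℤ) ∣ α) {a : k}
    (ha : a = algebraMap A k t * algebraMap A k ϖ ^ α) (Ends : Prop) (f h : k[X])
    (hf : f = (g.map (algebraMap A k)).comp (Polynomial.C a * X ^ (ℓ ^ j)))
    (hh : (Ends ∧ h = X * f) ∨ (¬ Ends ∧ h = f))
    (h3a : Ends → 1 ≤ g.natDegree) (h3b : ¬ Ends → 3 ≤ ℓ ^ j * g.natDegree)
    (x : F) (hx : Transcendental k x)
    (halg : Algebra.IsAlgebraic (IntermediateField.adjoin k {x}) F)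
    (N : IntermediateField (IntermediateField.adjoin (algebraicClosure k Ω) {algebraMap F Ω x}) Ω)
    (hN1 : FiniteDimensional
      (IntermediateField.adjoin (algebraicClosure k Ω) {algebraMap F Ω x}) N)
    (hN2 : IsGalois (IntermediateField.adjoin (algebraicClosure k Ω) {algebraMap F Ω x}) N)
    (hN3 : ∃ m : ℕ, Module.finrank
      (IntermediateField.adjoin (algebraicClosure k Ω) {algebraMap F Ω x}) N = ℓ ^ m)
    (hFN : ∀ z : F, algebraMap F Ω z ∈ N)
    (hidx : ∀ W : ValuationSubring Ω, (∀ c : k, algebraMap k Ω c ∈ W) → W ≠ ⊤ →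
      ((algebraMap F Ω (aeval x h) ∈ W.nonunits ∨ (Ends ∧ (algebraMap F Ω x)⁻¹ ∈ W.nonunits)) →
        (valGrp W (IntermediateField.adjoin (algebraicClosure k Ω)
          {algebraMap F Ω x}).toSubfield).relIndex (valGrp W (geomF k F Ω).toSubfield) = ℓ) ∧
      (¬ (algebraMap F Ω (aeval x h) ∈ W.nonunits ∨ (Ends ∧ (algebraMap F Ω x)⁻¹ ∈ W.nonunits)) →
        (valGrp W (IntermediateField.adjoin (algebraicClosure k Ω)
          {algebraMap F Ω x}).toSubfield).relIndex (valGrp W (geomF k F Ω).toSubfield) = 1))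
    (M : IntermediateField F Ω) (hM : geomPro ℓ k F Ω ≤ M)
    (S : (algebraicClosure k Ω ≃ₐ[k] algebraicClosure k Ω) →* (M ≃ₐ[F] M)) (hcont : Continuous S)
    (hcompat : ∀ σ (c : algebraicClosure k Ω) (z : M), (z : Ω) = (c : Ω) →
      (S σ z : Ω) = (σ c : Ω)) :
    ∃ W : ValuationSubring M,
      (((∀ c : k, algebraMap F M (algebraMap k F c) ∈ W) ∧
       AB True x x W ∧
       (∀ z : F, algebraMap F M z ∈ W →
          ∃ c : k, algebraMap F M (z - algebraMap k F c) ∈ W.nonunits)) ∧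
       ∀ σ, ∀ z : M, (z : Ω) ∈ geomPro ℓ k F Ω → (S σ z ∈ W ↔ z ∈ W)) ∧
      ∀ W' : ValuationSubring M,
        (∀ c : k, algebraMap F M (algebraMap k F c) ∈ W') →
        AB True (x * aeval x f) x W' →
        (∀ σ, ∀ z : M, (z : Ω) ∈ geomPro ℓ k F Ω → (S σ z ∈ W' ↔ z ∈ W')) →
        ∀ z : M, (z : Ω) ∈ geomPro ℓ k F Ω → (z ∈ W' ↔ z ∈ W) := by
  obtain ⟨T, hTc, hT⟩ := a_ind2 ℓ k F Ω x hx halg M hM _ S hcont
  have hTcompat : ∀ σ (c : algebraicClosure k Ω) (z : geomPro ℓ k F Ω), (z : Ω) = (c : Ω) →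
      (T σ z : Ω) = (σ c : Ω) := by
    intro σ c z hz
    have h1 : (z : Ω) ∈ M := hM z.2
    rw [hT σ ⟨(z : Ω), h1⟩ z rfl]
    exact hcompat σ c _ hz
  obtain ⟨W₀, ⟨h1, h2, h3', h4⟩, hun⟩ := core3 hℓ hj g hlc hs hϖ ht hα ha Ends f h hf hh h3a
    h3b x hx N hN1 hN2 hN3 hFN hidx T hTc hTcompat
  have hac : IsAlgClosure k (algebraicClosure k Ω) := inferInstance
  have : Normal k (algebraicClosure k Ω) := IsAlgClosure.normal k _
  have hGal : IsGalois k (algebraicClosure k Ω) := ⟨⟩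
  have hrat : ∀ c : algebraicClosure k Ω, (∀ σ : algebraicClosure k Ω ≃ₐ[k]
      algebraicClosure k Ω, σ c = c) → ∃ c' : k, algebraMap k (algebraicClosure k Ω) c' = c := by
    intro c hc
    have h5 := (InfiniteGalois.mem_bot_iff_fixed c).2 hc
    exact IntermediateField.mem_bot.1 h5
  have hincl := fun (W : ValuationSubring M) z => non_incl ((IntermediateField.inclusion hM :
        geomPro ℓ k F Ω →ₐ[F] M) : geomPro ℓ k F Ω →+* M) W z
  obtain ⟨W, ⟨⟨hW1, hW2, hW3⟩, hW4⟩, hWun⟩ := lift_thm (geomPro ℓ k F Ω) M hM S T (fun _ => True) hT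
    (fun L W => (∀ c : k, algebraMap F L (algebraMap k F c) ∈ W) ∧
       AB True x x W ∧
       (∀ z : F, algebraMap F L z ∈ W →
          ∃ c : k, algebraMap F L (z - algebraMap k F c) ∈ W.nonunits))
    (fun L W => (∀ c : k, algebraMap F L (algebraMap k F c) ∈ W) ∧
      AB True (x * aeval x f) x W)
    (by
      rintro W ⟨a1, a2, a3⟩
      refine ⟨a1, a2.imp (hincl W _).1 (And.imp_right (hincl W _).1), fun z hz => ?_⟩
      obtain ⟨c, hc⟩ := a3 z hz
      exact ⟨c, (hincl W _).1 hc⟩)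
    (by
      rintro W ⟨a1, a2⟩
      exact ⟨a1, a2.imp (hincl W _).2 (And.imp_right (hincl W _).2)⟩)
    ⟨W₀, ⟨⟨h1, h3', fun z hz => by
      obtain ⟨c, z', hz', hc⟩ := h2 _ hz
      obtain ⟨c', rfl⟩ := hrat c fun σ => res_fixed _ W₀ h1 σ (T σ) (h4 σ)
        (fun c z hz => hTcompat σ c z hz) z c z' hz' hc
      refine ⟨c', ?_⟩
      have h5 : algebraMap F (geomPro ℓ k F Ω) (z - algebraMap k F c') = z' := by
        apply Subtype.ext
        rw [hc]
        change algebraMap F Ω (z - algebraMap k F c') = _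
        rw [map_sub, ← IsScalarTower.algebraMap_apply]
        rfl
      rw [h5]
      exact hz'⟩, fun σ _ z => h4 σ z⟩, fun W' hW' hst =>
      hun W' hW'.1 hW'.2 fun σ z => hst σ trivial z⟩
  exact ⟨W, ⟨⟨hW1, hW2, hW3⟩, fun σ z hz => hW4 σ trivial z hz⟩, fun W' b1 b2 b3 z hz =>
    hWun W' ⟨b1, b2⟩ (fun σ _ z hz => b3 σ z hz) z hz⟩

end main

end Pool.Agent.H93S
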