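import Pool.Agent.H93S.Gcom
import Pool.Agent.H93S.H90
import Pool.Agent.H93S.Abv

/-!
# Project SC: rotations of `ℓ`-power order, abstract form
-/

set_option autoImplicit false
set_option linter.all false

open Polynomial FF

namespace Pool.Agent.H93S

open Pool.Agent.Y157.PS Pool.Agent.Y948.PS Pool.Agent.Y31.PS Pool.Agent.R925.Q Pool.Agent.R925.X
  Pool.Agent.R925.L

/-- exactly one valuation ring above `t = 0` or `t = ∞` is fixed -/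
theorem rotL {ℓ J : ℕ} [Fact ℓ.Prime] {A k κ Ω : Type} [CommRing A] [IsDomain A]
    [IsDiscreteValuationRing A] [Finite (IsLocalRing.ResidueField A)] [Field k] [CharZero k]
    [Algebra A k] [IsFractionRing A k] [Field κ] [Algebra k κ] [Algebra A κ]
    [IsScalarTower A k κ] [IsAlgClosure k κ] [Field Ω] [IsAlgClosed Ω] [Algebra κ Ω]
    (V : ValuationSubring κ) (hJ : 1 ≤ J) (hℓ : IsUnit (ℓ : A))
    (hVa : ∀ a : A, algebraMap A κ a ∈ V)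
    (hVm : ∀ a ∈ IsLocalRing.maximalIdeal A, algebraMap A κ a ∈ V.nonunits)
    {t Y : Ω} (htr : Transcendental κ t)
    (hal : Algebra.IsAlgebraic (IntermediateField.adjoin κ {t}) Ω) {C : Finset κ}
    (hCl : ℓ ∣ C.card) (hC3 : 3 ≤ C.card) (hGC : Good V C) (hC0 : (0 : κ) ∉ C)
    (hrot : ∀ ζ : κ, ζ ^ (ℓ ^ J) = 1 → ∀ θ ∈ C, ζ * θ ∈ C)
    (hYC : Y ^ ℓ = ∏ θ ∈ C, (t - algebraMap κ Ω θ)) {M : IntermediateField κ Ω}
    (hM : ∀ z, z ∈ M ↔ z ∈ maxPro ℓ κ (KY κ t Y) Ω)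
    {s : (κ ≃ₐ[k] κ) →* RingAut M} (hs : SL k κ M s) (htM : t ∈ M) {ρ : κ} (hρ0 : ρ ≠ 0)
    (hst : ∀ σ, s σ ⟨t, htM⟩ = algebraMap κ M (σ ρ / ρ) * ⟨t, htM⟩)
    {ϖ u : A} {α : ℤ} (hϖ : Irreducible ϖ) (hu : IsUnit u) (hα : ¬ ((ℓ ^ J : ℕ) : ℤ) ∣ α)
    (hρ : ρ ^ (ℓ ^ J) = algebraMap A κ u * algebraMap A κ ϖ ^ α)
    (hYM : Y ∈ M) (hYs : ∀ σ, s σ ((⟨Y, hYM⟩ : M) ^ ℓ) = (⟨Y, hYM⟩ : M) ^ ℓ) :
    ∃ W : ValuationSubring M,
      ((∀ c : κ, algebraMap κ M c ∈ W) ∧ (∀ z ∈ W, ∃ c : κ, z - algebraMap κ M c ∈ W.nonunits) ∧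
        ((⟨t, htM⟩ : M) ∈ W.nonunits ∨ (⟨t, htM⟩ : M)⁻¹ ∈ W.nonunits) ∧
        ∀ σ, Dec V σ → ∀ z, s σ z ∈ W ↔ z ∈ W) ∧
      ∀ W' : ValuationSubring M, (∀ c : κ, algebraMap κ M c ∈ W') →
        ((⟨t, htM⟩ : M) ∈ W'.nonunits ∨ (⟨t, htM⟩ : M)⁻¹ ∈ W'.nonunits ∨
          ∃ θ ∈ C, (⟨t, htM⟩ : M) - algebraMap κ M θ ∈ W'.nonunits) →
        (∀ σ, Dec V σ → ∀ z, s σ z ∈ W' ↔ z ∈ W') → W' = W := by
  classical
  have hℓp : ℓ.Prime := Fact.out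
  have hℓ0 := hℓp.ne_zero
  have hkb : IsAlgClosed κ := IsAlgClosure.isAlgClosed k
  have hch : CharZero κ := charZero_of_injective_algebraMap (algebraMap k κ).injective
  have hAk : ∀ (t : A) (n : ℤ), algebraMap k κ (algebraMap A k t * algebraMap A k ϖ ^ n) =
      algebraMap A κ t * algebraMap A κ ϖ ^ n := by
    intro t n
    rw [map_mul, map_zpow₀, ← IsScalarTower.algebraMap_apply, ← IsScalarTower.algebraMap_apply]
  have hY0 : Y ≠ 0 := by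
    rintro rfl
    rw [zero_pow hℓ0] at hYC
    obtain ⟨θ, -, hθ⟩ := Finset.prod_eq_zero_iff.1 hYC.symm
    apply htr
    rw [sub_eq_zero.1 hθ]
    exact isAlgebraic_algebraMap _
  obtain ⟨δ, hδ0, hδs, a', ha'⟩ := kummer h90 hs
    (t := (⟨Y, hYM⟩ : M)) (fun h => hY0 (congrArg Subtype.val h)) hYs
  have ha'0 : a' ≠ 0 := by
    rintro rfl
    rw [map_zero] at ha'
    exact pow_ne_zero _ hδ0 ha'
  obtain ⟨t', β, ht', hat'⟩ := exists_unit_zpow (A := A) hϖ ha'0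
  have hδt : δ ^ ℓ = algebraMap A κ t' * algebraMap A κ ϖ ^ β := by
    rw [ha', hat', hAk]
  have hdata : Data ℓ J A k κ V ϖ ρ δ α β :=
    ⟨hJ, hℓ, hVa, hVm, hϖ, hα, ⟨u, hu, hρ⟩, ⟨t', ht', hδt⟩⟩
  let R := IntermediateField.adjoin κ {t}
  haveI hcl : IsAlgClosure R Ω := ⟨inferInstance, hal⟩
  have hrat : RatF κ (⟨t, IntermediateField.mem_adjoin_simple_self κ t⟩ : R) := ratF_adj htr
  let x' : R := ⟨t, IntermediateField.mem_adjoin_simple_self κ t⟩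
  obtain ⟨M', hM'⟩ : ∃ M' : IntermediateField R Ω,
      ∀ z, z ∈ M' ↔ z ∈ maxPro ℓ κ (KY κ t Y) Ω :=
    ⟨(maxPro ℓ κ (KY κ t Y) Ω).restrictScalars R, fun z => Iff.rfl⟩
  have hMM : ∀ z, z ∈ M' ↔ z ∈ M := fun z => (hM' z).trans (hM z).symm
  have hYM' : Y ∈ M' := (hMM Y).2 hYM
  have hCov : Cov ℓ κ R M' x' C ⟨Y, hYM'⟩ :=
    a_cov ℓ κ R Ω x' hrat C hCl hC3 Y hYC M' hM' ⟨Y, hYM'⟩ rfl
  let eqv : M' ≃+* M :=
    { toFun := fun w => ⟨w.1, (hMM _).1 w.2⟩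
      invFun := fun w => ⟨w.1, (hMM _).2 w.2⟩
      left_inv := fun w => rfl
      right_inv := fun w => rfl
      map_mul' := fun w w' => rfl
      map_add' := fun w w' => rfl }
  obtain ⟨F0, iF0, r, hr, ⟨D⟩⟩ := a_ndisc A k κ V hVa hVm ℓ hℓ
  have hkey : ∀ s' : (κ ≃ₐ[k] κ) →* RingAut M', Sec2 k κ R M' x' ⟨Y, hYM'⟩ ρ δ s' →
      Concl (Dec V) x' C s' := fun s' h => locR hdata hCov hGC hrot hC0 hr D h
  have htfix : (⟨t, htM⟩ : M) / algebraMap κ M ρ ∈ fixS s := by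
    intro σ
    rw [map_div₀, hs.const, hst]
    have h1 : algebraMap κ M ρ ≠ 0 := (_root_.map_ne_zero _).2 hρ0
    have h2 : algebraMap κ M (σ ρ) ≠ 0 := (_root_.map_ne_zero _).2 ((_root_.map_ne_zero σ).2 hρ0)
    rw [map_div₀]
    field_simp
  have hYfix : (⟨Y, hYM⟩ : M) / algebraMap κ M δ ∈ fixS s := by
    intro σ
    rw [map_div₀, hs.const, hδs]
    have h1 : algebraMap κ M δ ≠ 0 := (_root_.map_ne_zero _).2 hδ0
    have h2 : algebraMap κ M (σ δ) ≠ 0 := (_root_.map_ne_zero _).2 ((_root_.map_ne_zero σ).2 hδ0)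
    rw [map_div₀]
    field_simp
  have hαM : ∀ c : κ, eqv (algebraMap κ M' c) = algebraMap κ M c := fun c => rfl
  obtain ⟨W, ⟨h1, h2, h3', h4⟩, hun⟩ :=
    absR (R := R) (F := fixS s) x' C ⟨Y, hYM'⟩ hρ0 hδ0 hCov hkey eqv ⟨_, htfix⟩ ⟨_, hYfix⟩
      (by
        change (⟨t, _⟩ : M) = algebraMap κ M ρ * (⟨t, _⟩ / algebraMap κ M ρ)
        rw [mul_div_cancel₀ _ ((_root_.map_ne_zero _).2 hρ0)])
      (by
        change (⟨Y, _⟩ : M) = algebraMap κ M δ * (⟨Y, _⟩ / algebraMap κ M δ)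
        rw [mul_div_cancel₀ _ ((_root_.map_ne_zero _).2 hδ0)])
      (fixHom s) (fun z => hs.cont z) (fun σ c => hs.const σ c)
  have hρM : algebraMap κ M ρ ≠ 0 := (_root_.map_ne_zero _).2 hρ0
  have htM0 : (⟨t, htM⟩ : M) ≠ 0 := by
    intro h
    apply htr
    have h5 : t = 0 := congrArg Subtype.val h
    rw [h5]
    exact isAlgebraic_zero
  refine ⟨W, ⟨h1, h2, ?_, fun σ hσ z => h4 σ hσ z⟩, fun W' b1 b2 b3 => hun W' b1 ?_ b3⟩
  · rcases h3' with h3' | h3'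
    · left
      have h5 : (⟨t, htM⟩ : M) / algebraMap κ M ρ ∈ W.nonunits := h3'
      have h7 := non_mul (h1 ρ) h5
      rwa [hαM, mul_div_cancel₀ _ hρM] at h7
    · right
      have h5 : ((⟨t, htM⟩ : M) / algebraMap κ M ρ)⁻¹ ∈ W.nonunits := h3'
      have h7 := non_mul (h1 ρ⁻¹) h5
      rw [hαM, map_inv₀, inv_div] at h7
      have h9 : (algebraMap κ M ρ)⁻¹ * (algebraMap κ M ρ / (⟨t, htM⟩ : M)) =
          (⟨t, htM⟩ : M)⁻¹ := by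
        field_simp
      rwa [h9] at h7
  · rcases b2 with h | h | ⟨θ, hθ, h⟩
    · left
      have h6 := non_mul (b1 ρ⁻¹) h
      rw [map_inv₀, inv_mul_eq_div] at h6
      exact h6
    · right; left
      have h7 := non_mul (b1 ρ) h
      have h8 : ((⟨t, htM⟩ : M) / algebraMap κ M ρ)⁻¹ =
          algebraMap κ M ρ * (⟨t, htM⟩ : M)⁻¹ := by
        rw [inv_div, div_eq_mul_inv]
      change ((⟨t, htM⟩ : M) / algebraMap κ M ρ)⁻¹ ∈ W'.nonunits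
      rw [h8]
      exact h7
    · exact Or.inr (Or.inr ⟨θ, hθ, h⟩)

section

variable {κ Ω : Type} [Field κ] [Field Ω] [Algebra κ Ω] {M : IntermediateField κ Ω}

/-- scaling of the coordinate -/
theorem abvP_scale {X X' : M} {ρ : κ} (hρ : ρ ≠ 0) (hX : X' = algebraMap κ M ρ * X)
    {P B : Finset κ} (hB : ∀ θ, θ ∈ B ↔ ∃ e ∈ P, θ = ρ * e) {Inf : Prop} {W : ValuationSubring M}
    (hW : ∀ c : κ, algebraMap κ M c ∈ W) : AbvP X' B Inf W ↔ AbvP X P Inf W := by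
  have hρM : algebraMap κ M ρ ≠ 0 := (_root_.map_ne_zero _).2 hρ
  unfold AbvP
  refine or_congr ⟨?_, ?_⟩ (and_congr_right fun _ => ⟨fun h => ?_, fun h => ?_⟩)
  · rintro ⟨θ, hθ, h⟩
    obtain ⟨e, he, rfl⟩ := (hB θ).1 hθ
    refine ⟨e, he, ?_⟩
    have h1 := non_mul (hW ρ⁻¹) h
    have h2 : algebraMap κ M ρ⁻¹ * (X' - algebraMap κ M (ρ * e)) = X - algebraMap κ M e := by
      rw [hX, map_mul, map_inv₀, ← mul_sub, ← mul_assoc, inv_mul_cancel₀ hρM, one_mul]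
    rwa [h2] at h1
  · rintro ⟨e, he, h⟩
    refine ⟨ρ * e, (hB _).2 ⟨e, he, rfl⟩, ?_⟩
    have h1 := non_mul (hW ρ) h
    have h2 : algebraMap κ M ρ * (X - algebraMap κ M e) = X' - algebraMap κ M (ρ * e) := by
      rw [hX, map_mul, mul_sub]
    rwa [h2] at h1
  · have h1 := non_mul (hW ρ) h
    have h2 : algebraMap κ M ρ * X'⁻¹ = X⁻¹ := by
      rw [hX, mul_inv, ← mul_assoc, mul_inv_cancel₀ hρM, one_mul]
    rwa [h2] at h1
  · have h1 := non_mul (hW ρ⁻¹) h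
    have h2 : algebraMap κ M ρ⁻¹ * X⁻¹ = X'⁻¹ := by
      rw [hX, mul_inv, map_inv₀]
    rwa [h2] at h1

end

end Pool.Agent.H93S
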