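import Pool.Agent.H93S.Rot
import Pool.Agent.H93S.Fof
import Pool.Agent.H93S.Mob
import Pool.Agent.H93S.Pad

/-!
# Project SC: rotations of `ℓ`-power order, the field `M`
-/

set_option autoImplicit false
set_option linter.all false

open Polynomial FF

namespace Pool.Agent.H93S

open Pool.Agent.Y157.PS Pool.Agent.Y948.PS Pool.Agent.Y31.PS Pool.Agent.R925.Q Pool.Agent.R925.X
  Pool.Agent.R925.L

/-- `κ(x, Y)` in two ways -/
theorem maxPro_KY {ℓ : ℕ} {κ Ω : Type} [Field κ] [Field Ω] [Algebra κ Ω] (x Y : Ω) (z : Ω) :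
    z ∈ maxPro ℓ κ (IntermediateField.adjoin κ (insert x (Set.range fun _ : Unit => Y))) Ω ↔
      z ∈ maxPro ℓ κ (KY κ x Y) Ω := by
  have hmem : ∀ w : Ω, w ∈ IntermediateField.adjoin κ (insert x (Set.range fun _ : Unit => Y)) ↔
      w ∈ KY κ x Y := by
    intro w
    constructor
    · intro hw
      refine adjoin_le_sub (K := κ) (T := (KY κ x Y).toSubfield) ?_ ?_ w hw
      · intro c
        exact (KY κ x Y).algebraMap_mem (algebraMap κ (IntermediateField.adjoin κ {x}) c)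
      · intro v hv
        rcases hv with hv | ⟨_, rfl⟩
        · rw [hv]
          exact (KY κ x Y).algebraMap_mem ⟨x, IntermediateField.mem_adjoin_simple_self κ x⟩
        · exact IntermediateField.mem_adjoin_simple_self _ Y
    · intro hw
      refine adjoin_le_sub (K := IntermediateField.adjoin κ {x}) (S := {Y})
        (T := (IntermediateField.adjoin κ (insert x (Set.range fun _ : Unit => Y))).toSubfield)
        ?_ ?_ w hw
      · intro c
        have h1 : IntermediateField.adjoin κ {x} ≤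
            IntermediateField.adjoin κ (insert x (Set.range fun _ : Unit => Y)) := by
          rw [IntermediateField.adjoin_simple_le_iff]
          exact IntermediateField.subset_adjoin _ _ (Set.mem_insert _ _)
        exact h1 c.2
      · intro v hv
        rw [Set.mem_singleton_iff.1 hv]
        exact IntermediateField.subset_adjoin _ _ (Set.mem_insert_of_mem _ ⟨(), rfl⟩)
  let e : IntermediateField.adjoin κ (insert x (Set.range fun _ : Unit => Y)) ≃+* KY κ x Y :=
    { toFun := fun w => ⟨w.1, (hmem _).1 w.2⟩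
      invFun := fun w => ⟨w.1, (hmem _).2 w.2⟩
      left_inv := fun w => rfl
      right_inv := fun w => rfl
      map_mul' := fun w w' => rfl
      map_add' := fun w w' => rfl }
  exact maxPro_congr e (fun a => rfl) (fun W => Iff.rfl) z

section gen

variable {ℓ : ℕ} [Fact ℓ.Prime] {κ Ω : Type} [Field κ] [IsAlgClosed κ] [CharZero κ] [Field Ω]
  [IsAlgClosed Ω] [Algebra κ Ω]

/-- the field `M` of a uniformly ramified extension whose branch points are the elements of `P`, in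
the coordinate `ρ X0` -/
theorem same_gen {X0 : Ω} (hX0 : Transcendental κ X0)
    (halg0 : Algebra.IsAlgebraic (IntermediateField.adjoin κ {X0}) Ω) (P : Finset κ)
    (N : IntermediateField (IntermediateField.adjoin κ {X0}) Ω)
    (hN1 : FiniteDimensional (IntermediateField.adjoin κ {X0}) N)
    (hN2 : IsGalois (IntermediateField.adjoin κ {X0}) N)
    (hN3 : ∃ m : ℕ, Module.finrank (IntermediateField.adjoin κ {X0}) N = ℓ ^ m)
    {L : IntermediateField κ Ω} (hXL : X0 ∈ L) (hLN : ∀ t ∈ L, t ∈ N)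
    {Inf : Prop} (hI : ¬ Inf)
    (hidx : ∀ W : ValuationSubring Ω, (∀ c : κ, algebraMap _ Ω c ∈ W) → W ≠ ⊤ →
      (((∃ e ∈ P, X0 - algebraMap _ Ω e ∈ W.nonunits) ∨ (Inf ∧ X0⁻¹ ∈ W.nonunits)) →
        (valGrp W (IntermediateField.adjoin κ {X0}).toSubfield).relIndex
          (valGrp W L.toSubfield) = ℓ) ∧
      (¬ ((∃ e ∈ P, X0 - algebraMap _ Ω e ∈ W.nonunits) ∨ (Inf ∧ X0⁻¹ ∈ W.nonunits)) →
        (valGrp W (IntermediateField.adjoin κ {X0}).toSubfield).relIndex
          (valGrp W L.toSubfield) = 1))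
    {ρ : κ} (hρ : ρ ≠ 0) {C : Finset κ} (hC : ∀ θ, θ ∈ C ↔ ∃ e ∈ P, θ = ρ * e)
    (hCl : ℓ ∣ C.card) (hC3 : 3 ≤ C.card) {Y0 : Ω}
    (hY : Y0 ^ ℓ = ∏ θ ∈ C, (algebraMap κ Ω ρ * X0 - algebraMap κ Ω θ)) (z : Ω) :
    z ∈ maxPro ℓ κ L Ω ↔ z ∈ maxPro ℓ κ (KY κ (algebraMap κ Ω ρ * X0) Y0) Ω := by
  have hℓp : ℓ.Prime := Fact.out
  have hρΩ : algebraMap κ Ω ρ ≠ 0 := (_root_.map_ne_zero _).2 hρ
  obtain ⟨x0, hx0⟩ : ∃ x0, x0 = algebraMap κ Ω ρ * X0 := ⟨_, rfl⟩
  rw [← hx0] at hY ⊢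
  have hXx : X0 = algebraMap κ Ω ρ⁻¹ * x0 := by
    rw [hx0, ← mul_assoc, ← map_mul, inv_mul_cancel₀ hρ, map_one, one_mul]
  have htr : Transcendental κ x0 := by
    intro h
    apply hX0
    rw [hXx]
    exact (isAlgebraic_algebraMap _).mul h
  have hS0 : ∀ S : IntermediateField κ Ω, X0 ∈ S ↔ x0 ∈ S := by
    intro S
    constructor
    · intro h
      rw [hx0]
      exact mul_mem (S.algebraMap_mem _) h
    · intro h
      rw [hXx]
      exact mul_mem (S.algebraMap_mem _) h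
  have hadj : IntermediateField.adjoin κ {x0} = IntermediateField.adjoin κ {X0} := by
    refine le_antisymm ?_ ?_
    · rw [IntermediateField.adjoin_simple_le_iff, ← hS0]
      exact IntermediateField.mem_adjoin_simple_self _ _
    · rw [IntermediateField.adjoin_simple_le_iff, hS0]
      exact IntermediateField.mem_adjoin_simple_self _ _
  have halg : Algebra.IsAlgebraic (IntermediateField.adjoin κ {x0}) Ω := by
    rw [hadj]
    exact halg0
  obtain ⟨x', B, T, hcase, hR, hAb, -⟩ := mob ℓ κ Ω x0 htr halg C Unit (fun _ _ => 1) (fun _ => 1)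
    (fun _ => Y0) (fun _ => one_ne_zero) (fun _ => by rw [map_one, one_mul, hY]; simp)
    (fun e _ => ⟨(), fun h => hℓp.one_lt.ne' (Nat.dvd_one.1 h)⟩) (by omega) (fun _ => hC3)
  have hsum : ∑ e ∈ C, 1 = C.card := by simp
  rcases hcase with ⟨⟨_, h1⟩, -⟩ | ⟨-, hBc, e0, he0, hx', hB⟩
  · exact absurd (by rw [hsum]; exact hCl) h1
  have htr0 : ∀ e : κ, x0 - algebraMap κ Ω e ≠ 0 := by
    intro e h
    apply htr
    rw [sub_eq_zero.1 h]
    exact isAlgebraic_algebraMap _
  have hxx' : x0 = x'⁻¹ + algebraMap κ Ω e0 := by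
    rw [hx', inv_inv, sub_add_cancel]
  have hS : ∀ S : IntermediateField κ Ω, X0 ∈ S ↔ x' ∈ S := by
    intro S
    rw [hS0]
    constructor
    · intro h
      rw [hx']
      exact inv_mem (sub_mem h (S.algebraMap_mem _))
    · intro h
      rw [hxx']
      exact add_mem (inv_mem h) (S.algebraMap_mem _)
  obtain ⟨-, hUf⟩ := uf_gen (ℓ := ℓ) hR.tr halg0 hS P Inf N hN1 hN2 hN3 hXL hLN hidx (B := B)
    (fun M hxM W hW => by
      have hx0M : x0 ∈ M := (hS0 M).1 hxM
      have hx'M : x' ∈ M := (hS M).1 hxM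
      rw [abv_iff hx0M hx'M htr0 (Or.inr ⟨hI, e0, he0, hx', hB⟩) hW]
      exact abvP_scale hρ (Subtype.ext hx0) hC hW)
  have hB2 := hR.two
  obtain ⟨b, hb⟩ : B.Nonempty := by
    rw [← Finset.card_pos]; omega
  obtain ⟨Yb, hYb⟩ := hR.exY hℓp.ne_zero hb
  rw [max2 (uni Pool.Agent.Y809.PS.k0 co) hR hUf hb hYb z,
    ← all_max ℓ κ Ω x' B T hR _ hAb b hb Yb hYb z]
  exact maxPro_KY x0 Y0 z

end gen

section

variable {ℓ : ℕ} [Fact ℓ.Prime] {k F Ω : Type} [Field k] [CharZero k] [Field F] [Field Ω]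
  [Algebra k F] [Algebra F Ω] [Algebra k Ω] [IsScalarTower k F Ω] [IsAlgClosed Ω]
  [Algebra.IsAlgebraic F Ω]

theorem sameM {x : F} (hx : Transcendental k x)
    (P : Finset (algebraicClosure k Ω)) {Inf : Prop} (hI : ¬ Inf)
    (N : IntermediateField (IntermediateField.adjoin (algebraicClosure k Ω) {algebraMap F Ω x}) Ω)
    (hN1 : FiniteDimensional
      (IntermediateField.adjoin (algebraicClosure k Ω) {algebraMap F Ω x}) N)
    (hN2 : IsGalois (IntermediateField.adjoin (algebraicClosure k Ω) {algebraMap F Ω x}) N)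
    (hN3 : ∃ m : ℕ, Module.finrank
      (IntermediateField.adjoin (algebraicClosure k Ω) {algebraMap F Ω x}) N = ℓ ^ m)
    (hFN : ∀ z : F, algebraMap F Ω z ∈ N)
    (hidx : ∀ W : ValuationSubring Ω, (∀ c : algebraicClosure k Ω, algebraMap _ Ω c ∈ W) →
      W ≠ ⊤ →
      (((∃ e ∈ P, algebraMap F Ω x - algebraMap _ Ω e ∈ W.nonunits) ∨
          (Inf ∧ (algebraMap F Ω x)⁻¹ ∈ W.nonunits)) →
        (valGrp W (IntermediateField.adjoin (algebraicClosure k Ω)
          {algebraMap F Ω x}).toSubfield).relIndex (valGrp W (geomF k F Ω).toSubfield) = ℓ) ∧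
      (¬ ((∃ e ∈ P, algebraMap F Ω x - algebraMap _ Ω e ∈ W.nonunits) ∨
          (Inf ∧ (algebraMap F Ω x)⁻¹ ∈ W.nonunits)) →
        (valGrp W (IntermediateField.adjoin (algebraicClosure k Ω)
          {algebraMap F Ω x}).toSubfield).relIndex (valGrp W (geomF k F Ω).toSubfield) = 1))
    {ρ : algebraicClosure k Ω} (hρ : ρ ≠ 0) {C : Finset (algebraicClosure k Ω)}
    (hC : ∀ θ, θ ∈ C ↔ ∃ e ∈ P, θ = ρ * e) (hCl : ℓ ∣ C.card) (hC3 : 3 ≤ C.card) {Y0 : Ω}
    (hY : Y0 ^ ℓ = ∏ θ ∈ C, (algebraMap _ Ω ρ * algebraMap F Ω x - algebraMap _ Ω θ)) (z : Ω) :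
    z ∈ Mc ℓ k F Ω ↔ z ∈ maxPro ℓ (algebraicClosure k Ω) (KY (algebraicClosure k Ω)
      (algebraMap _ Ω ρ * algebraMap F Ω x) Y0) Ω := by
  have hac : IsAlgClosure k (algebraicClosure k Ω) := inferInstance
  have hkb : IsAlgClosed (algebraicClosure k Ω) := hac.1
  have hch : CharZero (algebraicClosure k Ω) :=
    charZero_of_injective_algebraMap (algebraMap k (algebraicClosure k Ω)).injective
  have halg0 := alg_of_N N hN1 hFN
  have hLN : ∀ t ∈ Gf k F Ω, t ∈ N := by
    intro t ht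
    have ht' : t ∈ geomF k F Ω := (mem_Gf t).1 ht
    refine adjoin_le_sub (K := F) (S := (algebraicClosure k Ω : Set Ω)) (T := N.toSubfield)
      ?_ ?_ t ht'
    · intro r
      exact hFN r
    · intro c hc
      exact N.algebraMap_mem ⟨c, (IntermediateField.adjoin (algebraicClosure k Ω)
        {algebraMap F Ω x}).algebraMap_mem ⟨c, hc⟩⟩
  have hXL : algebraMap F Ω x ∈ Gf k F Ω := (geomF k F Ω).algebraMap_mem x
  have hX0t : Transcendental (algebraicClosure k Ω) (algebraMap F Ω x) :=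
    trans_up ((transcendental_algebraMap_iff (R := k) (algebraMap F Ω).injective (a := x)).2 hx)
  rw [mem_Mc, ← same_gen hX0t halg0 P N hN1 hN2 hN3 hXL hLN hI hidx hρ hC hCl hC3 hY z]
  exact (maxPro_Gf z).symm

end

end Pool.Agent.H93S
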