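import Pool.Agent.H93S.Rot

/-!
# Project SC: rotations of `ℓ`-power order, the two cases
-/

set_option autoImplicit false
set_option linter.all false

open Polynomial FF

namespace Pool.Agent.H93S

open Pool.Agent.Y157.PS Pool.Agent.Y948.PS Pool.Agent.Y31.PS Pool.Agent.R925.Q Pool.Agent.R925.X
  Pool.Agent.R925.L

/-- exactly one valuation ring above `X = 0` or `X = ∞` is fixed by the `s σ`, `σ` in the decomposition
group, also among those above `ρ X = θ`, `θ ∈ C` -/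
def OneE {k κ Ω : Type} [Field k] [Field κ] [Field Ω] [Algebra k κ] [Algebra κ Ω]
    (V : ValuationSubring κ) {M : IntermediateField κ Ω} (X : M) (ρ : κ) (C : Finset κ)
    (s : (κ ≃ₐ[k] κ) →* RingAut M) : Prop :=
  ∃ W : ValuationSubring M,
    ((∀ c : κ, algebraMap κ M c ∈ W) ∧ (∀ z ∈ W, ∃ c : κ, z - algebraMap κ M c ∈ W.nonunits) ∧
      (X ∈ W.nonunits ∨ X⁻¹ ∈ W.nonunits) ∧ ∀ σ, Dec V σ → ∀ z, s σ z ∈ W ↔ z ∈ W) ∧
    ∀ W' : ValuationSubring M, (∀ c : κ, algebraMap κ M c ∈ W') →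
      (X ∈ W'.nonunits ∨ X⁻¹ ∈ W'.nonunits ∨
        ∃ θ ∈ C, algebraMap κ M ρ * X - algebraMap κ M θ ∈ W'.nonunits) →
      (∀ σ, Dec V σ → ∀ z, s σ z ∈ W' ↔ z ∈ W') → W' = W

theorem non_scale {κ M : Type} [Field κ] [Field M] [Algebra κ M] {W : ValuationSubring M}
    (hW : ∀ c : κ, algebraMap κ M c ∈ W) {ρ : κ} (hρ : ρ ≠ 0) (X : M) :
    (algebraMap κ M ρ * X ∈ W.nonunits ↔ X ∈ W.nonunits) ∧
      ((algebraMap κ M ρ * X)⁻¹ ∈ W.nonunits ↔ X⁻¹ ∈ W.nonunits) := by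
  have hρM : algebraMap κ M ρ ≠ 0 := (_root_.map_ne_zero _).2 hρ
  refine ⟨⟨fun h => ?_, fun h => non_mul (hW _) h⟩, ⟨fun h => ?_, fun h => ?_⟩⟩
  · have h1 := non_mul (hW ρ⁻¹) h
    rwa [map_inv₀, inv_mul_cancel_left₀ hρM] at h1
  · have h1 := non_mul (hW ρ) h
    rwa [mul_inv, mul_inv_cancel_left₀ hρM] at h1
  · rw [mul_inv, ← map_inv₀]
    exact non_mul (hW _) h

section

variable {ℓ : ℕ} [Fact ℓ.Prime] {A k κ Ω : Type} [CommRing A] [IsDomain A]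
    [IsDiscreteValuationRing A] [Finite (IsLocalRing.ResidueField A)] [Field k] [CharZero k]
    [Algebra A k] [IsFractionRing A k] [Field κ] [Algebra k κ] [Algebra A κ]
    [IsScalarTower A k κ] [IsAlgClosure k κ] [Field Ω] [IsAlgClosed Ω] [Algebra κ Ω]

/-- `0` and `∞` are not branch points -/
theorem rotA (V : ValuationSubring κ) {j : ℕ} (hj : 1 ≤ j) (hℓ : IsUnit (ℓ : A))
    (hVa : ∀ a : A, algebraMap A κ a ∈ V)
    (hVm : ∀ a ∈ IsLocalRing.maximalIdeal A, algebraMap A κ a ∈ V.nonunits)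
    {X0 Y : Ω} (htr : Transcendental κ X0)
    (hal : Algebra.IsAlgebraic (IntermediateField.adjoin κ {X0}) Ω) {C : Finset κ}
    (hCl : ℓ ∣ C.card) (hC3 : 3 ≤ C.card) (hGC : Good V C) (hC0 : (0 : κ) ∉ C)
    (hrot : ∀ ζ : κ, ζ ^ (ℓ ^ j) = 1 → ∀ θ ∈ C, ζ * θ ∈ C)
    {ρ : κ} (hρ0 : ρ ≠ 0)
    (hYC : Y ^ ℓ = ∏ θ ∈ C, (algebraMap κ Ω ρ * X0 - algebraMap κ Ω θ))
    {M : IntermediateField κ Ω}
    (hM : ∀ z, z ∈ M ↔ z ∈ maxPro ℓ κ (KY κ (algebraMap κ Ω ρ * X0) Y) Ω)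
    {s : (κ ≃ₐ[k] κ) →* RingAut M} (hs : SL k κ M s) (hXM : X0 ∈ M)
    (hsX : ∀ σ, s σ ⟨X0, hXM⟩ = ⟨X0, hXM⟩)
    (hsf : ∀ σ, ∀ z : M, (z : Ω) = ∏ θ ∈ C, (algebraMap κ Ω ρ * X0 - algebraMap κ Ω θ) →
      s σ z = z)
    {ϖ u : A} {α : ℤ} (hϖ : Irreducible ϖ) (hu : IsUnit u) (hα : ¬ ((ℓ ^ j : ℕ) : ℤ) ∣ α)
    (hρ : ρ ^ (ℓ ^ j) = algebraMap A κ u * algebraMap A κ ϖ ^ α) :
    OneE V (⟨X0, hXM⟩ : M) ρ C s := by
  have hρΩ : algebraMap κ Ω ρ ≠ 0 := (_root_.map_ne_zero _).2 hρ0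
  obtain ⟨t, ht⟩ : ∃ t, t = algebraMap κ Ω ρ * X0 := ⟨_, rfl⟩
  have hXt : X0 = algebraMap κ Ω ρ⁻¹ * t := by
    rw [ht, ← mul_assoc, ← map_mul, inv_mul_cancel₀ hρ0, map_one, one_mul]
  have hS0 : ∀ S : IntermediateField κ Ω, X0 ∈ S ↔ t ∈ S := by
    intro S
    constructor
    · intro h
      rw [ht]
      exact mul_mem (S.algebraMap_mem _) h
    · intro h
      rw [hXt]
      exact mul_mem (S.algebraMap_mem _) h
  have hadj : IntermediateField.adjoin κ {t} = IntermediateField.adjoin κ {X0} := by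
    refine le_antisymm ?_ ?_
    · rw [IntermediateField.adjoin_simple_le_iff, ← hS0]
      exact IntermediateField.mem_adjoin_simple_self _ _
    · rw [IntermediateField.adjoin_simple_le_iff, hS0]
      exact IntermediateField.mem_adjoin_simple_self _ _
  have halt : Algebra.IsAlgebraic (IntermediateField.adjoin κ {t}) Ω := by
    rw [hadj]
    exact hal
  have htt : Transcendental κ t := by
    intro h
    apply htr
    rw [hXt]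
    exact (isAlgebraic_algebraMap _).mul h
  have htM : t ∈ M := (hS0 M).1 hXM
  have hYM : Y ∈ M := by
    rw [hM]
    exact (maxPro ℓ κ (KY κ (algebraMap κ Ω ρ * X0) Y) Ω).algebraMap_mem
      ⟨Y, IntermediateField.mem_adjoin_simple_self _ _⟩
  have htM' : (⟨t, htM⟩ : M) = algebraMap κ M ρ * ⟨X0, hXM⟩ := Subtype.ext ht
  have hst : ∀ σ, s σ ⟨t, htM⟩ = algebraMap κ M (σ ρ / ρ) * ⟨t, htM⟩ := by
    intro σ
    rw [htM', map_mul, hs.const, hsX, ← mul_assoc, ← map_mul, div_mul_cancel₀ _ hρ0]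
  rw [← ht] at hYC hM
  obtain ⟨W, ⟨h1, h2, h3, h4⟩, hun⟩ := rotL V hj hℓ hVa hVm htt halt hCl hC3 hGC hC0 hrot hYC hM hs
    htM hρ0 hst hϖ hu hα hρ hYM (fun σ => by
      refine hsf σ _ ?_
      rw [← ht]
      exact hYC)
  rw [htM', (non_scale h1 hρ0 _).1, (non_scale h1 hρ0 _).2] at h3
  refine ⟨W, ⟨h1, h2, h3, h4⟩, fun W' b1 b2 b3 => hun W' b1 ?_ b3⟩
  rw [htM', (non_scale b1 hρ0 _).1, (non_scale b1 hρ0 _).2]
  exact b2

/-- `0` and `∞` are branch points -/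
theorem rotB [DecidableEq κ] (V : ValuationSubring κ) {j : ℕ} (hℓ : IsUnit (ℓ : A))
    (hVa : ∀ a : A, algebraMap A κ a ∈ V)
    (hVm : ∀ a ∈ IsLocalRing.maximalIdeal A, algebraMap A κ a ∈ V.nonunits)
    {X0 : Ω} {B C : Finset κ} (hB0 : (0 : κ) ∈ B) (hBC : B.erase 0 = C) {ρ : κ} (hρ0 : ρ ≠ 0)
    {T : κ → Ω} {M : IntermediateField κ Ω} (hF : Fld ℓ (algebraMap κ Ω ρ * X0) B T M)
    (hGB : Good V B) (hrot : ∀ ζ : κ, ζ ^ (ℓ ^ j) = 1 → ∀ θ ∈ C, ζ * θ ∈ C)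
    {s : (κ ≃ₐ[k] κ) →* RingAut M} (hs : SL k κ M s) (hXM : X0 ∈ M)
    (hsX : ∀ σ, s σ ⟨X0, hXM⟩ = ⟨X0, hXM⟩)
    (hsf : ∀ σ, ∀ z : M, (z : Ω) = ∏ θ ∈ C, (algebraMap κ Ω ρ * X0 - algebraMap κ Ω θ) →
      s σ z = z)
    {ϖ u : A} {α : ℤ} (hϖ : Irreducible ϖ) (hu : IsUnit u) (hα : ¬ ((ℓ ^ j : ℕ) : ℤ) ∣ α)
    (hρ : ρ ^ (ℓ ^ j) = algebraMap A κ u * algebraMap A κ ϖ ^ α) :
    OneE V (⟨X0, hXM⟩ : M) ρ C s := by
  have hℓp : ℓ.Prime := Fact.out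
  have hℓ0 := hℓp.ne_zero
  have hkb : IsAlgClosed κ := IsAlgClosure.isAlgClosed k
  have hch : CharZero κ := charZero_of_injective_algebraMap (algebraMap k κ).injective
  have hAk : ∀ (t : A) (n : ℤ), algebraMap k κ (algebraMap A k t * algebraMap A k ϖ ^ n) =
      algebraMap A κ t * algebraMap A κ ϖ ^ n := by
    intro t n
    rw [map_mul, map_zpow₀, ← IsScalarTower.algebraMap_apply, ← IsScalarTower.algebraMap_apply]
  have hℓU : IsU V (ℓ : κ) := by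
    have h1 := isU_of_unit (V := V) hVa hℓ
    rwa [map_natCast] at h1
  have hR := hF.rad
  obtain ⟨Y, hYdef⟩ : ∃ Y : Ω, Y = ∏ e ∈ B.erase 0, T e := ⟨_, rfl⟩
  have hY : Y * T 0 = ∏ e ∈ B, T e := by
    rw [hYdef]
    exact Finset.prod_erase_mul _ _ hB0
  have hT0 : T 0 ≠ 0 := hR.ne hℓ0 hB0
  obtain ⟨C1, hC1card, hC10, hC1mem, hC1prod⟩ := co ℓ κ B 0 hB0
  have hYC := hC1prod Ω T _ Y hR.root hT0 hY
  have hTpow : T 0 ^ ℓ = algebraMap κ Ω ρ * X0 := by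
    rw [hR.root 0 hB0, map_zero, sub_zero]
  have hTtr : Transcendental κ (T 0) := by
    intro h
    apply hR.tr
    rw [← hTpow]
    exact h.pow ℓ
  haveI hal1 := hR.alg
  have hal : Algebra.IsAlgebraic (IntermediateField.adjoin κ {T 0}) Ω :=
    alg_adjoin (R := IntermediateField.adjoin κ {algebraMap κ Ω ρ * X0}) (ratF_adj hR.tr) hTtr
  have hM := hF.mem 0 hB0 Y hY
  have hTM : T 0 ∈ M := hF.T_mem hℓ0 hB0
  have hYM : Y ∈ M := hF.Y_mem hB0 hY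
  have hYl : Y ^ ℓ = ∏ θ ∈ C, (algebraMap κ Ω ρ * X0 - algebraMap κ Ω θ) := by
    rw [hYdef, ← Finset.prod_pow, hBC]
    refine Finset.prod_congr rfl fun e he => ?_
    rw [← hBC] at he
    exact hR.root e (Finset.mem_of_mem_erase he)
  have hGC1 : Good V C1 := good_C hℓU hB0 hGB hC1mem
  -- the radicals
  obtain ⟨ρ1, hρ1⟩ := IsAlgClosed.exists_pow_nat_eq ρ hℓp.pos
  have hρ10 : ρ1 ≠ 0 := by
    rintro rfl
    rw [zero_pow hℓ0] at hρ1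
    exact hρ0 hρ1.symm
  have hρ1M : algebraMap κ M ρ1 ≠ 0 := (_root_.map_ne_zero _).2 hρ10
  have hTM0 : (⟨T 0, hTM⟩ : M) ≠ 0 := fun h => hT0 (congrArg Subtype.val h)
  have hTpM : (⟨T 0, hTM⟩ : M) ^ ℓ = algebraMap κ M ρ * ⟨X0, hXM⟩ := Subtype.ext hTpow
  have hpow : ((⟨T 0, hTM⟩ : M) / algebraMap κ M ρ1) ^ ℓ = ⟨X0, hXM⟩ := by
    rw [div_pow, hTpM, ← map_pow, hρ1, mul_div_cancel_left₀]
    exact (_root_.map_ne_zero _).2 hρ0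
  obtain ⟨δ0, hδ00, hδ0s, d0, hd0⟩ := kummer h90 hs
    (t := (⟨T 0, hTM⟩ : M) / algebraMap κ M ρ1) (div_ne_zero hTM0 hρ1M)
    (fun σ => by rw [hpow, hsX])
  have hd00 : d0 ≠ 0 := by
    rintro rfl
    rw [map_zero] at hd0
    exact pow_ne_zero _ hδ00 hd0
  obtain ⟨t', β, ht', hat'⟩ := exists_unit_zpow (A := A) hϖ hd00
  have hδt : δ0 ^ ℓ = algebraMap A κ t' * algebraMap A κ ϖ ^ β := by
    rw [hd0, hat', hAk]
  have hρs0 : ρ1 * δ0 ≠ 0 := mul_ne_zero hρ10 hδ00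
  have hst : ∀ σ, s σ ⟨T 0, hTM⟩ =
      algebraMap κ M (σ (ρ1 * δ0) / (ρ1 * δ0)) * ⟨T 0, hTM⟩ := by
    intro σ
    have h1 := hδ0s σ
    rw [map_div₀, hs.const] at h1
    have h2 : algebraMap κ M (σ ρ1) ≠ 0 :=
      (_root_.map_ne_zero _).2 ((_root_.map_ne_zero σ).2 hρ10)
    rw [div_eq_iff h2] at h1
    rw [h1, map_mul, map_div₀, map_div₀, map_mul, map_mul]
    have h3 : algebraMap κ M δ0 ≠ 0 := (_root_.map_ne_zero _).2 hδ00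
    field_simp
  have hϖ0 : algebraMap A κ ϖ ≠ 0 := by
    intro h
    have hinj : Function.Injective (algebraMap A κ) := by
      rw [IsScalarTower.algebraMap_eq A k κ]
      exact (algebraMap k κ).injective.comp (IsFractionRing.injective A k)
    exact hϖ.ne_zero (hinj (by rw [h, map_zero]))
  have hρs : (ρ1 * δ0) ^ (ℓ ^ (j + 1)) =
      algebraMap A κ (u * t' ^ (ℓ ^ j)) * algebraMap A κ ϖ ^ (α + β * ((ℓ ^ j : ℕ) : ℤ)) := by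
    rw [pow_succ', pow_mul, mul_pow, hρ1, hδt, mul_pow, mul_pow, hρ, map_mul, map_pow,
      zpow_add₀ hϖ0, ← zpow_natCast (algebraMap A κ ϖ ^ β), ← zpow_mul]
    ring
  have hαs : ¬ ((ℓ ^ (j + 1) : ℕ) : ℤ) ∣ (α + β * ((ℓ ^ j : ℕ) : ℤ)) := by
    intro h
    apply hα
    have h1 : ((ℓ ^ j : ℕ) : ℤ) ∣ ((ℓ ^ (j + 1) : ℕ) : ℤ) :=
      Int.natCast_dvd_natCast.2 (pow_dvd_pow ℓ (Nat.le_succ j))
    exact (Int.dvd_add_left (Dvd.intro_left β rfl)).1 (h1.trans h)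
  have hrot1 : ∀ ζ : κ, ζ ^ (ℓ ^ (j + 1)) = 1 → ∀ θ ∈ C1, ζ * θ ∈ C1 := by
    intro ζ hζ θ hθ
    obtain ⟨e, he, hne, h⟩ := (hC1mem θ).1 hθ
    rw [sub_zero] at h
    have heC : e ∈ C := by
      rw [← hBC]
      exact Finset.mem_erase.2 ⟨hne, he⟩
    have h1 : (ζ ^ ℓ) ^ (ℓ ^ j) = 1 := by rw [← pow_mul, ← pow_succ', hζ]
    have h2 := hrot _ h1 e heC
    have h3 := h2
    rw [← hBC, Finset.mem_erase] at h3
    exact (hC1mem _).2 ⟨ζ ^ ℓ * e, h3.2, h3.1, by rw [sub_zero, mul_pow, h]⟩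
  have hBc : B.card - 1 = C.card := by
    rw [← hBC, Finset.card_erase_of_mem hB0]
  obtain ⟨W, ⟨h1, h2, h3, h4⟩, hun⟩ := rotL V (J := j + 1) (by omega) hℓ hVa hVm hTtr hal
    ⟨_, hC1card⟩ (by rw [hC1card]; exact hF.three) hGC1 hC10 hrot1 hYC hM hs hTM hρs0 hst hϖ
    (hu.mul (ht'.pow _)) hαs hρs hYM (fun σ => by
      refine hsf σ _ ?_
      exact hYl)
  -- `T 0` and `X0`
  have hnon : ∀ W : ValuationSubring M, (∀ c : κ, algebraMap κ M c ∈ W) →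
      ((⟨T 0, hTM⟩ : M) ∈ W.nonunits ↔ (⟨X0, hXM⟩ : M) ∈ W.nonunits) ∧
      ((⟨T 0, hTM⟩ : M)⁻¹ ∈ W.nonunits ↔ (⟨X0, hXM⟩ : M)⁻¹ ∈ W.nonunits) := by
    intro W hW
    have k1 := (non_scale hW hρ0 (⟨X0, hXM⟩ : M)).1
    have k2 := (non_scale hW hρ0 (⟨X0, hXM⟩ : M)).2
    rw [← k1, ← k2, ← hTpM, ← inv_pow]
    exact ⟨⟨fun h => non_pow h hℓ0, fun h => non_of_pow h⟩,
      ⟨fun h => non_pow h hℓ0, fun h => non_of_pow h⟩⟩
  rw [(hnon W h1).1, (hnon W h1).2] at h3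
  refine ⟨W, ⟨h1, h2, h3, h4⟩, fun W' b1 b2 b3 => hun W' b1 ?_ b3⟩
  rw [(hnon W' b1).1, (hnon W' b1).2]
  rcases b2 with h | h | ⟨θ, hθ, h⟩
  · exact Or.inl h
  · exact Or.inr (Or.inl h)
  · right; right
    rw [← hTpM] at h
    obtain ⟨θ1, hθ1, h6⟩ := exists_root_non hℓp.pos b1 h
    rw [← hBC, Finset.mem_erase] at hθ
    exact ⟨θ1, (hC1mem _).2 ⟨θ, hθ.2, hθ.1, by rw [sub_zero, hθ1]⟩, h6⟩

end

end Pool.Agent.H93S
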