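import Pool.Agent.H93S.Rot3
import Pool.Agent.H93S.Rot2
import Pool.Agent.H93S.Core2

/-!
# Project SC: rotations of `ℓ`-power order, preparations for the core
-/

set_option autoImplicit false
set_option linter.all false

open Polynomial FF

namespace Pool.Agent.H93S

open Pool.Agent.Y157.PS Pool.Agent.Y948.PS Pool.Agent.Y31.PS Pool.Agent.R925.Q Pool.Agent.R925.X
  Pool.Agent.R925.L

/-- a stable set of integral elements which are distinct modulo the maximal ideal consists of units -/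
theorem good_zero {κ : Type} [Field κ] [IsAlgClosed κ] [CharZero κ] [DecidableEq κ] {ℓ j : ℕ}
    [Fact ℓ.Prime] (hj : 1 ≤ j) {V : ValuationSubring κ} {C : Finset κ} (hG : Good V C)
    (h0 : (0 : κ) ∉ C) (hrot : ∀ ζ : κ, ζ ^ (ℓ ^ j) = 1 → ∀ θ ∈ C, ζ * θ ∈ C) :
    Good V (insert 0 C) := by
  have hℓp : ℓ.Prime := Fact.out
  haveI : NeZero ℓ := ⟨hℓp.ne_zero⟩
  obtain ⟨ζ, hζ⟩ := HasEnoughRootsOfUnity.exists_primitiveRoot κ ℓ
  have hζm : ζ ^ (ℓ ^ j) = 1 := by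
    obtain ⟨i, rfl⟩ : ∃ i, j = i + 1 := ⟨j - 1, by omega⟩
    rw [pow_succ', pow_mul, hζ.pow_eq_one, one_pow]
  have hζ1 : ζ ≠ 1 := hζ.ne_one hℓp.one_lt
  have hζV : ζ ∈ V := by
    rcases V.mem_or_inv_mem ζ with h | h
    · exact h
    · have h1 : ζ = ζ⁻¹ ^ (ℓ - 1) := by
        have h2 : ζ ^ (ℓ - 1) * ζ = 1 := by
          rw [← pow_succ, Nat.sub_add_cancel hℓp.one_lt.le, hζ.pow_eq_one]
        rw [inv_pow]
        exact eq_inv_of_mul_eq_one_right h2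
      rw [h1]
      exact pow_mem h _
  have hU : ∀ θ ∈ C, IsU V θ := by
    intro θ hθ
    have hθ0 : θ ≠ 0 := fun h => h0 (h ▸ hθ)
    have h1 := hrot ζ hζm θ hθ
    have h2 : θ ≠ ζ * θ := by
      intro h
      apply hζ1
      have h3 : (ζ - 1) * θ = 0 := by
        rw [sub_mul, one_mul, ← h, sub_self]
      rcases mul_eq_zero.1 h3 with h4 | h4
      · exact sub_eq_zero.1 h4
      · exact absurd h4 hθ0
    obtain ⟨h3, h4, h5⟩ := hG.2 θ hθ _ h1 h2
    refine ⟨hθ0, hG.1 θ hθ, ?_⟩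
    have h6 : θ⁻¹ = (1 - ζ) * (θ - ζ * θ)⁻¹ := by
      have h7 : (1 - ζ) ≠ 0 := sub_ne_zero.2 (Ne.symm hζ1)
      have h8 : θ - ζ * θ = (1 - ζ) * θ := by ring
      rw [h8, mul_inv, ← mul_assoc, mul_inv_cancel₀ h7, one_mul]
    rw [h6]
    exact mul_mem (sub_mem (one_mem _) hζV) h5
  have hneg : ∀ z : κ, IsU V z → IsU V (-z) := by
    intro z hz
    refine ⟨neg_ne_zero.2 hz.1, neg_mem hz.2.1, ?_⟩
    rw [inv_neg]
    exact neg_mem hz.2.2
  refine ⟨fun e he => ?_, fun e he e' he' hne => ?_⟩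
  · rcases Finset.mem_insert.1 he with rfl | h
    · exact zero_mem _
    · exact hG.1 e h
  · rcases Finset.mem_insert.1 he with rfl | h
    · rcases Finset.mem_insert.1 he' with rfl | h'
      · exact absurd rfl hne
      · rw [zero_sub]
        exact hneg _ (hU _ h')
    · rcases Finset.mem_insert.1 he' with rfl | h'
      · rw [sub_zero]
        exact hU _ h
      · exact hG.2 e h e' h' hne

/-- scaling -/
theorem ex_scale {κ M : Type} [Field κ] [Field M] [Algebra κ M] {X : M} {ρ : κ} (hρ : ρ ≠ 0)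
    {P B : Finset κ} (hB : ∀ θ, θ ∈ B ↔ ∃ e ∈ P, θ = ρ * e) {W : ValuationSubring M}
    (hW : ∀ c : κ, algebraMap κ M c ∈ W) :
    (∃ θ ∈ B, algebraMap κ M ρ * X - algebraMap κ M θ ∈ W.nonunits) ↔
      ∃ e ∈ P, X - algebraMap κ M e ∈ W.nonunits := by
  have hρM : algebraMap κ M ρ ≠ 0 := (_root_.map_ne_zero _).2 hρ
  constructor
  · rintro ⟨θ, hθ, h⟩
    obtain ⟨e, he, rfl⟩ := (hB θ).1 hθ
    refine ⟨e, he, ?_⟩
    have h1 := non_mul (hW ρ⁻¹) h
    have h2 : algebraMap κ M ρ⁻¹ * (algebraMap κ M ρ * X - algebraMap κ M (ρ * e)) =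
        X - algebraMap κ M e := by
      rw [map_mul, map_inv₀, ← mul_sub, ← mul_assoc, inv_mul_cancel₀ hρM, one_mul]
    rwa [h2] at h1
  · rintro ⟨e, he, h⟩
    refine ⟨ρ * e, (hB _).2 ⟨e, he, rfl⟩, ?_⟩
    have h1 := non_mul (hW ρ) h
    have h2 : algebraMap κ M ρ * (X - algebraMap κ M e) =
        algebraMap κ M ρ * X - algebraMap κ M (ρ * e) := by
      rw [map_mul, mul_sub]
    rwa [h2] at h1

theorem mem_scale {κ : Type} [Field κ] [DecidableEq κ] {ρ : κ} (hρ : ρ ≠ 0) (B : Finset κ)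
    (θ : κ) : θ ∈ B ↔ ∃ e ∈ B.image (fun θ => ρ⁻¹ * θ), θ = ρ * e := by
  constructor
  · intro h
    refine ⟨ρ⁻¹ * θ, Finset.mem_image_of_mem _ h, ?_⟩
    rw [← mul_assoc, mul_inv_cancel₀ hρ, one_mul]
  · rintro ⟨e, he, rfl⟩
    obtain ⟨θ, hθ, rfl⟩ := Finset.mem_image.1 he
    rwa [← mul_assoc, mul_inv_cancel₀ hρ, one_mul]

/-- the set `C` of the zeros of `g(x^m)` -/
theorem rot_data (A k : Type) {κ : Type} [CommRing A] [IsDomain A] [IsDiscreteValuationRing A]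
    [Finite (IsLocalRing.ResidueField A)] [Field k] [CharZero k] [Algebra A k] [IsFractionRing A k]
    [Field κ] [Algebra k κ] [Algebra A κ] [IsScalarTower A k κ] [IsAlgClosure k κ]
    (V : ValuationSubring κ) (hVa : ∀ a : A, algebraMap A κ a ∈ V)
    (hVm : ∀ a ∈ IsLocalRing.maximalIdeal A, algebraMap A κ a ∈ V.nonunits)
    {ℓ : ℕ} [Fact ℓ.Prime] {j : ℕ} (hj : 1 ≤ j) (g : A[X])
    (hlc : IsUnit g.leadingCoeff)
    (hs : ((expand A (ℓ ^ j) g).map (IsLocalRing.residue A)).Separable) :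
    ∃ C : Finset κ, Good V C ∧ (0 : κ) ∉ C ∧ (∀ ζ : κ, ζ ^ (ℓ ^ j) = 1 → ∀ θ ∈ C, ζ * θ ∈ C) ∧
      C.card = ℓ ^ j * g.natDegree ∧ ∀ (Ω : Type) [Field Ω] [Algebra κ Ω] (z : Ω),
        g.eval₂ ((algebraMap κ Ω).comp (algebraMap A κ)) (z ^ (ℓ ^ j)) =
          algebraMap κ Ω (algebraMap A κ g.leadingCoeff) * ∏ e ∈ C, (z - algebraMap κ Ω e) := by
  classical
  have hkb : IsAlgClosed κ := IsAlgClosure.isAlgClosed k
  have hm : 0 < ℓ ^ j := pow_pos (Fact.out : ℓ.Prime).pos j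
  have hm2 : 2 ≤ ℓ ^ j := by
    calc 2 ≤ ℓ := (Fact.out : ℓ.Prime).two_le
      _ = ℓ ^ 1 := (pow_one ℓ).symm
      _ ≤ ℓ ^ j := Nat.pow_le_pow_right (Fact.out : ℓ.Prime).pos hj
  have hlce : IsUnit (expand A (ℓ ^ j) g).leadingCoeff := by
    rw [leadingCoeff_expand hm]
    exact hlc
  have hexp : expand k (ℓ ^ j) (g.map (algebraMap A k)) =
      (expand A (ℓ ^ j) g).map (algebraMap A k) := (map_expand).symm
  have hsep : (expand k (ℓ ^ j) (g.map (algebraMap A k))).Separable := by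
    rw [hexp]
    exact key_sep (κ := κ) V hVa hVm _ hlce hs
  obtain ⟨C, hC, hG, hwt, -, hcard, hprod⟩ := roots_data V hVa hVm
    (fun _ : Fin 1 => expand A (ℓ ^ j) g) (fun _ => hlce) (by
      rw [Fin.prod_univ_one]
      exact hs)
  have hmem : ∀ θ, θ ∈ C ↔ aeval θ (expand k (ℓ ^ j) (g.map (algebraMap A k))) = 0 := by
    intro θ
    rw [hC, hexp, aeval_map_algebraMap]
    exact ⟨fun ⟨_, h⟩ => h, fun h => ⟨0, h⟩⟩
  refine ⟨C, hG, fun h => expand_zero hm2 _ hsep ((hmem 0).1 h), ?_, ?_, ?_⟩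
  · intro ζ hζ e he
    rw [hmem, expand_aeval] at he ⊢
    rw [mul_pow, hζ, one_mul, he]
  · rw [hcard, Fin.sum_univ_one, natDegree_expand, mul_comm]
  · intro Ω _ _ z
    have h1 := hprod Ω (fun _ => 1) z
    have h2 : (expand A (ℓ ^ j) g).eval₂ ((algebraMap κ Ω).comp (algebraMap A κ)) z =
        g.eval₂ ((algebraMap κ Ω).comp (algebraMap A κ)) (z ^ (ℓ ^ j)) := by
      rw [expand_eq_comp_X_pow, eval₂_comp, eval₂_X_pow]
    rw [Fin.prod_univ_one, Fin.prod_univ_one, pow_one, pow_one, leadingCoeff_expand hm, h2] at h1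
    rw [h1]
    congr 1
    refine Finset.prod_congr rfl fun e he => ?_
    obtain ⟨i, hi⟩ := (hC e).1 he
    rw [hwt e i (fun _ => 1) hi, pow_one]

end Pool.Agent.H93S
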