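import Pool.Agent.H93S.Rot4
import Pool.Agent.H93S.Glob

/-!
# Project SC: rotations of `ℓ`-power order, the ramification of the branch points
-/

set_option autoImplicit false
set_option linter.all false

open Polynomial FF

namespace Pool.Agent.H93S

open Pool.Agent.Y157.PS Pool.Agent.Y948.PS Pool.Agent.Y31.PS Pool.Agent.R925.Q Pool.Agent.R925.X
  Pool.Agent.R925.L

section

variable {k κ : Type} [Field k] [Field κ] [Algebra k κ] {V : ValuationSubring κ}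

/-- inertia elements fix the radicals of fixed elements which are units -/
theorem fix_unit {m : ℕ} (hm : 0 < m) (hmU : IsU V (m : κ)) {σ : κ ≃ₐ[k] κ} (h : Ine V σ) {u : κ}
    (hu : IsU V u) (hk : σ (u ^ m) = u ^ m) : σ u = u := by
  have h1 : (σ u / u) ^ m = 1 := by
    rw [div_pow, ← map_pow, hk, div_self (pow_ne_zero _ hu.1)]
  have h2 : σ u / u = 1 := by
    refine root_eq hmU hm h1 (one_pow _) ?_
    have h3 := h.2 u hu.2.1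
    have h4 : σ u - u = u * (σ u / u - 1) := by
      rw [mul_sub, mul_one, mul_div_cancel₀ _ hu.1]
    rw [h4] at h3
    exact non_of_isU_mul hu h3
  rwa [div_eq_one_iff_eq hu.1] at h2

theorem cong_mul {a b c d : κ} (ha : a ∈ V) (hd : d ∈ V) (h1 : a - b ∈ V.nonunits)
    (h2 : c - d ∈ V.nonunits) : a * c - b * d ∈ V.nonunits := by
  have h : a * c - b * d = a * (c - d) - d * (b - a) := by ring
  have h3 : b - a ∈ V.nonunits := by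
    have h4 := non_mul (neg_mem (one_mem V)) h1
    have h5 : (-1 : κ) * (a - b) = b - a := by ring
    rwa [h5] at h4
  rw [h]
  exact non_sub (non_mul ha h2) (non_mul hd h3)

end

/-- the radical `θ₀⁻¹` generates a ramified extension of the field `E` of the `θ^(ℓ^j)` -/
theorem ram_no {ℓ j : ℕ} [Fact ℓ.Prime] {A k κ : Type} [CommRing A] [IsDomain A]
    [IsDiscreteValuationRing A] [Field k] [Field κ] [Algebra A k] [Algebra k κ] [Algebra A κ]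
    [IsScalarTower A k κ] [IsFractionRing A k] [CharZero k] [IsAlgClosure k κ]
    [Finite (IsLocalRing.ResidueField A)] {V : ValuationSubring κ} (hℓ : IsUnit (ℓ : A))
    (hVa : ∀ a : A, algebraMap A κ a ∈ V)
    (hVm : ∀ a ∈ IsLocalRing.maximalIdeal A, algebraMap A κ a ∈ V.nonunits) (hj : 1 ≤ j)
    {C : Finset κ} (h0 : (0 : κ) ∉ C)
    (hrot : ∀ ζ : κ, ζ ^ (ℓ ^ j) = 1 → ∀ θ ∈ C, ζ * θ ∈ C)
    (hσ : ∀ σ : κ ≃ₐ[k] κ, ∀ θ ∈ C, σ θ ∈ C) (hdiv : ∀ θ ∈ C, ∀ θ' ∈ C, θ / θ' ∈ V)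
    (hdiff : ∀ θ ∈ C, ∀ θ' ∈ C, θ ≠ θ' → IsU V ((θ - θ') / θ')) {ϖ : A} (hϖ : Irreducible ϖ)
    {α : ℤ} {N : ℕ} (hα : ¬ ((ℓ ^ j : ℕ) : ℤ) ∣ α)
    (hval : ∀ θ ∈ C, IsU V (θ ^ (ℓ ^ j * N) / algebraMap A κ ϖ ^ α))
    {E : IntermediateField k κ}
    (hE : ∀ σ : κ ≃ₐ[k] κ, (∀ θ ∈ C, σ (θ ^ (ℓ ^ j)) = θ ^ (ℓ ^ j)) → ∀ c ∈ E, σ c = c) {θ₀ w : κ}
    (hθ₀ : θ₀ ∈ C) (hw : w ∈ E) (hu : IsU V (θ₀⁻¹ / w)) : False := by
  have hℓp : ℓ.Prime := Fact.out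
  have hkb : IsAlgClosed κ := IsAlgClosure.isAlgClosed k
  have hℓU : IsU V (ℓ : κ) := by
    have h1 := isU_of_unit (V := V) hVa hℓ
    rwa [map_natCast] at h1
  have hmU : IsU V ((ℓ ^ j : ℕ) : κ) := isU_natpow hℓU j
  have hm : 0 < ℓ ^ j := pow_pos hℓp.pos j
  have hinj : Function.Injective (algebraMap A κ) := by
    rw [IsScalarTower.algebraMap_eq A k κ]
    exact (algebraMap k κ).injective.comp (IsFractionRing.injective A k)
  have hϖ0 : algebraMap A κ ϖ ≠ 0 := by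
    intro h
    exact hϖ.ne_zero (hinj (by rw [h, map_zero]))
  obtain ⟨Θ, hΘ⟩ := IsAlgClosed.exists_pow_nat_eq (algebraMap A κ ϖ) hm
  obtain ⟨τ, hτ, hζ, -⟩ := exists_tame (k := k) hℓ hVa hVm hϖ hj hΘ
  have hΘ0 : Θ ≠ 0 := by
    rintro rfl
    rw [zero_pow hm.ne'] at hΘ
    exact hϖ0 hΘ.symm
  obtain ⟨ζ, hζd⟩ : ∃ ζ, ζ = τ Θ / Θ := ⟨_, rfl⟩
  rw [← hζd] at hζ
  have hζfix : τ ζ = ζ := ine_root hm hmU hτ hζ.pow_eq_one
  have hζ0 : ζ ≠ 0 := hζ.ne_zero hm.ne'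
  have hζU : IsU V ζ := isU_root hm hζ.pow_eq_one
  have hτn : ∀ n : ℕ, (τ ^ n) Θ = ζ ^ n * Θ := by
    intro n
    induction n with
    | zero => rw [pow_zero, pow_zero, one_mul]; rfl
    | succ n ih =>
      have h1 : τ Θ = ζ * Θ := by rw [hζd, div_mul_cancel₀ _ hΘ0]
      rw [pow_succ', AlgEquiv.mul_apply, ih, map_mul, map_pow, hζfix, h1]
      ring
  have hC0 : ∀ θ ∈ C, θ ≠ 0 := fun θ hθ h => h0 (h ▸ hθ)
  have hy : ∀ θ ∈ C, IsU V (θ ^ N / Θ ^ α) := by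
    intro θ hθ
    refine isU_of_pow hm ?_
    have h1 : (θ ^ N / Θ ^ α) ^ (ℓ ^ j) = θ ^ (ℓ ^ j * N) / algebraMap A κ ϖ ^ α := by
      rw [div_pow, ← pow_mul, mul_comm N, ← zpow_natCast (Θ ^ α), ← zpow_mul, mul_comm α,
        zpow_mul, zpow_natCast, hΘ]
    rw [h1]
    exact hval θ hθ
  have hξ1 : (ζ ^ α) ^ (ℓ ^ j) = 1 := by
    rw [← zpow_natCast, ← zpow_mul, mul_comm, zpow_mul, zpow_natCast, hζ.pow_eq_one, one_zpow]
  have hξU : IsU V (ζ ^ α) := isU_zpow hζU α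
  have hrat : ∀ θ ∈ C, ∀ θ' ∈ C, IsU V (θ / θ') := fun θ hθ θ' hθ' =>
    ⟨div_ne_zero (hC0 θ hθ) (hC0 θ' hθ'), hdiv θ hθ θ' hθ', by
      rw [inv_div]; exact hdiv θ' hθ' θ hθ⟩
  have h1 : ∀ θ ∈ C, (τ θ / θ) ^ N - ζ ^ α ∈ V.nonunits := by
    intro θ hθ
    have h2 := hτ.2 _ (hy θ hθ).2.1
    have h3 : (τ θ / θ) ^ N - ζ ^ α =
        (ζ ^ α * (θ ^ N / Θ ^ α)⁻¹) * (τ (θ ^ N / Θ ^ α) - θ ^ N / Θ ^ α) := by
      have h4 : τ (θ ^ N / Θ ^ α) = (τ θ) ^ N / (ζ ^ α * Θ ^ α) := by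
        have h5 : τ Θ = ζ * Θ := by rw [hζd, div_mul_cancel₀ _ hΘ0]
        rw [map_div₀, map_pow, map_zpow₀, h5, mul_zpow]
      rw [h4]
      have h6 := hC0 θ hθ
      have h7 : Θ ^ α ≠ 0 := zpow_ne_zero _ hΘ0
      have h8 : ζ ^ α ≠ 0 := zpow_ne_zero _ hζ0
      rw [div_pow]
      field_simp
    rw [h3]
    exact non_mul (mul_mem hξU.2.1 (hy θ hθ).2.2) h2
  have h2 : ∀ θ ∈ C, ∀ n : ℕ, (τ ^ n) θ / θ - (τ θ / θ) ^ n ∈ V.nonunits := by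
    intro θ hθ n
    induction n with
    | zero =>
      have h3 : ((τ ^ 0 : κ ≃ₐ[k] κ) θ) / θ - (τ θ / θ) ^ 0 = 0 := by
        rw [pow_zero, pow_zero, AlgEquiv.one_apply, div_self (hC0 θ hθ), sub_self]
      rw [h3, ValuationSubring.mem_nonunits_iff_or]
      exact Or.inl rfl
    | succ n ih =>
      have h3 := hrat _ (hσ (τ ^ n) θ hθ) θ hθ
      have h4 := hτ.2 _ h3.2.1
      have h5 : (τ ^ (n + 1)) θ / θ = τ ((τ ^ n) θ / θ) * (τ θ / θ) := by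
        have h6 : τ θ ≠ 0 := (_root_.map_ne_zero τ).2 (hC0 θ hθ)
        rw [pow_succ', AlgEquiv.mul_apply, map_div₀, div_mul_div_cancel₀ h6]
      have h7 : τ ((τ ^ n) θ / θ) - (τ θ / θ) ^ n ∈ V.nonunits := by
        have h8 : τ ((τ ^ n) θ / θ) - (τ θ / θ) ^ n =
            (τ ((τ ^ n) θ / θ) - (τ ^ n) θ / θ) - ((τ θ / θ) ^ n - (τ ^ n) θ / θ) := by ring
        have h9 := non_mul (neg_mem (one_mem V)) ih
        have h10 : (-1 : κ) * ((τ ^ n) θ / θ - (τ θ / θ) ^ n) =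
            (τ θ / θ) ^ n - (τ ^ n) θ / θ := by ring
        rw [h10] at h9
        rw [h8]
        exact non_sub h4 h9
      rw [h5, pow_succ, ← sub_mul, mul_comm]
      exact non_mul (hrat _ (hσ τ θ hθ) θ hθ).2.1 h7
  obtain ⟨σ, hσd⟩ : ∃ σ, σ = τ ^ N := ⟨_, rfl⟩
  have hσI : Ine V σ := by
    rw [hσd]
    exact hτ.pow N
  have h3 : ∀ θ ∈ C, σ θ = ζ ^ α * θ := by
    intro θ hθ
    by_contra hne
    have hξθ := hrot _ hξ1 θ hθ
    have h4 := hdiff _ (hσ σ θ hθ) _ hξθ hne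
    apply h4.not_nonunit
    have h5 : σ θ / θ - ζ ^ α ∈ V.nonunits := by
      have h6 := non_sub (h2 θ hθ N) (by
        have h9 := non_mul (neg_mem (one_mem V)) (h1 θ hθ)
        exact h9)
      rw [← hσd] at h6
      have h7 : σ θ / θ - (τ θ / θ) ^ N - -1 * ((τ θ / θ) ^ N - ζ ^ α) = σ θ / θ - ζ ^ α := by
        ring
      rwa [h7] at h6
    have h8 : (σ θ - ζ ^ α * θ) / (ζ ^ α * θ) = (ζ ^ α)⁻¹ * (σ θ / θ - ζ ^ α) := by
      have h9 := hC0 θ hθ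
      have h10 : ζ ^ α ≠ 0 := zpow_ne_zero _ hζ0
      field_simp
    rw [h8]
    exact non_mul hξU.2.2 h5
  have h4 : ∀ θ ∈ C, σ (θ ^ (ℓ ^ j)) = θ ^ (ℓ ^ j) := by
    intro θ hθ
    rw [map_pow, h3 θ hθ, mul_pow, hξ1, one_mul]
  have h5 := hE σ h4
  have h6 : σ (θ₀⁻¹ / w) = θ₀⁻¹ / w := by
    refine fix_unit hm hmU hσI hu ?_
    rw [div_pow, inv_pow, map_div₀, map_inv₀, h4 θ₀ hθ₀, map_pow, h5 w hw]
  have hw0 : w ≠ 0 := by
    rintro rfl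
    exact hu.1 (div_zero _)
  have h7 : σ θ₀ = θ₀ := by
    rw [map_div₀, h5 w hw, div_left_inj' hw0, map_inv₀] at h6
    exact inv_injective h6
  have h8 : ζ ^ α = 1 := by
    have h9 := h3 θ₀ hθ₀
    rw [h7] at h9
    exact (mul_eq_right₀ (hC0 θ₀ hθ₀)).1 h9.symm
  exact hα ((hζ.zpow_eq_one_iff_dvd α).1 h8)

end Pool.Agent.H93S
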