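import Pool.Agent.H93S.Rot5

/-!
# Project SC: rotations of `ℓ`-power order over an extension of the ground field, descent
-/

set_option autoImplicit false
set_option linter.all false

open Polynomial FF

namespace Pool.Agent.H93S

open Pool.Agent.Y157.PS Pool.Agent.Y948.PS Pool.Agent.Y31.PS Pool.Agent.R925.Q Pool.Agent.R925.X
  Pool.Agent.R925.L Pool.Agent.H93S.Glob

/-- the valuation ring of a finite extension `E` of `k` -/
theorem exE {ℓ : ℕ} {A k κ : Type} [CommRing A] [IsDomain A]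
    [IsDiscreteValuationRing A] [Finite (IsLocalRing.ResidueField A)] [Field k] [CharZero k]
    [Algebra A k] [IsFractionRing A k] [Field κ] [Algebra k κ] [Algebra A κ]
    [IsScalarTower A k κ] [IsAlgClosure k κ] {V : ValuationSubring κ} (hℓ : IsUnit (ℓ : A))
    (hAV : ∀ a : A, algebraMap A κ a ∈ V)
    (hmV : ∀ a ∈ IsLocalRing.maximalIdeal A, algebraMap A κ a ∈ V.nonunits)
    (E : IntermediateField k κ) [FiniteDimensional k E] :
    ∃ (O : Type) (_ : CommRing O) (_ : IsDomain O) (_ : IsDiscreteValuationRing O)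
      (_ : Finite (IsLocalRing.ResidueField O)) (_ : Algebra O E) (_ : IsFractionRing O E)
      (_ : Algebra O κ) (_ : IsScalarTower O E κ),
      IsUnit (ℓ : O) ∧ (∀ a : O, algebraMap O κ a ∈ V) ∧
        ∀ a ∈ IsLocalRing.maximalIdeal O, algebraMap O κ a ∈ V.nonunits := by
  let O : ValuationSubring E := V.comap (algebraMap E κ)
  letI algAE : Algebra A E := ((algebraMap k E).comp (algebraMap A k)).toAlgebra
  haveI tAE : IsScalarTower A k E := IsScalarTower.of_algebraMap_eq fun a => rfl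
  have hAE : ∀ a : A, ((algebraMap A E a : E) : κ) = algebraMap A κ a := by
    intro a
    rw [IsScalarTower.algebraMap_apply A k κ]
    rfl
  have hOmem : ∀ z : E, z ∈ O ↔ (z : κ) ∈ V := fun z => Iff.rfl
  have hnon : ∀ z : E, (z ∈ O.nonunits ↔ (z : κ) ∈ V.nonunits) := by
    intro z
    rw [ValuationSubring.mem_nonunits_iff_or, ValuationSubring.mem_nonunits_iff_or]
    constructor
    · rintro (h1 | h1)
      · left
        rw [h1]
        rfl
      · right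
        intro h2
        exact h1 h2
    · rintro (h1 | h1)
      · left
        exact Subtype.ext h1
      · right
        intro h2
        exact h1 h2
  obtain ⟨hDVR, hRes⟩ := Pool.Agent.R925.L.dvr_ext (A := A) (k := k) (E := E) O (fun a => by
    rw [hOmem, hAE]
    exact hAV a) (fun a ha => by
    have h1 : algebraMap A E a ∈ O.nonunits := by
      rw [hnon, hAE]
      exact hmV a ha
    exact (ValuationSubring.mem_nonunits_iff O).1 h1)
  letI algOκ : Algebra O κ := ((algebraMap E κ).comp (algebraMap O E)).toAlgebra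
  haveI tO : IsScalarTower O E κ := IsScalarTower.of_algebraMap_eq fun a => rfl
  have hℓO : IsUnit (ℓ : O) := by
    obtain ⟨b, hb⟩ := hℓ.exists_right_inv
    have h1 : algebraMap A κ b ∈ V := hAV b
    have h2 : (ℓ : κ) * algebraMap A κ b = 1 := by
      rw [← map_natCast (algebraMap A κ), ← map_mul, hb, map_one]
    refine IsUnit.of_mul_eq_one (⟨algebraMap A E b, by rw [hOmem, hAE]; exact h1⟩ : O) ?_
    apply Subtype.ext
    apply Subtype.ext
    show ((((ℓ : O) : E) * algebraMap A E b : E) : κ) = 1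
    rw [← h2]
    push_cast
    rw [hAE]
  refine ⟨O, inferInstance, inferInstance, hDVR, hRes, inferInstance, inferInstance, algOκ, tO,
    hℓO, fun a => a.2, fun a ha => ?_⟩
  rw [IsLocalRing.mem_maximalIdeal, mem_nonunits_iff] at ha
  have h1 : (a : E) ∈ O.nonunits := by
    rw [ValuationSubring.mem_nonunits_iff, ← not_le]
    intro h2
    apply ha
    have h3 : O.valuation (a : E) = 1 := le_antisymm ((O.valuation_le_one_iff _).2 a.2) h2
    exact (O.valuation_eq_one_iff a).2 h3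
  exact (hnon a).1 h1

section

variable {k κ Ω : Type} [Field k] [Field κ] [Algebra k κ] [Field Ω] [Algebra κ Ω]

/-- restriction of the semilinear action -/
theorem sl_res {M : IntermediateField κ Ω} {s : (κ ≃ₐ[k] κ) →* RingAut M} (hs : SL k κ M s)
    (E : IntermediateField k κ) [FiniteDimensional k E] : SL E κ M (s.comp (resH E)) := by
  have hs' : ∀ σ, (s.comp (resH E)) σ = s (σ.restrictScalars k) := fun σ => rfl
  refine ⟨fun σ c => ?_, fun z => ?_⟩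
  · rw [hs', hs.const]
    rfl
  · obtain ⟨E₁, hE₁, hz⟩ := hs.cont z
    let E₂ : IntermediateField E κ := IntermediateField.extendScalars (le_sup_left : E ≤ E ⊔ E₁)
    have hf0 : FiniteDimensional k ↥(E ⊔ E₁) := IntermediateField.finiteDimensional_sup E E₁
    have hf1 : FiniteDimensional k ↥E₂ := hf0
    have hf2 : FiniteDimensional E ↥E₂ := Module.Finite.of_restrictScalars_finite k E E₂
    refine ⟨E₂, hf2, fun σ hσ => ?_⟩
    rw [hs']
    apply hz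
    rw [IntermediateField.mem_fixingSubgroup_iff] at hσ ⊢
    intro y hy
    exact hσ y ((le_sup_right : E₁ ≤ E ⊔ E₁) hy)

/-- descent of the statement from a normal extension `E` -/
theorem oneE_desc {V : ValuationSubring κ} (hDec : ∀ σ : κ ≃ₐ[k] κ, Dec V σ)
    {M : IntermediateField κ Ω} {s : (κ ≃ₐ[k] κ) →* RingAut M} (hs : SL k κ M s)
    (E : IntermediateField k κ) (hEn : Normal k E) {X : M} (hsX : ∀ σ, s σ X = X) {ρ : κ}
    {C : Finset κ} (h : OneE V X ρ C (s.comp (resH E))) : OneE V X ρ C s := by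
  have hs' : ∀ σ, (s.comp (resH E)) σ = s (σ.restrictScalars k) := fun σ => rfl
  have hdec : ∀ σ : κ ≃ₐ[E] κ, Dec V σ := fun σ => hDec (σ.restrictScalars k)
  obtain ⟨W, ⟨hWc, hWr, hWa, hWf⟩, hWu⟩ := h
  have hnon : ∀ (g : κ ≃ₐ[k] κ) (z : M), z ∈ (W.comap ((s g : M ≃+* M) : M →+* M)).nonunits ↔
      s g z ∈ W.nonunits := fun g z => comap_non (s g : M ≃+* M) W z
  refine ⟨W, ⟨hWc, hWr, hWa, fun g _ => ?_⟩, fun W' h1 h2 h3 => ?_⟩
  · have key : W.comap ((s g : M ≃+* M) : M →+* M) = W := by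
      refine hWu _ (fun c => ?_) ?_ (fun σ _ z => ?_)
      · show s g (algebraMap κ M c) ∈ W
        rw [hs.const]
        exact hWc _
      · rcases hWa with h1 | h1
        · left
          rw [hnon, hsX]
          exact h1
        · right; left
          rw [hnon, map_inv₀, hsX]
          exact h1
      · show s g ((s.comp (resH E)) σ z) ∈ W ↔ s g z ∈ W
        obtain ⟨σ', hσ'⟩ := exists_res E (g * σ.restrictScalars k * g⁻¹)
          (conj_mem E hEn g _ fun c hc => σ.commutes ⟨c, hc⟩)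
        have h1 : s g ((s.comp (resH E)) σ z) = (s.comp (resH E)) σ' (s g z) := by
          rw [hs', hs', hσ', ← RingAut.mul_apply, ← RingAut.mul_apply, ← map_mul, ← map_mul,
            inv_mul_cancel_right]
        rw [h1]
        exact hWf σ' (hdec σ') (s g z)
    intro z
    have h1 : z ∈ W.comap ((s g : M ≃+* M) : M →+* M) ↔ z ∈ W := by rw [key]
    exact h1
  · exact hWu W' h1 h2 fun σ _ z => h3 (σ.restrictScalars k) (hDec _) z

end

/-- the theorem over the field `k` -/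
theorem rotE {ℓ j : ℕ} [Fact ℓ.Prime] {A k κ Ω : Type} [CommRing A] [IsDomain A]
    [IsDiscreteValuationRing A] [Finite (IsLocalRing.ResidueField A)] [Field k] [CharZero k]
    [Algebra A k] [IsFractionRing A k] [Field κ] [Algebra k κ] [Algebra A κ]
    [IsScalarTower A k κ] [IsAlgClosure k κ] [Field Ω] [IsAlgClosed Ω] [Algebra κ Ω]
    [DecidableEq κ]
    (V : ValuationSubring κ) (hℓ : IsUnit (ℓ : A)) (hVa : ∀ a : A, algebraMap A κ a ∈ V)
    (hVm : ∀ a ∈ IsLocalRing.maximalIdeal A, algebraMap A κ a ∈ V.nonunits)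
    (hDec : ∀ σ : κ ≃ₐ[k] κ, Dec V σ) (hj : 1 ≤ j) {C₀ : Finset κ} (h0 : (0 : κ) ∉ C₀)
    (hrot : ∀ ζ : κ, ζ ^ (ℓ ^ j) = 1 → ∀ θ ∈ C₀, ζ * θ ∈ C₀)
    (hσ : ∀ σ : κ ≃ₐ[k] κ, ∀ θ ∈ C₀, σ θ ∈ C₀) (hdiv : ∀ θ ∈ C₀, ∀ θ' ∈ C₀, θ / θ' ∈ V)
    (hdiff : ∀ θ ∈ C₀, ∀ θ' ∈ C₀, θ ≠ θ' → IsU V ((θ - θ') / θ')) {ϖ : A} (hϖ : Irreducible ϖ)
    {α : ℤ} {N : ℕ} (hα : ¬ ((ℓ ^ j : ℕ) : ℤ) ∣ α)
    (hval : ∀ θ ∈ C₀, IsU V (θ ^ (ℓ ^ j * N) / algebraMap A κ ϖ ^ α))
    {θ₀ : κ} (hθ₀ : θ₀ ∈ C₀) {C : Finset κ} (hC : ∀ θ, θ ∈ C ↔ ∃ e ∈ C₀, θ = θ₀⁻¹ * e) {X0 : Ω}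
    (htr : Transcendental κ X0) (hal : Algebra.IsAlgebraic (IntermediateField.adjoin κ {X0}) Ω)
    {M : IntermediateField κ Ω} {s : (κ ≃ₐ[k] κ) →* RingAut M} (hs : SL k κ M s) (hXM : X0 ∈ M)
    (hsX : ∀ σ, s σ ⟨X0, hXM⟩ = ⟨X0, hXM⟩)
    (hsf : ∀ σ : κ ≃ₐ[k] κ, σ (θ₀ ^ (ℓ ^ j)) = θ₀ ^ (ℓ ^ j) → ∀ z : M,
      (z : Ω) = ∏ θ ∈ C, (algebraMap κ Ω θ₀⁻¹ * X0 - algebraMap κ Ω θ) → s σ z = z)
    (hcase : (ℓ ∣ C.card ∧ 3 ≤ C.card ∧ ∃ Y : Ω,
        Y ^ ℓ = ∏ θ ∈ C, (algebraMap κ Ω θ₀⁻¹ * X0 - algebraMap κ Ω θ) ∧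
        ∀ z, z ∈ M ↔ z ∈ maxPro ℓ κ (KY κ (algebraMap κ Ω θ₀⁻¹ * X0) Y) Ω) ∨
      ∃ T : κ → Ω, Fld ℓ (algebraMap κ Ω θ₀⁻¹ * X0) (insert 0 C) T M) :
    OneE V (⟨X0, hXM⟩ : M) θ₀⁻¹ C s := by
  have hℓp : ℓ.Prime := Fact.out
  have hm : 0 < ℓ ^ j := pow_pos hℓp.pos j
  have hkb : IsAlgClosed κ := IsAlgClosure.isAlgClosed k
  have hch : CharZero κ := charZero_of_injective_algebraMap (algebraMap k κ).injective
  have halgk : Algebra.IsAlgebraic k κ := IsAlgClosure.isAlgebraic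
  have hC00 : ∀ θ ∈ C₀, θ ≠ 0 := fun θ hθ h => h0 (h ▸ hθ)
  have hθ₀0 := hC00 θ₀ hθ₀
  have hρ0 : θ₀⁻¹ ≠ 0 := inv_ne_zero hθ₀0
  have hrat : ∀ θ ∈ C₀, ∀ θ' ∈ C₀, IsU V (θ / θ') := fun θ hθ θ' hθ' =>
    ⟨div_ne_zero (hC00 θ hθ) (hC00 θ' hθ'), hdiv θ hθ θ' hθ', by
      rw [inv_div]; exact hdiv θ' hθ' θ hθ⟩
  -- the set `C`
  have hGC : Good V C := by
    constructor
    · intro θ hθ
      obtain ⟨e, he, rfl⟩ := (hC θ).1 hθ
      rw [inv_mul_eq_div]
      exact hdiv e he θ₀ hθ₀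
    · intro θ hθ θ' hθ' hne
      obtain ⟨e, he, rfl⟩ := (hC θ).1 hθ
      obtain ⟨e', he', rfl⟩ := (hC θ').1 hθ'
      have h1 : e ≠ e' := fun h => hne (by rw [h])
      have h2 : θ₀⁻¹ * e - θ₀⁻¹ * e' = (e - e') / e' * (e' / θ₀) := by
        have h3 := hC00 e' he'
        field_simp
      rw [h2]
      exact (hdiff e he e' he' h1).mul (hrat e' he' θ₀ hθ₀)
  have hC0 : (0 : κ) ∉ C := by
    intro h
    obtain ⟨e, he, h1⟩ := (hC 0).1 h
    exact mul_ne_zero hρ0 (hC00 e he) h1.symm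
  have hrotC : ∀ ζ : κ, ζ ^ (ℓ ^ j) = 1 → ∀ θ ∈ C, ζ * θ ∈ C := by
    intro ζ hζ θ hθ
    obtain ⟨e, he, rfl⟩ := (hC θ).1 hθ
    exact (hC _).2 ⟨ζ * e, hrot ζ hζ e he, by ring⟩
  -- the field `E`
  obtain ⟨S, hS⟩ : ∃ S : Finset κ, S = C₀.image fun θ => θ ^ (ℓ ^ j) := ⟨_, rfl⟩
  obtain ⟨E, hE⟩ : ∃ E : IntermediateField k κ,
      E = IntermediateField.adjoin k (S : Set κ) := ⟨_, rfl⟩
  have hSE : ∀ θ ∈ C₀, θ ^ (ℓ ^ j) ∈ E := fun θ hθ => by
    rw [hE]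
    refine IntermediateField.subset_adjoin _ _ ?_
    rw [Finset.mem_coe, hS]
    exact Finset.mem_image_of_mem _ hθ
  haveI hEfin : FiniteDimensional k E := by
    rw [hE]
    haveI : Finite (S : Set κ) := inferInstance
    exact IntermediateField.finiteDimensional_adjoin fun e _ => Algebra.IsIntegral.isIntegral e
  have hN : Normal k κ := IsAlgClosure.normal k κ
  have hEnor : Normal k E := by
    rw [IntermediateField.normal_iff_forall_map_le']
    intro σ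
    rw [hE, IntermediateField.adjoin_map]
    refine IntermediateField.adjoin_le_iff.2 ?_
    rintro _ ⟨e, he, rfl⟩
    refine IntermediateField.subset_adjoin _ _ ?_
    rw [Finset.mem_coe, hS] at he ⊢
    obtain ⟨θ, hθ, rfl⟩ := Finset.mem_image.1 he
    refine Finset.mem_image.2 ⟨σ θ, hσ σ θ hθ, ?_⟩
    change σ θ ^ (ℓ ^ j) = σ (θ ^ (ℓ ^ j))
    rw [map_pow]
  have hEfix : ∀ σ : κ ≃ₐ[k] κ, (∀ θ ∈ C₀, σ (θ ^ (ℓ ^ j)) = θ ^ (ℓ ^ j)) → ∀ c ∈ E, σ c = c := by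
    intro σ h1 c hc
    have h2 : E ≤ Pool.Agent.Y529.PS.IN.fixF σ := by
      rw [hE]
      refine IntermediateField.adjoin_le_iff.2 fun e he => ?_
      rw [Finset.mem_coe, hS] at he
      obtain ⟨θ, hθ, rfl⟩ := Finset.mem_image.1 he
      exact h1 θ hθ
    exact h2 hc
  -- the theorem over `E`
  refine oneE_desc hDec hs E hEnor hsX ?_
  obtain ⟨O, i1, i2, i3, i4, i5, i6, i7, i8, hℓO, hVaO, hVmO⟩ := exE hℓ hVa hVm E
  have halgE : Algebra.IsAlgebraic E κ := Algebra.IsAlgebraic.tower_top (K := k) E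
  haveI hcl : IsAlgClosure E κ := ⟨hkb, halgE⟩
  haveI : CharZero E := charZero_of_injective_algebraMap (algebraMap k E).injective
  obtain ⟨ϖE, hϖE⟩ := IsDiscreteValuationRing.exists_irreducible O
  obtain ⟨b, hb⟩ : ∃ b : E, (b : κ) = θ₀⁻¹ ^ (ℓ ^ j) := by
    refine ⟨⟨θ₀⁻¹ ^ (ℓ ^ j), ?_⟩, rfl⟩
    rw [inv_pow]
    exact inv_mem (hSE θ₀ hθ₀)
  have hb0 : b ≠ 0 := by
    rintro rfl
    exact pow_ne_zero _ hρ0 hb.symm
  obtain ⟨t, β, ht, hbt⟩ := exists_unit_zpow (A := O) hϖE hb0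
  have hρβ : θ₀⁻¹ ^ (ℓ ^ j) = algebraMap O κ t * algebraMap O κ ϖE ^ β := by
    have h1 : algebraMap E κ (algebraMap O E t * algebraMap O E ϖE ^ β) =
        algebraMap O κ t * algebraMap O κ ϖE ^ β := by
      rw [map_mul, map_zpow₀, ← IsScalarTower.algebraMap_apply, ← IsScalarTower.algebraMap_apply]
    rw [← hb, hbt]
    exact h1
  have hβ : ¬ ((ℓ ^ j : ℕ) : ℤ) ∣ β := by
    rintro ⟨c, rfl⟩
    have hϖκ : algebraMap O κ ϖE ≠ 0 := by
      have hinj : Function.Injective (algebraMap O κ) := by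
        rw [IsScalarTower.algebraMap_eq O E κ]
        exact (algebraMap E κ).injective.comp (IsFractionRing.injective O E)
      rw [Ne, map_eq_zero_iff _ hinj]
      exact hϖE.ne_zero
    refine ram_no (E := E) hℓ hVa hVm hj h0 hrot hσ hdiv hdiff hϖ hα hval hEfix (θ₀ := θ₀)
      (w := algebraMap O κ ϖE ^ c) hθ₀ ?_ (isU_of_pow hm ?_)
    · have h1 : algebraMap O κ ϖE ^ c = algebraMap E κ (algebraMap O E ϖE ^ c) := by
        rw [map_zpow₀, ← IsScalarTower.algebraMap_apply]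
      rw [h1]
      exact (algebraMap O E ϖE ^ c).2
    · have h1 : (θ₀⁻¹ / algebraMap O κ ϖE ^ c) ^ (ℓ ^ j) = algebraMap O κ t := by
        rw [div_pow, hρβ, ← zpow_natCast (algebraMap O κ ϖE ^ c), ← zpow_mul, mul_comm c,
          mul_div_assoc, div_self (zpow_ne_zero _ hϖκ), mul_one]
      rw [h1]
      exact isU_of_unit hVaO ht
  have hSL' := sl_res hs E
  have hsX' : ∀ σ, (s.comp (resH E)) σ ⟨X0, hXM⟩ = ⟨X0, hXM⟩ := fun σ => hsX _
  have hsf' : ∀ σ : κ ≃ₐ[E] κ, ∀ z : M,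
      (z : Ω) = ∏ θ ∈ C, (algebraMap κ Ω θ₀⁻¹ * X0 - algebraMap κ Ω θ) →
      (s.comp (resH E)) σ z = z := fun σ z hz =>
    hsf (σ.restrictScalars k) (σ.commutes ⟨θ₀ ^ (ℓ ^ j), hSE θ₀ hθ₀⟩) z hz
  rcases hcase with ⟨hCl, hC3, Y, hY, hM⟩ | ⟨T, hT⟩
  · exact rotA (A := O) (k := E) V hj hℓO hVaO hVmO htr hal hCl hC3 hGC hC0 hrotC hρ0 hY hM hSL'
      hXM hsX' hsf' hϖE ht hβ hρβ
  · exact rotB (A := O) (k := E) V hℓO hVaO hVmO (Finset.mem_insert_self 0 C)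
      (Finset.erase_insert hC0) hρ0 hT (good_zero hj hGC hC0 hrotC) hrotC hSL' hXM hsX' hsf' hϖE ht
      hβ hρβ

end Pool.Agent.H93S
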