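import Pool.Agent.Y948.PS.Cov6

/-!
# Project SC (MP_c385f6_ag): the pro-`ℓ` section conjecture for elementary abelian covers of the line

Goal (helper93).  Let `k` be a complete discretely valued field of characteristic zero with finite
residue field, `A` its valuation ring, `ℓ` a prime invertible in `A`.  Let `C → ℙ¹` be ANY cover
`d_j y_j^ℓ = ∏ f_i(x)^(w_ji)` (for instance all cyclic covers of degree `ℓ`, all Fermat curves
`a X^ℓ + b Y^ℓ = c Z^ℓ`) whose branch points have good reduction and such that some `v(d_j)` is not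
divisible by `ℓ`.  Then every section of the geometrically pro-`ℓ` fundamental group of `C` (and of
its étale covers) comes from exactly one point above a branch point, and this point is rational.

Idea: over `κ = k̄` the covering field `M` (maximal unramified pro-`ℓ` extension) does not depend on
the exponents, `M = M(κ(T_b)(∏_{e ≠ b} T_e))` with `T_b^ℓ = x' - b`, where `x'` is a coordinate with a
branch point at infinity; for the latter field the local theorem for twists by rotations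
(`Pool.Agent.R925.L.locR`) is available.

`IsU W z`, `Unr`, `maxPro`, `Lev`, `Ine`, `Dec`, `Good` are from `Pool/Agent/Y157/PS`
(`Defs.lean`, `Stm.lean`, `Stm2.lean`), `Unf`, `Apx` from `Pool/Agent/Y948/PS/Cov2.lean`.

Pieces: file `Pool/Agent/H93S/<Name>.lean`, namespace `Pool.Agent.H93S`, theorem names lower case,
`theorem max (h : S_UNI) : S_MAX` etc. as said in the docstrings.
-/

set_option autoImplicit false
set_option linter.all false

open Polynomial FF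

namespace Pool.Agent.H93S

open Pool.Agent.Y157.PS Pool.Agent.Y948.PS

/-- `κ(t)(Y)`, as an extension of `κ(t)` -/
abbrev KY (κ : Type) {Ω : Type} [Field κ] [Field Ω] [Algebra κ Ω] (t Y : Ω) :
    IntermediateField (IntermediateField.adjoin κ {t}) Ω :=
  IntermediateField.adjoin (IntermediateField.adjoin κ {t}) {Y}

/-- `x` is transcendental over `κ`, `Ω` is algebraic over `κ(x)`, and `T b ^ ℓ = x - b` for `b ∈ B` -/
structure Rad (ℓ : ℕ) {κ Ω : Type} [Field κ] [Field Ω] [Algebra κ Ω] (x : Ω) (B : Finset κ)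
    (T : κ → Ω) : Prop where
  tr : Transcendental κ x
  alg : Algebra.IsAlgebraic (IntermediateField.adjoin κ {x}) Ω
  two : 2 ≤ B.card
  root : ∀ b ∈ B, T b ^ ℓ = x - algebraMap κ Ω b

/-- `L` is an extension of `κ(x)` contained in `κ(T b : b ∈ B)`, whose ramification indices at all
places above `x = b ∈ B` and above `x = ∞` are (divisible by, hence equal to) `ℓ` -/
structure Ab (ℓ : ℕ) {κ Ω : Type} [Field κ] [Field Ω] [Algebra κ Ω] (x : Ω) (B : Finset κ)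
    (T : κ → Ω) (L : IntermediateField κ Ω) : Prop where
  mem : x ∈ L
  le : L ≤ IntermediateField.adjoin κ (T '' (B : Set κ))
  fin : ∀ W : ValuationSubring Ω, (∀ c : κ, algebraMap κ Ω c ∈ W) → ∀ b ∈ B,
    x - algebraMap κ Ω b ∈ W.nonunits → ∃ z ∈ L, IsU W (z ^ ℓ / (x - algebraMap κ Ω b))
  inf : ∀ W : ValuationSubring Ω, (∀ c : κ, algebraMap κ Ω c ∈ W) → x⁻¹ ∈ W.nonunits →
    ∃ z ∈ L, IsU W (z ^ ℓ * x)

/-- **UNI** (~150 lines): uniformisers of `K = κ(T_b)(Y)`, `Y = ∏_{e ≠ b} T_e`.  Apply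
`Pool.Agent.Y809.PS.k0 : S_K0` (see `S_K0` in `Pool/Agent/Y157/PS/Stm2.lean`; and its use in
`Pool/Agent/Y948/PS/COV.lean`, have `hUU`, which does almost the same) with
`R := IntermediateField.adjoin κ {T b}`, `x := T b` (`RatF` by `Pool.Agent.Y157.PS.ratF_adj`
or by hand), and the set `C` of `S_CO` below.  The three cases: `π = Y` and `T_b - θ` has the value of
`Y^ℓ`, `θ^ℓ = e - b`: then `x - e = ∏_ζ (T_b - ζ θ)` has the value of `π^ℓ`; `π = T_b - θ`,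
`θ ∉ C`, `θ ≠ 0`: then `a = b + θ^ℓ` is not in `B` and `x - a` has the value of `π`; `θ = 0`:
`x - b = T_b^ℓ`; `π = T_b⁻¹`: `x⁻¹` has the value of `(x - b)⁻¹ = π^ℓ`.
`theorem uni (hK : S_K0) (hC : S_CO) : S_UNI` -/
def S_UNI : Prop :=
  ∀ (ℓ : ℕ) [Fact ℓ.Prime] (κ Ω : Type) [Field κ] [IsAlgClosed κ] [CharZero κ] [Field Ω]
    [IsAlgClosed Ω] [Algebra κ Ω] (x : Ω) (B : Finset κ) (T : κ → Ω), Rad ℓ x B T →
    ∀ b ∈ B, ∀ Y : Ω, Y * T b = ∏ e ∈ B, T e →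
    ∀ W : ValuationSubring Ω, (∀ c : κ, algebraMap κ Ω c ∈ W) → W ≠ ⊤ →
    ∃ π : Ω, Unf (KY κ (T b) Y) W π ∧
      ((∃ e ∈ B, W.valuation (x - algebraMap κ Ω e) = W.valuation π ^ ℓ) ∨
        (∃ a : κ, a ∉ B ∧ W.valuation (x - algebraMap κ Ω a) = W.valuation π) ∨
        W.valuation x⁻¹ = W.valuation π ^ ℓ)

/-- **MAX** (~300 lines, the main piece): the maximal unramified pro-`ℓ` extension of `L` does not
depend on `L`.  Put `K' = KY κ (T b) Y`, `R' = κ(T b)`, `R = κ(x)`.  By `S_UNI` and `Ab` for every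
`W ≠ ⊤` over `κ` there are `π ∈ K'`, `Unf K' W π`, and `π' ∈ L` with the same value.
`Mem ℓ κ K' z` (`Pool/Agent/Y948/PS/Cov4.lean`) describes `maxPro ℓ κ K' Ω`: `maxPro_le`, `le_maxPro` in
`Cov5.lean`, `Cov6.lean`.
(1) All elements of `κ(T e : e ∈ B)`, in particular those of `L`, satisfy `Apx K' W`: for `T e` use
`Apx.root` (`T e ^ ℓ = x - e ∈ κ(T b)`, and its value is a power of `π^ℓ` by the three cases of `S_UNI`).
So the nonzero elements of `L` have values in the group generated by the value of `π`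
(`Apx.val'`), and so `Unf L W π'`.
(2) `z ∈ maxPro ℓ κ L Ω` implies `z ∈ maxPro ℓ κ K' Ω`, by `le_maxPro`: `z` is in the compositum of
finitely many `N` with `Lev ℓ N`, `Unr κ L Ω N`.  `Pro ℓ R' z`: the elements of `Gal(Ω/κ(x))` act on
`κ(T e : e ∈ B)` with `σ^ℓ = 1` and map `L` to itself; so `σ^ℓ ∈ Gal(Ω/L)` (see the proof of
`maxPro_le`).  `Apx K' W z`: `z` is `Apx L W` by `Apx.of_unr`, and the elements of `L` are
`Apx K' W`, and the value groups agree (transitivity).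
(3) `z ∈ maxPro ℓ κ K' Ω` implies `z ∈ maxPro ℓ κ L Ω`, as in `le_maxPro`: the set `S` of the
elements with `Pro ℓ R z` and `Apx K' W z` for all `W`  is a field, stable under `Gal(Ω/R)` (as
`κ(T e : e ∈ B)` is stable and its elements are `Apx K' W`; `Apx.conj` needs a stable field: use that
`Apx K' W z` is the same as `Apx K₁ W z` for `K₁ = κ(T e : e ∈ B)`), contains `L` and
`maxPro ℓ κ K' Ω` (`maxPro_le`; `Pro ℓ R' z` implies `Pro ℓ R z` since `σ^ℓ` fixes `T b` for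
`σ ∈ Gal(Ω/R)`); `exists_lev` and `Apx.val` give `N` with `Lev`, `Unr`, `z ∈ N`.
(It may be convenient to prove `maxPro ℓ κ L Ω = {z | Pro ℓ R z ∧ ∀ W, Apx K₁ W z}` for every `L`
with `Ab`, and the same for `K'`.)
`theorem max (hU : S_UNI) : S_MAX` -/
def S_MAX : Prop :=
  ∀ (ℓ : ℕ) [Fact ℓ.Prime] (κ Ω : Type) [Field κ] [IsAlgClosed κ] [CharZero κ] [Field Ω]
    [IsAlgClosed Ω] [Algebra κ Ω] (x : Ω) (B : Finset κ) (T : κ → Ω), Rad ℓ x B T →
    ∀ L : IntermediateField κ Ω, Ab ℓ x B T L →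
    ∀ b ∈ B, ∀ Y : Ω, Y * T b = ∏ e ∈ B, T e →
    ∀ z : Ω, z ∈ maxPro ℓ κ L Ω ↔ z ∈ maxPro ℓ κ (KY κ (T b) Y) Ω

/-- **CO** (~80 lines): the branch points `θ`, `θ^ℓ = e - b`, in the coordinate `T_b`.
`∏_{e ≠ b} (T_b^ℓ - (e - b)) = ∏_θ (T_b - θ)` by factoring the polynomial
`∏_{e ≠ b} (X^ℓ - (e - b))`, which is separable, in `κ[X]`. `theorem co : S_CO` -/
def S_CO : Prop :=
  ∀ (ℓ : ℕ) [Fact ℓ.Prime] (κ : Type) [Field κ] [IsAlgClosed κ] [CharZero κ] (B : Finset κ),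
    ∀ b ∈ B, ∃ C : Finset κ, C.card = ℓ * (B.card - 1) ∧ (0 : κ) ∉ C ∧
      (∀ θ, θ ∈ C ↔ ∃ e ∈ B, e ≠ b ∧ θ ^ ℓ = e - b) ∧
      ∀ (Ω : Type) [Field Ω] [Algebra κ Ω] (T : κ → Ω) (x Y : Ω),
        (∀ e ∈ B, T e ^ ℓ = x - algebraMap κ Ω e) → T b ≠ 0 → Y * T b = ∏ e ∈ B, T e →
        Y ^ ℓ = ∏ θ ∈ C, (T b - algebraMap κ Ω θ)

/-- **H90** (~80 lines): Hilbert 90 for continuous cocycles with values in `κˣ`, `κ` an algebraic
closure of `k`.  Choose a finite Galois `E'` containing `E` (normal closure).  Then `χ` is constant on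
the cosets of the normal subgroup `Gal(κ/E')` and has values in `E'` (`τ (χ σ) = χ (τ σ) = χ σ` for
`τ ∈ Gal(κ/E')`, as `τ σ = σ τ'`), so it is a cocycle of `Gal(E'/k)`; apply
`groupCohomology.isMulCoboundary₁_of_isMulCocycle₁_of_aut_to_units`.  Models:
`Pool/Agent/Y680/W/T_H90.lean`, `Pool/Agent/Y160/SE/Kum.lean`. `theorem h90 : S_H90` -/
def S_H90 : Prop :=
  ∀ (k κ : Type) [Field k] [Field κ] [Algebra k κ] [CharZero k] [IsAlgClosure k κ]
    (χ : (κ ≃ₐ[k] κ) → κ), (∀ σ, χ σ ≠ 0) → (∀ σ τ, χ (σ * τ) = χ σ * σ (χ τ)) →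
    (∃ E : IntermediateField k κ, FiniteDimensional k E ∧ ∀ σ ∈ E.fixingSubgroup, χ σ = 1) →
    ∃ ρ : κ, ρ ≠ 0 ∧ ∀ σ, χ σ = σ ρ / ρ

/-- **MOB** (~250 lines): the coordinate with a branch point at infinity.  `y_j` with
`c_j y_j^ℓ = ∏ (x - e)^(w_j e)`.  Case 1, some `∑_e w_j e` is not divisible by `ℓ`: `x' = x`, `B = P`,
`T_b` any `ℓ`-th root of `x - b`, `δ^ℓ = c_j`; `δ y_j` is `∏ T_b^(w_j b)` times a root of unity (choose
`δ` such that it is equal).  Case 2, otherwise: choose `e0 ∈ P`, `x' = (x - e0)⁻¹`, and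
`x - e = - (x' - b)/(x' b)` for `b = (e - e0)⁻¹`, so that
`c_j u_j y_j^ℓ = x'^(-∑ w) ∏_{b} (x' - b)^(w_j e)`, `u_j = ∏_{e ≠ e0} (e0 - e)^(-w_j e)`,
`δ^ℓ = c_j u_j`, `δ y_j = x'^(-(∑ w)/ℓ) ∏ T_b^(w_j e)`.
`Ab.fin` at `b`: choose `j` with `w = w_j e` prime to `ℓ` and integers with `α w + β ℓ = 1`; then
`z = y_j^α (x' - b)^β` (all other factors are units at `W`; `x'` is a unit at `W` as `b ≠ 0`);
`Ab.inf` similarly (case 1: `α ∑ w + β ℓ = -1`, `z = y_j^α x^β`; case 2: `x'⁻¹ = x - e0`, choose `j` for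
`e0`).  `theorem mob : S_MOB` -/
def S_MOB : Prop :=
  ∀ (ℓ : ℕ) [Fact ℓ.Prime] (κ Ω : Type) [Field κ] [IsAlgClosed κ] [CharZero κ] [Field Ω]
    [IsAlgClosed Ω] [Algebra κ Ω] (x : Ω), Transcendental κ x →
    Algebra.IsAlgebraic (IntermediateField.adjoin κ {x}) Ω →
    ∀ (P : Finset κ) (J : Type) (w : J → κ → ℕ) (c : J → κ) (y : J → Ω), (∀ j, c j ≠ 0) →
    (∀ j, algebraMap κ Ω (c j) * y j ^ ℓ = ∏ e ∈ P, (x - algebraMap κ Ω e) ^ w j e) →
    (∀ e ∈ P, ∃ j, ¬ ℓ ∣ w j e) → 2 ≤ P.card →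
    ((∀ j, ℓ ∣ ∑ e ∈ P, w j e) → 3 ≤ P.card) →
    ∃ (x' : Ω) (B : Finset κ) (T : κ → Ω),
      (((∃ j, ¬ ℓ ∣ ∑ e ∈ P, w j e) ∧ x' = x ∧ B = P) ∨
        ((∀ j, ℓ ∣ ∑ e ∈ P, w j e) ∧ B.card + 1 = P.card ∧
          ∃ e0 ∈ P, x' = (x - algebraMap κ Ω e0)⁻¹ ∧
          ∀ b, b ∈ B ↔ ∃ e ∈ P, e ≠ e0 ∧ b = (e - e0)⁻¹)) ∧
      Rad ℓ x' B T ∧ Ab ℓ x' B T (IntermediateField.adjoin κ (insert x (Set.range y))) ∧
      ∀ j, ∃ δ u : κ, δ ^ ℓ = c j * u ∧
        (∀ G : Set κ, (1 : κ) ∈ G → (∀ a ∈ G, ∀ a' ∈ G, a * a' ∈ G) → (∀ a ∈ G, a⁻¹ ∈ G) →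
          (∀ e ∈ P, ∀ e' ∈ P, e ≠ e' → e - e' ∈ G) → u ∈ G) ∧
        ∀ S : Subfield Ω, x' ∈ S → (∀ b ∈ B, T b ∈ S) → algebraMap κ Ω δ * y j ∈ S

/-! ### Sections -/

/-- `M` is the maximal pro-`ℓ` extension of all the fields `κ(T_b)(∏_{e ≠ b} T_e)`, `b ∈ B` -/
structure Fld (ℓ : ℕ) {κ Ω : Type} [Field κ] [Field Ω] [Algebra κ Ω] (x : Ω) (B : Finset κ)
    (T : κ → Ω) (M : IntermediateField κ Ω) : Prop where
  rad : Rad ℓ x B T
  three : 3 ≤ ℓ * (B.card - 1)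
  mem : ∀ b ∈ B, ∀ Y : Ω, Y * T b = ∏ e ∈ B, T e →
    ∀ z : Ω, z ∈ M ↔ z ∈ maxPro ℓ κ (KY κ (T b) Y) Ω

/-- a continuous semilinear action of `Gal(κ/k)` on `M` -/
structure SL (k κ M : Type) [Field k] [Field κ] [Field M] [Algebra k κ] [Algebra κ M]
    (s : (κ ≃ₐ[k] κ) →* RingAut M) : Prop where
  const : ∀ σ c, s σ (algebraMap κ M c) = algebraMap κ M (σ c)
  cont : ∀ z : M, ∃ E : IntermediateField k κ, FiniteDimensional k E ∧
    ∀ σ ∈ E.fixingSubgroup, s σ z = z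

/-- the valuation ring `W` of `M` lies above a point `x = b ∈ B` or above `x = ∞` -/
def Abv {κ Ω : Type} [Field κ] [Field Ω] [Algebra κ Ω] (x : Ω) (B : Finset κ)
    {M : IntermediateField κ Ω} (W : ValuationSubring M) : Prop :=
  ∃ z : M, z ∈ W.nonunits ∧ ((∃ b ∈ B, (z : Ω) = x - algebraMap κ Ω b) ∨ (z : Ω) = x⁻¹)

/-- exactly one valuation ring above a branch point is fixed by the `s σ` with `P σ` -/
def One {k κ Ω : Type} [Field k] [Field κ] [Field Ω] [Algebra k κ] [Algebra κ Ω]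
    (P : (κ ≃ₐ[k] κ) → Prop) (x : Ω) (B : Finset κ) {M : IntermediateField κ Ω}
    (s : (κ ≃ₐ[k] κ) →* RingAut M) : Prop :=
  ∃ W : ValuationSubring M,
    ((∀ c : κ, algebraMap κ M c ∈ W) ∧ (∀ z ∈ W, ∃ c : κ, z - algebraMap κ M c ∈ W.nonunits) ∧
      Abv x B W ∧ ∀ σ, P σ → ∀ z, s σ z ∈ W ↔ z ∈ W) ∧
    ∀ W' : ValuationSubring M, (∀ c : κ, algebraMap κ M c ∈ W') → Abv x B W' →
      (∀ σ, P σ → ∀ z, s σ z ∈ W' ↔ z ∈ W') → W' = W

/-- **LOCB** (owner helper93): the local theorem when the branch points are rational. -/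
def S_LOCB : Prop :=
  ∀ (ℓ : ℕ) [Fact ℓ.Prime] (A k κ Ω : Type) [CommRing A] [IsDomain A]
    [IsDiscreteValuationRing A] [Finite (IsLocalRing.ResidueField A)] [Field k] [CharZero k]
    [Algebra A k] [IsFractionRing A k] [Field κ] [Algebra k κ] [Algebra A κ]
    [IsScalarTower A k κ] [IsAlgClosure k κ] [Field Ω] [IsAlgClosed Ω] [Algebra κ Ω]
    (V : ValuationSubring κ), IsUnit (ℓ : A) → (∀ a : A, algebraMap A κ a ∈ V) →
    (∀ a ∈ IsLocalRing.maximalIdeal A, algebraMap A κ a ∈ V.nonunits) →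
    ∀ (x : Ω) (B : Finset κ) (T : κ → Ω) (M : IntermediateField κ Ω), Fld ℓ x B T M →
    Good V B → (∀ b ∈ B, ∃ c : k, algebraMap k κ c = b) →
    ∀ s : (κ ≃ₐ[k] κ) →* RingAut M, SL k κ M s → (∀ σ (z : M), (z : Ω) = x → s σ z = z) →
    (∃ b ∈ B, ∃ σ : κ ≃ₐ[k] κ, Ine V σ ∧ ∃ z : M, (z : Ω) = T b ∧ s σ z ≠ z) →
    One (Dec V) x B s

/-- **GLOB** (~200 lines, from `S_LOCB`): descent from a finite Galois extension `E` of `k`.  Apply
`S_LOCB` to `A' = V.comap (algebraMap E κ)` (a discrete valuation ring with finite residue field by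
`Pool.Agent.R925.L.dvr_ext`, `Pool/Agent/R925/L/Dvr.lean`), `k' = E`, and the restriction of `s` to
`Gal(κ/E)` (`σ.restrictScalars k`, `IntermediateField.fixingSubgroupEquiv`).  Inertia elements of `k`
fix `E`, so they come from `κ ≃ₐ[E] κ`.  The valuation ring `W` obtained is unique; for
`g ∈ Gal(κ/k)` the ring `W.comap (s g)` is again above a branch point, contains the constants, and is
fixed by the `s σ`, `σ ∈ Gal(κ/E)`, as this subgroup is normal; so it is `W`.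
`theorem glob (h : S_LOCB) : S_GLOB` -/
def S_GLOB : Prop :=
  ∀ (ℓ : ℕ) [Fact ℓ.Prime] (A k κ Ω : Type) [CommRing A] [IsDomain A]
    [IsDiscreteValuationRing A] [Finite (IsLocalRing.ResidueField A)] [Field k] [CharZero k]
    [Algebra A k] [IsFractionRing A k] [Field κ] [Algebra k κ] [Algebra A κ]
    [IsScalarTower A k κ] [IsAlgClosure k κ] [Field Ω] [IsAlgClosed Ω] [Algebra κ Ω]
    (V : ValuationSubring κ), IsUnit (ℓ : A) → (∀ a : A, algebraMap A κ a ∈ V) →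
    (∀ a ∈ IsLocalRing.maximalIdeal A, algebraMap A κ a ∈ V.nonunits) →
    (∀ σ : κ ≃ₐ[k] κ, Dec V σ) →
    ∀ (x : Ω) (B : Finset κ) (T : κ → Ω) (M : IntermediateField κ Ω), Fld ℓ x B T M →
    Good V B → ∀ E : IntermediateField k κ, FiniteDimensional k E → Normal k E →
    (∀ b ∈ B, b ∈ E) → (∀ σ : κ ≃ₐ[k] κ, Ine V σ → ∀ c ∈ E, σ c = c) →
    ∀ s : (κ ≃ₐ[k] κ) →* RingAut M, SL k κ M s →
    (∀ σ ∈ E.fixingSubgroup, ∀ z : M, (z : Ω) = x → s σ z = z) →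
    (∀ (σ : κ ≃ₐ[k] κ) (W : ValuationSubring M), (∀ c : κ, algebraMap κ M c ∈ W) → Abv x B W →
      Abv x B (W.comap ((s σ : M ≃+* M) : M →+* M))) →
    (∃ b ∈ B, ∃ σ : κ ≃ₐ[k] κ, Ine V σ ∧ ∃ z : M, (z : Ω) = T b ∧ s σ z ≠ z) →
    One (fun _ => True) x B s

/-- **TAM** (owner helper93): an inertia element which moves a radical. -/
def S_TAM : Prop :=
  ∀ (ℓ : ℕ) [Fact ℓ.Prime] (A k κ : Type) [CommRing A] [IsDomain A]
    [IsDiscreteValuationRing A] [Finite (IsLocalRing.ResidueField A)] [Field k] [CharZero k]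
    [Algebra A k] [IsFractionRing A k] [Field κ] [Algebra k κ] [Algebra A κ]
    [IsScalarTower A k κ] [IsAlgClosure k κ] (V : ValuationSubring κ), IsUnit (ℓ : A) →
    (∀ a : A, algebraMap A κ a ∈ V) →
    (∀ a ∈ IsLocalRing.maximalIdeal A, algebraMap A κ a ∈ V.nonunits) →
    ∀ (ϖ t : A) (m : ℤ), Irreducible ϖ → IsUnit t → ¬ (ℓ : ℤ) ∣ m → ∀ δ u : κ, IsU V u →
    (∀ σ : κ ≃ₐ[k] κ, Ine V σ → σ u = u) →
    δ ^ ℓ = algebraMap A κ t * algebraMap A κ ϖ ^ m * u →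
    ∃ σ : κ ≃ₐ[k] κ, Ine V σ ∧ σ δ ≠ δ

end Pool.Agent.H93S
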